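import Pool.Agent.Lib.MP_9277c3_lc.helper78.CM.ExpC

/-!
# A convenient semantics for programs with assignments

`RunA A k a s t`: the program `a` transforms the state `s` into the state `t`, all values which are
assigned are less than `A`, and at most `k` procedure calls are nested.
-/

namespace Pool.Agent.Lib.MP_9277c3_lc.CM

section

variable {α R F : Type}

instance : Add (Exp R) := ⟨Exp.add⟩
instance : Sub (Exp R) := ⟨Exp.sub⟩
instance : Mul (Exp R) := ⟨Exp.mul⟩
instance : Div (Exp R) := ⟨Exp.div⟩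
instance : Mod (Exp R) := ⟨Exp.mod⟩
instance (k : ℕ) : OfNat (Exp R) k := ⟨Exp.lit k⟩
instance : Coe R (Exp R) := ⟨Exp.var⟩

section

variable (x : List α) (cc : Cell α → ℕ) (s : R → ℕ)

@[simp] theorem eval_add (a b : Exp R) : (a + b).eval x cc s = a.eval x cc s + b.eval x cc s := rfl
@[simp] theorem eval_sub (a b : Exp R) : (a - b).eval x cc s = a.eval x cc s - b.eval x cc s := rfl
@[simp] theorem eval_mul (a b : Exp R) : (a * b).eval x cc s = a.eval x cc s * b.eval x cc s := rfl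
@[simp] theorem eval_div (a b : Exp R) : (a / b).eval x cc s = a.eval x cc s / b.eval x cc s := rfl
@[simp] theorem eval_mod (a b : Exp R) : (a % b).eval x cc s = a.eval x cc s % b.eval x cc s := rfl
@[simp] theorem eval_var (r : R) : (Exp.var r).eval x cc s = s r := rfl
@[simp] theorem eval_zero : (0 : Exp R).eval x cc s = 0 := rfl
@[simp] theorem eval_one : (1 : Exp R).eval x cc s = 1 := rfl
@[simp] theorem eval_ofNat (k : ℕ) [k.AtLeastTwo] :
    (ofNat(k) : Exp R).eval x cc s = OfNat.ofNat k := rfl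

end

/-- The degree of an expression. -/
def Exp.deg (B : ℕ) : Exp R → ℕ
  | Exp.var _ => 1
  | Exp.lit k => k + 1
  | Exp.add a b => max (a.deg B) (b.deg B) + 1
  | Exp.sub a b => max (a.deg B) (b.deg B)
  | Exp.mul a b => a.deg B + b.deg B
  | Exp.div a b => max (a.deg B) (b.deg B)
  | Exp.mod a b => max (a.deg B) (b.deg B)
  | Exp.tab f k a => max (a.deg B) ((Finset.range k).sup f + 1)
  | Exp.inp a => max (a.deg B) (B + 1)

theorem lt_pow_succ {A : ℕ} (hA : 2 ≤ A) (k : ℕ) : k < A ^ (k + 1) :=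
  (Nat.lt_succ_self k).trans_le ((Nat.lt_two_pow_self).le.trans (Nat.pow_le_pow_left hA _))

/-- If all registers are less than `A`, then an expression of degree `D` can be evaluated with numbers
less than `A ^ D`. -/
theorem Exp.ok_of_deg {x : List α} {cc : Cell α → ℕ} {B A : ℕ} (hB : ∀ c, cc c ≤ B) (hA : 2 ≤ A)
    {s : R → ℕ} (hs : ∀ r, s r < A) (e : Exp R) :
    ∀ W, A ^ e.deg B ≤ W → e.ok x cc W s := by
  have hA0 : 0 < A := by omega
  have key : ∀ e : Exp R, (∀ W, A ^ e.deg B ≤ W → e.ok x cc W s) ∧ e.eval x cc s < A ^ e.deg B := by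
    intro e
    induction e with
    | var r =>
      refine ⟨fun W hW => ?_, ?_⟩
      · exact (hs r).trans_le (by simpa [Exp.deg] using hW)
      · simpa [Exp.deg, Exp.eval] using hs r
    | lit k =>
      exact ⟨fun W hW => (lt_pow_succ hA k).trans_le hW, lt_pow_succ hA k⟩
    | add a b ha hb =>
      have h1 : a.eval x cc s + b.eval x cc s < A ^ (max (a.deg B) (b.deg B) + 1) := by
        have h2 := Nat.pow_le_pow_right hA0 (le_max_left (a.deg B) (b.deg B))
        have h3 := Nat.pow_le_pow_right hA0 (le_max_right (a.deg B) (b.deg B))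
        have h4 := ha.2
        have h5 := hb.2
        rw [pow_succ]
        nlinarith
      refine ⟨fun W hW => ⟨ha.1 _ ?_, hb.1 _ ?_, h1.trans_le hW⟩, h1⟩
      · exact (Nat.pow_le_pow_right hA0 ((le_max_left _ _).trans (Nat.le_succ _))).trans hW
      · exact (Nat.pow_le_pow_right hA0 ((le_max_right _ _).trans (Nat.le_succ _))).trans hW
    | sub a b ha hb =>
      refine ⟨fun W hW => ⟨ha.1 _ ?_, hb.1 _ ?_⟩, ?_⟩
      · exact (Nat.pow_le_pow_right hA0 (le_max_left _ _)).trans hW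
      · exact (Nat.pow_le_pow_right hA0 (le_max_right _ _)).trans hW
      · exact (Nat.sub_le _ _).trans_lt (ha.2.trans_le
          (Nat.pow_le_pow_right hA0 (le_max_left _ _)))
    | mul a b ha hb =>
      have h1 : a.eval x cc s * b.eval x cc s < A ^ (a.deg B + b.deg B) := by
        rw [pow_add]
        exact Nat.mul_lt_mul'' ha.2 hb.2
      refine ⟨fun W hW => ⟨ha.1 _ ?_, hb.1 _ ?_, h1.trans_le hW⟩, h1⟩
      · exact (Nat.pow_le_pow_right hA0 (Nat.le_add_right _ _)).trans hW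
      · exact (Nat.pow_le_pow_right hA0 (Nat.le_add_left _ _)).trans hW
    | div a b ha hb =>
      refine ⟨fun W hW => ⟨ha.1 _ ?_, hb.1 _ ?_⟩, ?_⟩
      · exact (Nat.pow_le_pow_right hA0 (le_max_left _ _)).trans hW
      · exact (Nat.pow_le_pow_right hA0 (le_max_right _ _)).trans hW
      · exact (Nat.div_le_self _ _).trans_lt (ha.2.trans_le
          (Nat.pow_le_pow_right hA0 (le_max_left _ _)))
    | mod a b ha hb =>
      refine ⟨fun W hW => ⟨ha.1 _ ?_, hb.1 _ ?_⟩, ?_⟩
      · exact (Nat.pow_le_pow_right hA0 (le_max_left _ _)).trans hW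
      · exact (Nat.pow_le_pow_right hA0 (le_max_right _ _)).trans hW
      · exact (Nat.mod_le _ _).trans_lt (ha.2.trans_le
          (Nat.pow_le_pow_right hA0 (le_max_left _ _)))
    | tab f k a ha =>
      have h1 : ∀ j < k, f j < A ^ ((Finset.range k).sup f + 1) := fun j hj =>
        (Nat.lt_succ_of_le (Finset.le_sup (f := f) (Finset.mem_range.2 hj))).trans_le
          ((Nat.succ_le_of_lt (lt_pow_succ hA _)))
      refine ⟨fun W hW => ⟨ha.1 _ ?_, fun j hj => (h1 j hj).trans_le ?_⟩, ?_⟩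
      · exact (Nat.pow_le_pow_right hA0 (le_max_left _ _)).trans hW
      · exact (Nat.pow_le_pow_right hA0 (le_max_right _ _)).trans hW
      · simp only [Exp.eval]
        split_ifs with h2
        · exact (h1 _ h2).trans_le (Nat.pow_le_pow_right hA0 (le_max_right _ _))
        · exact Nat.pow_pos hA0
    | inp a ha =>
      have h1 : ∀ c, cc c < A ^ (B + 1) := fun c =>
        (Nat.lt_succ_of_le (hB c)).trans_le (Nat.succ_le_of_lt (lt_pow_succ hA _))
      refine ⟨fun W hW => ⟨ha.1 _ ?_, fun c => (h1 c).trans_le ?_⟩, ?_⟩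
      · exact (Nat.pow_le_pow_right hA0 (le_max_left _ _)).trans hW
      · exact (Nat.pow_le_pow_right hA0 (le_max_right _ _)).trans hW
      · exact (h1 _).trans_le (Nat.pow_le_pow_right hA0 (le_max_right _ _))
  exact (key e).1

/-- An assignment. -/
abbrev set (r : R) (e : Exp R) : AStmt R F := Stmt.prim ⟨r, e⟩

/-- Executions. -/
inductive RunA (x : List α) (cc : Cell α → ℕ) (A : ℕ) (body : F → AStmt R F) :
    ℕ → AStmt R F → (R → ℕ) → (R → ℕ) → Prop
  | skip (k : ℕ) (s : R → ℕ) : RunA x cc A body k Stmt.skip s s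
  | asg (k : ℕ) (r : R) (e : Exp R) (s : R → ℕ) (h : e.eval x cc s < A) :
      RunA x cc A body k (set r e) s (upd s r (e.eval x cc s))
  | seq (k : ℕ) (a b : AStmt R F) (s t u : R → ℕ) (h₁ : RunA x cc A body k a s t)
      (h₂ : RunA x cc A body k b t u) : RunA x cc A body k (Stmt.seq a b) s u
  | iteT (k : ℕ) (r : R) (a b : AStmt R F) (s u : R → ℕ) (h : s r ≠ 0)
      (h₁ : RunA x cc A body k a s u) : RunA x cc A body k (Stmt.ite r a b) s u
  | iteF (k : ℕ) (r : R) (a b : AStmt R F) (s u : R → ℕ) (h : s r = 0)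
      (h₁ : RunA x cc A body k b s u) : RunA x cc A body k (Stmt.ite r a b) s u
  | loopF (k : ℕ) (r : R) (a : AStmt R F) (s : R → ℕ) (h : s r = 0) :
      RunA x cc A body k (Stmt.loop r a) s s
  | loopT (k : ℕ) (r : R) (a : AStmt R F) (s u v : R → ℕ) (h : s r ≠ 0)
      (h₁ : RunA x cc A body k a s u) (h₂ : RunA x cc A body k (Stmt.loop r a) u v) :
      RunA x cc A body k (Stmt.loop r a) s v
  | call (k : ℕ) (f : F) (s u : R → ℕ) (h : RunA x cc A body k (body f) s u) :
      RunA x cc A body (k + 1) (Stmt.call f) s u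

/-- The nesting depth of a program. -/
def Stmt.nd {P T F : Type} : Stmt P T F → ℕ
  | Stmt.skip => 0
  | Stmt.prim _ => 0
  | Stmt.seq a b => max a.nd b.nd + 1
  | Stmt.ite _ a b => max a.nd b.nd
  | Stmt.loop _ a => a.nd + 1
  | Stmt.call _ => 0

variable {x : List α} {cc : Cell α → ℕ} {A : ℕ} {body : F → AStmt R F}

theorem RunA.mono {k k' : ℕ} (hk : k ≤ k') {a : AStmt R F} {s t : R → ℕ}
    (h : RunA x cc A body k a s t) : RunA x cc A body k' a s t := by
  induction h generalizing k' with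
  | skip k s => exact RunA.skip _ _
  | asg k r e s h => exact RunA.asg _ _ _ _ h
  | seq k a b s t u _ _ ih₁ ih₂ => exact RunA.seq _ _ _ _ _ _ (ih₁ hk) (ih₂ hk)
  | iteT k r a b s u h _ ih => exact RunA.iteT _ _ _ _ _ _ h (ih hk)
  | iteF k r a b s u h _ ih => exact RunA.iteF _ _ _ _ _ _ h (ih hk)
  | loopF k r a s h => exact RunA.loopF _ _ _ _ h
  | loopT k r a s u v h _ _ ih₁ ih₂ => exact RunA.loopT _ _ _ _ _ _ h (ih₁ hk) (ih₂ hk)
  | call k f s u _ ih =>
    obtain ⟨k', rfl⟩ : ∃ j, k' = j + 1 := ⟨k' - 1, by omega⟩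
    exact RunA.call _ _ _ _ (ih (by omega))

theorem RunA.cast {k : ℕ} {a : AStmt R F} {s t u : R → ℕ} (h : RunA x cc A body k a s t)
    (e : t = u) : RunA x cc A body k a s u := e ▸ h

theorem RunA.congr_left {k : ℕ} {a : AStmt R F} {s t u : R → ℕ} (h : RunA x cc A body k a s t)
    (e : u = s) : RunA x cc A body k a u t := e ▸ h

theorem RunA.toExec {B D c : ℕ} (hB : ∀ c, cc c ≤ B) (hA : 2 ≤ A)
    (hbody : ∀ f, (body f).nd ≤ c ∧ (body f).all fun p => p.exp.deg B ≤ D) {k : ℕ}
    {a : AStmt R F} {s t : R → ℕ} (h : RunA x cc A body k a s t) :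
    a.nd ≤ c → (a.all fun p => p.exp.deg B ≤ D) → (∀ r, s r < A) → ∀ W, A ^ D ≤ W →
    Exec (asem x cc W) body (k * c + a.nd) a s t ∧ ∀ r, t r < A := by
  have hA0 : 0 < A := by omega
  induction h with
  | skip k s => exact fun _ _ hs W _ => ⟨Exec.skip _ _, hs⟩
  | asg k r e s h =>
    intro _ hD hs W hW
    refine ⟨Exec.prim (M := asem x cc W) _ _ _ ?_, fun r' => ?_⟩
    · exact Exp.ok_of_deg hB hA hs e W ((Nat.pow_le_pow_right hA0 hD).trans hW)
    · by_cases h1 : r' = r
      · rw [h1, upd_self]; exact h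
      · rw [upd_ne h1]; exact hs r'
  | seq k a b s t u _ _ ih₁ ih₂ =>
    intro hc hD hs W hW
    simp only [Stmt.nd] at hc ⊢
    obtain ⟨h1, h2⟩ := ih₁ (by omega) hD.1 hs W hW
    obtain ⟨h3, h4⟩ := ih₂ (by omega) hD.2 h2 W hW
    refine ⟨?_, h4⟩
    rw [← Nat.add_assoc]
    exact Exec.seq _ _ _ _ _ _ (h1.mono (by omega)) (h3.mono (by omega))
  | iteT k r a b s u h _ ih =>
    intro hc hD hs W hW
    simp only [Stmt.nd] at hc ⊢
    obtain ⟨h1, h2⟩ := ih (by omega) hD.1 hs W hW
    exact ⟨Exec.iteT _ _ _ _ _ _ h (h1.mono (by omega)), h2⟩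
  | iteF k r a b s u h _ ih =>
    intro hc hD hs W hW
    simp only [Stmt.nd] at hc ⊢
    obtain ⟨h1, h2⟩ := ih (by omega) hD.2 hs W hW
    exact ⟨Exec.iteF _ _ _ _ _ _ (not_not.2 h) (h1.mono (by omega)), h2⟩
  | loopF k r a s h => exact fun _ _ hs W _ => ⟨Exec.loopF _ _ _ _ (not_not.2 h), hs⟩
  | loopT k r a s u v h _ _ ih₁ ih₂ =>
    intro hc hD hs W hW
    obtain ⟨h1, h2⟩ := ih₁ (by simp only [Stmt.nd] at hc; omega) hD hs W hW
    obtain ⟨h3, h4⟩ := ih₂ hc hD h2 W hW
    exact ⟨Exec.loopT _ _ _ _ _ _ h h1 h3, h4⟩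
  | call k f s u _ ih =>
    intro _ _ hs W hW
    obtain ⟨h1, h2⟩ := ih (hbody f).1 (hbody f).2 hs W hW
    refine ⟨Exec.call _ _ _ _ (h1.mono ?_), h2⟩
    have := (hbody f).1
    simp only [Stmt.nd, Nat.add_mul, Nat.one_mul]
    omega

/-- Programs are executed by Turing machines. -/
theorem exists_TM_of_run {α R F : Type} [Finite α] [Finite R] [Finite F] (cc : Cell α → ℕ)
    (body : F → AStmt R F) (a : AStmt R F) (out : R) :
    ∃ c : ℕ, ∀ (L : List α → Prop) (A k : ℕ → ℕ), (∀ n, 2 ≤ A n) →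
      (∀ x : List α, ∃ t, RunA x cc (A x.length) body (k x.length) a (fun _ => 0) t ∧
        (t out ≠ 0 ↔ L x)) → ∃ M : TM α, M.DecidesIn L fun n =>
          c * (Nat.log 2 (A n) + k n + 1) := by
  obtain ⟨l, hl⟩ := exists_cells α
  obtain ⟨B, hB⟩ : ∃ B, ∀ c, cc c ≤ B :=
    ⟨l.foldr (fun c b => max (cc c) b) 0, fun c => by
      have : ∀ (l : List (Cell α)), c ∈ l → cc c ≤ l.foldr (fun c b => max (cc c) b) 0 := by
        intro l
        induction l with
        | nil => intro h; exact absurd h (by simp)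
        | cons e l ih =>
          intro h
          rw [List.foldr_cons]
          rcases List.mem_cons.1 h with rfl | h
          · exact le_max_left _ _
          · exact le_max_of_le_right (ih h)
      exact this l (hl c)⟩
  obtain ⟨D, hD1, hD2⟩ := Stmt.exists_bound_all (fun p : Asg R => p.exp.deg B) body a
  obtain ⟨c₁, hc₁⟩ := (Set.finite_range fun f => (body f).nd).bddAbove
  set c₂ := max c₁ a.nd with hc₂
  obtain ⟨c, hc⟩ := exists_TM_of_program cc body a out
  refine ⟨2 * D + c₂ + c + 1, fun L A k hA h => ?_⟩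
  obtain ⟨M, hM⟩ := hc L (fun n => (Nat.log 2 (A n) + 1) * D) (fun n => k n * c₂ + a.nd) (fun x => by
    obtain ⟨t, h1, h2⟩ := h x
    refine ⟨t, (h1.toExec hB (hA _) (c := c₂) (D := D) (fun f => ⟨?_, hD1 f⟩) (le_max_right _ _) hD2
      (fun _ => by have := hA x.length; omega) _ ?_).1, h2⟩
    · exact (hc₁ ⟨f, rfl⟩).trans (le_max_left _ _)
    · rw [pow_mul]
      exact Nat.pow_le_pow_left (Nat.lt_pow_succ_log_self (by norm_num) _).le _)
  refine ⟨M, fun x => ⟨(hM x).1, fun c' hc' j => ((hM x).2 c' hc' j).trans_le ?_⟩⟩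
  have h1 : a.nd ≤ c₂ := le_max_right _ _
  simp only
  nlinarith [Nat.zero_le (Nat.log 2 (A x.length) * D), Nat.zero_le (Nat.log 2 (A x.length) * c₂),
    Nat.zero_le (Nat.log 2 (A x.length) * c), Nat.zero_le (k x.length * D),
    Nat.zero_le (k x.length * c), Nat.zero_le (k x.length), Nat.zero_le (Nat.log 2 (A x.length))]

end

end Pool.Agent.Lib.MP_9277c3_lc.CM
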