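import Pool.Agent.Lib.MP_9277c3_lc.helper78.CM.TM

/-!
# The Turing machine which executes a program with stacks
-/

namespace Pool.Agent.Lib.MP_9277c3_lc.CM

open Classical

theorem step_some {α : Type} (A : TM α) (x : List α) (c c' : A.Cfg)
    (r : A.State × Move × (A.Tape → A.Sym × Move))
    (h : A.next c.state (cell x c.pos) c.read = some r) (h1 : c'.state = r.1)
    (h2 : c'.pos = r.2.1.apply x.length c.pos)
    (h3 : ∀ j, c'.head j = TM.wmove (r.2.2 j).2 (c.head j))
    (h4 : ∀ j, c'.tape j = Function.update (c.tape j) (c.head j) (r.2.2 j).1) :
    A.step x c = some c' := by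
  obtain ⟨q, p, H, T⟩ := c'
  simp only at h1 h2 h3 h4
  subst h1 h2
  obtain rfl : H = _ := funext h3
  obtain rfl : T = _ := funext h4
  unfold TM.step
  rw [h]
  rfl

section

variable {α ι Γ F : Type}

/-- Programs with stacks. -/
abbrev SStmt (α ι Γ F : Type) : Type := Stmt (SPrim ι Γ) (STest α ι Γ) F

variable (body : F → SStmt α ι Γ F) (a : SStmt α ι Γ F)

/-- The symbols of the machine. -/
abbrev CSym : Type := Option (Γ ⊕ closure body a)

/-- The operation on the control stack. -/
noncomputable def cop (tst : STest α ι Γ → Prop) : closure body a → Op (closure body a)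
  | ⟨Stmt.skip, _⟩ => Op.pop
  | ⟨Stmt.prim _, _⟩ => Op.pop
  | ⟨Stmt.seq p q, h⟩ =>
    Op.repl2 ⟨q, closure_subs h (by simp [Stmt.subs, Stmt.mem_subs])⟩
      ⟨p, closure_subs h (by simp [Stmt.subs, Stmt.mem_subs])⟩
  | ⟨Stmt.ite t p q, h⟩ =>
    Op.repl (if tst t then ⟨p, closure_subs h (by simp [Stmt.subs, Stmt.mem_subs])⟩
      else ⟨q, closure_subs h (by simp [Stmt.subs, Stmt.mem_subs])⟩)
  | ⟨Stmt.loop t p, h⟩ =>
    if tst t then Op.push ⟨p, closure_subs h (by simp [Stmt.subs, Stmt.mem_subs])⟩ else Op.pop
  | ⟨Stmt.call f, _⟩ => Op.repl ⟨body f, closure_body body a f⟩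

/-- The operation on the data stacks. -/
noncomputable def dop : SStmt α ι Γ F → ι → Op Γ
  | Stmt.prim (SPrim.push j g), i => if i = j then Op.push g else Op.keep
  | Stmt.prim (SPrim.pop j), i => if i = j then Op.pop else Op.keep
  | _, _ => Op.keep

/-- The move of the input head. -/
def gop : SStmt α ι Γ F → Move
  | Stmt.prim (SPrim.go m) => m
  | _ => Move.stay

/-- Map the symbols of an operation. -/
def Op.map {S S' : Type} (f : S → S') : Op S → Op S'
  | Op.keep => Op.keep
  | Op.pop => Op.pop
  | Op.push a => Op.push (f a)
  | Op.repl a => Op.repl (f a)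
  | Op.repl2 a b => Op.repl2 (f a) (f b)

theorem Op.eff_map {S S' : Type} (f : S → S') (o : Op S) (l : List S) :
    (o.map f).eff (l.map f) = (o.eff l).map f := by
  cases o <;> simp [Op.map, Op.eff, List.map_tail]

/-- The operations on all tapes. -/
noncomputable def oops (tst : STest α ι Γ → Prop) (c : closure body a) :
    Option ι → Op (CSym body a)
  | none => (cop body a tst c).map fun c => some (Sum.inr c)
  | some i => (dop c.1 i).map fun g => some (Sum.inl g)

/-- The value of a test, given what the heads see. -/
def rtest (cl : Cell α) (r : Option ι → CSym body a) : STest α ι Γ → Prop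
  | STest.top i g => r (some i) = some (Sum.inl g)
  | STest.ne i => r (some i) ≠ none
  | STest.cell p => p cl

/-- The program is put on the control stack. -/
def initW : Option ι → Option (CSym body a)
  | none => some (some (Sum.inr ⟨a, Or.inl a.mem_subs⟩))
  | some _ => none

/-- The first move. -/
def initM : Option ι → Move
  | none => Move.right
  | some _ => Move.stay

/-- The transition function. -/
noncomputable def cnext : Option (Option (Option ι → Option (CSym body a))) → Cell α →
    (Option ι → CSym body a) → Option (Option (Option (Option ι → Option (CSym body a))) × Move ×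
      (Option ι → CSym body a × Move))
  | none, _, r => some (some (some (initW body a)), Move.stay, fun j => (r j, initM j))
  | some (some w), _, r => some (some none, Move.stay, fun j => ((w j).getD (r j), Move.stay))
  | some none, cl, r => match r none with
    | some (Sum.inr c) => some (some (some fun j => (oops body a (rtest body a cl r) c j).pend),
        gop c.1, fun j => ((oops body a (rtest body a cl r) c j).wr none (r j),
          (oops body a (rtest body a cl r) c j).mv none (r j)))
    | _ => none

/-- The machine which executes the program `a` and accepts iff the stack `out` is not empty at the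
end. -/
noncomputable def cmach [Finite ι] [Finite Γ] [Finite F] (out : ι) : TM α where
  State := Option (Option (Option ι → Option (CSym body a)))
  Tape := Option ι
  Sym := CSym body a
  finite_state := by
    have : Finite (closure body a) := finite_closure body a
    infer_instance
  finite_tape := inferInstance
  finite_sym := by
    have : Finite (closure body a) := finite_closure body a
    infer_instance
  blank := none
  start := none
  accept := fun _ r => r (some out) ≠ none
  next := cnext body a

variable [Finite ι] [Finite Γ] [Finite F] (out : ι)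

/-- What the configuration must look like: the contents of the stacks are `L`. -/
structure Rep (q : Option (Option (Option ι → Option (CSym body a)))) (pos : ℕ)
    (L : Option ι → List (CSym body a)) (c : (cmach body a out).Cfg) : Prop where
  state : c.state = q
  pos : c.pos = pos
  head : ∀ j, c.head j = (L j).length
  tape : ∀ j, c.tape j = tapeOf none (L j)

theorem getD_pend {S : Type} (o : Op S) (T : ℕ → S) (h : ℕ) :
    Function.update T h ((o.pend).getD (T h)) = match o.pend with
      | none => T
      | some a => Function.update T h a := by
  cases o.pend with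
  | none => simp
  | some a => rfl

variable {body a out}

/-- Two steps of the machine. -/
theorem two_steps {x : List α} {pos : ℕ} {L : Option ι → List (CSym body a)}
    {c : (cmach body a out).Cfg} (hc : Rep body a out (some none) pos L c)
    (hL : ∀ j, ∀ s ∈ L j, s ≠ none) (k : closure body a) (κ : List (CSym body a))
    (hk : L none = some (Sum.inr k) :: κ) (tst : STest α ι Γ → Prop)
    (htst : tst = rtest body a (cell x pos) c.read) :
    ∃ c₁ c₂, (cmach body a out).step x c = some c₁ ∧ (cmach body a out).step x c₁ = some c₂ ∧
      c₁.head = c₂.head ∧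
      Rep body a out (some none) ((gop k.1).apply x.length pos)
        (fun j => (oops body a tst k j).eff (L j)) c₂ := by
  have hread : ∀ j, c.read j = tapeOf none (L j) (L j).length := by
    intro j
    unfold TM.Cfg.read
    rw [hc.tape, hc.head]
  have hr0 : c.read none = some (Sum.inr k) := by
    rw [hread, hk, tapeOf, List.length_cons, Function.update_self]
  have hn1 : cnext body a (some none) (cell x pos) c.read =
      some (some (some fun j => (oops body a tst k j).pend),
        gop k.1, fun j => ((oops body a tst k j).wr none (c.read j),
          (oops body a tst k j).mv none (c.read j))) := by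
    rw [htst]
    simp only [cnext, hr0]
  let c₁ : (cmach body a out).Cfg :=
    { state := some (some fun j => (oops body a tst k j).pend)
      pos := (gop k.1).apply x.length pos
      head := fun j => TM.wmove ((oops body a tst k j).mv none (c.read j)) (c.head j)
      tape := fun j => Function.update (c.tape j) (c.head j)
        ((oops body a tst k j).wr none (c.read j)) }
  have h1 : (cmach body a out).step x c = some c₁ := by
    unfold TM.step
    have e1 : (cmach body a out).next c.state (cell x c.pos) c.read =
        cnext body a (some none) (cell x pos) c.read := by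
      rw [hc.state, hc.pos]
      rfl
    rw [e1, hn1, hc.pos]
    rfl
  let c₂ : (cmach body a out).Cfg :=
    { state := some none
      pos := (gop k.1).apply x.length pos
      head := c₁.head
      tape := fun j => Function.update (c₁.tape j) (c₁.head j)
        (((oops body a tst k j).pend).getD (c₁.read j)) }
  have h2 : (cmach body a out).step x c₁ = some c₂ := rfl
  refine ⟨c₁, c₂, h1, h2, rfl, ?_⟩
  have hcor : ∀ j, TM.wmove ((oops body a tst k j).mv none (tapeOf none (L j) (L j).length))
      (L j).length = ((oops body a tst k j).eff (L j)).length ∧ _ := fun j =>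
    (oops body a tst k j).correct none (L j) (hL j) (by
      intro hneed hnil
      cases j with
      | none => rw [hk] at hnil; exact absurd hnil (by simp)
      | some i =>
        have h3 : ∀ s : SStmt α ι Γ F, ¬((dop s i).map
            (fun g => (some (Sum.inl g) : CSym body a))).needs := by
          intro s
          unfold dop
          split
          · split_ifs <;> exact id
          · split_ifs <;> exact id
          · exact id
        exact h3 _ hneed)
  constructor
  · rfl
  · rfl
  · intro j
    change TM.wmove ((oops body a tst k j).mv none (c.read j)) (c.head j) = _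
    rw [hread, hc.head, (hcor j).1]
  · intro j
    change Function.update (c₁.tape j) (c₁.head j) (((oops body a tst k j).pend).getD
      (c₁.tape j (c₁.head j))) = _
    refine (getD_pend (oops body a tst k j) (c₁.tape j) (c₁.head j)).trans ?_
    have h4 := (hcor j).2
    have h5 : c₁.tape j = Function.update (tapeOf none (L j)) (L j).length
        ((oops body a tst k j).wr none (tapeOf none (L j) (L j).length)) := by
      change Function.update (c.tape j) (c.head j) ((oops body a tst k j).wr none (c.read j)) = _
      rw [hread j, hc.tape j, hc.head j]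
      rfl
    have h6 : c₁.head j = TM.wmove ((oops body a tst k j).mv none
        (tapeOf none (L j) (L j).length)) (L j).length := by
      change TM.wmove ((oops body a tst k j).mv none (c.read j)) (c.head j) = _
      rw [hread j, hc.head j]
    rw [h5, h6]
    exact h4

variable (body a) in
/-- The contents of the tapes. -/
def conts (κ : List (closure body a)) (s : (ι → List Γ) × ℕ) : Option ι → List (CSym body a)
  | none => κ.map fun c => some (Sum.inr c)
  | some i => (s.1 i).map fun g => some (Sum.inl g)

omit [Finite ι] [Finite Γ] [Finite F] in
theorem conts_ne (κ : List (closure body a)) (s : (ι → List Γ) × ℕ) (j : Option ι) :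
    ∀ u ∈ conts body a κ s j, u ≠ none := by
  intro u hu
  cases j with
  | none =>
    simp only [conts, List.mem_map] at hu
    obtain ⟨c, _, rfl⟩ := hu
    simp
  | some i =>
    simp only [conts, List.mem_map] at hu
    obtain ⟨c, _, rfl⟩ := hu
    simp

theorem rtest_iff {x : List α} {m : ℕ} {κ : List (closure body a)} {s : (ι → List Γ) × ℕ}
    {c : (cmach body a out).Cfg} (hc : Rep body a out (some none) s.2 (conts body a κ s) c)
    (t : STest α ι Γ) : rtest body a (cell x s.2) c.read t ↔ (ssem x m).test t s := by
  have hread : ∀ i, c.read (some i) = tapeOf none (conts body a κ s (some i))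
      (conts body a κ s (some i)).length := by
    intro i
    unfold TM.Cfg.read
    rw [hc.tape, hc.head]
  have h : ∀ i, c.read (some i) = (s.1 i).head?.map fun g => Sum.inl g := by
    intro i
    rw [hread]
    cases h : s.1 i with
    | nil => simp [conts, h, tapeOf]
    | cons g l =>
      simp only [conts, h, List.map_cons, tapeOf, List.length_cons, Function.update_self,
        List.head?_cons, Option.map_some]
  cases t with
  | top i g =>
    simp only [rtest, ssem, h]
    cases (s.1 i).head? <;> simp
  | ne i =>
    simp only [rtest, ssem, h]
    cases s.1 i <;> simp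
  | cell c => simp only [rtest, ssem]

/-- Runs all of whose configurations satisfy a condition. -/
inductive Run {A : TM α} (x : List α) (B : A.Cfg → Prop) : A.Cfg → A.Cfg → Prop
  | refl (c : A.Cfg) (h : B c) : Run x B c c
  | head (c c' c'' : A.Cfg) (h : B c) (h' : A.step x c = some c') (h'' : Run x B c' c'') :
      Run x B c c''

theorem Run.trans {A : TM α} {x : List α} {B : A.Cfg → Prop} {c c' c'' : A.Cfg}
    (h : Run x B c c') (h' : Run x B c' c'') : Run x B c c'' := by
  induction h with
  | refl => exact h'
  | head c d e h1 h2 _ ih => exact Run.head _ _ _ h1 h2 (ih h')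

/-- The condition on the space. -/
def Fits (A : TM α) (b : ℕ) (c : A.Cfg) : Prop := ∀ j, c.head j ≤ b

/-- The programs on the control stack. -/
theorem exec_run {x : List α} {m : ℕ} {d : ℕ} {p : SStmt α ι Γ F} {s t : (ι → List Γ) × ℕ}
    (h : Exec (ssem x m) body d p s t) : ∀ (hp : p ∈ closure body a) (κ : List (closure body a))
      (c : (cmach body a out).Cfg), (∀ i, (s.1 i).length ≤ m) →
      Rep body a out (some none) s.2 (conts body a (⟨p, hp⟩ :: κ) s) c →
      ∃ c', Run x (Fits (cmach body a out) (max m (κ.length + d + 1))) c c' ∧
        Rep body a out (some none) t.2 (conts body a κ t) c' ∧ (∀ i, (t.1 i).length ≤ m) := by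
  -- one step of the control
  have key : ∀ (p : SStmt α ι Γ F) (hp : p ∈ closure body a) (κ : List (closure body a))
      (s : (ι → List Γ) × ℕ) (c : (cmach body a out).Cfg) (b : ℕ) (s' : (ι → List Γ) × ℕ)
      (κ' : List (closure body a)),
      Rep body a out (some none) s.2 (conts body a (⟨p, hp⟩ :: κ) s) c →
      (∀ i, (s.1 i).length ≤ b) → κ.length + 1 ≤ b → (∀ i, (s'.1 i).length ≤ b) → κ'.length ≤ b →
      (cop body a ((ssem x m).test · s) ⟨p, hp⟩).eff (⟨p, hp⟩ :: κ) = κ' →
      (∀ i, (dop p i).eff (s.1 i) = s'.1 i) → (gop p).apply x.length s.2 = s'.2 →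
      ∃ c', Run x (Fits (cmach body a out) b) c c' ∧
        Rep body a out (some none) s'.2 (conts body a κ' s') c' := by
    intro p hp κ s c b s' κ' hc hs hκ hs' hκ' e1 e2 e3
    have htst : ((ssem x m).test · s) = rtest body a (cell x s.2) c.read := by
      funext t
      exact propext (rtest_iff hc t).symm
    obtain ⟨c₁, c₂, h1, h2, h3, h4⟩ := two_steps hc (conts_ne _ _) ⟨p, hp⟩
      (κ.map fun c => some (Sum.inr c)) rfl _ htst
    have h5 : Rep body a out (some none) s'.2 (conts body a κ' s') c₂ := by
      have h6 : (fun j => (oops body a ((ssem x m).test · s) ⟨p, hp⟩ j).eff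
          (conts body a (⟨p, hp⟩ :: κ) s j)) = conts body a κ' s' := by
        funext j
        cases j with
        | none =>
          change (Op.map _ _).eff (List.map _ _) = _
          rw [Op.eff_map, e1]
          rfl
        | some i =>
          change (Op.map _ _).eff (List.map _ _) = _
          rw [Op.eff_map, e2]
          rfl
      rw [h6] at h4
      change Rep body a out (some none) ((gop p).apply x.length s.2) _ c₂ at h4
      rw [e3] at h4
      exact h4
    have fit : ∀ (κ : List (closure body a)) (s : (ι → List Γ) × ℕ) (c : (cmach body a out).Cfg),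
        Rep body a out (some none) s.2 (conts body a κ s) c → κ.length ≤ b →
        (∀ i, (s.1 i).length ≤ b) → Fits (cmach body a out) b c := by
      intro κ s c hc h1 h2 j
      rw [hc.head]
      cases j with
      | none => simpa [conts] using h1
      | some i => simpa [conts] using h2 i
    have f0 := fit (⟨p, hp⟩ :: κ) s c hc (by simpa using hκ) hs
    have f2 := fit κ' s' c₂ h5 hκ' hs'
    have f1 : Fits (cmach body a out) b c₁ := by
      intro j
      rw [h3]
      exact f2 j
    exact ⟨c₂, Run.head _ _ _ f0 h1 (Run.head _ _ _ f1 h2 (Run.refl _ f2)), h5⟩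
  induction h with
  | skip d s =>
    intro hp κ c hs hc
    obtain ⟨c', h1, h2⟩ := key _ hp κ s c (max m (κ.length + d + 1)) s κ hc
      (fun i => (hs i).trans (le_max_left _ _)) (le_max_of_le_right (by omega))
      (fun i => (hs i).trans (le_max_left _ _)) (le_max_of_le_right (by omega)) rfl
      (fun i => rfl) rfl
    exact ⟨c', h1, h2, hs⟩
  | prim d q s h =>
    intro hp κ c hs hc
    have hs' : ∀ i, (((ssem x m).act q s).1 i).length ≤ m := by
      intro i
      cases q with
      | push j g =>
        simp only [ssem]
        by_cases hi : i = j
        · subst hi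
          rw [upd_self, List.length_cons]
          exact h
        · rw [upd_ne hi]
          exact hs i
      | pop j =>
        simp only [ssem]
        by_cases hi : i = j
        · subst hi
          rw [upd_self, List.length_tail]
          have := hs i
          omega
        · rw [upd_ne hi]
          exact hs i
      | go mv => exact hs i
    obtain ⟨c', h1, h2⟩ := key _ hp κ s c (max m (κ.length + d + 1)) ((ssem x m).act q s) κ hc
      (fun i => (hs i).trans (le_max_left _ _)) (le_max_of_le_right (by omega))
      (fun i => (hs' i).trans (le_max_left _ _)) (le_max_of_le_right (by omega)) rfl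
      (by
        intro i
        cases q with
        | push j g =>
          simp only [ssem, dop]
          by_cases hi : i = j
          · subst hi
            simp [Op.eff, upd_self]
          · simp [Op.eff, hi, upd_ne]
        | pop j =>
          simp only [ssem, dop]
          by_cases hi : i = j
          · subst hi
            simp [Op.eff, upd_self]
          · simp [Op.eff, hi, upd_ne]
        | go mv => rfl)
      (by
        cases q with
        | push j g => rfl
        | pop j => rfl
        | go mv => rfl)
    exact ⟨c', h1, h2, hs'⟩
  | seq d p q s t u _ _ ih₁ ih₂ =>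
    intro hp κ c hs hc
    have hp1 : p ∈ closure body a := closure_subs hp (by simp [Stmt.subs, Stmt.mem_subs])
    have hq1 : q ∈ closure body a := closure_subs hp (by simp [Stmt.subs, Stmt.mem_subs])
    obtain ⟨c₁, h1, h2⟩ := key _ hp κ s c (max m (κ.length + (d + 1) + 1)) s
      (⟨p, hp1⟩ :: ⟨q, hq1⟩ :: κ) hc
      (fun i => (hs i).trans (le_max_left _ _)) (le_max_of_le_right (by omega))
      (fun i => (hs i).trans (le_max_left _ _))
      (le_max_of_le_right (by simp only [List.length_cons]; omega)) rfl (fun i => rfl) rfl
    obtain ⟨c₂, h3, h4, h5⟩ := ih₁ hp1 (⟨q, hq1⟩ :: κ) c₁ hs h2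
    obtain ⟨c₃, h6, h7, h8⟩ := ih₂ hq1 κ c₂ h5 h4
    refine ⟨c₃, (h1.trans ?_).trans h6, h7, h8⟩
    rw [List.length_cons, show κ.length + 1 + d + 1 = κ.length + (d + 1) + 1 by omega] at h3
    exact h3
  | iteT d t p q s u h _ ih =>
    intro hp κ c hs hc
    have hp1 : p ∈ closure body a := closure_subs hp (by simp [Stmt.subs, Stmt.mem_subs])
    obtain ⟨c₁, h1, h2⟩ := key _ hp κ s c (max m (κ.length + d + 1)) s
      (⟨p, hp1⟩ :: κ) hc
      (fun i => (hs i).trans (le_max_left _ _)) (le_max_of_le_right (by omega))
      (fun i => (hs i).trans (le_max_left _ _))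
      (le_max_of_le_right (by simp only [List.length_cons]; omega)) (by
        simp only [cop, h, if_true, Op.eff, List.tail_cons]) (fun i => rfl) rfl
    obtain ⟨c₂, h3, h4, h5⟩ := ih hp1 κ c₁ hs h2
    exact ⟨c₂, h1.trans h3, h4, h5⟩
  | iteF d t p q s u h _ ih =>
    intro hp κ c hs hc
    have hq1 : q ∈ closure body a := closure_subs hp (by simp [Stmt.subs, Stmt.mem_subs])
    obtain ⟨c₁, h1, h2⟩ := key _ hp κ s c (max m (κ.length + d + 1)) s
      (⟨q, hq1⟩ :: κ) hc
      (fun i => (hs i).trans (le_max_left _ _)) (le_max_of_le_right (by omega))
      (fun i => (hs i).trans (le_max_left _ _))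
      (le_max_of_le_right (by simp only [List.length_cons]; omega)) (by
        simp only [cop, h, if_false, Op.eff, List.tail_cons]) (fun i => rfl) rfl
    obtain ⟨c₂, h3, h4, h5⟩ := ih hq1 κ c₁ hs h2
    exact ⟨c₂, h1.trans h3, h4, h5⟩
  | loopF d t p s h =>
    intro hp κ c hs hc
    obtain ⟨c₁, h1, h2⟩ := key _ hp κ s c (max m (κ.length + d + 1)) s κ hc
      (fun i => (hs i).trans (le_max_left _ _)) (le_max_of_le_right (by omega))
      (fun i => (hs i).trans (le_max_left _ _)) (le_max_of_le_right (by omega)) (by
        simp only [cop, h, if_false, Op.eff, List.tail_cons]) (fun i => rfl) rfl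
    exact ⟨c₁, h1, h2, hs⟩
  | loopT d t p s u v h _ _ ih₁ ih₂ =>
    intro hp κ c hs hc
    have hp1 : p ∈ closure body a := closure_subs hp (by simp [Stmt.subs, Stmt.mem_subs])
    obtain ⟨c₁, h1, h2⟩ := key _ hp κ s c (max m (κ.length + (d + 1) + 1)) s
      (⟨p, hp1⟩ :: ⟨_, hp⟩ :: κ) hc
      (fun i => (hs i).trans (le_max_left _ _)) (le_max_of_le_right (by omega))
      (fun i => (hs i).trans (le_max_left _ _))
      (le_max_of_le_right (by simp only [List.length_cons]; omega)) (by
        simp only [cop, h, if_true, Op.eff]) (fun i => rfl) rfl
    obtain ⟨c₂, h3, h4, h5⟩ := ih₁ hp1 (⟨_, hp⟩ :: κ) c₁ hs h2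
    obtain ⟨c₃, h6, h7, h8⟩ := ih₂ hp κ c₂ h5 h4
    refine ⟨c₃, (h1.trans ?_).trans h6, h7, h8⟩
    rw [List.length_cons, show κ.length + 1 + d + 1 = κ.length + (d + 1) + 1 by omega] at h3
    exact h3
  | call d f s u _ ih =>
    intro hp κ c hs hc
    obtain ⟨c₁, h1, h2⟩ := key _ hp κ s c (max m (κ.length + d + 1)) s
      (⟨body f, closure_body body a f⟩ :: κ) hc
      (fun i => (hs i).trans (le_max_left _ _)) (le_max_of_le_right (by omega))
      (fun i => (hs i).trans (le_max_left _ _))
      (le_max_of_le_right (by simp only [List.length_cons]; omega)) rfl (fun i => rfl) rfl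
    obtain ⟨c₂, h3, h4, h5⟩ := ih (closure_body body a f) κ c₁ hs h2
    exact ⟨c₂, h1.trans h3, h4, h5⟩

/-- All configurations reached are on a run which ends in a halting configuration. -/
theorem reach_fits {A : TM α} {x : List α} {B : A.Cfg → Prop} {e : A.Cfg}
    (h : Run x B A.init e) (he : A.step x e = none) {c : A.Cfg} (hc : A.Reach x c) : B c := by
  have key : ∀ c, A.Reach x c → Run x B c e := by
    intro c hc
    induction hc with
    | start => exact h
    | step c c' _ h' ih =>
      cases ih with
      | refl _ h1 => rw [he] at h'; exact absurd h' (by simp)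
      | head _ d _ h1 h2 h3 =>
        rw [h2, Option.some.injEq] at h'
        subst h'
        exact h3
  cases key c hc with
  | refl _ h1 => exact h1
  | head _ _ _ h1 _ _ => exact h1

theorem Run.reach {A : TM α} {x : List α} {B : A.Cfg → Prop} {c e : A.Cfg} (h : Run x B c e) :
    A.Reach x c → A.Reach x e := by
  induction h with
  | refl => exact id
  | head c d e h1 h2 _ ih => exact fun hc => ih (TM.Reach.step _ _ hc h2)

end

/-- A program with stacks which terminates on all inputs is executed by a Turing machine whose heads
stay below the height of the stacks and the depth of the execution. -/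
theorem exists_TM {α ι Γ F : Type} [Finite ι] [Finite Γ] [Finite F]
    (body : F → SStmt α ι Γ F) (a : SStmt α ι Γ F) (out : ι) (L : List α → Prop) (m d : ℕ → ℕ)
    (h : ∀ x : List α, ∃ t, Exec (ssem x (m x.length)) body (d x.length) a (fun _ => [], 0) t ∧
      (t.1 out ≠ [] ↔ L x)) :
    ∃ A : TM α, A.DecidesIn L fun n => max (m n) (d n + 1) + 1 := by
  refine ⟨cmach body a out, fun x => ?_⟩
  obtain ⟨t, h1, h2⟩ := h x
  set B := Fits (cmach body a out) (max (m x.length) (d x.length + 1)) with hB
  have ha : a ∈ closure body a := Or.inl a.mem_subs
  -- the first two steps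
  let c₀ : (cmach body a out).Cfg := (cmach body a out).init
  let c₁ : (cmach body a out).Cfg :=
    { state := some (some (initW body a))
      pos := 0
      head := fun j => TM.wmove (initM j) 0
      tape := fun _ _ => none }
  let c₂ : (cmach body a out).Cfg :=
    { state := some none
      pos := 0
      head := c₁.head
      tape := fun j => tapeOf none (conts body a [⟨a, ha⟩] (fun _ => [], 0) j) }
  have s1 : (cmach body a out).step x c₀ = some c₁ :=
    step_some _ x c₀ c₁ (some (some (initW body a)), Move.stay, fun j => (none, initM j)) rfl rfl
      rfl (fun _ => rfl) (fun j => (Function.update_eq_self (c₀.head j) (c₀.tape j)).symm)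
  have s2 : (cmach body a out).step x c₁ = some c₂ := by
    refine step_some _ x c₁ c₂ (some none, Move.stay,
      fun j => ((initW body a j).getD none, Move.stay)) rfl rfl rfl (fun _ => rfl) ?_
    intro j
    cases j with
    | none => rfl
    | some i => exact (Function.update_eq_self (c₁.head (some i)) (c₁.tape (some i))).symm
  have hrep : Rep body a out (some none) 0 (conts body a [⟨a, ha⟩] (fun _ => [], 0)) c₂ := by
    constructor
    · rfl
    · rfl
    · intro j
      cases j <;> rfl
    · intro j
      rfl
  obtain ⟨e, g1, g2, g3⟩ := exec_run h1 ha [] c₂ (fun _ => Nat.zero_le _) hrep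
  rw [List.length_nil, Nat.zero_add] at g1
  have f0 : B c₀ := fun j => Nat.zero_le _
  have f1 : B c₁ := by
    intro j
    cases j with
    | none => exact le_max_of_le_right (by change 1 ≤ _; omega)
    | some i => exact Nat.zero_le _
  have hrun : Run x B (cmach body a out).init e := Run.head _ _ _ f0 s1 (Run.head _ _ _ f1 s2 g1)
  have hhalt : (cmach body a out).step x e = none := by
    unfold TM.step
    have e0 : e.read none = none := by
      unfold TM.Cfg.read
      rw [g2.tape, g2.head]
      rfl
    have e1 : (cmach body a out).next e.state (cell x e.pos) e.read = none := by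
      rw [g2.state]
      change cnext body a (some none) _ _ = none
      simp only [cnext, e0]
    rw [e1]
    rfl
  refine ⟨⟨e, hrun.reach TM.Reach.start, hhalt, ?_⟩, fun c hc j => ?_⟩
  · rw [← h2]
    change e.read (some out) ≠ none ↔ _
    have e2 : e.read (some out) = (t.1 out).head?.map fun g => Sum.inl g := by
      unfold TM.Cfg.read
      rw [g2.tape, g2.head]
      cases h : t.1 out with
      | nil => simp [conts, h, tapeOf]
      | cons g l =>
        simp only [conts, h, List.map_cons, tapeOf, List.length_cons, Function.update_self,
          List.head?_cons, Option.map_some]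
    rw [e2]
    cases t.1 out <;> simp
  · exact Nat.lt_succ_of_le (reach_fits hrun hhalt hc j)

end Pool.Agent.Lib.MP_9277c3_lc.CM
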