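import Pool.Agent.Lib.MP_9277c3_lc.helper78.CM.Arith

/-!
# Programs with arithmetic expressions
-/

namespace Pool.Agent.Lib.MP_9277c3_lc.CM

section

variable {α ι F : Type} {x : List α} {W : ℕ} {body : F → CStmt α ι F}

theorem exec_tabC (i : ι) (k : ℕ) : ∀ (f : ℕ → ℕ) (B : ℕ) (s : (ι → ℕ) × ℕ),
    (∀ j < k, f j < W ∧ f j ≤ B) → Exec (csem x W) body (k + B + 1) (tabC i k f) s
      (upd s.1 i (if s.1 i < k then f (s.1 i) else 0), s.2) := by
  induction k with
  | zero =>
    intro f B s _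
    exact ((exec_clr i s).mono (by omega)).cast (by simp)
  | succ k ih =>
    intro f B s hf
    by_cases h0 : s.1 i = 0
    · refine Exec.iteF _ _ _ _ _ _ (by simpa [csem] using h0)
        (((exec_incs i (f 0) s (by rw [h0, Nat.zero_add]; exact (hf 0 (by omega)).1)).mono
          (by have := (hf 0 (by omega)).2; omega)).cast ?_)
      rw [h0, Nat.zero_add, if_pos (by omega)]
    · refine Exec.iteT _ _ _ _ _ _ (by simpa [csem] using h0) ?_
      have e : k + 1 + B + 1 = (k + B + 1) + 1 := by omega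
      rw [e]
      refine Exec.seq _ _ _ _ _ _ (exec_dec i s) ?_
      refine ((ih (fun j => f (j + 1)) B _ (fun j hj => hf (j + 1) (by omega))).mono
        (by omega)).cast ?_
      refine Prod.ext ?_ rfl
      simp only [upd_self, upd_upd]
      have e2 : s.1 i - 1 + 1 = s.1 i := by omega
      rw [e2]
      congr 1
      by_cases h1 : s.1 i < k + 1
      · rw [if_pos h1, if_pos (by omega)]
      · rw [if_neg h1, if_neg (by omega)]

/-- Write the code of the cell under the input head, one of the cells `l`, to the counter `i`. -/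
def readC (i : ι) (cc : Cell α → ℕ) : List (Cell α) → CStmt α ι F
  | [] => Stmt.skip
  | c :: l => Stmt.ite (CTest.cell fun c' => c' = c) (incs i (cc c)) (readC i cc l)

theorem exec_readC (i : ι) (cc : Cell α → ℕ) (B : ℕ) (hB : ∀ c, cc c ≤ B) (hW : ∀ c, cc c < W)
    (l : List (Cell α)) : ∀ (s : (ι → ℕ) × ℕ), cell x s.2 ∈ l → s.1 i = 0 →
    Exec (csem x W) body B (readC i cc l) s (upd s.1 i (cc (cell x s.2)), s.2) := by
  induction l with
  | nil => intro s h; exact absurd h (by simp)
  | cons c l ih =>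
    intro s h h0
    by_cases hc : cell x s.2 = c
    · refine Exec.iteT _ _ _ _ _ _ hc (((exec_incs i (cc c) s
        (by rw [h0, Nat.zero_add]; exact hW c)).mono (hB c)).cast ?_)
      rw [h0, Nat.zero_add, hc]
    · refine Exec.iteF _ _ _ _ _ _ hc (ih s ?_ h0)
      rcases List.mem_cons.1 h with h | h
      · exact absurd h hc
      · exact h

/-- Replace the position in the counter `i` by the code of the cell at this position. -/
def inpC (i : ι) (cc : Cell α → ℕ) (l : List (Cell α)) : CStmt α ι F :=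
  Stmt.seq (Stmt.loop (CTest.cell fun c => c ≠ Cell.left) (Stmt.prim (CPrim.go Move.left)))
    (Stmt.seq (Stmt.loop (CTest.nz i) (Stmt.seq (Stmt.prim (CPrim.dec i))
      (Stmt.prim (CPrim.go Move.right)))) (readC i cc l))

theorem exec_goLeft (p : ℕ) : ∀ (s : (ι → ℕ) × ℕ), s.2 = p →
    Exec (csem x W) body 1 (Stmt.loop (CTest.cell fun c => c ≠ Cell.left)
      (Stmt.prim (CPrim.go Move.left))) s (s.1, 0) := by
  induction p with
  | zero =>
    intro s hs
    refine (Exec.loopF _ _ _ _ ?_).cast (by rw [← hs])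
    simp only [csem, hs, ne_eq, not_not]
    rfl
  | succ p ih =>
    intro s hs
    refine Exec.loopT 0 _ _ _ _ _ ?_ (Exec.prim _ _ _ trivial) ((ih _ ?_).cast ?_)
    · simp only [csem, hs]
      rw [Ne, cell]
      cases x[p]? <;> simp
    · simp only [csem, hs]
      rfl
    · rfl

theorem cell_min (x : List α) (p : ℕ) : cell x (min p (x.length + 1)) = cell x p := by
  rcases Nat.le_total p (x.length + 1) with h | h
  · rw [min_eq_left h]
  · rw [min_eq_right h]
    obtain ⟨q, rfl⟩ : ∃ q, p = q + 1 := ⟨p - 1, by omega⟩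
    simp only [cell]
    rw [List.getElem?_eq_none (by omega), List.getElem?_eq_none (by omega)]

theorem exec_inpC (i : ι) (cc : Cell α → ℕ) (B : ℕ) (hB : ∀ c, cc c ≤ B) (hW : ∀ c, cc c < W)
    (l : List (Cell α)) (hl : ∀ c, c ∈ l) (s : (ι → ℕ) × ℕ) :
    ∃ p, Exec (csem x W) body (B + 4) (inpC i cc l) s (upd s.1 i (cc (cell x (s.1 i))), p) := by
  refine ⟨min (s.1 i) (x.length + 1), ?_⟩
  refine Exec.seq (B + 3) _ _ _ _ _ ((exec_goLeft s.2 s rfl).mono (by omega)) ?_
  refine Exec.seq (B + 3) _ _ _ (upd s.1 i 0, min (s.1 i) (x.length + 1)) _ ?_ ?_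
  · refine Exec.mono (by omega : 2 ≤ B + 3) (exec_loop (d := 1) i _
      (fun n => (upd s.1 i n, min (s.1 i - n) (x.length + 1))) (fun n => by simp) (s.1 i)
      (fun n hn => ?_) ?_ ?_)
    · refine Exec.seq _ _ _ _ _ _ (exec_dec i _)
        ((Exec.prim (M := csem x W) _ (CPrim.go Move.right) _ trivial).cast ?_)
      refine Prod.ext ?_ ?_
      · simp only [csem, upd_self, upd_upd]
        congr 1
      · simp only [csem, Move.apply]
        omega
    · simp
    · simp
  · refine (Exec.mono (by omega : B ≤ B + 3 + 1) (exec_readC i cc B hB hW l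
      (upd s.1 i 0, min (s.1 i) (x.length + 1)) (hl _) (by simp))).cast ?_
    simp only [upd_upd, cell_min]

end

/-! ### Compilation of expressions -/

section

variable {α R F : Type} (cc : Cell α → ℕ) (l : List (Cell α)) (K : ℕ)

/-- The temporary counters. -/
def tm (R : Type) (K d : ℕ) : R ⊕ Fin (K + 1) := Sum.inr ⟨d % (K + 1), Nat.mod_lt _ (Nat.succ_pos _)⟩

theorem tm_ne {d e : ℕ} (hd : d ≤ K) (he : e ≤ K) (h : d ≠ e) : tm R K d ≠ tm R K e := by
  intro h'
  rw [tm, tm, Sum.inr.injEq, Fin.mk.injEq, Nat.mod_eq_of_lt (by omega),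
    Nat.mod_eq_of_lt (by omega)] at h'
  exact h h'

theorem inl_ne_tm {r : R} {d : ℕ} : (Sum.inl r : R ⊕ Fin (K + 1)) ≠ tm R K d := by
  simp [tm]

/-- Compute the value of an expression in the temporary counter `d`. -/
def comp : Exp R → ℕ → CStmt α (R ⊕ Fin (K + 1)) F
  | Exp.var r, d => Stmt.seq (mov2 (Sum.inl r) (tm R K d) (tm R K (d + 1)))
      (mov (tm R K (d + 1)) (Sum.inl r))
  | Exp.lit k, d => incs (tm R K d) k
  | Exp.add a b, d => Stmt.seq (comp a d) (Stmt.seq (comp b (d + 1))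
      (mov (tm R K (d + 1)) (tm R K d)))
  | Exp.sub a b, d => Stmt.seq (comp a d) (Stmt.seq (comp b (d + 1))
      (subC (tm R K (d + 1)) (tm R K d)))
  | Exp.mul a b, d => Stmt.seq (comp a d) (Stmt.seq (comp b (d + 1))
      (mulC (tm R K d) (tm R K (d + 1)) (tm R K (d + 2)) (tm R K (d + 3))))
  | Exp.div a b, d => Stmt.seq (comp a d) (Stmt.seq (comp b (d + 1))
      (divC (tm R K d) (tm R K (d + 1)) (tm R K (d + 2)) (tm R K (d + 3))))
  | Exp.mod a b, d => Stmt.seq (comp a d) (Stmt.seq (comp b (d + 1))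
      (modC (tm R K d) (tm R K (d + 1)) (tm R K (d + 2)) (tm R K (d + 3))))
  | Exp.tab f k a, d => Stmt.seq (comp a d) (tabC (tm R K d) k f)
  | Exp.inp a, d => Stmt.seq (comp a d) (inpC (tm R K d) cc l)

/-- A bound for the depth needed. -/
def Exp.cd (B : ℕ) : Exp R → ℕ
  | Exp.var _ => 4
  | Exp.lit k => k
  | Exp.add a b => max (a.cd B) (b.cd B) + 10
  | Exp.sub a b => max (a.cd B) (b.cd B) + 10
  | Exp.mul a b => max (a.cd B) (b.cd B) + 10
  | Exp.div a b => max (a.cd B) (b.cd B) + 10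
  | Exp.mod a b => max (a.cd B) (b.cd B) + 10
  | Exp.tab f k a => a.cd B + k + (Finset.range k).sup f + 1
  | Exp.inp a => a.cd B + B + 5

variable {cc l K} {x : List α} {W : ℕ} {body : F → CStmt α (R ⊕ Fin (K + 1)) F}

/-- Two expressions are evaluated; then a binary operation is executed. -/
theorem exec_bin {a b : Exp R} {d u v : ℕ} (hd : d + 3 ≤ K)
    {s : (R ⊕ Fin (K + 1) → ℕ) × ℕ} {s0 : R → ℕ} (hs : ∀ r, s.1 (Sum.inl r) = s0 r)
    (h0 : ∀ j, d ≤ j → j ≤ K → s.1 (tm R K j) = 0) {va vb vc : ℕ} {C : CStmt α _ F}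
    (ha : ∀ s : (R ⊕ Fin (K + 1) → ℕ) × ℕ, (∀ r, s.1 (Sum.inl r) = s0 r) →
      (∀ j, d ≤ j → j ≤ K → s.1 (tm R K j) = 0) →
      ∃ p, Exec (csem x W) body u (comp cc l K a d) s (upd s.1 (tm R K d) va, p))
    (hb : ∀ s : (R ⊕ Fin (K + 1) → ℕ) × ℕ, (∀ r, s.1 (Sum.inl r) = s0 r) →
      (∀ j, d + 1 ≤ j → j ≤ K → s.1 (tm R K j) = 0) →
      ∃ p, Exec (csem x W) body v (comp cc l K b (d + 1)) s (upd s.1 (tm R K (d + 1)) vb, p))
    (hC : ∀ s : (R ⊕ Fin (K + 1) → ℕ) × ℕ, s.1 (tm R K d) = va → s.1 (tm R K (d + 1)) = vb →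
      s.1 (tm R K (d + 2)) = 0 → s.1 (tm R K (d + 3)) = 0 →
      Exec (csem x W) body 9 C s (upd (upd s.1 (tm R K (d + 1)) 0) (tm R K d) vc, s.2)) :
    ∃ p, Exec (csem x W) body (max u v + 10) (Stmt.seq (comp cc l K a d)
      (Stmt.seq (comp cc l K b (d + 1)) C)) s (upd s.1 (tm R K d) vc, p) := by
  have n1 : ∀ j, d + 1 ≤ j → j ≤ K → tm R K j ≠ tm R K d := fun j h1 h2 =>
    tm_ne K h2 (by omega) (by omega)
  have n2 : ∀ j, d + 2 ≤ j → j ≤ K → tm R K j ≠ tm R K (d + 1) := fun j h1 h2 =>
    tm_ne K h2 (by omega) (by omega)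
  obtain ⟨p1, h1⟩ := ha s hs h0
  obtain ⟨p2, h2⟩ := hb (upd s.1 (tm R K d) va, p1) (fun r => by
    simp only [upd_ne (inl_ne_tm K), hs]) (fun j hj hj' => by
      simp only [upd_ne (n1 j hj hj')]
      exact h0 j (by omega) hj')
  have h3 := hC (upd (upd s.1 (tm R K d) va) (tm R K (d + 1)) vb, p2)
    (by simp only [upd_ne (n1 (d + 1) le_rfl (by omega)).symm, upd_self]) (by simp only [upd_self])
    (by
      simp only [upd_ne (n2 (d + 2) le_rfl (by omega)), upd_ne (n1 (d + 2) (by omega) (by omega))]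
      exact h0 _ (by omega) (by omega)) (by
      simp only [upd_ne (n2 (d + 3) (by omega) (by omega)),
        upd_ne (n1 (d + 3) (by omega) (by omega))]
      exact h0 _ (by omega) (by omega))
  refine ⟨p2, Exec.seq (max u v + 9) _ _ _ _ _ (h1.mono (by omega))
    (Exec.seq (max u v + 9) _ _ _ _ _ (h2.mono (by omega)) ((h3.mono (by omega)).cast ?_))⟩
  refine Prod.ext ?_ rfl
  simp only [upd_upd]
  funext k
  by_cases hk : k = tm R K d
  · subst hk
    simp only [upd_self]
  · by_cases hk' : k = tm R K (d + 1)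
    · subst hk'
      simp only [upd_ne hk, upd_self]
      exact (h0 _ (by omega) (by omega)).symm
    · simp only [upd_ne hk, upd_ne hk']

theorem comp_spec {B : ℕ} (hB : ∀ c, cc c ≤ B) (hl : ∀ c, c ∈ l) (e : Exp R) :
    ∀ (d : ℕ) (s : (R ⊕ Fin (K + 1) → ℕ) × ℕ) (s0 : R → ℕ), d + e.ht + 3 ≤ K →
      e.ok x cc W s0 → (∀ r, s.1 (Sum.inl r) = s0 r) →
      (∀ j, d ≤ j → j ≤ K → s.1 (tm R K j) = 0) →
      ∃ p, Exec (csem x W) body (e.cd B) (comp cc l K e d) s
        (upd s.1 (tm R K d) (e.eval x cc s0), p) := by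
  induction e with
  | var r =>
    intro d s s0 hd hok hs h0
    have hn : tm R K d ≠ tm R K (d + 1) := tm_ne K (by omega) (by omega) (by omega)
    have h1 := h0 d le_rfl (by omega)
    have h2 := h0 (d + 1) (by omega) (by omega)
    have h3 : s.1 (Sum.inl r) < W := by rw [hs]; exact hok
    refine ⟨s.2, Exec.seq 3 _ _ _ _ _ (exec_mov2 (Sum.inl r) (tm R K d) (tm R K (d + 1))
      (inl_ne_tm K) (inl_ne_tm K) hn s (by omega) (by omega))
      (((exec_mov (tm R K (d + 1)) (Sum.inl r) (inl_ne_tm K).symm _ ?_).mono (by omega)).cast ?_)⟩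
    · simp only [upd_self, upd_ne (inl_ne_tm K), h2]
      omega
    · refine Prod.ext ?_ rfl
      funext k
      by_cases hk : k = Sum.inl r
      · subst hk
        simp only [upd_self, upd_ne (inl_ne_tm K), h2]
        omega
      · by_cases hk1 : k = tm R K (d + 1)
        · subst hk1
          simp only [upd_ne hk, upd_self, upd_ne hn.symm, h2]
        · by_cases hk2 : k = tm R K d
          · subst hk2
            simp only [upd_ne hk, upd_ne hk1, upd_self, h1, Exp.eval, hs]
            omega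
          · simp only [upd_ne hk, upd_ne hk1, upd_ne hk2]
  | lit k =>
    intro d s s0 hd hok hs h0
    have h1 := h0 d le_rfl (by omega)
    refine ⟨s.2, (exec_incs (tm R K d) k s ?_).cast ?_⟩
    · rw [h1, Nat.zero_add]
      exact hok
    · rw [h1, Nat.zero_add]
      rfl
  | add a b iha ihb =>
    intro d s s0 hd hok hs h0
    simp only [Exp.ht] at hd
    refine exec_bin (u := a.cd B) (v := b.cd B) (by omega) hs h0
      (fun s hs h => iha d s s0 (by omega) hok.1 hs h)
      (fun s hs h => ihb (d + 1) s s0 (by omega) hok.2.1 hs h) (fun s h1 h2 _ _ => ?_)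
    have hn : tm R K (d + 1) ≠ tm R K d := tm_ne K (by omega) (by omega) (by omega)
    refine ((exec_mov _ _ hn s ?_).mono (by omega)).cast ?_
    · have := hok.2.2
      rw [h1, h2]
      omega
    · rw [h1, h2, Nat.add_comm (b.eval x cc s0)]
      rfl
  | sub a b iha ihb =>
    intro d s s0 hd hok hs h0
    simp only [Exp.ht] at hd
    refine exec_bin (u := a.cd B) (v := b.cd B) (by omega) hs h0
      (fun s hs h => iha d s s0 (by omega) hok.1 hs h)
      (fun s hs h => ihb (d + 1) s s0 (by omega) hok.2 hs h) (fun s h1 h2 _ _ => ?_)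
    have hn : tm R K (d + 1) ≠ tm R K d := tm_ne K (by omega) (by omega) (by omega)
    refine ((exec_subC _ _ hn s).mono (by omega)).cast ?_
    rw [h1, h2]
    rfl
  | mul a b iha ihb =>
    intro d s s0 hd hok hs h0
    simp only [Exp.ht] at hd
    refine exec_bin (u := a.cd B) (v := b.cd B) (by omega) hs h0
      (fun s hs h => iha d s s0 (by omega) hok.1 hs h)
      (fun s hs h => ihb (d + 1) s s0 (by omega) hok.2.1 hs h) (fun s h1 h2 h3 h4 => ?_)
    refine ((exec_mulC _ _ _ _ (tm_ne K (by omega) (by omega) (by omega))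
      (tm_ne K (by omega) (by omega) (by omega)) (tm_ne K (by omega) (by omega) (by omega))
      (tm_ne K (by omega) (by omega) (by omega)) (tm_ne K (by omega) (by omega) (by omega))
      (tm_ne K (by omega) (by omega) (by omega)) s h3 h4 ?_ ?_).mono (by omega)).cast ?_
    · rw [h1]; exact hok.1.lt
    · rw [h1, h2]; exact hok.2.2
    · rw [h1, h2]
      rfl
  | div a b iha ihb =>
    intro d s s0 hd hok hs h0
    simp only [Exp.ht] at hd
    refine exec_bin (u := a.cd B) (v := b.cd B) (by omega) hs h0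
      (fun s hs h => iha d s s0 (by omega) hok.1 hs h)
      (fun s hs h => ihb (d + 1) s s0 (by omega) hok.2 hs h) (fun s h1 h2 h3 h4 => ?_)
    refine ((exec_divC _ _ _ _ (tm_ne K (by omega) (by omega) (by omega))
      (tm_ne K (by omega) (by omega) (by omega)) (tm_ne K (by omega) (by omega) (by omega))
      (tm_ne K (by omega) (by omega) (by omega)) (tm_ne K (by omega) (by omega) (by omega))
      (tm_ne K (by omega) (by omega) (by omega)) s h3 h4 ?_ ?_).mono (by omega)).cast ?_
    · rw [h1]; exact hok.1.lt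
    · rw [h2]; exact hok.2.lt
    · rw [h1, h2]
      rfl
  | mod a b iha ihb =>
    intro d s s0 hd hok hs h0
    simp only [Exp.ht] at hd
    refine exec_bin (u := a.cd B) (v := b.cd B) (by omega) hs h0
      (fun s hs h => iha d s s0 (by omega) hok.1 hs h)
      (fun s hs h => ihb (d + 1) s s0 (by omega) hok.2 hs h) (fun s h1 h2 h3 h4 => ?_)
    refine ((exec_modC _ _ _ _ (tm_ne K (by omega) (by omega) (by omega))
      (tm_ne K (by omega) (by omega) (by omega)) (tm_ne K (by omega) (by omega) (by omega))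
      (tm_ne K (by omega) (by omega) (by omega)) (tm_ne K (by omega) (by omega) (by omega))
      (tm_ne K (by omega) (by omega) (by omega)) s h3 h4 ?_ ?_).mono (by omega)).cast ?_
    · rw [h1]; exact hok.1.lt
    · rw [h2]; exact hok.2.lt
    · rw [h1, h2]
      rfl
  | tab f k a iha =>
    intro d s s0 hd hok hs h0
    simp only [Exp.ht] at hd
    obtain ⟨p, h1⟩ := iha d s s0 (by omega) hok.1 hs h0
    have h2 := exec_tabC (x := x) (W := W) (body := body) (tm R K d) k f ((Finset.range k).sup f)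
      (upd s.1 (tm R K d) (a.eval x cc s0), p)
      (fun j hj => ⟨hok.2 j hj, Finset.le_sup (f := f) (Finset.mem_range.2 hj)⟩)
    refine ⟨p, ?_⟩
    have e : (Exp.tab f k a).cd B = (a.cd B + k + (Finset.range k).sup f) + 1 := rfl
    rw [e]
    refine Exec.seq _ _ _ _ _ _ (h1.mono (by omega)) ((h2.mono (by omega)).cast ?_)
    simp only [upd_self, upd_upd]
    rfl
  | inp a iha =>
    intro d s s0 hd hok hs h0
    simp only [Exp.ht] at hd
    obtain ⟨p, h1⟩ := iha d s s0 (by omega) hok.1 hs h0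
    obtain ⟨p', h2⟩ := exec_inpC (x := x) (W := W) (body := body) (tm R K d) cc B hB hok.2 l hl
      (upd s.1 (tm R K d) (a.eval x cc s0), p)
    refine ⟨p', ?_⟩
    have e : (Exp.inp a).cd B = (a.cd B + B + 4) + 1 := rfl
    rw [e]
    refine Exec.seq _ _ _ _ _ _ (h1.mono (by omega)) ((h2.mono (by omega)).cast ?_)
    simp only [upd_self, upd_upd]
    rfl

end

/-! ### Programs with assignments -/

/-- Assignments of expressions to registers. -/
structure Asg (R : Type) where
  reg : R
  exp : Exp R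

/-- Programs with assignments; a test is a register, it holds iff the register is not zero. -/
abbrev AStmt (R F : Type) : Type := Stmt (Asg R) R F

/-- The semantics of programs with assignments whose values are less than `W`. -/
noncomputable def asem {α R : Type} (x : List α) (cc : Cell α → ℕ) (W : ℕ) :
    Sem (Asg R) R (R → ℕ) where
  act p s := upd s p.reg (p.exp.eval x cc s)
  pre p s := p.exp.ok x cc W s
  test r s := s r ≠ 0

/-- The translation of an assignment. -/
def trA {α R F : Type} (cc : Cell α → ℕ) (l : List (Cell α)) (K : ℕ) (p : Asg R) :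
    CStmt α (R ⊕ Fin (K + 1)) F :=
  Stmt.seq (comp cc l K p.exp 0) (Stmt.seq (clr (Sum.inl p.reg)) (mov (tm R K 0) (Sum.inl p.reg)))

/-- The translation of a test. -/
def trR (α : Type) {R : Type} (K : ℕ) (r : R) : CTest α (R ⊕ Fin (K + 1)) := CTest.nz (Sum.inl r)

theorem exec_asg {α R F : Type} (cc : Cell α → ℕ) (l : List (Cell α)) (hl : ∀ c, c ∈ l)
    {B D K : ℕ} (hB : ∀ c, cc c ≤ B) {body : F → AStmt R F} {a : AStmt R F}
    (hK : ∀ f, (body f).all fun p => p.exp.ht + 3 ≤ K ∧ p.exp.cd B ≤ D)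
    (ha : a.all fun p => p.exp.ht + 3 ≤ K ∧ p.exp.cd B ≤ D)
    {x : List α} {W d : ℕ} {s t : R → ℕ} (h : Exec (asem x cc W) body d a s t)
    (hs : ∀ r, s r < W) :
    ∃ t' : (R ⊕ Fin (K + 1) → ℕ) × ℕ, Exec (csem x W)
      (fun f => (body f).tr (trA cc l K) (trR α K)) (d + (D + 4)) (a.tr (trA cc l K) (trR α K))
      (Sum.elim s fun _ => 0, 0) t' ∧ (∀ r, t'.1 (Sum.inl r) = t r) := by
  let R' : (R → ℕ) → (R ⊕ Fin (K + 1) → ℕ) × ℕ → Prop :=
    fun s s' => (∀ r, s'.1 (Sum.inl r) = s r) ∧ (∀ j, s'.1 (Sum.inr j) = 0) ∧ ∀ r, s r < W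
  have hp : ∀ (p : Asg R) s s', (p.exp.ht + 3 ≤ K ∧ p.exp.cd B ≤ D) →
      (asem x cc W).pre p s → R' s s' → ∃ t', Exec (csem x W)
        (fun f => (body f).tr (trA cc l K) (trR α K)) (D + 4) (trA cc l K p) s' t' ∧
        R' ((asem x cc W).act p s) t' := by
    rintro ⟨r, e⟩ s s' ⟨hK1, hD1⟩ hpre ⟨h1, h2, h3⟩
    obtain ⟨p, h4⟩ := comp_spec (body := fun f => (body f).tr (trA cc l K) (trR α K)) hB hl e 0 s' s
      (by simpa using hK1) hpre h1 (fun j _ _ => h2 _)
    have h5 := h2 ⟨0 % (K + 1), Nat.mod_lt _ (Nat.succ_pos _)⟩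
    have hlt : e.eval x cc s < W := Exp.ok.lt hpre
    refine ⟨_, Exec.seq (D + 3) _ _ _ _ _ (h4.mono (by simp only at hD1; omega))
      (Exec.seq (D + 3) _ _ _ _ _ ((exec_clr (Sum.inl r) _).mono (by omega))
        ((exec_mov (tm R K 0) (Sum.inl r) (inl_ne_tm K).symm _ ?_).mono (by omega))), ?_, ?_, ?_⟩
    · simp only [upd_self, upd_ne (inl_ne_tm K).symm]
      omega
    · intro r'
      by_cases hr : r' = r
      · subst hr
        simp only [asem, upd_self, upd_ne (inl_ne_tm K).symm]
        rfl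
      · have hr' : (Sum.inl r' : R ⊕ Fin (K + 1)) ≠ Sum.inl r := by simpa using hr
        simp only [asem, upd_ne hr', upd_ne hr, upd_ne (inl_ne_tm K), h1]
    · intro j
      have hj : (Sum.inr j : R ⊕ Fin (K + 1)) ≠ Sum.inl r := by simp
      by_cases hj' : (Sum.inr j : R ⊕ Fin (K + 1)) = tm R K 0
      · rw [hj'] at hj ⊢
        simp only [upd_ne hj, upd_self]
      · simp only [upd_ne hj, upd_ne hj', h2]
    · intro r'
      by_cases hr : r' = r
      · subst hr
        simp only [asem, upd_self]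
        exact hlt
      · simp only [asem, upd_ne hr]
        exact h3 r'
  have ht : ∀ t s s', R' s s' → ((csem x W).test (trR α K t) s' ↔ (asem x cc W).test t s) := by
    rintro t s s' ⟨h1, h2, h3⟩
    simp only [csem, asem, h1, trR]
  obtain ⟨t', h1, h2⟩ := Exec.tr (R := R') (ft := trR α K) hK hp ht h ha
    (Sum.elim s fun _ => 0, 0) ⟨fun _ => rfl, fun _ => rfl, hs⟩
  exact ⟨t', h1, h2.1⟩

theorem exists_cells (α : Type) [Finite α] : ∃ l : List (Cell α), ∀ c, c ∈ l := by
  have : Fintype α := Fintype.ofFinite α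
  refine ⟨Cell.left :: Cell.right :: (Finset.univ.toList.map Cell.letter), fun c => ?_⟩
  cases c <;> simp

/-- A program with assignments which terminates on all inputs is executed by a Turing machine. Its
space is bounded by the length of the numbers and by the depth of the execution. -/
theorem exists_TM_of_program {α R F : Type} [Finite α] [Finite R] [Finite F] (cc : Cell α → ℕ)
    (body : F → AStmt R F) (a : AStmt R F) (out : R) :
    ∃ c : ℕ, ∀ (L : List α → Prop) (m d : ℕ → ℕ),
      (∀ x : List α, ∃ t, Exec (asem x cc (2 ^ m x.length)) body (d x.length) a (fun _ => 0) t ∧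
        (t out ≠ 0 ↔ L x)) → ∃ A : TM α, A.DecidesIn L fun n => m n + d n + c := by
  obtain ⟨l, hl⟩ := exists_cells α
  obtain ⟨B, hB⟩ : ∃ B, ∀ c, cc c ≤ B :=
    ⟨l.foldr (fun c b => max (cc c) b) 0, fun c => by
      have : ∀ (l : List (Cell α)), c ∈ l → cc c ≤ l.foldr (fun c b => max (cc c) b) 0 := by
        intro l
        induction l with
        | nil => intro h; exact absurd h (by simp)
        | cons e l ih =>
          intro h
          rw [List.foldr_cons]
          rcases List.mem_cons.1 h with rfl | h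
          · exact le_max_left _ _
          · exact le_max_of_le_right (ih h)
      exact this l (hl c)⟩
  obtain ⟨D, hD1, hD2⟩ := Stmt.exists_bound_all
    (fun p : Asg R => max (p.exp.ht + 3) (p.exp.cd B)) body a
  have conv : ∀ p : Asg R, max (p.exp.ht + 3) (p.exp.cd B) ≤ D →
      p.exp.ht + 3 ≤ D ∧ p.exp.cd B ≤ D := fun p h =>
    ⟨(le_max_left _ _).trans h, (le_max_right _ _).trans h⟩
  have hG := fun f => Stmt.all_mono conv (body f) (hD1 f)
  have hGa := Stmt.all_mono conv a hD2
  refine ⟨D + 12, fun L m d h => ?_⟩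
  have key := exists_TM (α := α) (fun f => ((body f).tr (trA cc l D) (trR α D)).tr trC trT)
    ((a.tr (trA cc l D) (trR α D)).tr trC trT) (some (Sum.inl out)) L (fun n => m n + 1)
    (fun n => d n + (D + 4) + 5) (fun x => by
      obtain ⟨t, h1, h2⟩ := h x
      obtain ⟨t', h3, h4⟩ := exec_asg cc l hl hB hG hGa h1 (fun _ => by positivity)
      obtain ⟨t'', h5, h6⟩ := exec_counter h3 (fun i => by
        cases i <;> simp) (fun _ => [], 0) ⟨rfl, rfl, fun i => by cases i <;> simp⟩
      refine ⟨t'', h5, ?_⟩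
      rw [← h2, h6.2.2, h4]
      constructor
      · intro h7 h8
        rw [h8] at h7
        exact h7 (by simp)
      · exact bits_ne_nil)
  obtain ⟨A, hA⟩ := key
  refine ⟨A, fun x => ⟨(hA x).1, fun c hc j => ?_⟩⟩
  have h1 := (hA x).2 c hc j
  simp only at h1 ⊢
  refine h1.trans_le ?_
  rw [max_add_add_right, ← Nat.succ_eq_add_one]
  omega

end Pool.Agent.Lib.MP_9277c3_lc.CM
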