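import Pool.Agent.Lib.MP_9277c3_lc.helper78.CM.Alg

/-!
# Vectors over a prime field, stored as numbers

A vector of `m` elements of `ZMod p` is stored as a number with `m` digits in base `p`. We prove the
identity of Cook and Mertz.
-/

namespace Pool.Agent.Lib.MP_9277c3_lc.CM

open Finset

section

variable {p : ℕ}

/-- The number which stores the first `m` entries of a vector. -/
def encZ (m : ℕ) (V : ℕ → ZMod p) : ℕ := ∑ i ∈ range m, (V i).val * p ^ i

/-- The vector of the bits of `z`. -/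
def bt (p z i : ℕ) : ZMod p := ((z / 2 ^ i % 2 : ℕ) : ZMod p)

/-- The polynomial which tests whether the vector is the vector of the first `m` bits of `z`. -/
def dlt (m z : ℕ) (V : ℕ → ZMod p) : ZMod p :=
  ∏ i ∈ range m, (bt p z i * V i + (1 - bt p z i) * (1 - V i))

theorem encZ_succ (m : ℕ) (V : ℕ → ZMod p) :
    encZ (m + 1) V = (V 0).val + p * encZ m (fun i => V (i + 1)) := by
  rw [encZ, sum_range_succ', encZ, mul_sum]
  rw [pow_zero, mul_one, Nat.add_comm]
  congr 1
  refine sum_congr rfl fun i _ => ?_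
  rw [pow_succ]
  ring

theorem encZ_succ' (m : ℕ) (V : ℕ → ZMod p) :
    encZ (m + 1) V = encZ m V + (V m).val * p ^ m := by
  rw [encZ, sum_range_succ, encZ]

theorem encZ_congr {m : ℕ} {V W : ℕ → ZMod p} (h : ∀ i < m, V i = W i) : encZ m V = encZ m W :=
  sum_congr rfl fun i hi => by rw [h i (mem_range.1 hi)]

theorem encZ_zero (m : ℕ) : encZ m (0 : ℕ → ZMod p) = 0 := by
  rw [encZ]
  exact sum_eq_zero fun i _ => by simp

variable [NeZero p]

theorem encZ_lt (m : ℕ) : ∀ V : ℕ → ZMod p, encZ m V < p ^ m := by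
  induction m with
  | zero => intro V; simp [encZ]
  | succ m ih =>
    intro V
    rw [encZ_succ]
    have h1 := ih fun i => V (i + 1)
    have h2 := ZMod.val_lt (V 0)
    rw [pow_succ]
    calc (V 0).val + p * encZ m (fun i => V (i + 1)) < p + p * encZ m (fun i => V (i + 1)) := by omega
      _ = p * (encZ m (fun i => V (i + 1)) + 1) := by ring
      _ ≤ p * p ^ m := Nat.mul_le_mul_left _ h1
      _ = p ^ m * p := by ring

theorem encZ_mod (m : ℕ) (V : ℕ → ZMod p) : encZ (m + 1) V % p = (V 0).val := by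
  rw [encZ_succ, Nat.add_mul_mod_self_left, Nat.mod_eq_of_lt (ZMod.val_lt _)]

theorem encZ_div (m : ℕ) (V : ℕ → ZMod p) : encZ (m + 1) V / p = encZ m fun i => V (i + 1) := by
  rw [encZ_succ, Nat.add_mul_div_left _ _ (NeZero.pos p), Nat.div_eq_of_lt (ZMod.val_lt _),
    Nat.zero_add]

theorem encZ_digit {m i : ℕ} (hi : i < m) (V : ℕ → ZMod p) : encZ m V / p ^ i % p = (V i).val := by
  induction i generalizing m V with
  | zero =>
    obtain ⟨m, rfl⟩ : ∃ k, m = k + 1 := ⟨m - 1, by omega⟩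
    rw [pow_zero, Nat.div_one, encZ_mod]
  | succ i ih =>
    obtain ⟨m, rfl⟩ : ∃ k, m = k + 1 := ⟨m - 1, by omega⟩
    rw [pow_succ', ← Nat.div_div_eq_div_mul, encZ_div]
    exact ih (by omega) _

/-- The vector during a rotation. -/
def rot (m : ℕ) (V F : ℕ → ZMod p) (k i : ℕ) : ZMod p := if i + k < m then V (i + k) else F (i + k - m)

theorem encZ_rot_zero (m : ℕ) (V F : ℕ → ZMod p) : encZ m (rot m V F 0) = encZ m V :=
  encZ_congr fun i hi => by rw [rot, if_pos (by omega), Nat.add_zero]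

theorem encZ_rot_last (m : ℕ) (V F : ℕ → ZMod p) : encZ m (rot m V F m) = encZ m F :=
  encZ_congr fun i hi => by rw [rot, if_neg (by omega), Nat.add_sub_cancel]

/-- One step of a rotation. -/
theorem rot_step {m k : ℕ} (hk : k < m) (V : ℕ → ZMod p) (a c z : ℕ) :
    encZ m (rot m V (fun i => (a : ZMod p) * V i + (c : ZMod p) * bt p z i) k) / p +
      (a * (encZ m (rot m V (fun i => (a : ZMod p) * V i + (c : ZMod p) * bt p z i) k) % p) +
        c * (z / 2 ^ k % 2)) % p * p ^ (m - 1) =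
      encZ m (rot m V (fun i => (a : ZMod p) * V i + (c : ZMod p) * bt p z i) (k + 1)) := by
  set F : ℕ → ZMod p := fun i => (a : ZMod p) * V i + (c : ZMod p) * bt p z i with hF
  obtain ⟨m, rfl⟩ : ∃ j, m = j + 1 := ⟨m - 1, by omega⟩
  rw [encZ_div, encZ_mod, Nat.add_sub_cancel, encZ_succ']
  have h1 : (a * (rot (m + 1) V F k 0).val + c * (z / 2 ^ k % 2)) % p =
      (rot (m + 1) V F (k + 1) m).val := by
    rw [rot, if_pos (by omega), rot, if_neg (by omega), Nat.zero_add, ← ZMod.val_natCast]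
    congr 1
    push_cast
    rw [ZMod.natCast_val, ZMod.cast_id', id_eq, show m + (k + 1) - (m + 1) = k by omega, hF]
    simp [bt]
  rw [h1]
  congr 1
  refine encZ_congr fun i hi => ?_
  rw [rot, rot, show i + 1 + k = i + (k + 1) by omega]

/-- One step of the computation of `dlt`. -/
theorem dlt_step {m k : ℕ} (hk : k < m) (V : ℕ → ZMod p) (z : ℕ) :
    ((dlt k z V).val * ((z / 2 ^ k % 2) * (encZ m V / p ^ k % p) +
      (1 - z / 2 ^ k % 2) * (p + 1 - encZ m V / p ^ k % p))) % p = (dlt (k + 1) z V).val := by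
  rw [encZ_digit hk, ← ZMod.val_natCast]
  congr 1
  rw [dlt, dlt, prod_range_succ]
  have h1 : z / 2 ^ k % 2 ≤ 1 := by omega
  have h2 : (V k).val ≤ p + 1 := (ZMod.val_lt _).le.trans (Nat.le_succ _)
  push_cast [Nat.cast_sub h1, Nat.cast_sub h2]
  rw [ZMod.natCast_val, ZMod.cast_id', id_eq, ZMod.natCast_val, ZMod.cast_id', id_eq]
  simp [bt]

end

theorem bt_eq_or (p z i : ℕ) : bt p z i = 0 ∨ bt p z i = 1 := by
  rcases Nat.mod_two_eq_zero_or_one (z / 2 ^ i) with h | h
  · left; rw [bt, h, Nat.cast_zero]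
  · right; rw [bt, h, Nat.cast_one]

/-- On vectors of bits, `dlt` is the Kronecker symbol. -/
theorem dlt_bt {p m x z : ℕ} (hx : x < 2 ^ m) (hz : z < 2 ^ m) :
    dlt m x (bt p z) = if x = z then 1 else 0 := by
  split_ifs with h
  · subst h
    rw [dlt]
    refine prod_eq_one fun i _ => ?_
    rcases bt_eq_or p x i with h | h <;> rw [h] <;> ring
  · have h1 : ∃ i < m, x / 2 ^ i % 2 ≠ z / 2 ^ i % 2 := by
      by_contra hcon
      push Not at hcon
      apply h
      refine Nat.eq_of_testBit_eq fun i => ?_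
      rcases Nat.lt_or_ge i m with hi | hi
      · rw [Nat.testBit_eq_decide_div_mod_eq, Nat.testBit_eq_decide_div_mod_eq, hcon i hi]
      · rw [Nat.testBit_eq_false_of_lt (hx.trans_le (Nat.pow_le_pow_right (by norm_num) hi)),
          Nat.testBit_eq_false_of_lt (hz.trans_le (Nat.pow_le_pow_right (by norm_num) hi))]
    obtain ⟨i, hi, h2⟩ := h1
    rw [dlt]
    refine prod_eq_zero (mem_range.2 hi) ?_
    rcases Nat.mod_two_eq_zero_or_one (x / 2 ^ i) with h3 | h3 <;>
      rcases Nat.mod_two_eq_zero_or_one (z / 2 ^ i) with h4 | h4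
    · exact absurd (h3.trans h4.symm) h2
    · simp [bt, h3, h4]
    · simp [bt, h3, h4]
    · exact absurd (h3.trans h4.symm) h2

/-- The sum of the values of a polynomial of small degree. -/
theorem sum_eval {p : ℕ} [Fact p.Prime] (P : Polynomial (ZMod p)) (hP : P.natDegree < p - 1) :
    ∑ k ∈ range (p - 1), P.eval ((k + 1 : ℕ) : ZMod p) = -P.eval 0 := by
  have hp := (Fact.out : p.Prime)
  have h1 : ∑ w : ZMod p, P.eval w = 0 := by
    simp only [Polynomial.eval_eq_sum_range]
    rw [sum_comm]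
    refine sum_eq_zero fun i hi => ?_
    rw [← mul_sum, FiniteField.sum_pow_lt_card_sub_one, mul_zero]
    rw [ZMod.card]
    have := mem_range.1 hi
    omega
  have h2 : ∑ k ∈ range p, P.eval ((k : ℕ) : ZMod p) = ∑ w : ZMod p, P.eval w := by
    refine sum_bij' (fun k _ => (k : ZMod p)) (fun w _ => w.val) (fun _ _ => mem_univ _)
      (fun w _ => mem_range.2 (ZMod.val_lt w)) (fun k hk => ZMod.val_cast_of_lt (mem_range.1 hk))
      (fun w _ => by rw [ZMod.natCast_val, ZMod.cast_id', id_eq]) (fun _ _ => rfl)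
  obtain ⟨q, hq⟩ : ∃ q, p = q + 1 := ⟨p - 1, by have := hp.pos; omega⟩
  rw [show range p = range ((p - 1) + 1) by congr 1; omega, sum_range_succ', h1] at h2
  rw [Nat.cast_zero] at h2
  exact eq_neg_of_add_eq_zero_left h2

open Polynomial in
/-- The factors of `dlt` on a line. -/
theorem dlt_line {p : ℕ} (m z : ℕ) (V U : ℕ → ZMod p) : ∃ P : Polynomial (ZMod p),
    P.natDegree ≤ m ∧ ∀ w, P.eval w = dlt m z fun i => w * V i + U i := by
  refine ⟨∏ i ∈ range m, (C (bt p z i) * (X * C (V i) + C (U i)) +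
    (1 - C (bt p z i)) * (1 - (X * C (V i) + C (U i)))), ?_, fun w => ?_⟩
  · refine (natDegree_prod_le _ _).trans ?_
    refine (sum_le_card_nsmul _ _ 1 fun i _ => ?_).trans (by simp)
    have h1 : (X * C (V i) + C (U i) : (ZMod p)[X]).natDegree ≤ 1 := by
      rw [natDegree_add_C]
      refine natDegree_mul_le.trans ?_
      rw [natDegree_C, Nat.add_zero]
      exact natDegree_X_le
    refine (natDegree_add_le _ _).trans (max_le ?_ ?_)
    · refine natDegree_mul_le.trans ?_
      rw [natDegree_C, Nat.zero_add]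
      exact h1
    · refine natDegree_mul_le.trans ?_
      have h2 : (1 - C (bt p z i) : (ZMod p)[X]).natDegree = 0 := by
        rw [← C_1, ← C_sub, natDegree_C]
      rw [h2, Nat.zero_add]
      refine (natDegree_sub_le _ _).trans (max_le ?_ h1)
      rw [natDegree_one]
      exact Nat.zero_le _
  · rw [eval_prod, dlt]
    refine prod_congr rfl fun i _ => ?_
    simp only [eval_add, eval_mul, eval_sub, eval_C, eval_X, eval_one]

/-- The identity of Cook and Mertz. -/
theorem cook_mertz {p m : ℕ} [Fact p.Prime] (hm : 2 * m < p - 1) (x y : ℕ) (V₁ V₂ U₁ U₂ : ℕ → ZMod p) :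
    ∑ k ∈ range (p - 1), dlt m x (fun i => ((k + 1 : ℕ) : ZMod p) * V₁ i + U₁ i) *
      dlt m y (fun i => ((k + 1 : ℕ) : ZMod p) * V₂ i + U₂ i) = -(dlt m x U₁ * dlt m y U₂) := by
  obtain ⟨P, hP, hP'⟩ := dlt_line m x V₁ U₁
  obtain ⟨Q, hQ, hQ'⟩ := dlt_line m y V₂ U₂
  have h1 := sum_eval (P * Q) (Polynomial.natDegree_mul_le.trans_lt (by omega))
  simp only [Polynomial.eval_mul, hP', hQ', zero_mul, zero_add] at h1
  exact h1

/-- The vector which is added for one pair of vectors. -/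
def evl (p m : ℕ) (ind : ℕ → ℕ) (G : ℕ → ℕ → ℕ) (U₁ U₂ : ℕ → ZMod p) (i : ℕ) : ZMod p :=
  ∑ x ∈ range (2 ^ m), ∑ y ∈ range (2 ^ m),
    -(dlt m x U₁ * dlt m y U₂) * (ind x : ZMod p) * bt p (G x y) i

theorem cook_mertz_sum {p m : ℕ} [Fact p.Prime] (hm : 2 * m < p - 1) (ind : ℕ → ℕ)
    (G : ℕ → ℕ → ℕ) (V₁ V₂ : ℕ → ZMod p) {s t : ℕ} (hs : s < 2 ^ m) (ht : t < 2 ^ m) (i : ℕ) :
    ∑ k ∈ range (p - 1), evl p m ind G (fun i => ((k + 1 : ℕ) : ZMod p) * V₁ i + bt p s i)
      (fun i => ((k + 1 : ℕ) : ZMod p) * V₂ i + bt p t i) i = (ind s : ZMod p) * bt p (G s t) i := by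
  simp only [evl]
  rw [sum_comm]
  have h1 : ∀ x ∈ range (2 ^ m), ∑ k ∈ range (p - 1), ∑ y ∈ range (2 ^ m),
      -(dlt m x (fun i => ((k + 1 : ℕ) : ZMod p) * V₁ i + bt p s i) *
        dlt m y (fun i => ((k + 1 : ℕ) : ZMod p) * V₂ i + bt p t i)) * (ind x : ZMod p) *
          bt p (G x y) i =
      ∑ y ∈ range (2 ^ m), (if x = s then 1 else 0) * (if y = t then 1 else 0) *
        (ind x : ZMod p) * bt p (G x y) i := by
    intro x hx
    rw [sum_comm]
    refine sum_congr rfl fun y hy => ?_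
    rw [← sum_mul, ← sum_mul, sum_neg_distrib, cook_mertz hm, neg_neg,
      dlt_bt (mem_range.1 hx) hs, dlt_bt (mem_range.1 hy) ht]
  rw [sum_congr rfl h1, sum_eq_single_of_mem s (mem_range.2 hs), sum_eq_single_of_mem t
    (mem_range.2 ht)]
  · simp
  · intro y _ hy
    simp [hy]
  · intro x _ hx
    simp [hx]

/-! ### States of the history machine as numbers -/

/-- The number of a state. -/
def pk (N : ℕ) (h : HS) : ℕ :=
  h.u + N * (h.tgt + N * (h.r + N * (h.ptgt + N * (h.par + N * h.md))))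

/-- The state of a number. -/
def upk (N z : ℕ) : HS where
  u := z % N
  tgt := z / N % N
  r := z / N / N % N
  ptgt := z / N / N / N % N
  par := z / N / N / N / N % N
  md := z / N / N / N / N / N

/-- States with small entries. -/
structure HSB (N : ℕ) (h : HS) : Prop where
  u : h.u < N
  tgt : h.tgt < N
  r : h.r < N
  ptgt : h.ptgt < N
  par : h.par < N
  md : h.md < 4

theorem upk_pk {N : ℕ} {h : HS} (hh : HSB N h) : upk N (pk N h) = h := by
  have hN : 0 < N := (Nat.zero_le _).trans_lt hh.u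
  have d1 : ∀ a b, a < N → (a + N * b) / N = b := fun a b ha => by
    rw [Nat.add_mul_div_left _ _ hN, Nat.div_eq_of_lt ha, Nat.zero_add]
  have d2 : ∀ a b, a < N → (a + N * b) % N = a := fun a b ha => by
    rw [Nat.add_mul_mod_self_left, Nat.mod_eq_of_lt ha]
  unfold upk pk
  rw [d1 _ _ hh.u, d1 _ _ hh.tgt, d1 _ _ hh.r, d1 _ _ hh.ptgt, d1 _ _ hh.par, d2 _ _ hh.u,
    d2 _ _ hh.tgt, d2 _ _ hh.r, d2 _ _ hh.ptgt, d2 _ _ hh.par]

theorem pk_lt {N : ℕ} {h : HS} (hh : HSB N h) : pk N h < 4 * N ^ 5 := by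
  have step : ∀ a b M, a < N → b < M → a + N * b < N * M := fun a b M ha hb => by
    calc a + N * b < N + N * b := by omega
      _ = N * (b + 1) := by ring
      _ ≤ N * M := Nat.mul_le_mul_left _ hb
  have h1 := step _ _ _ hh.u (step _ _ _ hh.tgt (step _ _ _ hh.r (step _ _ _ hh.ptgt
    (step _ _ _ hh.par hh.md))))
  refine h1.trans_le (le_of_eq ?_)
  ring

/-- Values are small. -/
theorem Ev.val_lt {S : Sys} {N : ℕ} (h : ∀ v, S.nx v + 1 < N) {v c s : ℕ} (hev : Ev S v c s) :
    c + 1 < N := by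
  induction hev with
  | done v _ => exact h v
  | unary _ _ _ _ _ ih => exact ih
  | binary _ _ _ _ _ _ _ _ _ _ ih => exact ih

theorem small_lt {S : Sys} {N : ℕ} (hC : Sys.Closed S N) (h : ∀ v, S.nx v + 1 < N) (T l : ℕ)
    {v : ℕ} (hv : v < N) : S.small N T l v < N := by
  rcases Nat.eq_zero_or_pos (S.small N T l v) with h0 | h0
  · rw [h0]
    exact (Nat.zero_le _).trans_lt hv
  · obtain ⟨c, hc⟩ : ∃ c, S.small N T l v = c + 1 := ⟨S.small N T l v - 1, by omega⟩
    obtain ⟨s, hs⟩ := Sys.small_sound hC T l v hv c hc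
    rw [hc]
    exact hs.val_lt h

theorem scan_lt {S : Sys} {O : ℕ → ℕ} {N : ℕ} (hC : Sys.Closed S N) (tgt : ℕ) {q : ℕ × ℕ}
    (hq : q.1 < N ∧ q.2 ≤ N) (k : ℕ) :
    ((S.scanF O tgt)^[k] q).1 < N ∧ ((S.scanF O tgt)^[k] q).2 ≤ N := by
  induction k with
  | zero => exact hq
  | succ k ih =>
    rw [Function.iterate_succ_apply', Sys.scanF]
    split_ifs with h1 h2
    · exact ih
    · exact ⟨hC.nxt ih.1, ih.1⟩
    · exact ⟨hC.nxt ih.1, ih.2⟩

theorem asc_lt {S : Sys} {O : ℕ → ℕ} {N : ℕ} (hC : Sys.Closed S N) (hO : ∀ v, v < N → O v < N)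
    {u : ℕ} (hu : u < N) {q : ℕ × ℕ × ℕ} (hq : q.1 < N ∧ q.2.1 + 1 < N) (k : ℕ) :
    ((S.ascF O u N)^[k] q).1 < N ∧ ((S.ascF O u N)^[k] q).2.1 + 1 < N := by
  induction k with
  | zero => exact hq
  | succ k ih =>
    rw [Function.iterate_succ_apply', Sys.ascF]
    have h3 := scan_lt (O := O) hC ((S.ascF O u N)^[k] q).1 (q := (u, 0)) ⟨hu, Nat.zero_le _⟩ N
    split_ifs with h1 h2 h4
    · exact ih
    · exact ⟨by simp only; omega, ih.2⟩
    · exact ⟨by simp only; omega, ih.2⟩
    · refine ⟨by simp only; omega, ?_⟩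
      have h5 := hO (S.kont (((S.scanF O ((S.ascF O u N)^[k] q).1)^[N] (u, 0)).2 - 1)
        ((S.ascF O u N)^[k] q).2.1) (hC.kont _ _)
      simp only
      omega

/-- The states in the history have small entries. -/
theorem hist_HSB {S : Sys} {O : ℕ → ℕ} {N T : ℕ} (hC : Sys.Closed S N)
    (hr : ∀ v, S.nx v + 1 < N) (hO : ∀ v, v < N → O v < N) {v : ℕ} (hv : v < N) (hT : T < N) (t : ℕ) :
    t ≤ T → HSB N (S.hist O N v t) ∧ ((S.hist O N v t).md ≠ 0 → (S.hist O N v t).r + 1 < N) ∧
      (S.hist O N v t).par ≤ t := by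
  have hN0 : 0 < N := by omega
  have hN1 : 1 < N := by have := hr 0; omega
  induction t using Nat.strongRecOn with
  | ind t ih =>
    intro ht
    cases t with
    | zero =>
      rw [Sys.hist_zero]
      exact ⟨⟨hv, hN0, hN0, hN0, hN0, by norm_num⟩, fun _ => hN1, le_rfl⟩
    | succ t =>
      obtain ⟨x1, x2, x3⟩ := ih t (Nat.lt_succ_self _) (by omega)
      obtain ⟨y1, y2, y3⟩ := ih (min ((S.hist O N v t).par - 1) t) (by omega) (by omega)
      rw [Sys.hist_succ]
      generalize S.hist O N v t = x at *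
      generalize S.hist O N v (min (x.par - 1) t) = y at *
      unfold Sys.gH
      split_ifs with h0
      · exact ⟨x1, x2, by omega⟩
      · have hstart : (S.start O N x).1 < N ∧ (S.start O N x).2.1 + 1 < N := by
          have hnode : ∀ k, S.node O x.u k < N := by
            intro k
            induction k with
            | zero => exact x1.u
            | succ k ihk => rw [Sys.node_succ]; exact hC.nxt ihk
          unfold Sys.start
          split_ifs
          · exact ⟨hnode N, hr _⟩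
          · exact ⟨hN0, hN1⟩
          · exact ⟨x1.tgt, x2 h0⟩
        have hq := asc_lt hC hO x1.u hstart N
        generalize (S.ascF O x.u N)^[N] (S.start O N x) = q at *
        unfold Sys.fin
        split_ifs
        · exact ⟨⟨hN0, hN0, hq.2, hN0, hN0, by norm_num⟩, fun h => absurd rfl h, Nat.zero_le _⟩
        · refine ⟨⟨y1.u, x1.ptgt, by simp only; omega, y1.ptgt, y1.par, by norm_num⟩,
            fun _ => hq.2, ?_⟩
          simp only
          omega
        · refine ⟨⟨hC.kont _ _, hN0, hN0, hq.1, by simp only; omega, by norm_num⟩, fun _ => hN1, ?_⟩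
          simp only
          omega
        · exact ⟨⟨hN0, hN0, hN0, hN0, hN0, by norm_num⟩, fun h => absurd rfl h, Nat.zero_le _⟩

end Pool.Agent.Lib.MP_9277c3_lc.CM
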