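import Pool.Agent.Lib.MP_9277c3_lc.helper78.CM.Run
import Pool.Agent.Lib.MP_9277c3_lc.helper78.CM.Vec

/-!
# The program

The program which evaluates the nodes of a system by levels, with the method of Cook and Mertz on each
level.
-/

namespace Pool.Agent.Lib.MP_9277c3_lc.CM

open Finset

/-- The registers. -/
inductive Rg : Type
  | cN | cm | cp | cpm | cT | cQ | cw | cb | cn
  | R0 | R1 | R2 | S | res | lev | a
  | v | t | j | om | iv | e2
  | x | y | c | z | vz | vi | vr
  | tg | r | st | w | cd | k1 | k2 | e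
  | i | d0 | acc

/-- The procedures. -/
inductive Pr : Type
  | small | hist

section

open Rg

/-- The kinds of registers: constants (`0`), registers which are saved (`1` and `2`), where those of
kind `2` are zero when the history is computed, auxiliary registers which are usually zero (`3`), the
registers for vectors (`4`), others. -/
def Rg.kd : Rg → ℕ
  | cN | cm | cp | cpm | cT | cQ | cw | cb | cn => 0
  | v | t | i | d0 | acc => 1
  | a | j | om | x | y | c | tg | r | st | w | cd | k1 | k2 | e => 2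
  | z | vz | vi | vr | iv | e2 => 3
  | R0 | R1 | R2 => 4
  | S | lev => 5
  | res => 6

abbrev Prg := AStmt Rg Pr

/-- Sequential composition of a list of programs. -/
def sq : List Prg → Prg
  | [] => Stmt.skip
  | b :: l => Stmt.seq b (sq l)

/-- The implementation of a system. -/
structure SysE where
  tag : Exp Rg → Exp Rg
  nx : Exp Rg → Exp Rg
  kont : Exp Rg → Exp Rg → Exp Rg

/-- The digits `d` of `R0` in base `cp` are replaced by `A * d + C * b`, where `b` are the bits
of `Z`. -/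
def vec (A C Z : Exp Rg) : Prg :=
  sq [set vz Z, set vi cm, Stmt.loop vi (sq [
    set R0 (R0 / cp + ((A * (R0 % cp) + C * (vz % 2)) % cp) * cpm),
    set vz (vz / 2), set vi (vi - 1)]), set vz 0]

/-- Multiply `c` by the value of `dlt` for `Z` and the vector in `k`. -/
def del (Z : Exp Rg) (k : Rg) : Prg :=
  sq [set vr k, set vz Z, set vi cm, Stmt.loop vi (sq [
    set c ((c * ((vz % 2) * (vr % cp) + (1 - vz % 2) * (cp + 1 - vr % cp))) % cp),
    set vr (vr / cp), set vz (vz / 2), set vi (vi - 1)]), set vz 0, set vr 0]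

/-- `1` if the values are equal, and `0` if not. -/
def isE (A B : Exp Rg) : Exp Rg := 1 - ((A - B) + (B - A))

def fu (X : Exp Rg) : Exp Rg := X % cN
def ftg (X : Exp Rg) : Exp Rg := X / cN % cN
def fr (X : Exp Rg) : Exp Rg := X / cN / cN % cN
def fpt (X : Exp Rg) : Exp Rg := X / cN / cN / cN % cN
def fpar (X : Exp Rg) : Exp Rg := X / cN / cN / cN / cN % cN
def fmd (X : Exp Rg) : Exp Rg := X / cN / cN / cN / cN / cN

def pkE (u tgt r ptgt par md : Exp Rg) : Exp Rg :=
  u + cN * (tgt + cN * (r + cN * (ptgt + cN * (par + cN * md))))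

/-- Evaluation of the node `a` on the next lower level. -/
def callO : Prg := sq [set lev (lev - 1), Stmt.call Pr.small, set lev (lev + 1)]

section

variable (E : SysE)

/-- One step on the path. -/
def stepC : Prg :=
  sq [set e (E.tag w), Stmt.ite e (sq [set e (e - 1), Stmt.ite e
    (sq [set a (E.nx w), callO, Stmt.ite res (sq [set w (E.kont w (res - 1)), set res 0])
      (sq [set cd (w + 1), set w a]), set a 0])
    (set w (E.nx w))]) Stmt.skip, set e 0]

/-- The scan of the path from the node `u` of the state `x - 1`. -/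
def scanC : Prg :=
  sq [set w (fu (x - 1)), set cd 0, set k2 cN, Stmt.loop k2 (sq [
    set e ((w - tg) + (tg - w)), Stmt.ite e (stepC E) Stmt.skip, set k2 (k2 - 1)])]

/-- A step of the way up. -/
def ascC : Prg :=
  sq [scanC E, Stmt.ite cd (sq [set tg (cd - 1), set a (E.kont tg r), callO, set a 0,
    Stmt.ite res (sq [set r (res - 1), set res 0]) (set st 3)]) (sq [set tg 0, set st 2]),
    set w 0, set cd 0]

/-- The way up. -/
def ascL : Prg :=
  sq [set k1 cN, Stmt.loop k1 (sq [set e (isE st 1), Stmt.ite e (sq [set e 0, ascC E]) Stmt.skip,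
    set k1 (k1 - 1)])]

/-- The start of the way up. -/
def startC : Prg :=
  sq [set e (e - 1), Stmt.ite e
    (sq [set e 0, set tg (ftg (x - 1)), set r (fr (x - 1)), set st 1])
    (sq [set tg cN, scanC E, set cd 0, set e (E.tag w), Stmt.ite e (sq [set e 0, set tg 0])
      (sq [set tg w, set r (E.nx w), set st 1]), set w 0])]

/-- The next state. -/
def finC : Prg :=
  sq [set e (isE st 2), Stmt.ite e
    (sq [set e (fpar (x - 1)), Stmt.ite e
      (set z (pkE (fu (y - 1)) (fpt (x - 1)) r (fpt (y - 1)) (fpar (y - 1)) 2))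
      (set z (pkE 0 0 (r + 1) 0 0 0))])
    (sq [set e (isE st 3), Stmt.ite e (set z (pkE (E.kont tg r) 0 0 tg t 1)) (set z 0)])]

/-- The transition function of the history machine. -/
def gC : Prg :=
  sq [set e (fmd (x - 1)), Stmt.ite e (sq [startC E, ascL E, finC E]) (set z (x - 1)),
    set e 0, set tg 0, set r 0, set st 0]

/-- The pointer of the state `x - 1`. -/
def ptrE : Exp Rg := (fpar (x - 1) - 1) - ((fpar (x - 1) - 1) - (t - 1))

/-- The sum over all pairs of states. -/
def evC : Prg :=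
  sq [set x cQ, Stmt.loop x (sq [set y cQ, Stmt.loop y (sq [
    set c 1, del (x - 1) R1, del (y - 1) R2, gC E,
    vec 1 ((cp - c) * isE ptrE (j - 1)) z, set c 0, set z 0, set y (y - 1)]), set x (x - 1)])]

/-- The recursive call, for the time `G`. -/
def rcall (G : Exp Rg) : Prg :=
  sq [set e2 G, set S (((S * cw + t) * cw + j) * cw + om), set t e2, set j 0, set om 0, set e2 0,
    Stmt.call Pr.hist, set om (S % cw), set S (S / cw), set j (S % cw), set S (S / cw),
    set t (S % cw), set S (S / cw)]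

/-- Exchange of `R0` and `k`. -/
def swp (k : Rg) : Prg := sq [set e2 R0, set R0 k, set k e2, set e2 0]

/-- Division of `R0` by `-om`. -/
def invC : Prg :=
  sq [set iv 1, set k2 (cp - 2), Stmt.loop k2 (sq [set iv ((iv * om) % cp), set k2 (k2 - 1)]),
    vec ((cp - 1) * iv) 0 0, set iv 0]

/-- The vector in `k` is multiplied by `om`; then the bits of the state at time `G` are added. -/
def segA (k : Rg) (G : Exp Rg) : Prg := sq [swp k, vec om 0 0, rcall G, swp k]

/-- The inverse of `segA`. -/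
def segB (k : Rg) (G : Exp Rg) : Prg := sq [swp k, vec (cp - 1) 0 0, rcall G, invC, swp k]

def omC : Prg :=
  sq [segA R1 (t - 1), segA R2 (j - 1), evC E, segB R1 (t - 1), segB R2 (j - 1)]

/-- The bits of the state at time `t` are added to `R0`. -/
def histC : Prg :=
  Stmt.ite t (sq [set j t, Stmt.loop j (sq [set om (cp - 1), Stmt.loop om (sq [omC E,
    set om (om - 1)]), set j (j - 1)])]) (vec 1 1 (pkE v 0 0 0 0 1))

/-- The registers which are saved. -/
def saved : List Rg := [a, v, t, j, om, x, y, c, tg, r, st, w, cd, k1, k2, e, i, d0, acc]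

def pushL : List Rg → Prg
  | [] => Stmt.skip
  | q :: l => Stmt.seq (set S (S * cb + q)) (pushL l)

def popL : List Rg → Prg
  | [] => Stmt.skip
  | q :: l => Stmt.seq (popL l) (Stmt.seq (set q (S % cb)) (set S (S / cb)))

def zeroL : List Rg → Prg
  | [] => Stmt.skip
  | q :: l => Stmt.seq (set q 0) (zeroL l)

/-- Write `R0`, divided by `cp ^ (i - 1)`, to `vr`. -/
def digC : Prg :=
  sq [set vr R0, set vi (i - 1), Stmt.loop vi (sq [set vr (vr / cp), set vi (vi - 1)])]

/-- One bit of the last state. -/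
def bitC : Prg :=
  sq [digC, set d0 (vr % cp), set vr 0, Stmt.call Pr.hist, digC,
    set acc (2 * acc + (vr % cp + cp - d0) % cp), set vr 0, vec (cp - 1) 0 0, Stmt.call Pr.hist,
    vec (cp - 1) 0 0, set d0 0, set i (i - 1)]

/-- The evaluation of the node `a` on the level `lev`. -/
def smallC : Prg :=
  Stmt.ite lev (sq [pushL saved, set res a, zeroL saved, set v res, set res 0, set t cT, set i cm,
    Stmt.loop i bitC, set res (fr acc * (1 - fmd acc)), popL saved])
    (set res ((1 - E.tag a) * (E.nx a + 1)))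

/-- The procedures. -/
def bodyC : Pr → Prg
  | Pr.small => smallC E
  | Pr.hist => histC E

end

end

/-! ### Lemmas on states -/

/-- The parameters of the algorithm. -/
structure Par where
  N : ℕ
  m : ℕ
  p : ℕ
  T : ℕ
  cw : ℕ
  cb : ℕ
  n : ℕ

/-- The registers for constants have the right values. -/
structure Cst (P : Par) (s : Rg → ℕ) : Prop where
  cN : s .cN = P.N
  cm : s .cm = P.m
  cp : s .cp = P.p
  cpm : s .cpm = P.p ^ (P.m - 1)
  cT : s .cT = P.T
  cQ : s .cQ = 2 ^ P.m
  cw : s .cw = P.cw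
  cb : s .cb = P.cb
  cn : s .cn = P.n

theorem Cst.of_eq {P : Par} {s s' : Rg → ℕ} (h : Cst P s) (h' : ∀ q : Rg, q.kd = 0 → s' q = s q) :
    Cst P s' := by
  constructor
  · rw [h' _ rfl, h.cN]
  · rw [h' _ rfl, h.cm]
  · rw [h' _ rfl, h.cp]
  · rw [h' _ rfl, h.cpm]
  · rw [h' _ rfl, h.cT]
  · rw [h' _ rfl, h.cQ]
  · rw [h' _ rfl, h.cw]
  · rw [h' _ rfl, h.cb]
  · rw [h' _ rfl, h.cn]

theorem Cst.upd {P : Par} {s : Rg → ℕ} (h : Cst P s) {q : Rg} (hq : q.kd ≠ 0) (v : ℕ) :
    Cst P (upd s q v) :=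
  h.of_eq fun q' hq' => upd_ne (fun h1 => hq (by rw [← h1]; exact hq')) _ _

/-- Good states. -/
structure Gd (P : Par) (s : Rg → ℕ) : Prop where
  cst : Cst P s
  sm : ∀ q : Rg, q.kd = 1 ∨ q.kd = 2 → s q < P.cb
  ze : ∀ q : Rg, q.kd = 3 → s q = 0
  ve : ∀ q : Rg, q.kd = 4 → ∃ V : ℕ → ZMod P.p, s q = encZ P.m V

theorem Gd.upd {P : Par} {s : Rg → ℕ} (h : Gd P s) {q : Rg} (hq : q.kd = 1 ∨ q.kd = 2) {v : ℕ}
    (hv : v < P.cb) : Gd P (upd s q v) where
  cst := h.cst.upd (by omega) _
  sm q' hq' := by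
    by_cases h1 : q' = q
    · rw [h1, upd_self]; exact hv
    · rw [upd_ne h1]; exact h.sm q' hq'
  ze q' hq' := by
    rw [upd_ne (fun h1 => by rw [h1] at hq'; omega)]; exact h.ze q' hq'
  ve q' hq' := by
    rw [upd_ne (fun h1 => by rw [h1] at hq'; omega)]; exact h.ve q' hq'

theorem Gd.upd5 {P : Par} {s : Rg → ℕ} (h : Gd P s) {q : Rg} (hq : 5 ≤ q.kd) (v : ℕ) :
    Gd P (CM.upd s q v) where
  cst := h.cst.upd (by omega) _
  sm q' hq' := by
    rw [upd_ne (fun h1 => by rw [h1] at hq'; omega)]; exact h.sm q' hq'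
  ze q' hq' := by
    rw [upd_ne (fun h1 => by rw [h1] at hq'; omega)]; exact h.ze q' hq'
  ve q' hq' := by
    rw [upd_ne (fun h1 => by rw [h1] at hq'; omega)]; exact h.ve q' hq'

theorem Gd.upd4 {P : Par} {s : Rg → ℕ} (h : Gd P s) {q : Rg} (hq : q.kd = 4) (V : ℕ → ZMod P.p) :
    Gd P (CM.upd s q (encZ P.m V)) where
  cst := h.cst.upd (by omega) _
  sm q' hq' := by
    rw [upd_ne (fun h1 => by rw [h1] at hq'; omega)]; exact h.sm q' hq'
  ze q' hq' := by
    rw [upd_ne (fun h1 => by rw [h1] at hq'; omega)]; exact h.ze q' hq'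
  ve q' hq' := by
    by_cases h1 : q' = q
    · rw [h1, upd_self]; exact ⟨V, rfl⟩
    · rw [upd_ne h1]; exact h.ve q' hq'

/-- Bounds for the parameters. -/
structure PB (P : Par) (A : ℕ) : Prop where
  prime : P.p.Prime
  hm : 2 * P.m < P.p - 1
  hN : 1 < P.N
  hT : P.T < P.N
  h4 : 4 * P.N ^ 5 ≤ 2 ^ P.m
  hcw1 : P.T < P.cw
  hcw2 : P.p < P.cw
  hcb1 : 2 ^ P.m + 4 ≤ P.cb
  hcb2 : P.p < P.cb
  hA1 : P.cb ≤ A
  hA2 : P.p ^ P.m ≤ A
  hA3 : 7 * P.N ^ 6 + 2 < A
  hA4 : 2 * 2 ^ P.m + P.p < A

section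

variable {α F R : Type} {x : List α} {cc : Cell α → ℕ} {A : ℕ} {body : F → AStmt R F}

/-- Execution of a loop which counts down. -/
theorem RunA.loop {k : ℕ} (ctr : R) (B : AStmt R F) (g : ℕ → R → ℕ) (hg : ∀ n, g n ctr = n) (N : ℕ)
    (hB : ∀ n, n < N → RunA x cc A body k B (g (n + 1)) (g n)) {s t : R → ℕ} (hs : s = g N)
    (ht : g 0 = t) : RunA x cc A body k (Stmt.loop ctr B) s t := by
  subst hs ht
  induction N with
  | zero => exact RunA.loopF _ _ _ _ (hg 0)
  | succ N ih =>
    exact RunA.loopT _ _ _ _ _ _ (by rw [hg]; omega) (hB N (Nat.lt_succ_self _))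
      (ih fun n hn => hB n (by omega))

/-- Execution of a loop which counts down and adds vectors. -/
theorem RunA.loop_sum {p k : ℕ} (ctr : R) (B : AStmt R F) (st : (ℕ → ZMod p) → ℕ → R → ℕ)
    (hst : ∀ V n, st V n ctr = n) (f : ℕ → ℕ → ZMod p) (M : ℕ)
    (hB : ∀ n < M, ∀ V, RunA x cc A body k B (st V (n + 1)) (st (V + f n) n)) :
    ∀ V, RunA x cc A body k (Stmt.loop ctr B) (st V M) (st (V + ∑ n ∈ range M, f n) 0) := by
  induction M with
  | zero =>
    intro V
    rw [sum_range_zero, add_zero]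
    exact RunA.loopF _ _ _ _ (hst _ _)
  | succ M ih =>
    intro V
    rw [sum_range_succ, add_comm (∑ n ∈ range M, f n), ← add_assoc]
    exact RunA.loopT _ _ _ _ _ _ (by rw [hst]; omega) (hB M (Nat.lt_succ_self _) V)
      (ih (fun n hn => hB n (by omega)) _)

end

section

variable {α : Type} {X : List α} {cc : Cell α → ℕ} {A : ℕ} {body : Pr → Prg}

theorem RunA.sq_nil {k : ℕ} {s : Rg → ℕ} : RunA X cc A body k (sq []) s s := RunA.skip _ _

theorem RunA.sq_cons {k : ℕ} {b : Prg} {l : List Prg} {s t u : Rg → ℕ}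
    (h₁ : RunA X cc A body k b s t) (h₂ : RunA X cc A body k (sq l) t u) :
    RunA X cc A body k (sq (b :: l)) s u := RunA.seq _ _ _ _ _ _ h₁ h₂

/-- The first instruction of a list is an assignment. -/
theorem RunA.sq_set {k : ℕ} {q : Rg} {ex : Exp Rg} {l : List Prg} {s u : Rg → ℕ} (n : ℕ)
    (hn : ex.eval X cc s = n) (hA : n < A) (h₂ : RunA X cc A body k (sq l) (upd s q n) u) :
    RunA X cc A body k (sq (set q ex :: l)) s u := by
  subst hn
  exact RunA.seq _ _ _ _ _ _ (RunA.asg _ _ _ _ hA) h₂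

theorem RunA.set' {k : ℕ} {q : Rg} {ex : Exp Rg} {s : Rg → ℕ} (n : ℕ)
    (hn : ex.eval X cc s = n) (hA : n < A) : RunA X cc A body k (set q ex) s (upd s q n) := by
  subst hn
  exact RunA.asg _ _ _ _ hA

end

end Pool.Agent.Lib.MP_9277c3_lc.CM
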