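import Pool.Agent.Lib.MP_9277c3_lc.helper78.CM.Dp2

section
/-!
# One-way automata have small runs
-/
namespace Pool.Agent.Lib.MP_9277c3_lc.CM

/-- The bound for the size, when the head moves over `L` cells. -/
def Fb (K L k : ℕ) : ℕ :=
  if L = 0 then 2 ^ (k + 1) - 1 else (1 + K * (2 ^ (K + 1) + 1)) * (2 * L - 1) + k * (2 ^ (K + 1) + 1)

theorem Fb_a (K L k : ℕ) : Fb K L k + 1 ≤ Fb K L (k + 1) := by
  unfold Fb
  have h1 : 1 ≤ 2 ^ (k + 1) := Nat.one_le_two_pow
  have h2 : 2 ^ (k + 1 + 1) = 2 * 2 ^ (k + 1) := by ring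
  split_ifs
  · omega
  · rw [Nat.add_mul k 1]
    omega

theorem Fb_b (K L k : ℕ) : Fb K L K + 1 ≤ Fb K (L + 1) (k + 1) := by
  unfold Fb
  have h1 : 1 ≤ 2 ^ (K + 1) := Nat.one_le_two_pow
  rw [if_neg (Nat.succ_ne_zero L)]
  split_ifs with h
  · subst h
    rw [Nat.add_mul k 1]
    omega
  · obtain ⟨L', rfl⟩ : ∃ L', L = L' + 1 := ⟨L - 1, by omega⟩
    rw [show 2 * (L' + 1) - 1 = 2 * L' + 1 by omega, show 2 * (L' + 1 + 1) - 1 = 2 * L' + 3 by omega]
    nlinarith [Nat.zero_le (K * (2 ^ (K + 1) + 1)), Nat.zero_le (k * (2 ^ (K + 1) + 1))]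

theorem Fb_c {K k : ℕ} (hk : k ≤ K) (L : ℕ) : Fb K 0 k + Fb K L k + 1 ≤ Fb K L (k + 1) := by
  unfold Fb
  have h1 : 1 ≤ 2 ^ (k + 1) := Nat.one_le_two_pow
  have h2 : 2 ^ (k + 1 + 1) = 2 * 2 ^ (k + 1) := by ring
  have h3 : 2 ^ (k + 1) ≤ 2 ^ (K + 1) := Nat.pow_le_pow_right (by norm_num) (by omega)
  rw [if_pos rfl]
  split_ifs
  · omega
  · rw [Nat.add_mul k 1]
    omega

theorem Fb_d {K k L₁ : ℕ} (h : 1 ≤ L₁) (L₂ : ℕ) :
    Fb K L₁ k + Fb K L₂ K + 1 ≤ Fb K (L₁ + L₂) (k + 1) := by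
  unfold Fb
  have h1 : 1 ≤ 2 ^ (K + 1) := Nat.one_le_two_pow
  rw [if_neg (by omega), if_neg (by omega : L₁ + L₂ ≠ 0)]
  obtain ⟨L, rfl⟩ : ∃ L, L₁ = L + 1 := ⟨L₁ - 1, by omega⟩
  split_ifs with h0
  · subst h0
    simp only [Nat.add_zero]
    rw [Nat.add_mul k 1]
    omega
  · obtain ⟨L', rfl⟩ : ∃ L', L₂ = L' + 1 := ⟨L₂ - 1, by omega⟩
    rw [show 2 * (L + 1) - 1 = 2 * L + 1 by omega, show 2 * (L' + 1) - 1 = 2 * L' + 1 by omega,
      show 2 * (L + 1 + (L' + 1)) - 1 = 2 * L + 2 * L' + 3 by omega]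
    nlinarith [Nat.zero_le (K * (2 ^ (K + 1) + 1)), Nat.zero_le (k * (2 ^ (K + 1) + 1))]

theorem Fb_pos (K L k : ℕ) : 1 ≤ Fb K L (k + 1) := (Nat.succ_le_succ (Nat.zero_le _)).trans (Fb_a K L k)

namespace Cd

variable {α : Type} {M : DPDA α} (C : Cd M) {x : List α}

/-- The size of the computation of a node is bounded. -/
theorem oneway_bound
    (hM : ∀ q c X q' mv β, M.next q c X = some (q', mv, β) → mv ≠ Move.left) {v c s : ℕ}
    (h : Ev (C.sys x) v c s) : ∀ (q : Option M.State) (i : ℕ)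
    (l : List M.Stack), l.length ≤ C.D → i ≤ x.length + 1 → v = C.code q i l →
    i ≤ c / C.K ∧ ∀ U : Finset ℕ, (∀ f ∈ U, f < C.K ∧ ∃ c' s', Ev (C.sys x) (f + C.K * i) c' s' ∧
      s < s') → s ≤ Fb C.K (c / C.K - i) (C.K - U.card) := by
  -- the new set of nodes
  have key : ∀ {q : Option M.State} {i : ℕ} {l : List M.Stack} {c s : ℕ},
      Ev (C.sys x) (C.code q i l) c s → ∀ U : Finset ℕ,
      (∀ f ∈ U, f < C.K ∧ ∃ c' s', Ev (C.sys x) (f + C.K * i) c' s' ∧ s < s') →
      ∃ (U' : Finset ℕ) (k : ℕ), C.K - U.card = k + 1 ∧ C.K - U'.card = k ∧ k ≤ C.K ∧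
        ∀ s₁ < s, ∀ f ∈ U', f < C.K ∧ ∃ c' s', Ev (C.sys x) (f + C.K * i) c' s' ∧ s₁ < s' := by
    intro q i l c s h U hU
    have h1 : C.enc q l ∉ U := fun h' => by
      obtain ⟨_, c', s', h2, h3⟩ := hU _ h'
      have h4 := h.unique h2
      omega
    have h2 : (insert (C.enc q l) U).card = U.card + 1 := Finset.card_insert_of_notMem h1
    have h3 : (insert (C.enc q l) U).card ≤ (Finset.range C.K).card := by
      refine Finset.card_le_card fun f hf => ?_
      rw [Finset.mem_range]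
      rcases Finset.mem_insert.1 hf with rfl | hf
      · exact C.enc_lt _ _
      · exact (hU f hf).1
    rw [h2, Finset.card_range] at h3
    refine ⟨insert (C.enc q l) U, C.K - U.card - 1, by omega, by omega, by omega,
      fun s₁ hs₁ f hf => ?_⟩
    rcases Finset.mem_insert.1 hf with rfl | hf
    · exact ⟨C.enc_lt _ _, c, s, h, hs₁⟩
    · obtain ⟨h4, c', s', h5, h6⟩ := hU f hf
      exact ⟨h4, c', s', h5, by omega⟩
  induction h with
  | done v h0 =>
    rintro q i l hl hi rfl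
    have hv := Ev.done (S := C.sys x) _ h0
    rcases l with _ | ⟨X, _ | ⟨Y, γ⟩⟩
    · rw [C.nx_nil hi] at hv ⊢
      rw [C.code_div]
      refine ⟨le_rfl, fun U hU => ?_⟩
      obtain ⟨U', k, e1, _⟩ := key hv U hU
      rw [e1]
      exact Fb_pos _ _ _
    · rw [C.tag_one] at h0; omega
    · rw [C.tag_two x hl] at h0; omega
  | unary v c s h0 h1 ih =>
    rintro q i l hl hi rfl
    have hv := Ev.unary _ _ _ h0 h1
    have hchild : ∃ q₁ i₁ l₁, l₁.length ≤ C.D ∧ i₁ ≤ x.length + 1 ∧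
        (C.sys x).nx (C.code q i l) = C.code q₁ i₁ l₁ ∧ (i₁ = i ∨ i₁ = i + 1) := by
      rcases l with _ | ⟨X, _ | ⟨Y, γ⟩⟩
      · rw [C.tag_nil] at h0; omega
      · cases q with
        | none => exact ⟨none, i, [], Nat.zero_le _, hi, C.nx_halt hi X, Or.inl rfl⟩
        | some q =>
          by_cases ha : M.accepting q (cell x i)
          · exact ⟨none, i, [], Nat.zero_le _, hi, C.nx_accept hi X ha, Or.inl rfl⟩
          · cases hn : M.next q (cell x i) X with
            | none => exact ⟨some q, i, [X], hl, hi, C.nx_stuck hi ha hn, Or.inl rfl⟩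
            | some r =>
              obtain ⟨q₁, mv, β⟩ := r
              refine ⟨some q₁, _, β, C.hD _ _ _ _ _ _ hn, apply_le mv hi, C.nx_step hi ha hn, ?_⟩
              have hmv := hM _ _ _ _ _ _ hn
              cases mv with
              | left => exact absurd rfl hmv
              | stay => exact Or.inl rfl
              | right =>
                simp only [Move.apply]
                omega
      · rw [C.tag_two x hl] at h0; omega
    obtain ⟨q₁, i₁, l₁, hl₁, hi₁, hnx, hii⟩ := hchild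
    obtain ⟨g1, g2⟩ := ih q₁ i₁ l₁ hl₁ hi₁ hnx
    refine ⟨by omega, fun U hU => ?_⟩
    obtain ⟨U', k, e1, e2, e3, e4⟩ := key hv U hU
    rw [e1]
    rcases hii with rfl | rfl
    · have g3 := g2 U' (e4 s (Nat.lt_succ_self _))
      rw [e2] at g3
      have g4 := Fb_a C.K (c / C.K - i₁) k
      omega
    · have g3 := g2 ∅ (fun f hf => absurd hf (Finset.notMem_empty f))
      rw [Finset.card_empty, Nat.sub_zero] at g3
      have g4 := Fb_b C.K (c / C.K - (i + 1)) k
      rw [show c / C.K - (i + 1) + 1 = c / C.K - i by omega] at g4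
      omega
  | binary v c s c' s' h0 h1 h2 h3 ih ih' =>
    rintro q i l hl hi rfl
    have hv := Ev.binary _ _ _ _ _ h0 h1 h2 h3
    rcases l with _ | ⟨X, _ | ⟨Y, γ⟩⟩
    · rw [C.tag_nil] at h0; omega
    · rw [C.tag_one] at h1; omega
    · rw [C.nx_two hi hl] at h2 ih
      obtain ⟨q₁, i₁, hi₁, hc₁, _⟩ := C.sound h2 q i [X] C.hD1 hi rfl
      obtain ⟨g1, g2⟩ := ih q i [X] C.hD1 hi rfl
      rw [hc₁, C.kont_eq hi₁ hl] at ih'
      rw [hc₁, C.code_div] at g1 g2
      obtain ⟨g3, g4⟩ := ih' q₁ i₁ (Y :: γ) (by rw [List.length_cons] at hl; omega) hi₁ rfl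
      refine ⟨by omega, fun U hU => ?_⟩
      obtain ⟨U', k, e1, e2, e3, e4⟩ := key hv U hU
      rw [e1]
      have g5 := g2 U' (e4 s (by omega))
      rw [e2] at g5
      rcases Nat.eq_or_lt_of_le g1 with heq | hlt
      · subst heq
        have g6 := g4 U' (e4 s' (by omega))
        rw [e2] at g6
        rw [Nat.sub_self] at g5
        have g7 := Fb_c e3 (c' / C.K - i)
        omega
      · have g6 := g4 ∅ (fun f hf => absurd hf (Finset.notMem_empty f))
        rw [Finset.card_empty, Nat.sub_zero] at g6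
        have g7 := Fb_d (K := C.K) (k := k) (L₁ := i₁ - i) (by omega) (c' / C.K - i₁)
        rw [show i₁ - i + (c' / C.K - i₁) = c' / C.K - i by omega] at g7
        omega

/-- Runs of one-way automata have linear size. -/
theorem oneway_linear
    (hM : ∀ q c X q' mv β, M.next q c X = some (q', mv, β) → mv ≠ Move.left) :
    ∃ a : ℕ, ∀ (x : List α) (q : Option M.State) (i : ℕ) (l : List M.Stack), l.length ≤ C.D →
      i ≤ x.length + 1 → ∀ c s, Ev (C.sys x) (C.code q i l) c s → s ≤ a * (x.length + 1) := by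
  refine ⟨(1 + C.K * (2 ^ (C.K + 1) + 1)) * 2 + C.K * (2 ^ (C.K + 1) + 1) + 2 ^ (C.K + 1),
    fun x q i l hl hi c s h => ?_⟩
  obtain ⟨h1, h2⟩ := C.oneway_bound hM h q i l hl hi rfl
  have h3 := h2 ∅ (fun f hf => absurd hf (Finset.notMem_empty f))
  rw [Finset.card_empty, Nat.sub_zero] at h3
  obtain ⟨q', i', hi', hc, _⟩ := C.sound h q i l hl hi rfl
  rw [hc, C.code_div] at h3
  refine h3.trans ?_
  unfold Fb
  have e1 : 2 * (i' - i) - 1 ≤ 2 * (x.length + 1) := by omega
  split_ifs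
  · have : 2 ^ (C.K + 1) - 1 ≤ 2 ^ (C.K + 1) := Nat.sub_le _ _
    nlinarith [Nat.zero_le ((1 + C.K * (2 ^ (C.K + 1) + 1)) * 2 + C.K * (2 ^ (C.K + 1) + 1)),
      Nat.zero_le x.length]
  · have e2 := Nat.mul_le_mul_left (1 + C.K * (2 ^ (C.K + 1) + 1)) e1
    nlinarith [Nat.zero_le (C.K * (2 ^ (C.K + 1) + 1) * x.length),
      Nat.zero_le (2 ^ (C.K + 1) * x.length), Nat.zero_le (2 ^ (C.K + 1))]

end Cd

end Pool.Agent.Lib.MP_9277c3_lc.CM
end

section
/-!
# Turing machines for languages of pushdown automata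
-/
namespace Pool.Agent.Lib.MP_9277c3_lc.CM

section

variable {α : Type} {M : DPDA α} (C : Cd M) {x : List α}

theorem Cd.code_inj {q q' : Option M.State} {i i' : ℕ} (h : C.code q i [] = C.code q' i' []) :
    q = q' ∧ i = i' := by
  have h1 := congrArg (· % C.K) h
  have h2 := congrArg (· / C.K) h
  simp only [C.code_mod, C.code_div] at h1 h2
  have h3 := congrArg C.dec h1
  rw [C.dec_enc (Nat.zero_le _), C.dec_enc (Nat.zero_le _)] at h3
  simp only [Option.some.injEq, Prod.mk.injEq] at h3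
  exact ⟨h3.1, h2⟩

theorem Cd.eval_accE {s : Rg → ℕ} (hs : s .cn = x.length + 1) :
    C.accE.eval x C.cc s = (s .res - (s .res - 1)) *
      C.tA ((s .res - 1) % C.K) (cell x (min ((s .res - 1) / C.K) (x.length + 1))) := by
  have h1 := Nat.mod_lt (s .res - 1) C.K_pos
  have h2 := C.cc_lt (cell x (min ((s .res - 1) / C.K) (x.length + 1)))
  simp only [Cd.accE, eval_mul, eval_sub, eval_var, eval_one, Cd.eval_tab, C.eval_idxE hs,
    if_pos (C.idx_lt h1 h2), C.idx_mod h1, C.idx_div h1, C.dc_cc]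

/-- Acceptance, in terms of trees. -/
def WtAcc (M : DPDA α) (x : List α) (w : ℕ) : Prop :=
  ∃ q i, M.Wt x w (some M.start) 1 [M.bottom] q i ∧
    ∀ q', q = some q' → M.accepting q' (cell x i)

theorem WtAcc.accepts {w : ℕ} (h : WtAcc M x w) : M.Accepts x := by
  obtain ⟨q, i, h1, h2⟩ := h
  obtain ⟨k, _, hp⟩ := h1.pops
  exact DPDA.AcceptsWithin.accepts ⟨q, i, hp, h2⟩

theorem wtAcc_of_acceptsAt {t l : ℕ} (h : M.AcceptsAt t l x) : ∃ w, w ≤ t + l ∧ WtAcc M x w := by
  obtain ⟨q, i, γ, hs, rfl, ha⟩ := h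
  obtain ⟨n, q', i', hn, hw, hg⟩ := hs.exists_wt ha
  exact ⟨n, hn, q', i', hw, hg⟩

/-- Languages of automata with small runs are decided in small space. -/
theorem exists_TM_of_wt [Finite α] (M : DPDA α) (a : ℕ)
    (H : ∀ x, M.Accepts x → ∃ w, w ≤ a * (x.length + 1) ^ a ∧ WtAcc M x w) :
    ∃ (c : ℕ) (A : TM α), A.DecidesIn M.Accepts fun n => c * spc n := by
  obtain ⟨C⟩ := exists_Cd M
  have hK : 64 ≤ C.K := by unfold Cd.K; omega
  refine exists_TM_of_sys C.cc rfl (fun a => by simp [Cd.cc]) C.K (4 * (a + 1)) hK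
    (fun d => (C.cc_lt d).le) C.sysE
    (Exp.lit (C.enc (some M.start) [M.bottom]) + Exp.lit C.K * 1) C.accE C.sys
    (fun _ => C.code (some M.start) 1 [M.bottom]) M.Accepts (fun x => ?_)
  refine ⟨C.impl x, C.closed x, C.nx_lt x, fun v => C.tagF_le _, C.code_lt (by omega),
    fun s _ => rfl, fun s => ?_, fun s hs hres => ?_⟩
  · simp only [Cd.accE, eval_mul, eval_sub, eval_var, eval_one, Cd.eval_tab]
    have h1 : s .res - (s .res - 1) ≤ 1 := by omega
    refine (Nat.mul_le_mul h1 (?_ : _ ≤ 1)).trans (by norm_num)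
    split_ifs
    · exact C.tA_le _ _
    · exact Nat.zero_le _
  · rw [C.eval_accE hs]
    constructor
    · intro hne
      have h0 : s .res ≠ 0 := by
        intro h0
        rw [h0] at hne
        exact hne (by simp)
      obtain ⟨c, hc⟩ : ∃ c, s .res = c + 1 := ⟨s .res - 1, by omega⟩
      have h1 := hc
      rw [hres] at h1
      obtain ⟨n, hn⟩ := Sys.small_sound (C.closed x) _ _ _ (C.code_lt (by omega)) c h1
      obtain ⟨q, i, hi, hci, w, _, hw⟩ := C.sound hn (some M.start) 1 [M.bottom] C.hD1 (by omega) rfl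
      refine WtAcc.accepts (w := w) ⟨q, i, hw, fun q' hq' => ?_⟩
      by_contra hcon
      apply hne
      rw [hc, Nat.add_sub_cancel, hci, C.code_mod, C.code_div, min_eq_left hi, hq']
      simp only [Cd.tA, C.dec_enc (q := some q') (l := []) (Nat.zero_le _), if_neg hcon,
        Nat.mul_zero]
    · intro hacc
      obtain ⟨w, hw, q, i, h1, h2⟩ := H x hacc
      obtain ⟨hi, n, hn, _, hn3⟩ := C.complete h1 (by omega) C.hD1
      have hn4 := hn3 (by simp)
      have hsize : n ≤ bP C.K x.length ^ (4 * (a + 1) * bP C.K x.length) := by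
        refine le_trans ?_ (levels_ge (n := x.length) hK (a + 1))
        have e1 : x.length + 1 ≤ C.K * (x.length + 3) := by nlinarith
        have e2 : x.length + 1 ≤ (C.K * (x.length + 3)) ^ 5 :=
          e1.trans (Nat.le_self_pow (by norm_num) _)
        have e3 : a ≤ 4 ^ a := (Nat.lt_pow_self (by norm_num)).le
        calc n ≤ 4 * (a * (x.length + 1) ^ a) := by omega
          _ ≤ 4 * (4 ^ a * (x.length + 1) ^ (a + 1)) := by
            gcongr
            · omega
            · omega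
          _ = 4 ^ (a + 1) * (x.length + 1) ^ (a + 1) := by ring
          _ ≤ 4 ^ (a + 1) * ((C.K * (x.length + 3)) ^ 5) ^ (a + 1) := by gcongr
          _ = (4 * (C.K * (x.length + 3)) ^ 5) ^ (a + 1) := (mul_pow _ _ _).symm
      have hsm := Sys.small_complete (C.closed x) (T := 2 * bP C.K x.length)
        (B := bP C.K x.length) b_pos le_rfl (4 * (a + 1) * bP C.K x.length) _
        (C.code_lt (by omega)) _ _ hn hsize
      rw [← hres] at hsm
      rw [hsm, Nat.add_sub_cancel, C.code_mod, C.code_div, min_eq_left hi]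
      have e4 : C.tA (C.enc q []) (cell x i) = 1 := by
        cases q with
        | none => simp only [Cd.tA, C.dec_enc (q := none) (l := []) (Nat.zero_le _)]
        | some q' => simp only [Cd.tA, C.dec_enc (q := some q') (l := []) (Nat.zero_le _),
            if_pos (h2 q' rfl)]
      rw [e4]
      omega

/-- Languages of one-way automata. -/
theorem exists_TM_of_oneway [Finite α] (M : DPDA α)
    (hM : ∀ q c X q' mv β, M.next q c X = some (q', mv, β) → mv ≠ Move.left) :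
    ∃ (c : ℕ) (A : TM α), A.DecidesIn M.Accepts fun n => c * spc n := by
  obtain ⟨C⟩ := exists_Cd M
  obtain ⟨a, ha⟩ := C.oneway_linear hM
  refine exists_TM_of_wt M (a + 1) fun x ⟨t, l, h⟩ => ?_
  obtain ⟨w, _, q, i, h1, h2⟩ := wtAcc_of_acceptsAt h
  obtain ⟨hi, n, hn, _⟩ := C.complete h1 (by omega) C.hD1
  have h3 := ha x (some M.start) 1 [M.bottom] C.hD1 (by omega) _ _ hn
  obtain ⟨q', i', _, hc, w', hw', hwt⟩ := C.sound hn (some M.start) 1 [M.bottom] C.hD1 (by omega)
    rfl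
  obtain ⟨rfl, rfl⟩ := C.code_inj hc
  refine ⟨w', ?_, q, i, hwt, h2⟩
  calc w' ≤ a * (x.length + 1) := hw'.trans h3
    _ ≤ (a + 1) * (x.length + 1) ^ (a + 1) := by
      refine Nat.mul_le_mul (Nat.le_succ _) (Nat.le_self_pow (Nat.succ_ne_zero _) _)

end

end Pool.Agent.Lib.MP_9277c3_lc.CM
end
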