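import Mathlib

/-!
# Evaluation of recursively defined values by levels

A system describes, for each node, how its value is computed: it is given (tag `0`), it is the value
of another node (tag `1`), or it is the value of a second node which depends on the value of a first
one. We evaluate a node by levels; one level divides the size of the computation by a large factor.
-/

namespace Pool.Agent.Lib.MP_9277c3_lc.CM

/-- Systems. -/
structure Sys where
  tag : ℕ → ℕ
  nx : ℕ → ℕ
  kont : ℕ → ℕ → ℕ

/-- `Ev S v c s`: the value of the node `v` is `c`, and its computation has size `s`. -/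
inductive Ev (S : Sys) : ℕ → ℕ → ℕ → Prop
  | done (v : ℕ) (h : S.tag v = 0) : Ev S v (S.nx v) 1
  | unary (v c s : ℕ) (h : S.tag v = 1) (h1 : Ev S (S.nx v) c s) : Ev S v c (s + 1)
  | binary (v c s c' s' : ℕ) (h0 : S.tag v ≠ 0) (h1 : S.tag v ≠ 1) (h2 : Ev S (S.nx v) c s)
      (h3 : Ev S (S.kont v c) c' s') : Ev S v c' (s + s' + 1)

theorem Ev.unique {S : Sys} {v c s : ℕ} (h : Ev S v c s) : ∀ {c' s'}, Ev S v c' s' →
    c' = c ∧ s' = s := by
  induction h with
  | done v h =>
    intro c' s' h'
    cases h' with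
    | done _ _ => exact ⟨rfl, rfl⟩
    | unary _ _ _ h1 _ => omega
    | binary _ _ _ _ _ h0 _ _ _ => exact absurd h h0
  | unary v c s h _ ih =>
    intro c' s' h'
    cases h' with
    | done _ h1 => omega
    | unary _ _ _ _ h2 =>
      obtain ⟨rfl, rfl⟩ := ih h2
      exact ⟨rfl, rfl⟩
    | binary _ _ _ _ _ _ h1 _ _ => exact absurd h h1
  | binary v c s c' s' h0 h1 _ _ ih ih' =>
    intro d t h'
    cases h' with
    | done _ h2 => exact absurd h2 h0
    | unary _ _ _ h2 _ => exact absurd h2 h1
    | binary _ _ _ _ _ _ _ h2 h3 =>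
      obtain ⟨rfl, rfl⟩ := ih h2
      obtain ⟨rfl, rfl⟩ := ih' h3
      exact ⟨rfl, rfl⟩

theorem Ev.pos {S : Sys} {v c s : ℕ} (h : Ev S v c s) : 0 < s := by
  cases h <;> omega

namespace Sys

open Classical

variable (S : Sys) (O : ℕ → ℕ)

/-- The next node of the path; `O v` is `0` if the value of `v` is not known, and `c + 1` if it is
known to be `c`. -/
def nxt (v : ℕ) : ℕ :=
  if S.tag v = 0 then v
  else if S.tag v = 1 then S.nx v
  else if O (S.nx v) = 0 then S.nx v
  else S.kont v (O (S.nx v) - 1)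

/-- The first child is on the path, the second one has to be evaluated later. -/
def pend (v : ℕ) : Prop := S.tag v ≠ 0 ∧ S.tag v ≠ 1 ∧ O (S.nx v) = 0

/-- The nodes of the path. -/
def node (u t : ℕ) : ℕ := (S.nxt O)^[t] u

/-- The last pending node before time `t`, plus one. -/
noncomputable def cand (u : ℕ) : ℕ → ℕ
  | 0 => 0
  | t + 1 => if S.pend O (S.node O u t) then S.node O u t + 1 else cand u t

/-- A step of the scan of the path up to the node `tgt`. -/
noncomputable def scanF (tgt : ℕ) (p : ℕ × ℕ) : ℕ × ℕ :=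
  if p.1 = tgt ∨ S.tag p.1 = 0 then p
  else (S.nxt O p.1, if S.pend O p.1 then p.1 + 1 else p.2)

/-- A step of the way up. -/
noncomputable def ascF (u N : ℕ) (q : ℕ × ℕ × ℕ) : ℕ × ℕ × ℕ :=
  if q.2.2 ≠ 1 then q
  else if ((S.scanF O q.1)^[N] (u, 0)).2 = 0 then (0, q.2.1, 2)
  else if O (S.kont (((S.scanF O q.1)^[N] (u, 0)).2 - 1) q.2.1) = 0 then
    (((S.scanF O q.1)^[N] (u, 0)).2 - 1, q.2.1, 3)
  else (((S.scanF O q.1)^[N] (u, 0)).2 - 1,
    O (S.kont (((S.scanF O q.1)^[N] (u, 0)).2 - 1) q.2.1) - 1, 1)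

theorem node_zero (u : ℕ) : S.node O u 0 = u := rfl

theorem node_succ (u t : ℕ) : S.node O u (t + 1) = S.nxt O (S.node O u t) :=
  Function.iterate_succ_apply' _ _ _

theorem node_add (u s t : ℕ) : S.node O u (s + t) = S.node O (S.node O u s) t := by
  unfold node
  rw [Nat.add_comm, Function.iterate_add_apply]

variable {S O}

theorem nxt_pend {v : ℕ} (h : S.pend O v) : S.nxt O v = S.nx v := by
  rw [nxt, if_neg h.1, if_neg h.2.1, if_pos h.2.2]

theorem node_tag0 {u i : ℕ} (h : S.tag (S.node O u i) = 0) {j : ℕ} (hj : i ≤ j) :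
    S.node O u j = S.node O u i := by
  induction hj with
  | refl => rfl
  | step _ ih => rw [node_succ, ih, nxt, if_pos h]

/-- If a node lies on the path, then it is reached early, and before that all nodes are proper. -/
theorem first_time {N : ℕ} (hN : ∀ v, v < N → S.nxt O v < N) {u : ℕ} (hu : u < N) {tgt j : ℕ}
    (hj : S.node O u j = tgt) : ∃ j₀, j₀ < N ∧ S.node O u j₀ = tgt ∧
      ∀ i < j₀, S.node O u i ≠ tgt ∧ S.tag (S.node O u i) ≠ 0 := by
  classical
  have hex : ∃ j, S.node O u j = tgt := ⟨j, hj⟩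
  refine ⟨Nat.find hex, ?_, Nat.find_spec hex, fun i hi => ⟨Nat.find_min hex hi, fun h0 => ?_⟩⟩
  · -- the nodes before are different
    have hlt : ∀ t, S.node O u t < N := by
      intro t
      induction t with
      | zero => exact hu
      | succ t ih => rw [node_succ]; exact hN _ ih
    have hinj : ∀ a b, a < b → b ≤ Nat.find hex → S.node O u a ≠ S.node O u b := by
      intro a b hab hb h
      have h1 : S.node O u (a + (Nat.find hex - b)) = tgt := by
        rw [node_add, h, ← node_add, show b + (Nat.find hex - b) = Nat.find hex by omega]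
        exact Nat.find_spec hex
      exact Nat.find_min hex (by omega) h1
    have hcard : (Finset.range (Nat.find hex + 1)).card ≤ (Finset.range N).card := by
      refine Finset.card_le_card_of_injOn (fun t => S.node O u t)
        (fun t _ => Finset.mem_coe.2 (Finset.mem_range.2 (hlt t))) ?_
      intro a ha b hb h
      rw [Finset.mem_coe, Finset.mem_range] at ha hb
      rcases Nat.lt_trichotomy a b with h1 | h1 | h1
      · exact absurd h (hinj a b h1 (by omega))
      · exact h1
      · exact absurd h.symm (hinj b a h1 (by omega))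
    rw [Finset.card_range, Finset.card_range] at hcard
    exact hcard
  · have h1 := node_tag0 h0 (Nat.le_of_lt hi)
    rw [Nat.find_spec hex] at h1
    exact Nat.find_min hex hi h1.symm

theorem scan_spec {u tgt j₀ : ℕ} (h0 : S.node O u j₀ = tgt)
    (h1 : ∀ i < j₀, S.node O u i ≠ tgt ∧ S.tag (S.node O u i) ≠ 0) (k : ℕ) :
    (S.scanF O tgt)^[k] (u, 0) = (S.node O u (min k j₀), S.cand O u (min k j₀)) := by
  induction k with
  | zero => rw [Nat.zero_min]; rfl
  | succ k ih =>
    rw [Function.iterate_succ_apply', ih]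
    rcases Nat.lt_or_ge k j₀ with hk | hk
    · rw [min_eq_left hk.le, min_eq_left hk, scanF]
      simp only
      rw [if_neg (by rintro (h | h); exacts [(h1 k hk).1 h, (h1 k hk).2 h]), node_succ, cand]
    · rw [min_eq_right hk, min_eq_right (by omega), scanF]
      simp only
      rw [if_pos (Or.inl h0)]

theorem cand_spec (u j : ℕ) : (S.cand O u j = 0 ∧ ∀ i < j, ¬S.pend O (S.node O u i)) ∨
    ∃ i < j, S.cand O u j = S.node O u i + 1 ∧ S.pend O (S.node O u i) ∧
      ∀ k, i < k → k < j → ¬S.pend O (S.node O u k) := by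
  induction j with
  | zero => exact Or.inl ⟨rfl, fun i hi => absurd hi (by omega)⟩
  | succ j ih =>
    by_cases h : S.pend O (S.node O u j)
    · right
      refine ⟨j, Nat.lt_succ_self _, ?_, h, fun k h1 h2 => absurd h2 (by omega)⟩
      rw [cand, if_pos h]
    · rcases ih with ⟨h1, h2⟩ | ⟨i, hi, h1, h2, h3⟩
      · left
        refine ⟨by rw [cand, if_neg h, h1], fun i hi => ?_⟩
        rcases Nat.lt_succ_iff_lt_or_eq.1 hi with h4 | rfl
        · exact h2 i h4
        · exact h
      · right
        refine ⟨i, by omega, by rw [cand, if_neg h, h1], h2, fun k h4 h5 => ?_⟩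
        rcases Nat.lt_succ_iff_lt_or_eq.1 h5 with h6 | rfl
        · exact h3 k h4 h6
        · exact h

/-- All nodes are less than `N`. -/
structure Closed (S : Sys) (N : ℕ) : Prop where
  nx : ∀ v, S.nx v < N
  kont : ∀ v r, S.kont v r < N

theorem Closed.nxt {N : ℕ} (h : Closed S N) {v : ℕ} (hv : v < N) : S.nxt O v < N := by
  unfold Sys.nxt
  split_ifs
  exacts [hv, h.nx _, h.nx _, h.kont _ _]

/-- The oracle is sound. -/
def Sound (S : Sys) (O : ℕ → ℕ) (N : ℕ) : Prop := ∀ v, v < N → ∀ c, O v = c + 1 → ∃ s, Ev S v c s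

variable {N : ℕ}

theorem Sound.sub_one (hO : Sound S O N) {v : ℕ} (hv : v < N) (h : O v ≠ 0) :
    ∃ s, Ev S v (O v - 1) s :=
  hO v hv _ (by omega)

/-- Values are passed up along nodes which are not pending. -/
theorem up_one (hC : Closed S N) (hO : Sound S O N) {v r s : ℕ} (h0 : S.tag v ≠ 0) (hp : ¬S.pend O v)
    (h : Ev S (S.nxt O v) r s) : ∃ s', Ev S v r s' ∧ s < s' := by
  by_cases h1 : S.tag v = 1
  · rw [nxt, if_neg h0, if_pos h1] at h
    exact ⟨s + 1, Ev.unary _ _ _ h1 h, by omega⟩
  · have h2 : O (S.nx v) ≠ 0 := fun h2 => hp ⟨h0, h1, h2⟩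
    rw [nxt, if_neg h0, if_neg h1, if_neg h2] at h
    obtain ⟨s1, h3⟩ := hO.sub_one (hC.nx _) h2
    exact ⟨_, Ev.binary _ _ _ _ _ h0 h1 h3 h, by omega⟩

theorem up_many (hC : Closed S N) (hO : Sound S O N) {u i j r s : ℕ} (hij : i ≤ j)
    (h0 : ∀ k, i ≤ k → k < j → S.tag (S.node O u k) ≠ 0 ∧ ¬S.pend O (S.node O u k))
    (h : Ev S (S.node O u j) r s) : ∃ s', Ev S (S.node O u i) r s' := by
  obtain ⟨n, rfl⟩ := Nat.exists_eq_add_of_le hij
  induction n generalizing s with
  | zero => exact ⟨s, h⟩
  | succ n ih =>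
    rw [show i + (n + 1) = (i + n) + 1 by omega, node_succ] at h
    obtain ⟨s', h1, _⟩ := up_one hC hO (h0 (i + n) (by omega) (by omega)).1
      (h0 (i + n) (by omega) (by omega)).2 h
    exact ih (by omega) (fun k h2 h3 => h0 k h2 (by omega)) h1

/-- What the statuses mean. -/
def Good (S : Sys) (O : ℕ → ℕ) (u : ℕ) (q : ℕ × ℕ × ℕ) : Prop :=
  (q.2.2 = 1 → (∃ j, S.node O u j = q.1) ∧ ∃ s, Ev S q.1 q.2.1 s) ∧
  (q.2.2 = 2 → ∃ s, Ev S u q.2.1 s) ∧
  (q.2.2 = 3 → (∃ j, S.node O u j = q.1) ∧ S.pend O q.1 ∧ ∃ s, Ev S (S.nx q.1) q.2.1 s)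

theorem ascF_good (hC : Closed S N) (hO : Sound S O N) {u : ℕ} (hu : u < N)
    {q : ℕ × ℕ × ℕ} (hq : Good S O u q) : Good S O u (S.ascF O u N q) := by
  by_cases hst : q.2.2 = 1
  · obtain ⟨⟨j, hj⟩, s, hs⟩ := hq.1 hst
    obtain ⟨j₀, hj₀, h0, h1⟩ := first_time (fun _ => hC.nxt) hu hj
    have hscan := scan_spec h0 h1 N
    rw [min_eq_right hj₀.le] at hscan
    unfold ascF
    rw [if_neg (not_not.2 hst), hscan]
    simp only
    rcases cand_spec (S := S) (O := O) u j₀ with ⟨h2, h3⟩ | ⟨i, hi, h2, h3, h4⟩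
    · rw [if_pos h2]
      rw [← h0] at hs
      refine ⟨fun h => absurd h (by simp), fun _ => ?_, fun h => absurd h (by simp)⟩
      exact up_many hC hO (Nat.zero_le _) (fun k _ hk => ⟨(h1 k hk).2, h3 k hk⟩) hs
    · rw [if_neg (by omega), h2, Nat.add_sub_cancel]
      rw [← h0] at hs
      obtain ⟨s', h5⟩ := up_many hC hO (u := u) (i := i + 1) hi
        (fun k hk1 hk2 => ⟨(h1 k hk2).2, h4 k hk1 hk2⟩) hs
      rw [node_succ, nxt_pend h3] at h5
      split_ifs with h6
      · exact ⟨fun h => absurd h (by simp), fun h => absurd h (by simp),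
          fun _ => ⟨⟨i, rfl⟩, h3, s', h5⟩⟩
      · refine ⟨fun _ => ⟨⟨i, rfl⟩, ?_⟩, fun h => absurd h (by simp),
          fun h => absurd h (by simp)⟩
        obtain ⟨s'', h7⟩ := hO.sub_one (hC.kont _ _) h6
        exact ⟨_, Ev.binary _ _ _ _ _ h3.1 h3.2.1 h5 h7⟩
  · unfold ascF
    rw [if_pos hst]
    exact hq

theorem ascF_iter_good (hC : Closed S N) (hO : Sound S O N) {u : ℕ}
    (hu : u < N) (k : ℕ) {q : ℕ × ℕ × ℕ} (hq : Good S O u q) :
    Good S O u ((S.ascF O u N)^[k] q) := by
  induction k with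
  | zero => exact hq
  | succ k ih => rw [Function.iterate_succ_apply']; exact ascF_good hC hO hu ih

end Sys

/-! ### The history machine -/

/-- States of the history machine. -/
@[ext] structure HS where
  u : ℕ
  tgt : ℕ
  r : ℕ
  ptgt : ℕ
  md : ℕ
  par : ℕ

namespace Sys

open Classical

variable (S : Sys) (O : ℕ → ℕ) (N : ℕ)

/-- The start of the way up. -/
def start (x : HS) : ℕ × ℕ × ℕ :=
  if x.md = 1 then
    (if S.tag (S.node O x.u N) = 0 then (S.node O x.u N, S.nx (S.node O x.u N), 1) else (0, 0, 0))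
  else (x.tgt, x.r, 1)

/-- The next state, given the status at the end of the way up. -/
def fin (t : ℕ) (x y : HS) (q : ℕ × ℕ × ℕ) : HS :=
  if q.2.2 = 2 then
    (if x.par = 0 then ⟨0, 0, q.2.1 + 1, 0, 0, 0⟩ else ⟨y.u, x.ptgt, q.2.1, y.ptgt, 2, y.par⟩)
  else if q.2.2 = 3 then ⟨S.kont q.1 q.2.1, 0, 0, q.1, 1, t + 1⟩
  else ⟨0, 0, 0, 0, 0, 0⟩

/-- The next state. -/
noncomputable def gH (t : ℕ) (x y : HS) : HS :=
  if x.md = 0 then x else S.fin t x y ((S.ascF O x.u N)^[N] (S.start O N x))

/-- The history. -/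
noncomputable def hist (v : ℕ) : ℕ → HS
  | 0 => ⟨v, 0, 0, 0, 1, 0⟩
  | t + 1 => S.gH O N t (hist v t) (hist v (min ((hist v t).par - 1) t))
  termination_by t => t
  decreasing_by all_goals omega

/-- The evaluation by levels. -/
noncomputable def small (T : ℕ) : ℕ → ℕ → ℕ
  | 0, v => if S.tag v = 0 then S.nx v + 1 else 0
  | l + 1, v => if (S.hist (small T l) N v T).md = 0 then (S.hist (small T l) N v T).r else 0

variable {S O N}

theorem hist_zero (v : ℕ) : S.hist O N v 0 = ⟨v, 0, 0, 0, 1, 0⟩ := by rw [hist]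

theorem hist_succ (v t : ℕ) : S.hist O N v (t + 1) =
    S.gH O N t (S.hist O N v t) (S.hist O N v (min ((S.hist O N v t).par - 1) t)) := by
  rw [hist]

/-- The pending evaluations of a state: if the value of `u` is `c`, then the value of the node which
is evaluated can be computed. -/
inductive Ctx (S : Sys) (O : ℕ → ℕ) (v : ℕ) (H : ℕ → HS) : ℕ → HS → Prop
  | root (t : ℕ) (x : HS) (h : x.par = 0) (hu : x.u = v) : Ctx S O v H t x
  | node (t : ℕ) (x : HS) (j : ℕ) (hj : j < t) (h : x.par = j + 1) (h0 : (H j).md ≠ 0)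
      (h1 : ∃ i, S.node O (H j).u i = x.ptgt)
      (h2 : ∀ c s, Ev S x.u c s → ∃ s', Ev S x.ptgt c s')
      (h3 : Ctx S O v H j (H j)) : Ctx S O v H t x

theorem Ctx.congr {v : ℕ} {H : ℕ → HS} {t t' : ℕ} {x x' : HS} (ht : t ≤ t')
    (h : Ctx S O v H t x) (h1 : x'.u = x.u) (h2 : x'.par = x.par) (h3 : x'.ptgt = x.ptgt) :
    Ctx S O v H t' x' := by
  cases h with
  | root _ _ h hu => exact Ctx.root _ _ (h2.trans h) (h1.trans hu)
  | node _ _ j hj h g0 g1 g2 g3 =>
    exact Ctx.node _ _ j (by omega) (h2.trans h) g0 (by rw [h3]; exact g1)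
      (by rw [h1, h3]; exact g2) g3

/-- The invariant of the history. -/
def HInv (S : Sys) (O : ℕ → ℕ) (N v : ℕ) (H : ℕ → HS) (t : ℕ) (x : HS) : Prop :=
  (x.md = 0 → x.r ≠ 0 → ∃ s, Ev S v (x.r - 1) s) ∧
  (x.md ≠ 0 → x.u < N ∧ Ctx S O v H t x) ∧
  (x.md ≠ 0 → x.md ≠ 1 → (∃ j, S.node O x.u j = x.tgt) ∧ ∃ s, Ev S x.tgt x.r s)

theorem hist_inv (hC : Closed S N) (hO : Sound S O N) {v : ℕ} (hv : v < N) (t : ℕ) :
    HInv S O N v (S.hist O N v) t (S.hist O N v t) := by
  induction t using Nat.strongRecOn with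
  | ind t ih =>
    cases t with
    | zero =>
      rw [hist_zero]
      exact ⟨fun h => absurd h (by simp), fun _ => ⟨hv, Ctx.root _ _ rfl rfl⟩,
        fun _ h => absurd rfl h⟩
    | succ t =>
      have hx := ih t (Nat.lt_succ_self _)
      rw [hist_succ]
      set x := S.hist O N v t with hxdef
      unfold gH
      split_ifs with h0
      · exact ⟨hx.1, fun h => absurd h0 h, fun h => absurd h0 h⟩
      · obtain ⟨hu, hctx⟩ := hx.2.1 h0
        have hstart : Good S O x.u (S.start O N x) := by
          unfold start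
          split_ifs with h1 h2
          · refine ⟨fun _ => ⟨⟨N, rfl⟩, 1, Ev.done _ h2⟩, fun h => absurd h (by simp),
              fun h => absurd h (by simp)⟩
          · exact ⟨fun h => absurd h (by simp), fun h => absurd h (by simp),
              fun h => absurd h (by simp)⟩
          · exact ⟨fun _ => hx.2.2 h0 h1, fun h => absurd h (by simp),
              fun h => absurd h (by simp)⟩
        have hq := ascF_iter_good hC hO hu N hstart
        set q := (S.ascF O x.u N)^[N] (S.start O N x) with hqdef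
        unfold fin
        split_ifs with h1 h2 h3
        · -- the end
          obtain ⟨s, hs⟩ := hq.2.1 h1
          refine ⟨fun _ _ => ?_, fun h => absurd rfl h, fun h => absurd rfl h⟩
          cases hctx with
          | root _ _ _ hu' =>
            rw [← hu']
            exact ⟨s, hs⟩
          | node _ _ j _ h _ _ _ _ => omega
        · -- return
          obtain ⟨s, hs⟩ := hq.2.1 h1
          cases hctx with
          | root _ _ h _ => exact absurd h h2
          | node _ _ j hj h g0 g1 g2 g3 =>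
            have e : min (x.par - 1) t = j := by omega
            have hy := ih j (by omega)
            rw [e]
            obtain ⟨hyu, _⟩ := hy.2.1 g0
            refine ⟨fun h => absurd h (by simp), fun _ => ⟨hyu, ?_⟩, fun _ _ => ⟨g1, g2 _ _ hs⟩⟩
            exact g3.congr (by omega) rfl rfl rfl
        · -- branch
          obtain ⟨g1, g2, s, hs⟩ := hq.2.2 h3
          refine ⟨fun h => absurd h (by simp), fun _ => ⟨hC.kont _ _, ?_⟩, fun _ h => absurd rfl h⟩
          refine Ctx.node _ _ t (Nat.lt_succ_self _) rfl h0 g1 (fun c s' h => ?_) hctx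
          exact ⟨_, Ev.binary _ _ _ _ _ g2.1 g2.2.1 hs h⟩
        · exact ⟨fun _ h => absurd rfl h, fun h => absurd rfl h, fun h => absurd rfl h⟩

theorem small_sound (hC : Closed S N) (T l : ℕ) : Sound S (S.small N T l) N := by
  induction l with
  | zero =>
    intro v _ c h
    rw [small] at h
    split_ifs at h with h1
    · obtain rfl : S.nx v = c := by omega
      exact ⟨1, Ev.done _ h1⟩
  | succ l ih =>
    intro v hv c h
    rw [small] at h
    split_ifs at h with h1
    obtain ⟨s, hs⟩ := (hist_inv hC ih hv T).1 h1 (by omega)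
    rw [h, Nat.add_sub_cancel] at hs
    exact ⟨s, hs⟩

/-! ### Completeness -/

theorem down_one (hC : Closed S N) (hO : Sound S O N) {v c s : ℕ} (h : Ev S v c s)
    (h0 : S.tag v ≠ 0) (hp : ¬S.pend O v) : ∃ s', Ev S (S.nxt O v) c s' ∧ s' < s := by
  cases h with
  | done _ h => exact absurd h h0
  | unary _ _ s h1 h2 =>
    refine ⟨s, ?_, Nat.lt_succ_self _⟩
    rw [nxt, if_neg h0, if_pos h1]
    exact h2
  | binary _ c1 s1 _ s2 _ h1 h2 h3 =>
    have h4 : O (S.nx v) ≠ 0 := fun h4 => hp ⟨h0, h1, h4⟩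
    obtain ⟨s3, h5⟩ := hO.sub_one (hC.nx _) h4
    obtain ⟨h6, _⟩ := h2.unique h5
    refine ⟨s2, ?_, by omega⟩
    rw [nxt, if_neg h0, if_neg h1, if_neg h4, h6]
    exact h3

theorem down_pend {v c s : ℕ} (h : Ev S v c s) (hp : S.pend O v) :
    ∃ c' s' s'', Ev S (S.nxt O v) c' s' ∧ Ev S (S.kont v c') c s'' ∧ s' + s'' + 1 = s := by
  rw [nxt_pend hp]
  cases h with
  | done _ h => exact absurd h hp.1
  | unary _ _ s h1 h2 => exact absurd h1 hp.2.1
  | binary _ c1 s1 _ s2 _ h1 h2 h3 => exact ⟨c1, s1, s2, h2, h3, rfl⟩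

theorem down (hC : Closed S N) (hO : Sound S O N) {v c s : ℕ} (h : Ev S v c s)
    (h0 : S.tag v ≠ 0) : ∃ c' s', Ev S (S.nxt O v) c' s' ∧ s' < s := by
  by_cases hp : S.pend O v
  · obtain ⟨c', s', s'', h1, _, h3⟩ := down_pend h hp
    exact ⟨c', s', h1, by omega⟩
  · obtain ⟨s', h1, h2⟩ := down_one hC hO h h0 hp
    exact ⟨c, s', h1, h2⟩

/-- The path of a node with a value. -/
theorem exists_path (hC : Closed S N) (hO : Sound S O N) {u c s : ℕ} (hu : u < N)
    (h : Ev S u c s) : ∃ L, L < N ∧ S.tag (S.node O u L) = 0 ∧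
      (∀ i < L, S.tag (S.node O u i) ≠ 0) ∧
      (∀ i ≤ L, ∃ c' s', Ev S (S.node O u i) c' s' ∧ s' + i ≤ s) ∧
      ∀ i j, i < j → j ≤ L → S.node O u i ≠ S.node O u j := by
  -- values along the path
  have key : ∀ n, (∀ i < n, S.tag (S.node O u i) ≠ 0) →
      ∃ c' s', Ev S (S.node O u n) c' s' ∧ s' + n ≤ s := by
    intro n
    induction n with
    | zero => exact fun _ => ⟨c, s, h, le_rfl⟩
    | succ n ih =>
      intro hn
      obtain ⟨c', s', h1, h2⟩ := ih fun i hi => hn i (by omega)
      obtain ⟨c'', s'', h3, h4⟩ := down hC hO h1 (hn n (Nat.lt_succ_self _))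
      rw [node_succ]
      exact ⟨c'', s'', h3, by omega⟩
  have hex : ∃ n, S.tag (S.node O u n) = 0 := by
    by_contra hcon
    push Not at hcon
    obtain ⟨c', s', h1, h2⟩ := key s fun i _ => hcon i
    have := h1.pos
    omega
  classical
  set L := Nat.find hex with hL
  have hmin : ∀ i < L, S.tag (S.node O u i) ≠ 0 := fun i hi => Nat.find_min hex hi
  have hval : ∀ i ≤ L, ∃ c' s', Ev S (S.node O u i) c' s' ∧ s' + i ≤ s :=
    fun i hi => key i fun j hj => hmin j (by omega)
  -- sizes decrease
  have hdec : ∀ j i, i + j ≤ L → ∀ c' s', Ev S (S.node O u i) c' s' →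
      ∃ c'' s'', Ev S (S.node O u (i + j)) c'' s'' ∧ s'' + j ≤ s' := by
    intro j
    induction j with
    | zero => exact fun i _ c' s' h => ⟨c', s', h, le_rfl⟩
    | succ j ih =>
      intro i hi c' s' h
      obtain ⟨c1, s1, h1, h2⟩ := ih i (by omega) c' s' h
      obtain ⟨c2, s2, h3, h4⟩ := down hC hO h1 (hmin (i + j) (by omega))
      rw [← node_succ] at h3
      exact ⟨c2, s2, h3, by omega⟩
  have hne : ∀ i j, i < j → j ≤ L → S.node O u i ≠ S.node O u j := by
    intro i j hij hj heq
    obtain ⟨c', s', h1, _⟩ := hval i (by omega)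
    obtain ⟨c'', s'', h2, h3⟩ := hdec (j - i) i (by omega) c' s' h1
    rw [show i + (j - i) = j by omega, ← heq] at h2
    obtain ⟨_, h4⟩ := h1.unique h2
    omega
  refine ⟨L, ?_, Nat.find_spec hex, hmin, hval, hne⟩
  have hlt : ∀ t, S.node O u t < N := by
    intro t
    induction t with
    | zero => exact hu
    | succ t ih => rw [node_succ]; exact hC.nxt ih
  have hcard : (Finset.range (L + 1)).card ≤ (Finset.range N).card := by
    refine Finset.card_le_card_of_injOn (fun t => S.node O u t)
      (fun t _ => Finset.mem_coe.2 (Finset.mem_range.2 (hlt t))) ?_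
    intro a ha b hb h
    rw [Finset.mem_coe, Finset.mem_range] at ha hb
    rcases Nat.lt_trichotomy a b with h1 | h1 | h1
    · exact absurd h (hne a b h1 (by omega))
    · exact h1
    · exact absurd h.symm (hne b a h1 (by omega))
  rw [Finset.card_range, Finset.card_range] at hcard
  exact hcard

theorem ascF_absorb {u : ℕ} {q : ℕ × ℕ × ℕ} (h : q.2.2 ≠ 1) (k : ℕ) :
    (S.ascF O u N)^[k] q = q := by
  induction k with
  | zero => rfl
  | succ k ih =>
    rw [Function.iterate_succ_apply', ih, ascF, if_pos h]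

/-- The scan finds the last pending node. -/
theorem scan_at {u L : ℕ} (hL : L < N) (h1 : ∀ i < L, S.tag (S.node O u i) ≠ 0)
    (h2 : ∀ i j, i < j → j ≤ L → S.node O u i ≠ S.node O u j) {j : ℕ} (hj : j ≤ L) :
    ((S.scanF O (S.node O u j))^[N] (u, 0)).2 = S.cand O u j := by
  rw [scan_spec rfl (fun i hi => ⟨h2 i j hi hj, h1 i (by omega)⟩), min_eq_right (by omega)]

/-- One step of the way up from the `j`-th node. -/
theorem ascF_at {u L : ℕ} (hL : L < N) (h1 : ∀ i < L, S.tag (S.node O u i) ≠ 0)
    (h2 : ∀ i j, i < j → j ≤ L → S.node O u i ≠ S.node O u j) {j : ℕ} (hj : j ≤ L) (r : ℕ) :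
    S.ascF O u N (S.node O u j, r, 1) =
      if S.cand O u j = 0 then (0, r, 2)
      else if O (S.kont (S.cand O u j - 1) r) = 0 then (S.cand O u j - 1, r, 3)
      else (S.cand O u j - 1, O (S.kont (S.cand O u j - 1) r) - 1, 1) := by
  unfold ascF
  simp only [scan_at hL h1 h2 hj]
  simp

theorem asc_settled {u L : ℕ} (hL : L < N) (h1 : ∀ i < L, S.tag (S.node O u i) ≠ 0)
    (h2 : ∀ i j, i < j → j ≤ L → S.node O u i ≠ S.node O u j) (j : ℕ) :
    j ≤ L → ∀ (r m : ℕ), j + 1 ≤ m → ((S.ascF O u N)^[m] (S.node O u j, r, 1)).2.2 ≠ 1 := by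
  induction j using Nat.strongRecOn with
  | ind j ih =>
    intro hj r m hm
    obtain ⟨m, rfl⟩ : ∃ k, m = k + 1 := ⟨m - 1, by omega⟩
    rw [Function.iterate_succ_apply, ascF_at hL h1 h2 hj]
    split_ifs with h3 h4
    · rw [ascF_absorb (by simp)]; simp
    · rw [ascF_absorb (by simp)]; simp
    · rcases cand_spec (S := S) (O := O) u j with ⟨h5, _⟩ | ⟨i, hi, h5, _, _⟩
      · exact absurd h5 h3
      · rw [h5, Nat.add_sub_cancel]
        exact ih i hi (by omega) _ _ (by omega)

theorem asc_stable {u L : ℕ} (hL : L < N) (h1 : ∀ i < L, S.tag (S.node O u i) ≠ 0)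
    (h2 : ∀ i j, i < j → j ≤ L → S.node O u i ≠ S.node O u j) {j : ℕ} (hj : j ≤ L) (r : ℕ)
    {m m' : ℕ} (hm : j + 1 ≤ m) (hm' : m ≤ m') :
    (S.ascF O u N)^[m'] (S.node O u j, r, 1) = (S.ascF O u N)^[m] (S.node O u j, r, 1) := by
  obtain ⟨k, rfl⟩ := Nat.exists_eq_add_of_le hm'
  rw [Nat.add_comm, Function.iterate_add_apply, ascF_absorb (asc_settled hL h1 h2 j hj r m hm)]

/-- The state after the evaluation of `u`. -/
def ret (H : ℕ → HS) (par ptgt c : ℕ) : HS :=
  if par = 0 then ⟨0, 0, c + 1, 0, 0, 0⟩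
  else ⟨(H (par - 1)).u, ptgt, c, (H (par - 1)).ptgt, 2, (H (par - 1)).par⟩

theorem hist_complete (hC : Closed S N) (hO : Sound S O N) {a : ℕ}
    (ha : ∀ v, v < N → ∀ c s, Ev S v c s → s ≤ a → O v = c + 1) (v : ℕ) (s : ℕ) :
    ∀ u c, Ev S u c s → u < N → ∀ t, (S.hist O N v t).u = u → (S.hist O N v t).md = 1 →
      (S.hist O N v t).par ≤ t → ∃ k, 1 ≤ k ∧ a * (k - 1) ≤ 2 * (s - a) ∧
        S.hist O N v (t + k) = ret (S.hist O N v) (S.hist O N v t).par (S.hist O N v t).ptgt c := by
  induction s using Nat.strongRecOn with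
  | ind s ih =>
    intro u c hev hu t hHu hHmd hpar
    set H := S.hist O N v with hH
    set par := (H t).par with hpardef
    set ptgt := (H t).ptgt with hptgtdef
    obtain ⟨L, hL, htag, h1, hval, h2⟩ := exists_path hC hO hu hev
    have hN0 : 0 < N := by omega
    -- the way up, node by node
    have key : ∀ n, n ≤ L → ∀ cj sj, Ev S (S.node O u (L - n)) cj sj → ∃ k, a * k ≤ 2 * (sj - a) ∧
        (H (t + k)).u = u ∧ (H (t + k)).md ≠ 0 ∧ (H (t + k)).par = par ∧ (H (t + k)).ptgt = ptgt ∧
        (S.ascF O u N)^[N] (S.start O N (H (t + k))) =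
          (S.ascF O u N)^[N] (S.node O u (L - n), cj, 1) := by
      intro n
      induction n with
      | zero =>
        intro _ cj sj hj
        rw [Nat.sub_zero] at hj ⊢
        refine ⟨0, by simp, hHu, by rw [Nat.add_zero, hHmd]; simp, rfl, rfl, ?_⟩
        rw [Nat.add_zero, start, if_pos hHmd, hHu, node_tag0 htag hL.le, if_pos htag]
        have h3 := (Ev.done (S := S) _ htag).unique hj
        rw [← h3.1]
      | succ n ihn =>
        intro hn cj sj hj
        set j := L - (n + 1) with hjdef
        have hjL : j < L := by omega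
        have hj1 : L - n = j + 1 := by omega
        rw [hj1] at ihn
        by_cases hp : S.pend O (S.node O u j)
        · obtain ⟨c', s', s'', g1, g2, g3⟩ := down_pend hj hp
          rw [← node_succ] at g1
          obtain ⟨k, k1, k2, k3, k4, k5, k6⟩ := ihn (by omega) c' s' g1
          have hcand : S.cand O u (j + 1) = S.node O u j + 1 := by rw [cand, if_pos hp]
          have hstep := ascF_at hL h1 h2 (j := j + 1) hjL c'
          rw [hcand, if_neg (by omega), Nat.add_sub_cancel] at hstep
          have hNsub : N = (N - 1) + 1 := by omega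
          by_cases hz : O (S.kont (S.node O u j) c') = 0
          · -- a branch
            rw [if_pos hz] at hstep
            have e1 : (S.ascF O u N)^[N] (S.node O u (j + 1), c', 1) = (S.node O u j, c', 3) := by
              conv_lhs => rw [hNsub]
              rw [Function.iterate_succ_apply, ← hNsub, hstep, ascF_absorb (by simp)]
            have e2 : H (t + k + 1) = ⟨S.kont (S.node O u j) c', 0, 0, S.node O u j, 1,
                t + k + 1⟩ := by
              rw [hH, hist_succ, ← hH, gH, if_neg k3, k2, k6, e1, fin]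
              simp
            have hs' : a < s' := by
              by_contra hcon
              have := ha _ (hC.nx _) c' s' (by rw [← nxt_pend hp, ← node_succ]; exact g1)
                (by omega)
              rw [hp.2.2] at this
              omega
            have hs'' : a < s'' := by
              by_contra hcon
              have := ha _ (hC.kont _ _) cj s'' g2 (by omega)
              rw [hz] at this
              omega
            have hsj : sj ≤ s := by
              obtain ⟨c3, s3, g4, g5⟩ := hval j hjL.le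
              obtain ⟨_, g6⟩ := g4.unique hj
              omega
            obtain ⟨k', l1, l2, l3⟩ := ih s'' (by omega) _ _ g2 (hC.kont _ _) (t + k + 1)
              (by rw [e2]) (by rw [e2]) (by rw [e2])
            rw [e2] at l3
            simp only [ret, Nat.add_sub_cancel] at l3
            rw [if_neg (by omega), k2, k4, k5] at l3
            refine ⟨k + 1 + k', ?_, ?_⟩
            · have m1 : a * (k + 1 + k') = a * k + a + a + a * (k' - 1) := by
                obtain ⟨k'', rfl⟩ : ∃ m, k' = m + 1 := ⟨k' - 1, by omega⟩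
                rw [Nat.add_sub_cancel]
                ring
              omega
            · rw [show t + (k + 1 + k') = t + k + 1 + k' by omega, l3]
              refine ⟨rfl, by simp, rfl, rfl, ?_⟩
              rw [start]
              simp
          · -- the value is known
            rw [if_neg hz] at hstep
            obtain ⟨s3, g4⟩ := hO.sub_one (hC.kont _ _) hz
            obtain ⟨g5, _⟩ := g2.unique g4
            rw [g5] at hstep
            refine ⟨k, by omega, k2, k3, k4, k5, ?_⟩
            rw [k6]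
            conv_lhs => rw [hNsub]
            rw [Function.iterate_succ_apply, ← hNsub, hstep]
            exact (asc_stable hL h1 h2 hjL.le cj (by omega) (by omega)).symm
        · obtain ⟨s', g1, g2⟩ := down_one hC hO hj (h1 j hjL) hp
          rw [← node_succ] at g1
          obtain ⟨k, k1, k2, k3, k4, k5, k6⟩ := ihn (by omega) cj s' g1
          refine ⟨k, by omega, k2, k3, k4, k5, ?_⟩
          rw [k6]
          have hNsub : N = (N - 1) + 1 := by omega
          have e1 : S.ascF O u N (S.node O u (j + 1), cj, 1) =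
              S.ascF O u N (S.node O u j, cj, 1) := by
            rw [ascF_at hL h1 h2 hjL, ascF_at hL h1 h2 hjL.le]
            have hcand : S.cand O u (j + 1) = S.cand O u j := by rw [cand, if_neg hp]
            rw [hcand]
          conv_lhs => rw [hNsub]
          conv_rhs => rw [hNsub]
          rw [Function.iterate_succ_apply, Function.iterate_succ_apply, ← hNsub, e1]
    obtain ⟨k, k1, k2, k3, k4, k5, k6⟩ := key L le_rfl c s (by rw [Nat.sub_self]; exact hev)
    rw [Nat.sub_self] at k6
    have hNsub : N = (N - 1) + 1 := by omega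
    have e1 : (S.ascF O u N)^[N] (S.node O u 0, c, 1) = (0, c, 2) := by
      conv_lhs => rw [hNsub]
      rw [Function.iterate_succ_apply, ← hNsub, ascF_at hL h1 h2 (Nat.zero_le _)]
      have hc0 : S.cand O u 0 = 0 := rfl
      rw [if_pos hc0, ascF_absorb (by simp)]
    refine ⟨k + 1, by omega, by rw [Nat.add_sub_cancel]; exact k1, ?_⟩
    rw [← Nat.add_assoc, hH, hist_succ, ← hH, gH, if_neg k3, k2, k6, e1, fin, ret]
    simp only [if_true, k4, k5]
    by_cases hp0 : par = 0
    · rw [if_pos hp0, if_pos hp0]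
    · rw [if_neg hp0, if_neg hp0, min_eq_left (by omega)]

theorem hist_final {v t : ℕ} (h : (S.hist O N v t).md = 0) {t' : ℕ} (ht : t ≤ t') :
    S.hist O N v t' = S.hist O N v t := by
  induction ht with
  | refl => rfl
  | step _ ih => rw [Nat.succ_eq_add_one, hist_succ, ih, gH, if_pos h]

/-- Nodes whose computation has size at most `B ^ l` are evaluated on level `l`. -/
theorem small_complete (hC : Closed S N) {T B : ℕ} (hB : 0 < B) (hT : 2 * B ≤ T) (l : ℕ) :
    ∀ v, v < N → ∀ c s, Ev S v c s → s ≤ B ^ l → S.small N T l v = c + 1 := by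
  induction l with
  | zero =>
    intro v _ c s h hs
    rw [pow_zero] at hs
    rw [small]
    cases h with
    | done _ h => rw [if_pos h]
    | unary _ _ s _ h1 => have := h1.pos; omega
    | binary _ _ _ _ _ _ _ h1 _ => have := h1.pos; omega
  | succ l ih =>
    intro v hv c s h hs
    obtain ⟨k, k1, k2, k3⟩ := hist_complete hC (small_sound hC T l) ih v s v c h hv 0
      (by rw [hist_zero]) (by rw [hist_zero]) (by rw [hist_zero])
    rw [hist_zero, ret, if_pos rfl, Nat.zero_add] at k3
    have hpos : 0 < B ^ l := Nat.pow_pos hB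
    have hk : k ≤ T := by
      rw [pow_succ] at hs
      have h1 : B ^ l * (k - 1) ≤ B ^ l * (2 * (B - 1)) := by
        refine k2.trans ?_
        have h2 : 2 * (s - B ^ l) ≤ 2 * (B ^ l * B - B ^ l) := by omega
        refine h2.trans (le_of_eq ?_)
        obtain ⟨b, rfl⟩ : ∃ b, B = b + 1 := ⟨B - 1, by omega⟩
        rw [Nat.add_sub_cancel, Nat.mul_succ, Nat.add_sub_cancel]
        ring
      have h3 := Nat.le_of_mul_le_mul_left h1 hpos
      omega
    have h4 := hist_final (S := S) (O := S.small N T l) (N := N) (v := v) (t := k)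
      (by rw [k3]) hk
    rw [small, h4, k3]
    simp

end Sys

end Pool.Agent.Lib.MP_9277c3_lc.CM
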