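import Pool.Agent.Lib.MP_9277c3_lc.helper78.CM.Counter

/-!
# Arithmetic expressions, computed with counters
-/

namespace Pool.Agent.Lib.MP_9277c3_lc.CM

/-- Arithmetic expressions over registers `R`. -/
inductive Exp (R : Type) : Type
  | var (r : R) : Exp R
  | lit (k : ℕ) : Exp R
  | add (a b : Exp R) : Exp R
  | sub (a b : Exp R) : Exp R
  | mul (a b : Exp R) : Exp R
  | div (a b : Exp R) : Exp R
  | mod (a b : Exp R) : Exp R
  | tab (f : ℕ → ℕ) (k : ℕ) (a : Exp R) : Exp R
  | inp (a : Exp R) : Exp R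

namespace Exp

variable {R α : Type}

/-- The value of an expression; `cc` is the code of a cell of the input. -/
def eval (x : List α) (cc : Cell α → ℕ) (s : R → ℕ) : Exp R → ℕ
  | var r => s r
  | lit k => k
  | add a b => a.eval x cc s + b.eval x cc s
  | sub a b => a.eval x cc s - b.eval x cc s
  | mul a b => a.eval x cc s * b.eval x cc s
  | div a b => a.eval x cc s / b.eval x cc s
  | mod a b => a.eval x cc s % b.eval x cc s
  | tab f k a => if a.eval x cc s < k then f (a.eval x cc s) else 0
  | inp a => cc (cell x (a.eval x cc s))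

/-- All values of subexpressions are less than `W`. -/
def ok (x : List α) (cc : Cell α → ℕ) (W : ℕ) (s : R → ℕ) : Exp R → Prop
  | var r => s r < W
  | lit k => k < W
  | add a b => a.ok x cc W s ∧ b.ok x cc W s ∧ a.eval x cc s + b.eval x cc s < W
  | sub a b => a.ok x cc W s ∧ b.ok x cc W s
  | mul a b => a.ok x cc W s ∧ b.ok x cc W s ∧ a.eval x cc s * b.eval x cc s < W
  | div a b => a.ok x cc W s ∧ b.ok x cc W s
  | mod a b => a.ok x cc W s ∧ b.ok x cc W s
  | tab f k a => a.ok x cc W s ∧ ∀ j < k, f j < W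
  | inp a => a.ok x cc W s ∧ ∀ c, cc c < W

theorem ok.lt {x : List α} {cc : Cell α → ℕ} {W : ℕ} {s : R → ℕ} {e : Exp R}
    (h : e.ok x cc W s) : e.eval x cc s < W := by
  induction e with
  | var r => exact h
  | lit k => exact h
  | add a b _ _ => exact h.2.2
  | sub a b ha _ => exact (Nat.sub_le _ _).trans_lt (ha h.1)
  | mul a b _ _ => exact h.2.2
  | div a b ha _ => exact (Nat.div_le_self _ _).trans_lt (ha h.1)
  | mod a b ha _ => exact (Nat.mod_le _ _).trans_lt (ha h.1)
  | tab f k a ha =>
    simp only [eval]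
    split_ifs with h1
    · exact h.2 _ h1
    · exact (Nat.zero_le _).trans_lt (ha h.1)
  | inp a _ => exact h.2 _

/-- The height of an expression. -/
def ht : Exp R → ℕ
  | var _ => 0
  | lit _ => 0
  | add a b => max a.ht b.ht + 1
  | sub a b => max a.ht b.ht + 1
  | mul a b => max a.ht b.ht + 1
  | div a b => max a.ht b.ht + 1
  | mod a b => max a.ht b.ht + 1
  | tab _ k a => max a.ht k + 1
  | inp a => a.ht + 1

end Exp

/-! ### Programs for counters -/

section

variable {α ι F : Type} {x : List α} {W : ℕ} {body : F → CStmt α ι F}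

theorem Exec.cast {P T F σ : Type} {M : Sem P T σ} {body : F → Stmt P T F} {d : ℕ}
    {a : Stmt P T F} {s t u : σ} (h : Exec M body d a s t) (e : t = u) : Exec M body d a s u :=
  e ▸ h

theorem exec_loop (i : ι) (B : CStmt α ι F) (g : ℕ → (ι → ℕ) × ℕ) (hg : ∀ n, (g n).1 i = n)
    {d : ℕ} (N : ℕ) (hB : ∀ n, n < N → Exec (csem x W) body d B (g (n + 1)) (g n))
    {s t : (ι → ℕ) × ℕ} (hs : g N = s) (ht : g 0 = t) :
    Exec (csem x W) body (d + 1) (Stmt.loop (CTest.nz i) B) s t := by
  subst hs ht
  induction N with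
  | zero => exact Exec.loopF _ _ _ _ (by simp [csem, hg])
  | succ N ih =>
    exact Exec.loopT _ _ _ _ _ _ (by simp [csem, hg]) (hB N (Nat.lt_succ_self _))
      (ih fun n hn => hB n (by omega))

theorem exec_inc {d : ℕ} (i : ι) (s : (ι → ℕ) × ℕ) (h : s.1 i + 1 < W) :
    Exec (csem x W) body d (Stmt.prim (CPrim.inc i)) s (upd s.1 i (s.1 i + 1), s.2) :=
  Exec.prim _ _ _ h

theorem exec_dec {d : ℕ} (i : ι) (s : (ι → ℕ) × ℕ) :
    Exec (csem x W) body d (Stmt.prim (CPrim.dec i)) s (upd s.1 i (s.1 i - 1), s.2) :=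
  Exec.prim (M := csem x W) _ (CPrim.dec i) _ trivial

/-- Increment `k` times. -/
def incs (i : ι) : ℕ → CStmt α ι F
  | 0 => Stmt.skip
  | k + 1 => Stmt.seq (Stmt.prim (CPrim.inc i)) (incs i k)

theorem exec_incs (i : ι) (k : ℕ) : ∀ s : (ι → ℕ) × ℕ, s.1 i + k < W →
    Exec (csem x W) body k (incs i k) s (upd s.1 i (s.1 i + k), s.2) := by
  induction k with
  | zero => intro s _; exact (Exec.skip _ _).cast (by simp)
  | succ k ih =>
    intro s hs
    refine Exec.seq _ _ _ _ _ _ (exec_inc i s (by omega)) ?_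
    refine ((ih _ (by simp only [upd_self]; omega)).mono (Nat.le_succ _)).cast ?_
    simp only [upd_self, upd_upd]
    rw [Nat.add_assoc, Nat.add_comm 1 k]

/-- Set the counter `i` to zero. -/
def clr (i : ι) : CStmt α ι F := Stmt.loop (CTest.nz i) (Stmt.prim (CPrim.dec i))

theorem exec_clr (i : ι) (s : (ι → ℕ) × ℕ) :
    Exec (csem x W) body 1 (clr i) s (upd s.1 i 0, s.2) :=
  exec_loop (d := 0) i (Stmt.prim (CPrim.dec i))
    (fun n => (upd s.1 i n, s.2)) (fun n => by simp) (s.1 i) (fun n _ => by
      refine (exec_dec i _).cast ?_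
      simp) (by simp) rfl

/-- Add the counter `i` to `j`; then `i` is zero. -/
def mov (i j : ι) : CStmt α ι F :=
  Stmt.loop (CTest.nz i) (Stmt.seq (Stmt.prim (CPrim.dec i)) (Stmt.prim (CPrim.inc j)))

theorem exec_mov (i j : ι) (hij : i ≠ j) (s : (ι → ℕ) × ℕ) (h : s.1 i + s.1 j < W) :
    Exec (csem x W) body 2 (mov i j) s (upd (upd s.1 i 0) j (s.1 i + s.1 j), s.2) := by
  refine exec_loop (d := 1) i
    (Stmt.seq (Stmt.prim (CPrim.dec i)) (Stmt.prim (CPrim.inc j)))
    (fun n => (upd (upd s.1 i n) j (s.1 i + s.1 j - n), s.2)) (fun n => by simp [hij]) (s.1 i)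
    (fun n hn => by
      refine Exec.seq _ _ _ _ _ _ (exec_dec i _) ((exec_inc j _ ?_).cast ?_)
      · simp only [upd_self, upd_ne hij.symm]
        omega
      · refine Prod.ext ?_ rfl
        funext k
        simp only [upd]
        split_ifs <;> simp_all <;> omega) ?_ rfl
  refine Prod.ext ?_ rfl
  funext k
  simp only [upd]
  split_ifs <;> simp_all

/-- Add the counter `i` to `j` and to `k`; then `i` is zero. -/
def mov2 (i j k : ι) : CStmt α ι F :=
  Stmt.loop (CTest.nz i) (Stmt.seq (Stmt.prim (CPrim.dec i))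
    (Stmt.seq (Stmt.prim (CPrim.inc j)) (Stmt.prim (CPrim.inc k))))

theorem exec_mov2 (i j k : ι) (hij : i ≠ j) (hik : i ≠ k) (hjk : j ≠ k) (s : (ι → ℕ) × ℕ)
    (h : s.1 i + s.1 j < W) (h' : s.1 i + s.1 k < W) :
    Exec (csem x W) body 3 (mov2 i j k) s
      (upd (upd (upd s.1 i 0) j (s.1 i + s.1 j)) k (s.1 i + s.1 k), s.2) := by
  refine exec_loop (d := 2) i _
    (fun n => (upd (upd (upd s.1 i n) j (s.1 i + s.1 j - n)) k (s.1 i + s.1 k - n), s.2))
    (fun n => by simp [hij, hik]) (s.1 i)
    (fun n hn => by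
      refine Exec.seq _ _ _ _ _ _ (exec_dec i _) (Exec.seq _ _ _ _ _ _ (exec_inc j _ ?_)
        ((exec_inc k _ ?_).cast ?_))
      · simp only [upd_self, upd_ne hij.symm, upd_ne hik.symm, upd_ne hjk.symm, upd_ne hjk]
        omega
      · simp only [upd_self, upd_ne hij.symm, upd_ne hik.symm, upd_ne hjk.symm, upd_ne hjk]
        omega
      · refine Prod.ext ?_ rfl
        funext u
        simp only [upd]
        split_ifs <;> simp_all <;> omega) ?_ rfl
  refine Prod.ext ?_ rfl
  funext u
  simp only [upd]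
  split_ifs <;> simp_all

/-- Subtract the counter `i` from `j`; then `i` is zero. -/
def subC (i j : ι) : CStmt α ι F :=
  Stmt.loop (CTest.nz i) (Stmt.seq (Stmt.prim (CPrim.dec i)) (Stmt.prim (CPrim.dec j)))

theorem exec_subC (i j : ι) (hij : i ≠ j) (s : (ι → ℕ) × ℕ) :
    Exec (csem x W) body 2 (subC i j) s (upd (upd s.1 i 0) j (s.1 j - s.1 i), s.2) := by
  refine exec_loop (d := 1) i _
    (fun n => (upd (upd s.1 i n) j (s.1 j - (s.1 i - n)), s.2)) (fun n => by simp [hij]) (s.1 i)
    (fun n hn => by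
      refine Exec.seq _ _ _ _ _ _ (exec_dec i _) ((exec_dec j _).cast ?_)
      refine Prod.ext ?_ rfl
      funext k
      simp only [upd]
      split_ifs <;> simp_all <;> omega) ?_ (by simp)
  refine Prod.ext ?_ rfl
  funext k
  simp only [upd]
  split_ifs <;> simp_all

/-- Multiplication of `i` and `j`; the result is in `i`, and `j` is zero; `k`, `l` are auxiliary. -/
def mulC (i j k l : ι) : CStmt α ι F :=
  Stmt.seq (Stmt.loop (CTest.nz j) (Stmt.seq (Stmt.prim (CPrim.dec j))
    (Stmt.seq (mov2 i k l) (mov l i)))) (Stmt.seq (clr i) (mov k i))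

theorem exec_mulC (i j k l : ι) (hij : i ≠ j) (hik : i ≠ k) (hil : i ≠ l) (hjk : j ≠ k)
    (hjl : j ≠ l) (hkl : k ≠ l) (s : (ι → ℕ) × ℕ) (hk : s.1 k = 0) (hl : s.1 l = 0)
    (hi : s.1 i < W) (h : s.1 i * s.1 j < W) :
    Exec (csem x W) body 8 (mulC i j k l) s (upd (upd s.1 j 0) i (s.1 i * s.1 j), s.2) := by
  have h1 : Exec (csem x W) body 7 (Stmt.loop (CTest.nz j) (Stmt.seq (Stmt.prim (CPrim.dec j))
      (Stmt.seq (mov2 i k l) (mov l i)))) s (upd (upd s.1 j 0) k (s.1 i * s.1 j), s.2) := by
    refine exec_loop (d := 6) j _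
      (fun n => (upd (upd s.1 j n) k (s.1 i * (s.1 j - n)), s.2)) (fun n => by simp [hjk]) (s.1 j)
      (fun n hn => ?_) ?_ (by simp)
    · have e : s.1 i * (s.1 j - n) = s.1 i * (s.1 j - (n + 1)) + s.1 i := by
        rw [show s.1 j - n = s.1 j - (n + 1) + 1 by omega, Nat.mul_succ]
      have e2 : s.1 i * (s.1 j - n) ≤ s.1 i * s.1 j := Nat.mul_le_mul_left _ (Nat.sub_le _ _)
      refine Exec.seq _ _ _ _ _ _ (exec_dec j _) ?_
      refine Exec.seq 5 _ _ _ _ _ ((exec_mov2 i k l hik hil hkl _ ?_ ?_).mono (by omega)) ?_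
      · simp only [upd_self, upd_upd, upd_ne hij, upd_ne hik, upd_ne hjk.symm, upd_ne hjk]
        omega
      · simp only [upd_self, upd_upd, upd_ne hij, upd_ne hik, upd_ne hjl.symm, upd_ne hkl.symm, hl]
        omega
      · refine ((exec_mov l i hil.symm _ ?_).mono (by omega)).cast ?_
        · simp only [upd_self, upd_upd, upd_ne hij, upd_ne hik, upd_ne hjl.symm, upd_ne hkl.symm,
            hl, upd_ne hil]
          omega
        · refine Prod.ext ?_ rfl
          funext u
          simp only [upd]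
          split_ifs <;> simp_all <;> omega
    · refine Prod.ext ?_ rfl
      funext u
      simp only [upd]
      split_ifs <;> simp_all
  refine Exec.seq _ _ _ _ _ _ h1 (Exec.seq 7 _ _ _ _ _ ((exec_clr i _).mono (by omega))
    (((exec_mov k i hik.symm _ ?_).mono (by omega)).cast ?_))
  · simp only [upd_self, upd_ne hik.symm]
    omega
  · refine Prod.ext ?_ rfl
    funext u
    simp only [upd]
    split_ifs <;> simp_all

/-- The loop of the division of `i` by `j`: the quotient is in `k`, the remainder in `l`. -/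
def divL (i j k l : ι) : CStmt α ι F :=
  Stmt.loop (CTest.nz i) (Stmt.seq (Stmt.prim (CPrim.dec i))
    (Stmt.seq (Stmt.prim (CPrim.dec j)) (Stmt.seq (Stmt.prim (CPrim.inc l))
      (Stmt.ite (CTest.nz j) Stmt.skip (Stmt.seq (Stmt.prim (CPrim.inc k)) (mov l j))))))

theorem exec_divL (i j k l : ι) (hij : i ≠ j) (hik : i ≠ k) (hil : i ≠ l) (hjk : j ≠ k)
    (hjl : j ≠ l) (hkl : k ≠ l) (s : (ι → ℕ) × ℕ) (hk : s.1 k = 0) (hl : s.1 l = 0)
    (hi : s.1 i < W) (hj : s.1 j < W) (hj0 : s.1 j ≠ 0) :
    Exec (csem x W) body 8 (divL i j k l) s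
      (upd (upd (upd (upd s.1 i 0) k (s.1 i / s.1 j)) l (s.1 i % s.1 j)) j
        (s.1 j - s.1 i % s.1 j), s.2) := by
  refine exec_loop (d := 7) i _
    (fun n => (upd (upd (upd (upd s.1 i n) k ((s.1 i - n) / s.1 j)) l ((s.1 i - n) % s.1 j)) j
        (s.1 j - (s.1 i - n) % s.1 j), s.2)) (fun n => by simp [hij, hik, hil]) (s.1 i)
      (fun n hn => ?_) ?_ (by simp)
  · set b := s.1 j with hb
    have hbp : 0 < b := Nat.pos_of_ne_zero hj0
    obtain ⟨u, hu⟩ : ∃ u, u = s.1 i - (n + 1) := ⟨_, rfl⟩
    have hu1 : s.1 i - n = u + 1 := by omega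
    have hmod := Nat.mod_lt u hbp
    have hdm := Nat.div_add_mod u b
    rw [hu1, ← hu]
    have hq : u / b < W := lt_of_le_of_lt (Nat.div_le_self _ _) (by omega)
    refine Exec.seq _ _ _ _ _ _ (exec_dec i _) (Exec.seq _ _ _ _ _ _ (exec_dec j _)
      (Exec.seq _ _ _ _ _ _ (exec_inc l _ ?_) ?_))
    · simp only [upd_self, upd_ne hij.symm, upd_ne hil.symm, upd_ne hjl.symm, upd_upd]
      omega
    · by_cases hc : u % b + 1 = b
      · -- the remainder becomes zero
        have e1 : (u + 1) / b = u / b + 1 := by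
          rw [show u + 1 = b * (u / b + 1) by rw [Nat.mul_add, Nat.mul_one]; omega,
            Nat.mul_div_cancel_left _ hbp]
        have e2 : (u + 1) % b = 0 := by
          rw [show u + 1 = b * (u / b + 1) by rw [Nat.mul_add, Nat.mul_one]; omega,
            Nat.mul_mod_right]
        rw [e1, e2]
        have hq1 : u / b + 1 < W := by
          rw [← e1]
          exact lt_of_le_of_lt (Nat.div_le_self _ _) (by omega)
        refine Exec.iteF _ _ _ _ _ _ ?_ ?_
        · simp only [csem, upd_self, upd_ne hjl, upd_upd, upd_ne hij, upd_ne hij.symm]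
          omega
        · refine Exec.seq _ _ _ _ _ _ (exec_inc k _ ?_)
            (((exec_mov l j hjl.symm _ ?_).mono (by omega)).cast ?_)
          · simp only [upd_self, upd_ne hkl, upd_ne hik.symm, upd_ne hjk.symm, upd_upd,
              upd_ne hik]
            omega
          · simp only [upd_self, upd_ne hjl.symm, upd_ne hil.symm, upd_ne hkl.symm, upd_upd,
              upd_ne hjk, upd_ne hjl, upd_ne hij.symm]
            omega
          · refine Prod.ext ?_ rfl
            funext v
            by_cases hvj : v = j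
            · subst hvj
              simp only [upd_self, upd_ne hjl, upd_ne hjk, upd_ne hij.symm, upd_ne hij,
                upd_ne hjl.symm, upd_ne hjk.symm, upd_ne hkl, upd_ne hkl.symm, upd_ne hil.symm,
                upd_ne hil]
              omega
            · by_cases hvl : v = l
              · subst hvl
                simp only [upd_self, upd_ne hjl, upd_ne hjk, upd_ne hij.symm, upd_ne hij,
                  upd_ne hjl.symm, upd_ne hjk.symm, upd_ne hkl, upd_ne hkl.symm]
              · by_cases hvk : v = k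
                · subst hvk
                  simp only [upd_self, upd_ne hjl, upd_ne hjk, upd_ne hij.symm, upd_ne hij,
                    upd_ne hjl.symm, upd_ne hjk.symm, upd_ne hkl, upd_ne hkl.symm, upd_ne hik.symm,
                    upd_ne hik]
                · by_cases hvi : v = i
                  · subst hvi
                    simp only [upd_self, upd_ne hik, upd_ne hil, upd_ne hij]
                    omega
                  · simp only [upd_ne hvj, upd_ne hvl, upd_ne hvk, upd_ne hvi]
      · have e1 : (u + 1) / b = u / b := by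
          rw [Nat.succ_div, if_neg]
          · rfl
          · intro hdvd
            apply hc
            have h3 := Nat.mod_eq_zero_of_dvd hdvd
            rw [Nat.add_mod] at h3
            rcases Nat.lt_or_ge 1 b with h1 | h1
            · rw [Nat.mod_eq_of_lt h1] at h3
              have h4 : u % b + 1 ≤ b := hmod
              rcases Nat.lt_or_ge (u % b + 1) b with h5 | h5
              · rw [Nat.mod_eq_of_lt h5] at h3; omega
              · omega
            · have : b = 1 := by omega
              rw [this, Nat.mod_one]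
        have e2 : (u + 1) % b = u % b + 1 := by
          have h3 := Nat.div_add_mod (u + 1) b
          rw [e1] at h3
          omega
        rw [e1, e2]
        refine Exec.iteT _ _ _ _ _ _ ?_ ((Exec.skip _ _).cast ?_)
        · simp only [csem, upd_self, upd_ne hjl, upd_upd, upd_ne hij, upd_ne hij.symm]
          omega
        · refine Prod.ext ?_ rfl
          funext v
          simp only [upd]
          split_ifs <;> simp_all <;> omega
  · refine Prod.ext ?_ rfl
    funext u
    simp only [upd]
    split_ifs <;> simp_all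

/-- Division of `i` by `j`; the result is in `i`, and `j` is zero. -/
def divC (i j k l : ι) : CStmt α ι F :=
  Stmt.ite (CTest.nz j) (Stmt.seq (divL i j k l) (Stmt.seq (clr j) (Stmt.seq (clr l) (mov k i))))
    (clr i)

theorem exec_divC (i j k l : ι) (hij : i ≠ j) (hik : i ≠ k) (hil : i ≠ l) (hjk : j ≠ k)
    (hjl : j ≠ l) (hkl : k ≠ l) (s : (ι → ℕ) × ℕ) (hk : s.1 k = 0) (hl : s.1 l = 0)
    (hi : s.1 i < W) (hj : s.1 j < W) :
    Exec (csem x W) body 9 (divC i j k l) s (upd (upd s.1 j 0) i (s.1 i / s.1 j), s.2) := by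
  by_cases h0 : s.1 j = 0
  · refine Exec.iteF _ _ _ _ _ _ (by simpa [csem] using h0)
      (((exec_clr i s).mono (by omega)).cast ?_)
    refine Prod.ext ?_ rfl
    funext v
    simp only [upd]
    split_ifs <;> simp_all
  · refine Exec.iteT _ _ _ _ _ _ (by simpa [csem] using h0)
      (Exec.seq 8 _ _ _ _ _ (exec_divL i j k l hij hik hil hjk hjl hkl s hk hl hi hj h0)
        (Exec.seq 8 _ _ _ _ _ ((exec_clr j _).mono (by omega))
          (Exec.seq 8 _ _ _ _ _ ((exec_clr l _).mono (by omega))
            (((exec_mov k i hik.symm _ ?_).mono (by omega)).cast ?_))))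
    · have := Nat.div_le_self (s.1 i) (s.1 j)
      simp only [upd_self, upd_ne hkl, upd_ne hjk.symm, upd_ne hik, upd_ne hij, upd_ne hil]
      omega
    · refine Prod.ext ?_ rfl
      funext v
      simp only [upd]
      split_ifs <;> simp_all

/-- The remainder of the division of `i` by `j`; the result is in `i`, and `j` is zero. -/
def modC (i j k l : ι) : CStmt α ι F :=
  Stmt.ite (CTest.nz j) (Stmt.seq (divL i j k l) (Stmt.seq (clr j) (Stmt.seq (clr k) (mov l i))))
    Stmt.skip

theorem exec_modC (i j k l : ι) (hij : i ≠ j) (hik : i ≠ k) (hil : i ≠ l) (hjk : j ≠ k)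
    (hjl : j ≠ l) (hkl : k ≠ l) (s : (ι → ℕ) × ℕ) (hk : s.1 k = 0) (hl : s.1 l = 0)
    (hi : s.1 i < W) (hj : s.1 j < W) :
    Exec (csem x W) body 9 (modC i j k l) s (upd (upd s.1 j 0) i (s.1 i % s.1 j), s.2) := by
  by_cases h0 : s.1 j = 0
  · refine Exec.iteF _ _ _ _ _ _ (by simpa [csem] using h0) ((Exec.skip _ _).cast ?_)
    refine Prod.ext ?_ rfl
    funext v
    simp only [upd]
    split_ifs <;> simp_all
  · refine Exec.iteT _ _ _ _ _ _ (by simpa [csem] using h0)
      (Exec.seq 8 _ _ _ _ _ (exec_divL i j k l hij hik hil hjk hjl hkl s hk hl hi hj h0)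
        (Exec.seq 8 _ _ _ _ _ ((exec_clr j _).mono (by omega))
          (Exec.seq 8 _ _ _ _ _ ((exec_clr k _).mono (by omega))
            (((exec_mov l i hil.symm _ ?_).mono (by omega)).cast ?_))))
    · have := Nat.mod_le (s.1 i) (s.1 j)
      simp only [upd_self, upd_ne hkl.symm, upd_ne hjl.symm, upd_ne hik, upd_ne hij, upd_ne hil]
      omega
    · refine Prod.ext ?_ rfl
      funext v
      simp only [upd]
      split_ifs <;> simp_all

/-- The table look-up: `i` is replaced by `f i` if it is less than `k`, and by `0` otherwise. -/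
def tabC (i : ι) : ℕ → (ℕ → ℕ) → CStmt α ι F
  | 0, _ => clr i
  | k + 1, f => Stmt.ite (CTest.nz i)
      (Stmt.seq (Stmt.prim (CPrim.dec i)) (tabC i k fun j => f (j + 1))) (incs i (f 0))

end

end Pool.Agent.Lib.MP_9277c3_lc.CM
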