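import Pool.Agent.Lib.MP_9277c3_lc.helper78.CM.Compile

/-!
# Counters, stored in binary on stacks
-/

namespace Pool.Agent.Lib.MP_9277c3_lc.CM

/-- Instructions for counters. -/
inductive CPrim (ι : Type) : Type
  | inc (i : ι) : CPrim ι
  | dec (i : ι) : CPrim ι
  | go (m : Move) : CPrim ι

/-- Tests for counters. -/
inductive CTest (α ι : Type) : Type
  | nz (i : ι) : CTest α ι
  | cell (p : Cell α → Prop) : CTest α ι

/-- The semantics of programs with counters below `W`. -/
noncomputable def csem {α ι : Type} (x : List α) (W : ℕ) :
    Sem (CPrim ι) (CTest α ι) ((ι → ℕ) × ℕ) where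
  act p s := match p with
    | CPrim.inc i => (upd s.1 i (s.1 i + 1), s.2)
    | CPrim.dec i => (upd s.1 i (s.1 i - 1), s.2)
    | CPrim.go mv => (s.1, mv.apply x.length s.2)
  pre p s := match p with
    | CPrim.inc i => s.1 i + 1 < W
    | _ => True
  test t s := match t with
    | CTest.nz i => s.1 i ≠ 0
    | CTest.cell p => p (cell x s.2)

/-- Programs with counters. -/
abbrev CStmt (α ι F : Type) : Type := Stmt (CPrim ι) (CTest α ι) F

/-! ### Binary numbers -/

/-- Increment. -/
def linc : List Bool → List Bool
  | [] => [true]
  | false :: l => true :: l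
  | true :: l => false :: linc l

/-- Decrement. -/
def ldec : List Bool → List Bool
  | [] => []
  | [true] => []
  | true :: b :: l => false :: b :: l
  | false :: l => true :: ldec l

theorem linc_bits (n : ℕ) : linc n.bits = (n + 1).bits := by
  induction n using Nat.binaryRec' with
  | zero => simp [linc]
  | bit b n h ih =>
    rw [Nat.bits_append_bit n b h]
    cases b with
    | false =>
      have e : Nat.bit false n + 1 = Nat.bit true n := by simp [Nat.bit]
      rw [e, Nat.bits_append_bit n true (by simp)]
      rfl
    | true =>
      have e : Nat.bit true n + 1 = Nat.bit false (n + 1) := by simp [Nat.bit]; ring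
      rw [e, Nat.bits_append_bit (n + 1) false (by simp), ← ih]
      rfl

theorem bits_ne_nil {n : ℕ} (h : n ≠ 0) : n.bits ≠ [] := by
  intro h'
  have h1 := Nat.size_eq_bits_len n
  rw [h', List.length_nil] at h1
  exact h (Nat.size_eq_zero.1 h1.symm)

theorem ldec_bits (n : ℕ) : ldec n.bits = (n - 1).bits := by
  induction n using Nat.binaryRec' with
  | zero => simp [ldec]
  | bit b n h ih =>
    rw [Nat.bits_append_bit n b h]
    cases b with
    | false =>
      have hn : n ≠ 0 := fun h0 => by simpa using h h0
      have e : Nat.bit false n - 1 = Nat.bit true (n - 1) := by simp [Nat.bit]; omega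
      rw [e, Nat.bits_append_bit (n - 1) true (by simp), ← ih]
      simp only [ldec]
    | true =>
      have e : Nat.bit true n - 1 = Nat.bit false n := by simp [Nat.bit]
      rw [e]
      rcases Nat.eq_zero_or_pos n with rfl | hn
      · simp [ldec]
      · rw [Nat.bits_append_bit n false (by omega)]
        have h1 := bits_ne_nil (by omega : n ≠ 0)
        cases h2 : n.bits with
        | nil => exact absurd h2 h1
        | cons c l => rfl

/-- The last bit is one. -/
theorem bits_split (n : ℕ) (h : n ≠ 0) : ∃ k l, n.bits = List.replicate k false ++ true :: l := by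
  induction n using Nat.binaryRec' with
  | zero => exact absurd rfl h
  | bit b n hb ih =>
    rw [Nat.bits_append_bit n b hb]
    cases b with
    | true => exact ⟨0, n.bits, rfl⟩
    | false =>
      have hn : n ≠ 0 := fun h0 => by simpa using hb h0
      obtain ⟨k, l, hk⟩ := ih hn
      exact ⟨k + 1, l, by rw [hk]; rfl⟩

theorem list_split (l : List Bool) (b : Bool) :
    ∃ k l', l = List.replicate k b ++ l' ∧ l'.head? ≠ some b := by
  induction l with
  | nil => exact ⟨0, [], rfl, by simp⟩
  | cons c l ih =>
    by_cases hc : c = b
    · subst hc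
      obtain ⟨k, l', h1, h2⟩ := ih
      exact ⟨k + 1, l', by rw [h1]; rfl, h2⟩
    · exact ⟨0, c :: l, rfl, by simpa using hc⟩

theorem linc_split (k : ℕ) (l : List Bool) (h : l.head? ≠ some true) :
    linc (List.replicate k true ++ l) = List.replicate k false ++ true :: l.tail := by
  induction k with
  | zero =>
    cases l with
    | nil => rfl
    | cons c l =>
      cases c with
      | true => exact absurd rfl h
      | false => rfl
  | succ k ih =>
    rw [List.replicate_succ, List.cons_append, linc, ih]
    rfl

theorem ldec_split (k : ℕ) (l : List Bool) :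
    ldec (List.replicate k false ++ true :: l) =
      List.replicate k true ++ (if l = [] then [] else false :: l) := by
  induction k with
  | zero =>
    cases l with
    | nil => rfl
    | cons c l => rfl
  | succ k ih =>
    rw [List.replicate_succ, List.cons_append, ldec, ih]
    rfl

/-! ### The programs -/

section

variable {α ι F : Type} {x : List α} {m : ℕ} {body : F → SStmt α ι Bool F}

theorem exec_strip (i j : ι) (hij : i ≠ j) (b b' : Bool) (l : List Bool) (hl : l.head? ≠ some b)
    (k : ℕ) : ∀ (s : (ι → List Bool) × ℕ) (A : List Bool), s.1 i = List.replicate k b ++ l →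
      s.1 j = A → A.length + k ≤ m →
      Exec (ssem x m) body 2 (Stmt.loop (STest.top i b)
        (Stmt.seq (Stmt.prim (SPrim.pop i)) (Stmt.prim (SPrim.push j b')))) s
        (upd (upd s.1 i l) j (List.replicate k b' ++ A), s.2) := by
  induction k with
  | zero =>
    intro s A h1 h2 h3
    have e : (upd (upd s.1 i l) j (List.replicate 0 b' ++ A), s.2) = s := by
      refine Prod.ext ?_ rfl
      rw [List.replicate_zero, List.nil_append] at h1 ⊢
      rw [← h1, upd_eq_self, ← h2]
      exact upd_eq_self _ _
    rw [e]
    refine Exec.loopF _ _ _ _ ?_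
    simp only [ssem, h1, List.replicate_zero, List.nil_append]
    exact hl
  | succ k ih =>
    intro s A h1 h2 h3
    have ht : (ssem x m).test (STest.top i b) s := by
      simp only [ssem, h1, List.replicate_succ, List.cons_append, List.head?_cons]
    set s1 : (ι → List Bool) × ℕ := (upd s.1 i (List.replicate k b ++ l), s.2) with hs1
    have e1 : (ssem x m).act (SPrim.pop i) s = s1 := by
      simp only [ssem, h1, List.replicate_succ, List.cons_append, List.tail_cons, hs1]
    have h4 : s1.1 j = A := by
      rw [hs1]
      simp only
      rw [upd_ne hij.symm, h2]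
    set s2 : (ι → List Bool) × ℕ := (upd s1.1 j (b' :: A), s.2) with hs2
    have e2 : (ssem x m).act (SPrim.push j b') s1 = s2 := by
      simp only [ssem, h4, hs2]
      rfl
    have g1 : Exec (ssem x m) body 1 (Stmt.seq (Stmt.prim (SPrim.pop i))
        (Stmt.prim (SPrim.push j b'))) s s2 := by
      refine Exec.seq 0 _ _ _ s1 _ ?_ ?_
      · rw [← e1]
        exact Exec.prim _ _ _ trivial
      · rw [← e2]
        refine Exec.prim _ _ _ ?_
        simp only [ssem, h4]
        omega
    have g2 := ih s2 (b' :: A) (by
      rw [hs2]
      simp only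
      rw [upd_ne hij, hs1]
      simp) (by
      rw [hs2]
      simp) (by simp only [List.length_cons]; omega)
    have e3 : (upd (upd s2.1 i l) j (List.replicate k b' ++ b' :: A), s2.2) =
        (upd (upd s.1 i l) j (List.replicate (k + 1) b' ++ A), s.2) := by
      refine Prod.ext ?_ rfl
      simp only [hs2, hs1]
      funext u
      by_cases hu : u = j
      · subst hu
        simp only [upd_self]
        rw [List.replicate_succ', List.append_assoc]
        rfl
      · by_cases hu' : u = i
        · subst hu'
          simp [hu, upd_self, upd_ne]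
        · simp [hu, hu', upd_ne]
    rw [e3] at g2
    exact Exec.loopT _ _ _ _ _ _ ht g1 g2

theorem exec_back (i j : ι) (hij : i ≠ j) (b : Bool) (A : List Bool) :
    ∀ (s : (ι → List Bool) × ℕ) (l : List Bool), s.1 i = l → s.1 j = A →
      l.length + A.length ≤ m →
      Exec (ssem x m) body 2 (Stmt.loop (STest.ne j)
        (Stmt.seq (Stmt.prim (SPrim.pop j)) (Stmt.prim (SPrim.push i b)))) s
        (upd (upd s.1 j []) i (List.replicate A.length b ++ l), s.2) := by
  induction A with
  | nil =>
    intro s l h1 h2 h3
    have e : (upd (upd s.1 j []) i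
        (List.replicate ([] : List Bool).length b ++ l), s.2) = s := by
      refine Prod.ext ?_ rfl
      rw [List.length_nil, List.replicate_zero, List.nil_append, ← h2, upd_eq_self,
        ← h1]
      exact upd_eq_self _ _
    rw [e]
    refine Exec.loopF _ _ _ _ ?_
    simp only [ssem, h2]
    simp
  | cons c A ih =>
    intro s l h1 h2 h3
    rw [List.length_cons] at h3
    have ht : (ssem x m).test (STest.ne j) s := by
      simp only [ssem, h2]
      simp
    set s1 : (ι → List Bool) × ℕ := (upd s.1 j A, s.2) with hs1
    have e1 : (ssem x m).act (SPrim.pop j) s = s1 := by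
      simp only [ssem, h2, List.tail_cons, hs1]
    have h4 : s1.1 i = l := by
      rw [hs1]
      simp only
      rw [upd_ne hij, h1]
    set s2 : (ι → List Bool) × ℕ := (upd s1.1 i (b :: l), s.2) with hs2
    have e2 : (ssem x m).act (SPrim.push i b) s1 = s2 := by
      simp only [ssem, h4, hs2]
      rfl
    have g1 : Exec (ssem x m) body 1 (Stmt.seq (Stmt.prim (SPrim.pop j))
        (Stmt.prim (SPrim.push i b))) s s2 := by
      refine Exec.seq 0 _ _ _ s1 _ ?_ ?_
      · rw [← e1]
        exact Exec.prim _ _ _ trivial
      · rw [← e2]
        refine Exec.prim _ _ _ ?_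
        simp only [ssem, h4]
        omega
    have g2 := ih s2 (b :: l) (by
      rw [hs2]
      simp) (by
      rw [hs2]
      simp only
      rw [upd_ne hij.symm, hs1]
      simp) (by simp only [List.length_cons]; omega)
    have e3 : (upd (upd s2.1 j []) i
        (List.replicate A.length b ++ b :: l), s2.2) =
        (upd (upd s.1 j []) i
          (List.replicate (c :: A).length b ++ l), s.2) := by
      refine Prod.ext ?_ rfl
      simp only [hs2, hs1]
      funext u
      by_cases hu : u = i
      · subst hu
        simp only [upd_self, List.length_cons]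
        rw [List.replicate_succ', List.append_assoc]
        rfl
      · by_cases hu' : u = j
        · subst hu'
          simp [hu, upd_self, upd_ne]
        · simp [hu, hu', upd_ne]
    rw [e3] at g2
    exact Exec.loopT _ _ _ _ _ _ ht g1 g2

/-- Increment of a binary counter on the stack `i`, with the auxiliary stack `j`. -/
def incS (i j : ι) : SStmt α ι Bool F :=
  Stmt.seq (Stmt.loop (STest.top i true)
      (Stmt.seq (Stmt.prim (SPrim.pop i)) (Stmt.prim (SPrim.push j false))))
    (Stmt.seq (Stmt.prim (SPrim.pop i))
      (Stmt.seq (Stmt.prim (SPrim.push i true))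
        (Stmt.loop (STest.ne j)
          (Stmt.seq (Stmt.prim (SPrim.pop j)) (Stmt.prim (SPrim.push i false))))))

theorem exec_incS (i j : ι) (hij : i ≠ j) (s : (ι → List Bool) × ℕ) (hj : s.1 j = [])
    (hm : (s.1 i).length < m) : Exec (ssem x m) body 5 (incS i j) s
      (upd s.1 i (linc (s.1 i)), s.2) := by
  obtain ⟨k, l, h1, h2⟩ := list_split (s.1 i) true
  have hlen : k + l.length < m := by
    rw [h1, List.length_append, List.length_replicate] at hm
    exact hm
  have g1 := exec_strip (x := x) (m := m) (body := body) i j hij true false l h2 k s [] h1 hj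
    (by simp only [List.length_nil]; omega)
  set s1 : (ι → List Bool) × ℕ :=
    (upd (upd s.1 i l) j (List.replicate k false ++ []), s.2) with hs1
  have a1 : s1.1 i = l := by
    rw [hs1]
    simp only
    rw [upd_ne hij, upd_self]
  have a2 : s1.1 j = List.replicate k false := by
    rw [hs1]
    simp
  have g2 := Exec.prim (M := ssem x m) (body := body) 1 (SPrim.pop i) s1 trivial
  have e2 : (ssem x m).act (SPrim.pop i) s1 = (upd s1.1 i l.tail, s.2) := by
    change (upd s1.1 i (s1.1 i).tail, s1.2) = _
    rw [a1]
  rw [e2] at g2
  set s2 : (ι → List Bool) × ℕ := (upd s1.1 i l.tail, s.2) with hs2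
  have b1 : s2.1 i = l.tail := by
    rw [hs2]
    simp
  have b2 : s2.1 j = List.replicate k false := by
    rw [hs2]
    simp only
    rw [upd_ne hij.symm, a2]
  have g3 := Exec.prim (M := ssem x m) (body := body) 1 (SPrim.push i true) s2 (by
    simp only [ssem, b1, List.length_tail]
    omega)
  have e3 : (ssem x m).act (SPrim.push i true) s2 =
      (upd s2.1 i (true :: l.tail), s.2) := by
    change (upd s2.1 i (true :: s2.1 i), s2.2) = _
    rw [b1]
  rw [e3] at g3
  set s3 : (ι → List Bool) × ℕ := (upd s2.1 i (true :: l.tail), s.2) with hs3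
  have c1 : s3.1 i = true :: l.tail := by
    rw [hs3]
    simp
  have c2 : s3.1 j = List.replicate k false := by
    rw [hs3]
    simp only
    rw [upd_ne hij.symm, b2]
  have g4 := exec_back (x := x) (m := m) (body := body) i j hij false (List.replicate k false) s3
    (true :: l.tail) c1 c2 (by
      simp only [List.length_cons, List.length_tail, List.length_replicate]
      omega)
  have e4 : (upd (upd s3.1 j []) i
      (List.replicate (List.replicate k false).length false ++ true :: l.tail), s3.2) =
      (upd s.1 i (linc (s.1 i)), s.2) := by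
    refine Prod.ext ?_ rfl
    rw [List.length_replicate, h1, linc_split k l h2]
    simp only [hs3, hs2, hs1]
    funext u
    by_cases hu : u = i
    · subst hu
      simp
    · by_cases hu' : u = j
      · subst hu'
        simp [hu, hj, upd_self, upd_ne]
      · simp [hu, hu', upd_ne]
  rw [e4] at g4
  exact Exec.seq 4 _ _ _ _ _ (g1.mono (by omega)) (Exec.seq 4 _ _ _ _ _ (g2.mono (by omega))
    (Exec.seq 4 _ _ _ _ _ (g3.mono (by omega)) (g4.mono (by omega))))

/-- Decrement of a binary counter on the stack `i`, with the auxiliary stack `j`. -/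
def decS (i j : ι) : SStmt α ι Bool F :=
  Stmt.seq (Stmt.loop (STest.top i false)
      (Stmt.seq (Stmt.prim (SPrim.pop i)) (Stmt.prim (SPrim.push j true))))
    (Stmt.seq (Stmt.prim (SPrim.pop i))
      (Stmt.seq (Stmt.ite (STest.ne i) (Stmt.prim (SPrim.push i false)) Stmt.skip)
        (Stmt.loop (STest.ne j)
          (Stmt.seq (Stmt.prim (SPrim.pop j)) (Stmt.prim (SPrim.push i true))))))

theorem exec_decS (i j : ι) (hij : i ≠ j) (s : (ι → List Bool) × ℕ) (hj : s.1 j = [])
    (n : ℕ) (hi : s.1 i = n.bits) (hm : (s.1 i).length < m) :
    Exec (ssem x m) body 5 (decS i j) s (upd s.1 i (ldec (s.1 i)), s.2) := by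
  rcases Nat.eq_zero_or_pos n with rfl | hn
  · -- nothing happens
    rw [Nat.zero_bits] at hi
    have e : (upd s.1 i (ldec (s.1 i)), s.2) = s := by
      refine Prod.ext ?_ rfl
      rw [hi]
      change upd s.1 i [] = _
      rw [← hi]
      exact upd_eq_self _ _
    rw [e]
    have e2 : (ssem x m).act (SPrim.pop i) s = s := by
      simp only [ssem, hi, List.tail_nil]
      refine Prod.ext ?_ rfl
      simp only
      rw [← hi]
      exact upd_eq_self _ _
    have g2 := Exec.prim (M := ssem x m) (body := body) 4 (SPrim.pop i) s trivial
    rw [e2] at g2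
    exact Exec.seq 4 _ _ _ _ _ (Exec.loopF _ _ _ _ (by simp [ssem, hi]))
      (Exec.seq 4 _ _ _ _ _ g2
        (Exec.seq 4 _ _ _ _ _ (Exec.iteF _ _ _ _ _ _ (by simp [ssem, hi]) (Exec.skip _ _))
          (Exec.loopF _ _ _ _ (by simp [ssem, hj]))))
  · obtain ⟨k, l, h1⟩ := bits_split n (by omega)
    rw [← hi] at h1
    have hlen : k + l.length + 1 < m := by
      rw [h1, List.length_append, List.length_replicate, List.length_cons] at hm
      omega
    have g1 := exec_strip (x := x) (m := m) (body := body) i j hij false true (true :: l)
      (by simp) k s [] h1 hj (by simp only [List.length_nil]; omega)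
    set s1 : (ι → List Bool) × ℕ :=
      (upd (upd s.1 i (true :: l)) j (List.replicate k true ++ []), s.2)
      with hs1
    have a1 : s1.1 i = true :: l := by
      rw [hs1]
      simp only
      rw [upd_ne hij, upd_self]
    have a2 : s1.1 j = List.replicate k true := by
      rw [hs1]
      simp
    have g2 := Exec.prim (M := ssem x m) (body := body) 1 (SPrim.pop i) s1 trivial
    have e2 : (ssem x m).act (SPrim.pop i) s1 = (upd s1.1 i l, s.2) := by
      change (upd s1.1 i (s1.1 i).tail, s1.2) = _
      rw [a1]
      rfl
    rw [e2] at g2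
    set s2 : (ι → List Bool) × ℕ := (upd s1.1 i l, s.2) with hs2
    have b1 : s2.1 i = l := by
      rw [hs2]
      simp
    have b2 : s2.1 j = List.replicate k true := by
      rw [hs2]
      simp only
      rw [upd_ne hij.symm, a2]
    set l' : List Bool := if l = [] then [] else false :: l with hl'
    have hl'len : l'.length ≤ l.length + 1 := by
      rw [hl']
      split_ifs <;> simp
    have g3 : Exec (ssem x m) body 1 (Stmt.ite (STest.ne i)
        (Stmt.prim (SPrim.push i false)) Stmt.skip) s2 (upd s2.1 i l', s.2) := by
      by_cases hl : l = []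
      · have e3 : (upd s2.1 i l', s.2) = s2 := by
          refine Prod.ext ?_ rfl
          rw [hl', if_pos hl, ← hl, ← b1]
          exact upd_eq_self _ _
        rw [e3]
        exact Exec.iteF _ _ _ _ _ _ (by simp [ssem, b1, hl]) (Exec.skip _ _)
      · refine Exec.iteT _ _ _ _ _ _ (by simpa [ssem, b1] using hl) ?_
        have g := Exec.prim (M := ssem x m) (body := body) 1 (SPrim.push i false) s2 (by
          simp only [ssem, b1]
          omega)
        have e3 : (ssem x m).act (SPrim.push i false) s2 =
            (upd s2.1 i l', s.2) := by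
          simp only [ssem, b1, hl', if_neg hl]
          rfl
        rw [e3] at g
        exact g
    set s3 : (ι → List Bool) × ℕ := (upd s2.1 i l', s.2) with hs3
    have c1 : s3.1 i = l' := by
      rw [hs3]
      simp
    have c2 : s3.1 j = List.replicate k true := by
      rw [hs3]
      simp only
      rw [upd_ne hij.symm, b2]
    have g4 := exec_back (x := x) (m := m) (body := body) i j hij true (List.replicate k true) s3
      l' c1 c2 (by
        simp only [List.length_replicate]
        omega)
    have e4 : (upd (upd s3.1 j []) i
        (List.replicate (List.replicate k true).length true ++ l'), s3.2) =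
        (upd s.1 i (ldec (s.1 i)), s.2) := by
      refine Prod.ext ?_ rfl
      rw [List.length_replicate, h1, ldec_split k l, ← hl']
      simp only [hs3, hs2, hs1]
      funext u
      by_cases hu : u = i
      · subst hu
        simp
      · by_cases hu' : u = j
        · subst hu'
          simp [hu, hj, upd_self, upd_ne]
        · simp [hu, hu', upd_ne]
    rw [e4] at g4
    exact Exec.seq 4 _ _ _ _ _ (g1.mono (by omega)) (Exec.seq 4 _ _ _ _ _ (g2.mono (by omega))
      (Exec.seq 4 _ _ _ _ _ (g3.mono (by omega)) (g4.mono (by omega))))

end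

/-- The translation of the instructions. -/
def trC {α ι F : Type} : CPrim ι → SStmt α (Option ι) Bool F
  | CPrim.inc i => incS (some i) none
  | CPrim.dec i => decS (some i) none
  | CPrim.go mv => Stmt.prim (SPrim.go mv)

/-- The translation of the tests. -/
def trT {α ι : Type} : CTest α ι → STest α (Option ι) Bool
  | CTest.nz i => STest.ne (some i)
  | CTest.cell p => STest.cell p

/-- The stacks store the counters. -/
def RC {ι : Type} (s : (ι → ℕ) × ℕ) (s' : (Option ι → List Bool) × ℕ) : Prop :=
  s'.2 = s.2 ∧ s'.1 none = [] ∧ ∀ i, s'.1 (some i) = (s.1 i).bits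

theorem exec_counter {α ι F : Type} {x : List α} {m d : ℕ} {body : F → CStmt α ι F}
    {a : CStmt α ι F} {s t : (ι → ℕ) × ℕ} (h : Exec (csem x (2 ^ m)) body d a s t)
    (hs : ∀ i, s.1 i < 2 ^ m) :
    ∀ s', RC s s' → ∃ t', Exec (ssem x (m + 1)) (fun f => (body f).tr trC trT) (d + 5)
      (a.tr trC trT) s' t' ∧ RC t t' := by
  intro s' hs'
  -- all counters are small
  let R : (ι → ℕ) × ℕ → (Option ι → List Bool) × ℕ → Prop :=
    fun s s' => RC s s' ∧ ∀ i, s.1 i < 2 ^ m
  have hlen : ∀ n, n < 2 ^ m → n.bits.length < m + 1 := by
    intro n hn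
    rw [Nat.size_eq_bits_len]
    exact Nat.lt_succ_of_le (Nat.size_le.2 hn)
  have hp : ∀ p s s', True → (csem x (2 ^ m)).pre p s → R s s' → ∃ t',
      Exec (ssem x (m + 1)) (fun f => (body f).tr trC trT) 5 (trC p) s' t' ∧
      R ((csem x (2 ^ m)).act p s) t' := by
    rintro p s s' - hpre ⟨⟨h1, h2, h3⟩, h4⟩
    cases p with
    | inc i =>
      refine ⟨_, exec_incS (some i) none (by simp) s' h2 (by rw [h3]; exact hlen _ (h4 i)), ?_, ?_⟩
      · refine ⟨h1, ?_, ?_⟩
        · simp only
          rw [upd_ne (by simp), h2]
        · intro j
          simp only [csem]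
          by_cases hj : j = i
          · subst hj
            rw [upd_self, upd_self, h3, linc_bits]
          · rw [upd_ne (by simpa using hj), upd_ne hj, h3]
      · intro j
        simp only [csem]
        by_cases hj : j = i
        · subst hj
          rw [upd_self]
          exact hpre
        · rw [upd_ne hj]
          exact h4 j
    | dec i =>
      refine ⟨_, exec_decS (some i) none (by simp) s' h2 (s.1 i) (h3 i)
        (by rw [h3]; exact hlen _ (h4 i)), ?_, ?_⟩
      · refine ⟨h1, ?_, ?_⟩
        · simp only
          rw [upd_ne (by simp), h2]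
        · intro j
          simp only [csem]
          by_cases hj : j = i
          · subst hj
            rw [upd_self, upd_self, h3, ldec_bits]
          · rw [upd_ne (by simpa using hj), upd_ne hj, h3]
      · intro j
        simp only [csem]
        by_cases hj : j = i
        · subst hj
          rw [upd_self]
          have := h4 j
          omega
        · rw [upd_ne hj]
          exact h4 j
    | go mv =>
      refine ⟨_, Exec.prim _ _ _ trivial, ⟨?_, h2, h3⟩, h4⟩
      simp only [csem, ssem, h1]
  have ht : ∀ t s s', R s s' → ((ssem x (m + 1)).test (trT t) s' ↔ (csem x (2 ^ m)).test t s) := by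
    rintro t s s' ⟨⟨h1, h2, h3⟩, h4⟩
    cases t with
    | nz i =>
      simp only [trT, ssem, csem, h3]
      constructor
      · intro h h0
        rw [h0] at h
        exact h (by simp)
      · exact bits_ne_nil
    | cell c => simp only [trT, ssem, csem, h1]
  have all : ∀ a : CStmt α ι F, a.all fun _ => True := by
    intro a
    induction a with
    | skip => exact trivial
    | prim p => exact trivial
    | seq a b iha ihb => exact ⟨iha, ihb⟩
    | ite t a b iha ihb => exact ⟨iha, ihb⟩
    | loop t a ih => exact ih
    | call f => exact trivial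
  obtain ⟨t', h1, h2⟩ := Exec.tr (R := R) (fun f => all _) hp ht h (all _) s' ⟨hs', hs⟩
  exact ⟨t', h1, h2.1⟩

end Pool.Agent.Lib.MP_9277c3_lc.CM
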