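import Pool.Agent.Lib.MP_9277c3_lc.helper78.CM.Init

/-!
# Turing machines which evaluate systems
-/

namespace Pool.Agent.Lib.MP_9277c3_lc.CM

/-- The space bound `(log n) ^ 2 / log log n`. -/
def spc (n : ℕ) : ℕ := Nat.log 2 (n + 2) ^ 2 / (Nat.log 2 (Nat.log 2 (n + 2)) + 1) + 1

section

variable {K n : ℕ}

theorem log_le (hK : 64 ≤ K) : Nat.log 2 (n + 2) ≤ mP K n := by
  have h1 := four_le (K := K) (n := n)
  have h2 := N_ge (n := n) hK
  have h3 : 2 ^ Nat.log 2 (n + 2) ≤ n + 2 := Nat.pow_log_le_self _ (by omega)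
  have h4 : n + 3 ≤ K * (n + 3) := Nat.le_mul_of_pos_left _ (by omega)
  have h5 : K * (n + 3) ≤ (K * (n + 3)) ^ 5 := Nat.le_self_pow (by norm_num) _
  exact (Nat.pow_le_pow_iff_right (a := 2) (by norm_num)).1 (by omega)

theorem loglog_lt (hK : 64 ≤ K) : Nat.log 2 (Nat.log 2 (n + 2)) + 1 ≤ lP K n := by
  have h1 := log_le (n := n) hK
  have h2 := m_lt_two_pow (K := K) (n := n)
  have h3 : 1 ≤ Nat.log 2 (n + 2) := Nat.le_log_of_pow_le (by norm_num) (by omega)
  have h4 : 2 ^ Nat.log 2 (Nat.log 2 (n + 2)) ≤ Nat.log 2 (n + 2) :=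
    Nat.pow_log_le_self _ (by omega)
  have h5 : 2 ^ Nat.log 2 (Nat.log 2 (n + 2)) < 2 ^ lP K n := by omega
  exact (Nat.pow_lt_pow_iff_right (a := 2) (by norm_num)).1 h5

theorem m_le' (K n : ℕ) (hK : 64 ≤ K) :
    mP K n ≤ (5 * Nat.log 2 K + 22) * Nat.log 2 (n + 2) := by
  have h1 := m_le_log (K := K) (n := n)
  have h3 : 1 ≤ Nat.log 2 (n + 2) := Nat.le_log_of_pow_le (by norm_num) (by omega)
  have h4 : K < 2 ^ (Nat.log 2 K + 1) := Nat.lt_pow_succ_log_self (by norm_num) _
  have h5 : n + 2 < 2 ^ (Nat.log 2 (n + 2) + 1) := Nat.lt_pow_succ_log_self (by norm_num) _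
  have h6 : K * (n + 3) < 2 ^ (Nat.log 2 K + Nat.log 2 (n + 2) + 3) := by
    calc K * (n + 3) ≤ K * (2 * (n + 2)) := Nat.mul_le_mul_left _ (by omega)
      _ < 2 ^ (Nat.log 2 K + 1) * (2 * 2 ^ (Nat.log 2 (n + 2) + 1)) := by
        apply Nat.mul_lt_mul'' h4
        omega
      _ = 2 ^ (Nat.log 2 K + Nat.log 2 (n + 2) + 3) := by ring
  have h7 : Nat.log 2 (K * (n + 3)) < Nat.log 2 K + Nat.log 2 (n + 2) + 3 :=
    Nat.log_lt_of_lt_pow (by positivity) h6
  nlinarith [Nat.zero_le (Nat.log 2 K)]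

theorem bm_le (K n : ℕ) (hK : 64 ≤ K) : bP K n * mP K n ≤
    ((5 * Nat.log 2 K + 22) ^ 2 + (5 * Nat.log 2 K + 22)) * spc n := by
  have h1 := m_le' K n hK
  have h2 := loglog_lt (n := n) hK
  have h3 : 1 ≤ Nat.log 2 (n + 2) := Nat.le_log_of_pow_le (by norm_num) (by omega)
  have h8 : Nat.log 2 (Nat.log 2 (n + 2)) + 1 ≤ Nat.log 2 (n + 2) :=
    Nat.log_lt_self 2 (by omega)
  have hd : 0 < Nat.log 2 (Nat.log 2 (n + 2)) + 1 := Nat.succ_pos _
  unfold bP spc
  generalize 5 * Nat.log 2 K + 22 = C at *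
  generalize Nat.log 2 (n + 2) = L at *
  generalize Nat.log 2 L + 1 = d at *
  generalize mP K n = m at *
  generalize lP K n = lb at *
  have h4 : m / lb * m ≤ m * m / d := by
    rw [Nat.le_div_iff_mul_le hd]
    calc m / lb * m * d ≤ m / lb * m * lb := Nat.mul_le_mul_left _ h2
      _ = m / lb * lb * m := by ring
      _ ≤ m * m := Nat.mul_le_mul_right _ (Nat.div_mul_le_self _ _)
  have h5 : m * m / d ≤ C ^ 2 * (L ^ 2 / d + 1) := by
    have h6 : m * m ≤ C ^ 2 * L ^ 2 := by nlinarith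
    refine (Nat.div_le_div_right h6).trans ?_
    rw [Nat.div_le_iff_le_mul_add_pred hd]
    have h7 := Nat.lt_div_mul_add (a := L ^ 2) hd
    have h9 : L ^ 2 ≤ (L ^ 2 / d + 1) * d := by nlinarith
    calc C ^ 2 * L ^ 2 ≤ C ^ 2 * ((L ^ 2 / d + 1) * d) := Nat.mul_le_mul_left _ h9
      _ = d * (C ^ 2 * (L ^ 2 / d + 1)) := by ring
      _ ≤ d * (C ^ 2 * (L ^ 2 / d + 1)) + (d - 1) := Nat.le_add_right _ _
  have h6 : L ≤ L ^ 2 / d := by
    rw [Nat.le_div_iff_mul_le hd]
    nlinarith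
  have h7 : m ≤ C * (L ^ 2 / d + 1) := h1.trans (Nat.mul_le_mul_left _ (by omega))
  nlinarith

end

theorem TM.DecidesIn.mono {α : Type} {A : TM α} {L : List α → Prop} {s s' : ℕ → ℕ}
    (h : ∀ n, s n ≤ s' n) (hA : A.DecidesIn L s) : A.DecidesIn L s' :=
  fun x => ⟨(hA x).1, fun c hc j => ((hA x).2 c hc j).trans_le (h _)⟩

/-- What is needed in order to evaluate systems. -/
structure SysOK {α : Type} (cc : Cell α → ℕ) (K c : ℕ) (E : SysE) (startE accE : Exp Rg)
    (S : Sys) (v : ℕ) (x : List α) (L : Prop) : Prop where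
  impl : Impl x cc S (x.length + 1) E
  closed : Sys.Closed S (K * (x.length + 3))
  lt : ∀ v, S.nx v + 1 < K * (x.length + 3)
  tag : ∀ v, S.tag v ≤ 2
  v_lt : v < K * (x.length + 3)
  start : ∀ s : Rg → ℕ, s .cn = x.length + 1 → startE.eval x cc s = v
  le_one : ∀ s : Rg → ℕ, accE.eval x cc s ≤ 1
  acc : ∀ s : Rg → ℕ, s .cn = x.length + 1 →
    s .res = S.small (K * (x.length + 3)) (2 * bP K x.length) (c * bP K x.length) v →
    (accE.eval x cc s ≠ 0 ↔ L)

/-- Systems are evaluated by Turing machines in small space. -/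
theorem exists_TM_of_sys {α : Type} [Finite α] (cc : Cell α → ℕ) (h1 : cc Cell.right = 1)
    (h2 : ∀ a, 2 ≤ cc (Cell.letter a)) (K c : ℕ) (hK : 64 ≤ K) (h3 : ∀ d, cc d ≤ K)
    (E : SysE) (startE accE : Exp Rg) (S : List α → Sys) (v : List α → ℕ) (L : List α → Prop)
    (H : ∀ x, SysOK cc K c E startE accE (S x) (v x) x (L x)) :
    ∃ (C : ℕ) (A : TM α), A.DecidesIn L fun n => C * spc n := by
  have : Finite Rg := by
    refine Finite.of_injective (β := Fin 64) (fun r => ⟨r.ctorIdx % 64, Nat.mod_lt _ (by norm_num)⟩)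
      fun r r' h => ?_
    cases r <;> cases r' <;> first | rfl | (simp [Rg.ctorIdx] at h)
  have : Finite Pr := by
    refine Finite.of_injective (β := Fin 64) (fun r => ⟨r.ctorIdx % 64, Nat.mod_lt _ (by norm_num)⟩)
      fun r r' h => ?_
    cases r <;> cases r' <;> first | rfl | (simp [Pr.ctorIdx] at h)
  obtain ⟨c₀, hc₀⟩ := exists_TM_of_run cc (bodyC E) (mainC K c startE accE) .e
  obtain ⟨A, hA⟩ := hc₀ L (fun n => 2 ^ eP c K n) (fun n => KS (par K n) (c * bP K n)) (fun n => by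
    have f1 := e_le (c := c) (K := K) (n := n)
    have f2 := m_le_e (K := K) (n := n)
    have f3 := m_ge (n := n) hK
    calc 2 = 2 ^ 1 := rfl
      _ ≤ 2 ^ eP c K n := Nat.pow_le_pow_right (by norm_num) (by omega)) (fun x => by
    have hx := H x
    have hPB := par_PB (c := c) (n := x.length) hK
    have hNb := hPB.N_lt
    have hbA := hPB.hA1
    have hp0 : 0 < pP K x.length := hPB.prime.pos
    have a6 : eP c K x.length < 2 ^ eP c K x.length := Nat.lt_two_pow_self
    have f3 := m_ge (n := x.length) hK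
    have a7 : c * bP K x.length ≤ eP c K x.length := by
      unfold eP
      calc c * bP K x.length ≤ (200 * (c + 1)) * (bP K x.length * 1) := by
            nlinarith [Nat.zero_le (c * bP K x.length)]
        _ ≤ 200 * (c + 1) * (bP K x.length * mP K x.length) := by gcongr; omega
    have hvN : v x < (par K x.length).N := hx.v_lt
    have hg : Gd (par K x.length) (upd (initS c K x.length) .a (v x)) := by
      refine ⟨?_, ?_, ?_, ?_⟩
      · constructor <;> simp [initS, par]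
      · intro q hq
        by_cases hqa : q = .a
        · rw [hqa, upd_self]
          exact hvN.trans hNb
        · rw [upd_ne hqa]
          cases q <;> simp [Rg.kd] at hq hqa ⊢ <;> simp [initS, par]
      · intro q hq
        cases q <;> simp [Rg.kd] at hq ⊢ <;> simp [initS]
      · intro q hq
        refine ⟨0, ?_⟩
        rw [encZ_zero]
        cases q <;> simp [Rg.kd] at hq ⊢ <;> simp [initS]
    have hrun := run_small (X := x) (cc := cc) (body := bodyC E) (E := E) (S := S x) hPB hx.impl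
      hx.closed hx.lt hx.tag rfl rfl (c * bP K x.length) (by omega) _ hg (by simp [initS])
      (by simpa using hvN) (by simpa [initS] using par_FS (c := c) (n := x.length) hK)
    have hle := hx.le_one
    refine ⟨_, RunA.sq_cons ((run_initC hK h1 h2 h3).mono (Nat.zero_le _)) (RunA.sq_set (v x)
      (hx.start _ (by simp [initS])) (by omega) (RunA.sq_cons hrun (RunA.sq_set _ rfl
      ((hle _).trans_lt ?_) RunA.sq_nil))), ?_⟩
    · omega
    · rw [upd_self]
      exact hx.acc _ (by simp [initS]) (by simp [par]))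
  refine ⟨c₀ * ((202 * c + 202) * ((5 * Nat.log 2 K + 22) ^ 2 + (5 * Nat.log 2 K + 22))), A,
    TM.DecidesIn.mono (fun n => ?_) hA⟩
  have f1 := bm_le K n hK
  have f2 := b_le (n := n) hK
  have f3 := b_pos (K := K) (n := n)
  have f4 : 1 ≤ bP K n * mP K n := by
    have := m_ge (n := n) hK
    nlinarith
  have e1 : Nat.log 2 (2 ^ eP c K n) = eP c K n := Nat.log_pow (by norm_num) _
  have e2 : KS (par K n) (c * bP K n) ≤ 1 + 2 * c * (bP K n * mP K n) := by
    simp only [KS, par]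
    have : bP K n * (2 * bP K n + 2) ≤ bP K n * (2 * mP K n) := Nat.mul_le_mul_left _ (by omega)
    calc 1 + c * bP K n * (2 * bP K n + 2) = 1 + c * (bP K n * (2 * bP K n + 2)) := by ring
      _ ≤ 1 + c * (bP K n * (2 * mP K n)) := by gcongr
      _ = 1 + 2 * c * (bP K n * mP K n) := by ring
  rw [e1]
  calc c₀ * (eP c K n + KS (par K n) (c * bP K n) + 1)
      ≤ c₀ * ((202 * c + 202) * (bP K n * mP K n)) := by
        refine Nat.mul_le_mul_left _ ?_
        unfold eP
        nlinarith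
    _ ≤ c₀ * ((202 * c + 202) * (((5 * Nat.log 2 K + 22) ^ 2 + (5 * Nat.log 2 K + 22)) * spc n)) :=
        by gcongr
    _ = c₀ * ((202 * c + 202) * ((5 * Nat.log 2 K + 22) ^ 2 + (5 * Nat.log 2 K + 22))) * spc n := by
        ring

end Pool.Agent.Lib.MP_9277c3_lc.CM
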