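import Pool.Agent.Lib.MP_9277c3_lc.helper78.Equiv
import Pool.Agent.Lib.MP_9277c3_lc.helper78.CM.MainTM

/-!
# The system of a pushdown automaton
-/

namespace Pool.Agent.Lib.MP_9277c3_lc.CM

/-- Data for the coding of the nodes of the tree of a run. -/
structure Cd {α : Type} (M : DPDA α) where
  D : ℕ
  hD : ∀ q c X q' mv β, M.next q c X = some (q', mv, β) → β.length ≤ D
  hD1 : 1 ≤ D
  k : ℕ
  e : (Option M.State × {l : List M.Stack // l.length ≤ D}) ≃ Fin k
  ka : ℕ
  ea : α ≃ Fin ka

theorem exists_Cd {α : Type} [Finite α] (M : DPDA α) : Nonempty (Cd M) := by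
  have := M.finite_state
  have := M.finite_stack
  have hcell : Finite (Cell α) := by
    refine Finite.of_injective (β := Option (Option α)) (fun c => match c with
      | Cell.left => none
      | Cell.right => some none
      | Cell.letter a => some (some a)) fun c c' h => ?_
    cases c <;> cases c' <;> simp at h ⊢
    exact h
  obtain ⟨D, hD⟩ : ∃ D, ∀ z : M.State × Cell α × M.Stack, ∀ q' mv β,
      M.next z.1 z.2.1 z.2.2 = some (q', mv, β) → β.length ≤ D := by
    obtain ⟨D, hD⟩ := (Set.finite_range fun z : M.State × Cell α × M.Stack =>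
      match M.next z.1 z.2.1 z.2.2 with
      | none => 0
      | some r => r.2.2.length).bddAbove
    refine ⟨D, fun z q' mv β h => ?_⟩
    have h1 := hD ⟨z, rfl⟩
    simp only [h] at h1
    exact h1
  have hfin : Finite {l : List M.Stack // l.length ≤ D + 1} :=
    (List.finite_length_le M.Stack (D + 1)).to_subtype
  obtain ⟨k, ⟨e⟩⟩ := Finite.exists_equiv_fin
    (Option M.State × {l : List M.Stack // l.length ≤ D + 1})
  obtain ⟨ka, ⟨ea⟩⟩ := Finite.exists_equiv_fin α
  exact ⟨⟨D + 1, fun q c X q' mv β h => (hD (q, c, X) q' mv β h).trans (Nat.le_succ _),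
    Nat.succ_le_succ (Nat.zero_le _), k, e, ka, ea⟩⟩

namespace Cd

open Classical

variable {α : Type} {M : DPDA α} (C : Cd M)

/-- The number of codes. -/
def K : ℕ := C.k + C.ka + 64

/-- The code of a state with a list of stack symbols. -/
noncomputable def enc (q : Option M.State) (l : List M.Stack) : ℕ :=
  if h : l.length ≤ C.D then C.e (q, ⟨l, h⟩) else 0

/-- Decoding. -/
noncomputable def dec (f : ℕ) : Option (Option M.State × List M.Stack) :=
  if h : f < C.k then some ((C.e.symm ⟨f, h⟩).1, (C.e.symm ⟨f, h⟩).2.1) else none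

theorem dec_enc {q : Option M.State} {l : List M.Stack} (h : l.length ≤ C.D) :
    C.dec (C.enc q l) = some (q, l) := by
  rw [enc, dif_pos h, dec, dif_pos (C.e (q, ⟨l, h⟩)).2]
  simp

theorem k_pos : 0 < C.k := (C.e (none, ⟨[], by simp⟩)).pos

theorem enc_lt (q : Option M.State) (l : List M.Stack) : C.enc q l < C.K := by
  have hk := C.k_pos
  unfold enc K
  split_ifs with h
  · have := (C.e (q, ⟨l, h⟩)).2
    omega
  · omega

/-- The code of a cell. -/
noncomputable def cc : Cell α → ℕ
  | Cell.left => 0
  | Cell.right => 1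
  | Cell.letter a => (C.ea a : ℕ) + 2

/-- Decoding of cells. -/
noncomputable def dc (c : ℕ) : Cell α :=
  if c = 0 then Cell.left else if c = 1 then Cell.right else
    if h : c - 2 < C.ka then Cell.letter (C.ea.symm ⟨c - 2, h⟩) else Cell.right

theorem dc_cc (c : Cell α) : C.dc (C.cc c) = c := by
  cases c with
  | left => simp [cc, dc]
  | right => simp [cc, dc]
  | letter a => simp [cc, dc]

theorem cc_lt (c : Cell α) : C.cc c < C.K := by
  unfold K
  cases c with
  | left => simp [cc]
  | right => simp [cc]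
  | letter a =>
    have := (C.ea a).2
    simp only [cc]
    omega

/-- The tag of a code. -/
noncomputable def tagF (f : ℕ) : ℕ :=
  match C.dec f with
  | some (_, [_]) => 1
  | some (_, _ :: _ :: _) => 2
  | _ => 0

/-- The next node: its code, and the change of the position. -/
noncomputable def tF (f : ℕ) (c : Cell α) : ℕ × ℕ × ℕ :=
  match C.dec f with
  | some (none, [_]) => (C.enc none [], 0, 0)
  | some (some q, [X]) =>
    if M.accepting q c then (C.enc none [], 0, 0) else
      match M.next q c X with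
      | none => (f, 0, 0)
      | some (q₁, Move.left, β) => (C.enc (some q₁) β, 0, 1)
      | some (q₁, Move.stay, β) => (C.enc (some q₁) β, 0, 0)
      | some (q₁, Move.right, β) => (C.enc (some q₁) β, 1, 0)
  | some (q, X :: _ :: _) => (C.enc q [X], 0, 0)
  | _ => (f, 0, 0)

/-- The node which remains, when the first symbol has been removed. -/
noncomputable def tG (f g : ℕ) : ℕ :=
  match C.dec f, C.dec g with
  | some (_, _ :: γ), some (q, _) => C.enc q γ
  | _, _ => 0

/-- Whether a node stands for acceptance. -/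
noncomputable def tA (f : ℕ) (c : Cell α) : ℕ :=
  match C.dec f with
  | some (none, _) => 1
  | some (some q, _) => if M.accepting q c then 1 else 0
  | none => 0

theorem tF_lt {f : ℕ} (hf : f < C.K) (c : Cell α) : (C.tF f c).1 < C.K := by
  have h0 := C.enc_lt none []
  unfold tF
  split
  · exact h0
  · split_ifs
    · exact h0
    · split
      · exact hf
      · exact C.enc_lt _ _
      · exact C.enc_lt _ _
      · exact C.enc_lt _ _
  · exact C.enc_lt _ _
  · exact hf

theorem tG_lt (f g : ℕ) : C.tG f g < C.K := by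
  unfold tG
  split
  · exact C.enc_lt _ _
  · unfold K; omega

theorem tA_le (f : ℕ) (c : Cell α) : C.tA f c ≤ 1 := by
  unfold tA
  split
  · exact le_rfl
  · split_ifs <;> omega
  · omega

theorem tagF_le (f : ℕ) : C.tagF f ≤ 2 := by
  unfold tagF
  split <;> omega

/-- The system of the automaton on the input `x`. -/
noncomputable def sys (x : List α) : Sys where
  tag v := C.tagF (v % C.K)
  nx v := (C.tF (v % C.K) (cell x (min (v / C.K) (x.length + 1)))).1 +
    C.K * min (min (v / C.K) (x.length + 1) +
      (C.tF (v % C.K) (cell x (min (v / C.K) (x.length + 1)))).2.1 -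
      (C.tF (v % C.K) (cell x (min (v / C.K) (x.length + 1)))).2.2) (x.length + 1)
  kont v r := C.tG (v % C.K) (r % C.K) + C.K * min (r / C.K) (x.length + 1)

theorem K_pos : 0 < C.K := by
  unfold K; omega

theorem nx_lt (x : List α) (v : ℕ) : (C.sys x).nx v + 1 < C.K * (x.length + 3) := by
  have h1 := C.tF_lt (Nat.mod_lt v C.K_pos) (cell x (min (v / C.K) (x.length + 1)))
  have h2 : C.K * min (min (v / C.K) (x.length + 1) +
      (C.tF (v % C.K) (cell x (min (v / C.K) (x.length + 1)))).2.1 -
      (C.tF (v % C.K) (cell x (min (v / C.K) (x.length + 1)))).2.2) (x.length + 1) ≤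
      C.K * (x.length + 1) := Nat.mul_le_mul_left _ (min_le_right _ _)
  have h3 := C.K_pos
  simp only [sys]
  nlinarith

theorem kont_lt (x : List α) (v r : ℕ) : (C.sys x).kont v r < C.K * (x.length + 3) := by
  have h1 := C.tG_lt (v % C.K) (r % C.K)
  have h2 : C.K * min (r / C.K) (x.length + 1) ≤ C.K * (x.length + 1) :=
    Nat.mul_le_mul_left _ (min_le_right _ _)
  have h3 := C.K_pos
  simp only [sys]
  nlinarith

theorem closed (x : List α) : Sys.Closed (C.sys x) (C.K * (x.length + 3)) where
  nx v := (Nat.lt_succ_self _).trans (C.nx_lt x v)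
  kont v r := C.kont_lt x v r

/-! ### The expressions -/

/-- The minimum. -/
def minE (a b : Exp Rg) : Exp Rg := a - (a - b)

/-- The position of a node. -/
noncomputable def posE (a : Exp Rg) : Exp Rg := minE (a / Exp.lit C.K) (Exp.var .cn)

/-- The index for the tables. -/
noncomputable def idxE (a : Exp Rg) : Exp Rg :=
  a % Exp.lit C.K + Exp.lit C.K * Exp.inp (C.posE a)

/-- The expressions for the system. -/
noncomputable def sysE : SysE where
  tag a := Exp.tab C.tagF C.K (a % Exp.lit C.K)
  nx a := Exp.tab (fun i => (C.tF (i % C.K) (C.dc (i / C.K))).1) (C.K * C.K) (C.idxE a) +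
    Exp.lit C.K * minE (C.posE a +
      Exp.tab (fun i => (C.tF (i % C.K) (C.dc (i / C.K))).2.1) (C.K * C.K) (C.idxE a) -
      Exp.tab (fun i => (C.tF (i % C.K) (C.dc (i / C.K))).2.2) (C.K * C.K) (C.idxE a))
      (Exp.var .cn)
  kont a b := Exp.tab (fun i => C.tG (i % C.K) (i / C.K)) (C.K * C.K)
    (a % Exp.lit C.K + Exp.lit C.K * (b % Exp.lit C.K)) + Exp.lit C.K * C.posE b

/-- The expression for acceptance. -/
noncomputable def accE : Exp Rg :=
  (Exp.var .res - (Exp.var .res - 1)) *
    Exp.tab (fun i => C.tA (i % C.K) (C.dc (i / C.K))) (C.K * C.K) (C.idxE (Exp.var .res - 1))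

@[simp] theorem eval_tab {x : List α} {cc : Cell α → ℕ} (s : Rg → ℕ) (f : ℕ → ℕ) (k : ℕ)
    (a : Exp Rg) : (Exp.tab f k a).eval x cc s =
      if a.eval x cc s < k then f (a.eval x cc s) else 0 := rfl

theorem eval_posE {x : List α} {s : Rg → ℕ} (hs : s .cn = x.length + 1) (a : Exp Rg) :
    (C.posE a).eval x C.cc s = min (a.eval x C.cc s / C.K) (x.length + 1) := by
  simp only [posE, minE, eval_sub, eval_div, eval_lit, eval_var, hs]
  generalize a.eval x C.cc s / C.K = z
  omega

theorem eval_idxE {x : List α} {s : Rg → ℕ} (hs : s .cn = x.length + 1) (a : Exp Rg) :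
    (C.idxE a).eval x C.cc s = a.eval x C.cc s % C.K +
      C.K * C.cc (cell x (min (a.eval x C.cc s / C.K) (x.length + 1))) := by
  simp only [idxE, eval_add, eval_mod, eval_mul, eval_lit, eval_inp, C.eval_posE hs]

theorem idx_lt {a b : ℕ} (ha : a < C.K) (hb : b < C.K) : a + C.K * b < C.K * C.K := by
  nlinarith

theorem idx_mod {a b : ℕ} (ha : a < C.K) : (a + C.K * b) % C.K = a := by
  rw [Nat.add_mul_mod_self_left, Nat.mod_eq_of_lt ha]

theorem idx_div {a b : ℕ} (ha : a < C.K) : (a + C.K * b) / C.K = b := by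
  rw [Nat.add_mul_div_left _ _ C.K_pos, Nat.div_eq_of_lt ha, Nat.zero_add]

theorem impl (x : List α) : Impl x C.cc (C.sys x) (x.length + 1) C.sysE where
  tag s a _ := by
    have h1 := Nat.mod_lt (a.eval x C.cc s) C.K_pos
    simp only [sysE, sys, eval_tab, eval_mod, eval_lit, if_pos h1]
  nx s a hs := by
    have h1 := Nat.mod_lt (a.eval x C.cc s) C.K_pos
    have h2 := C.cc_lt (cell x (min (a.eval x C.cc s / C.K) (x.length + 1)))
    simp only [sysE, sys, eval_tab, eval_add, eval_mul, eval_sub, eval_lit, minE, eval_var, hs,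
      C.eval_posE hs, C.eval_idxE hs, if_pos (C.idx_lt h1 h2), C.idx_mod h1, C.idx_div h1, C.dc_cc]
    congr 2
    omega
  kont s a b hs := by
    have h1 := Nat.mod_lt (a.eval x C.cc s) C.K_pos
    have h2 := Nat.mod_lt (b.eval x C.cc s) C.K_pos
    simp only [sysE, sys, eval_tab, eval_add, eval_mul, eval_mod, eval_lit,
      C.eval_posE hs, if_pos (C.idx_lt h1 h2), C.idx_mod h1, C.idx_div h1]

end Cd

end Pool.Agent.Lib.MP_9277c3_lc.CM
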