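import Pool.Agent.Lib.MP_9277c3_lc.helper78.CM.Dp

/-!
# Values of nodes and runs of the automaton
-/

namespace Pool.Agent.Lib.MP_9277c3_lc.CM

namespace Cd

open Classical

variable {α : Type} {M : DPDA α} (C : Cd M) {x : List α}

/-- The node for a state, a position and a list of symbols. -/
noncomputable def code (q : Option M.State) (i : ℕ) (l : List M.Stack) : ℕ := C.enc q l + C.K * i

theorem code_mod (q : Option M.State) (i : ℕ) (l : List M.Stack) :
    C.code q i l % C.K = C.enc q l := C.idx_mod (C.enc_lt q l)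

theorem code_div (q : Option M.State) (i : ℕ) (l : List M.Stack) : C.code q i l / C.K = i :=
  C.idx_div (C.enc_lt q l)

theorem code_lt {q : Option M.State} {i : ℕ} {l : List M.Stack} (hi : i ≤ x.length + 1) :
    C.code q i l < C.K * (x.length + 3) := by
  have h1 := C.enc_lt q l
  have h2 : C.K * i ≤ C.K * (x.length + 1) := Nat.mul_le_mul_left _ hi
  unfold code
  nlinarith

variable (x) in
theorem tag_nil (q : Option M.State) (i : ℕ) : (C.sys x).tag (C.code q i []) = 0 := by
  simp only [sys, C.code_mod, tagF, C.dec_enc (q := q) (l := []) (Nat.zero_le _)]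

theorem nx_nil {q : Option M.State} {i : ℕ} (hi : i ≤ x.length + 1) :
    (C.sys x).nx (C.code q i []) = C.code q i [] := by
  simp only [sys, C.code_mod, C.code_div, tF, C.dec_enc (q := q) (l := []) (Nat.zero_le _)]
  rw [min_eq_left hi, Nat.add_zero, Nat.sub_zero, min_eq_left hi]
  rfl

variable (x) in
theorem tag_one (q : Option M.State) (i : ℕ) (X : M.Stack) :
    (C.sys x).tag (C.code q i [X]) = 1 := by
  simp only [sys, C.code_mod, tagF, C.dec_enc (q := q) (l := [X]) C.hD1]

theorem nx_halt {i : ℕ} (hi : i ≤ x.length + 1) (X : M.Stack) :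
    (C.sys x).nx (C.code none i [X]) = C.code none i [] := by
  simp only [sys, C.code_mod, C.code_div, tF, C.dec_enc (q := none) (l := [X]) C.hD1]
  rw [min_eq_left hi, Nat.add_zero, Nat.sub_zero, min_eq_left hi]
  rfl

theorem nx_accept {q : M.State} {i : ℕ} (hi : i ≤ x.length + 1) (X : M.Stack)
    (h : M.accepting q (cell x i)) :
    (C.sys x).nx (C.code (some q) i [X]) = C.code none i [] := by
  simp only [sys, C.code_mod, C.code_div, tF, C.dec_enc (q := some q) (l := [X]) C.hD1]
  rw [min_eq_left hi]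
  simp only [if_pos h]
  rw [Nat.add_zero, Nat.sub_zero, min_eq_left hi]
  rfl

theorem nx_stuck {q : M.State} {i : ℕ} (hi : i ≤ x.length + 1) {X : M.Stack}
    (h : ¬M.accepting q (cell x i)) (h' : M.next q (cell x i) X = none) :
    (C.sys x).nx (C.code (some q) i [X]) = C.code (some q) i [X] := by
  simp only [sys, C.code_mod, C.code_div, tF, C.dec_enc (q := some q) (l := [X]) C.hD1]
  rw [min_eq_left hi]
  simp only [if_neg h, h']
  rw [Nat.add_zero, Nat.sub_zero, min_eq_left hi]
  rfl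

theorem nx_step {q : M.State} {i : ℕ} (hi : i ≤ x.length + 1) {X : M.Stack}
    (h : ¬M.accepting q (cell x i)) {q₁ : M.State} {mv : Move} {β : List M.Stack}
    (h' : M.next q (cell x i) X = some (q₁, mv, β)) :
    (C.sys x).nx (C.code (some q) i [X]) = C.code (some q₁) (mv.apply x.length i) β := by
  simp only [sys, C.code_mod, C.code_div, tF, C.dec_enc (q := some q) (l := [X]) C.hD1]
  rw [min_eq_left hi]
  simp only [if_neg h, h']
  cases mv with
  | left =>
    simp only [Move.apply]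
    rw [Nat.add_zero, min_eq_left (by omega)]
    rfl
  | stay =>
    simp only [Move.apply]
    rw [Nat.add_zero, Nat.sub_zero, min_eq_left (by omega)]
    rfl
  | right =>
    simp only [Move.apply]
    rw [Nat.sub_zero]
    rfl

variable (x) in
theorem tag_two {q : Option M.State} {i : ℕ} {X Y : M.Stack} {γ : List M.Stack}
    (hl : (X :: Y :: γ).length ≤ C.D) : (C.sys x).tag (C.code q i (X :: Y :: γ)) = 2 := by
  simp only [sys, C.code_mod, tagF, C.dec_enc hl]

theorem nx_two {q : Option M.State} {i : ℕ} (hi : i ≤ x.length + 1) {X Y : M.Stack}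
    {γ : List M.Stack} (hl : (X :: Y :: γ).length ≤ C.D) :
    (C.sys x).nx (C.code q i (X :: Y :: γ)) = C.code q i [X] := by
  simp only [sys, C.code_mod, C.code_div, tF, C.dec_enc hl]
  rw [min_eq_left hi, Nat.add_zero, Nat.sub_zero, min_eq_left hi]
  rfl

theorem kont_eq {q q₁ : Option M.State} {i i₁ : ℕ} (hi : i₁ ≤ x.length + 1) {X : M.Stack}
    {γ : List M.Stack} (hl : (X :: γ).length ≤ C.D) :
    (C.sys x).kont (C.code q i (X :: γ)) (C.code q₁ i₁ []) = C.code q₁ i₁ γ := by
  simp only [sys, C.code_mod, C.code_div, tG, C.dec_enc hl,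
    C.dec_enc (q := q₁) (l := []) (Nat.zero_le _)]
  rw [min_eq_left hi]
  rfl

theorem apply_le (mv : Move) {i : ℕ} (hi : i ≤ x.length + 1) :
    mv.apply x.length i ≤ x.length + 1 := by
  cases mv <;> simp only [Move.apply] <;> omega

/-- Values of nodes stand for runs. -/
theorem sound {v c s : ℕ} (h : Ev (C.sys x) v c s) : ∀ (q : Option M.State) (i : ℕ)
    (l : List M.Stack), l.length ≤ C.D → i ≤ x.length + 1 → v = C.code q i l →
    ∃ q' i', i' ≤ x.length + 1 ∧ c = C.code q' i' [] ∧ ∃ w, w ≤ s ∧ M.Wt x w q i l q' i' := by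
  induction h with
  | done v h0 =>
    rintro q i l hl hi rfl
    rcases l with _ | ⟨X, _ | ⟨Y, γ⟩⟩
    · exact ⟨q, i, hi, C.nx_nil hi, 0, by omega, DPDA.Wt.nil _ _⟩
    · rw [C.tag_one] at h0; omega
    · rw [C.tag_two x hl] at h0; omega
  | unary v c s h0 h1 ih =>
    rintro q i l hl hi rfl
    rcases l with _ | ⟨X, _ | ⟨Y, γ⟩⟩
    · rw [C.tag_nil] at h0; omega
    · cases q with
      | none =>
        rw [C.nx_halt hi] at ih
        obtain ⟨q', i', hi', hc, w, hws, hw⟩ := ih none i [] (Nat.zero_le _) hi rfl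
        cases hw
        exact ⟨none, i, hi, hc, 1, by omega, DPDA.Wt.halt _ _⟩
      | some q =>
        by_cases ha : M.accepting q (cell x i)
        · rw [C.nx_accept hi X ha] at ih
          obtain ⟨q', i', hi', hc, w, hws, hw⟩ := ih none i [] (Nat.zero_le _) hi rfl
          cases hw
          exact ⟨none, i, hi, hc, 1, by omega, DPDA.Wt.accept _ _ _ ha⟩
        · cases hn : M.next q (cell x i) X with
          | none =>
            rw [C.nx_stuck hi ha hn] at ih
            obtain ⟨q', i', hi', hc, w, hws, hw⟩ := ih (some q) i [X] hl hi rfl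
            exact ⟨q', i', hi', hc, w, by omega, hw⟩
          | some r =>
            obtain ⟨q₁, mv, β⟩ := r
            rw [C.nx_step hi ha hn] at ih
            obtain ⟨q', i', hi', hc, w, hws, hw⟩ := ih (some q₁) _ β (C.hD _ _ _ _ _ _ hn)
              (apply_le mv hi) rfl
            exact ⟨q', i', hi', hc, w + 1, by omega, DPDA.Wt.step _ _ _ _ _ _ _ _ _ ha hn hw⟩
    · rw [C.tag_two x hl] at h0; omega
  | binary v c s c' s' h0 h1 h2 h3 ih ih' =>
    rintro q i l hl hi rfl
    rcases l with _ | ⟨X, _ | ⟨Y, γ⟩⟩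
    · rw [C.tag_nil] at h0; omega
    · rw [C.tag_one] at h1; omega
    · rw [C.nx_two hi hl] at ih
      obtain ⟨q₁, i₁, hi₁, hc₁, w₁, hws₁, hw₁⟩ := ih q i [X] C.hD1 hi rfl
      rw [hc₁, C.kont_eq hi₁ hl] at ih'
      obtain ⟨q₂, i₂, hi₂, hc₂, w₂, hws₂, hw₂⟩ := ih' q₁ i₁ (Y :: γ)
        (by rw [List.length_cons] at hl; omega) hi₁ rfl
      exact ⟨q₂, i₂, hi₂, hc₂, w₁ + w₂, by omega,
        DPDA.Wt.cons _ _ _ _ _ _ _ _ _ _ (by simp) hw₁ hw₂⟩

/-- Runs give values of nodes. -/
theorem complete {w : ℕ} {q q' : Option M.State} {i i' : ℕ} {l : List M.Stack}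
    (h : M.Wt x w q i l q' i') : i ≤ x.length + 1 → l.length ≤ C.D → i' ≤ x.length + 1 ∧
      ∃ s, Ev (C.sys x) (C.code q i l) (C.code q' i' []) s ∧ (l = [] → s = 1) ∧
        (l ≠ [] → s + 2 ≤ 4 * w) := by
  have base : ∀ (q : Option M.State) (i : ℕ), i ≤ x.length + 1 →
      Ev (C.sys x) (C.code q i []) (C.code q i []) 1 := fun q i hi => by
    have h1 := Ev.done (S := C.sys x) _ (C.tag_nil x q i)
    rwa [C.nx_nil hi] at h1
  induction h with
  | nil q i =>
    exact fun hi _ => ⟨hi, 1, base q i hi, fun _ => rfl, fun h => absurd rfl h⟩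
  | halt i X =>
    refine fun hi _ => ⟨hi, 2, ?_, fun h => absurd h (by simp), fun _ => by omega⟩
    exact Ev.unary _ _ _ (C.tag_one x none i X) (by rw [C.nx_halt hi]; exact base _ _ hi)
  | accept q i X h =>
    refine fun hi _ => ⟨hi, 2, ?_, fun h => absurd h (by simp), fun _ => by omega⟩
    exact Ev.unary _ _ _ (C.tag_one x _ i X) (by rw [C.nx_accept hi X h]; exact base _ _ hi)
  | step n q i X q₁ mv β q₂ i₂ h h₁ _ ih =>
    intro hi _
    obtain ⟨hi₂, s, hs, h2, h3⟩ := ih (apply_le mv hi) (C.hD _ _ _ _ _ _ h₁)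
    refine ⟨hi₂, s + 1, Ev.unary _ _ _ (C.tag_one x _ i X) (by rw [C.nx_step hi h h₁]; exact hs),
      fun h => absurd h (by simp), fun _ => ?_⟩
    by_cases hβ : β = []
    · have := h2 hβ; omega
    · have := h3 hβ; omega
  | cons n₁ n₂ q i X β q₁ i₁ q₂ i₂ hβ _ _ ih₁ ih₂ =>
    intro hi hl
    obtain ⟨Y, γ, rfl⟩ := List.exists_cons_of_ne_nil hβ
    obtain ⟨hi₁, s₁, hs₁, _, g₁⟩ := ih₁ hi C.hD1
    obtain ⟨hi₂, s₂, hs₂, _, g₂⟩ := ih₂ hi₁ (by rw [List.length_cons] at hl; omega)
    have g₁' := g₁ (by simp)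
    have g₂' := g₂ (by simp)
    refine ⟨hi₂, s₁ + s₂ + 1, Ev.binary _ (C.code q₁ i₁ []) s₁ _ s₂ ?_ ?_ ?_ ?_,
      fun h => absurd h (by simp), fun _ => by omega⟩
    · rw [C.tag_two x hl]; omega
    · rw [C.tag_two x hl]; omega
    · rw [C.nx_two hi hl]; exact hs₁
    · rw [C.kont_eq hi₁ hl]; exact hs₂

end Cd

end Pool.Agent.Lib.MP_9277c3_lc.CM
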