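import Pool.Agent.Lib.MP_9277c3_lc.helper78.CM.SmallC

/-!
# Computation of the parameters
-/

namespace Pool.Agent.Lib.MP_9277c3_lc.CM

open Finset

section

variable {α F R : Type} {x : List α} {cc : Cell α → ℕ} {A : ℕ} {body : F → AStmt R F}

/-- Execution of a loop, given by a sequence of states. -/
theorem RunA.seqLoop {k : ℕ} (ctr : R) (B : AStmt R F) (g : ℕ → R → ℕ) (N : ℕ)
    (h1 : ∀ n < N, g n ctr ≠ 0) (h2 : g N ctr = 0)
    (hB : ∀ n < N, RunA x cc A body k B (g n) (g (n + 1))) :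
    RunA x cc A body k (Stmt.loop ctr B) (g 0) (g N) := by
  have key : ∀ j, j ≤ N → RunA x cc A body k (Stmt.loop ctr B) (g (N - j)) (g N) := by
    intro j
    induction j with
    | zero => exact fun _ => RunA.loopF _ _ _ _ h2
    | succ j ih =>
      intro hj
      refine RunA.loopT _ _ _ _ _ _ (h1 _ (by omega)) (hB _ (by omega)) ?_
      rw [show N - (j + 1) + 1 = N - j by omega]
      exact ih (by omega)
  have := key N le_rfl
  rwa [Nat.sub_self] at this

end

/-! ### The parameters -/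

/-- The number of divisors of `c` among `j + 2, ..., c - 1`. -/
def dcn (c j : ℕ) : ℕ := ∑ k ∈ Ico j (c - 2), (1 - c % (k + 2))

theorem dcn_le (c j : ℕ) : dcn c j ≤ c := by
  refine (sum_le_card_nsmul _ _ 1 fun k _ => Nat.sub_le _ _).trans ?_
  simp
  omega

theorem dcn_eq_zero {c : ℕ} (hc : 2 ≤ c) : dcn c 0 = 0 ↔ c.Prime := by
  rw [dcn, sum_eq_zero_iff, Nat.prime_def_lt']
  constructor
  · intro h
    refine ⟨hc, fun m h2 hm hd => ?_⟩
    have h1 := h (m - 2) (mem_Ico.2 ⟨Nat.zero_le _, by omega⟩)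
    rw [show m - 2 + 2 = m by omega, Nat.mod_eq_zero_of_dvd hd] at h1
    omega
  · rintro ⟨_, h⟩ k hk
    have hk' := (mem_Ico.1 hk).2
    have h1 := h (k + 2) (by omega) (by omega)
    rw [Nat.dvd_iff_mod_eq_zero] at h1
    omega

theorem exists_p (m : ℕ) : ∃ p, 2 * m + 2 ≤ p ∧ p.Prime := by
  obtain ⟨p, h1, h2⟩ := Nat.exists_infinite_primes (2 * m + 2)
  exact ⟨p, h1, h2⟩

/-- The number of bits of a state. -/
def mP (K n : ℕ) : ℕ := Nat.clog 2 (4 * (K * (n + 3)) ^ 5)

/-- Its length in binary. -/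
def lP (K n : ℕ) : ℕ := Nat.clog 2 (mP K n + 1)

/-- The factor between two levels. -/
def bP (K n : ℕ) : ℕ := mP K n / lP K n + 1

open Classical in
/-- The prime number. -/
noncomputable def pP (K n : ℕ) : ℕ := Nat.find (exists_p (mP K n))

/-- The parameters. -/
noncomputable def par (K n : ℕ) : Par where
  N := K * (n + 3)
  m := mP K n
  p := pP K n
  T := 2 * bP K n
  cw := pP K n + 2 * bP K n + 1
  cb := 2 ^ mP K n + pP K n + 4
  n := n + 1

/-- The exponent of the bound for all numbers. -/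
def eP (c K n : ℕ) : ℕ := 200 * (c + 1) * (bP K n * mP K n)

section

variable {K n : ℕ}

theorem four_le : 4 * (K * (n + 3)) ^ 5 ≤ 2 ^ mP K n := Nat.le_pow_clog (by norm_num) _

theorem lt_four {i : ℕ} (hi : i < mP K n) : 2 ^ i < 4 * (K * (n + 3)) ^ 5 :=
  Nat.pow_lt_of_lt_clog hi

theorem m_lt_two_pow : mP K n + 1 ≤ 2 ^ lP K n := Nat.le_pow_clog (by norm_num) _

theorem lt_m {i : ℕ} (hi : i < lP K n) : 2 ^ i < mP K n + 1 := Nat.pow_lt_of_lt_clog hi

theorem N_ge (hK : 64 ≤ K) : 192 ≤ K * (n + 3) := by nlinarith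

theorem m_ge (hK : 64 ≤ K) : 37 ≤ mP K n := by
  have h1 := four_le (K := K) (n := n)
  have h2 := N_ge (n := n) hK
  have h3 : 128 ^ 5 ≤ (K * (n + 3)) ^ 5 := Nat.pow_le_pow_left (by omega) 5
  have h4 : 2 ^ 37 ≤ 2 ^ mP K n := by
    refine le_trans ?_ h1
    calc 2 ^ 37 = 4 * 128 ^ 5 := by norm_num
      _ ≤ 4 * (K * (n + 3)) ^ 5 := Nat.mul_le_mul_left _ h3
  exact (Nat.pow_le_pow_iff_right (by norm_num)).1 h4

theorem l_ge (hK : 64 ≤ K) : 6 ≤ lP K n := by
  by_contra hcon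
  have h1 := m_lt_two_pow (K := K) (n := n)
  have h2 := m_ge (n := n) hK
  have h3 : 2 ^ lP K n ≤ 2 ^ 5 := Nat.pow_le_pow_right (by norm_num) (by omega)
  norm_num at h3
  omega

theorem l_le (hK : 64 ≤ K) : lP K n ≤ mP K n :=
  Nat.clog_le_of_le_pow (Nat.lt_two_pow_self)

theorem two_pow_pred (hK : 64 ≤ K) : 2 ^ (lP K n - 1) ≤ mP K n := by
  have h1 := l_ge (n := n) hK
  have h2 := lt_m (K := K) (n := n) (i := lP K n - 1) (by omega)
  omega

theorem sq_le_two_pow (k : ℕ) : k * k ≤ 2 ^ (k + 1) := by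
  induction k with
  | zero => norm_num
  | succ k ih =>
    have h1 : k + 1 ≤ 2 ^ k := Nat.lt_two_pow_self
    have h2 : 2 ^ (k + 1 + 1) = 4 * 2 ^ k := by ring
    have h3 : 2 ^ (k + 1) = 2 * 2 ^ k := by ring
    rw [h2]
    nlinarith

theorem m_lt_bl (hK : 64 ≤ K) : mP K n < bP K n * lP K n := by
  have h1 := l_ge (n := n) hK
  have h2 := Nat.div_add_mod (mP K n) (lP K n)
  have h3 := Nat.mod_lt (mP K n) (show 0 < lP K n by omega)
  rw [bP, Nat.add_mul, Nat.one_mul, Nat.mul_comm]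
  omega

theorem bl_le (hK : 64 ≤ K) : bP K n * lP K n ≤ 2 * mP K n := by
  have h1 := l_le (n := n) hK
  have h2 := Nat.div_mul_le_self (mP K n) (lP K n)
  rw [bP, Nat.add_mul, Nat.one_mul]
  omega

theorem b_le (hK : 64 ≤ K) : 2 * bP K n ≤ mP K n := by
  have h1 := l_ge (n := n) hK
  have h2 := bl_le (n := n) hK
  have h3 : bP K n * 6 ≤ bP K n * lP K n := Nat.mul_le_mul_left _ h1
  omega

theorem b_pos : 0 < bP K n := Nat.succ_pos _

theorem l_le_b (hK : 64 ≤ K) : lP K n ≤ 4 * bP K n := by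
  by_contra hcon
  push Not at hcon
  have h1 := l_ge (n := n) hK
  have h2 := sq_le_two_pow (lP K n)
  have h3 := two_pow_pred (n := n) hK
  have h4 := m_lt_bl (n := n) hK
  have h5 : 2 ^ (lP K n + 1) = 4 * 2 ^ (lP K n - 1) := by
    rw [show lP K n + 1 = lP K n - 1 + 2 by omega, pow_add]
    ring
  have h6 : 4 * bP K n * lP K n ≤ lP K n * lP K n := Nat.mul_le_mul_right _ hcon.le
  nlinarith

/-- Each level divides by enough. -/
theorem two_pow_le (hK : 64 ≤ K) : 2 ^ lP K n ≤ bP K n ^ 4 := by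
  have h1 := l_ge (n := n) hK
  have h2 := sq_le_two_pow (lP K n)
  have h3 := two_pow_pred (n := n) hK
  have h4 := m_lt_bl (n := n) hK
  have h5 : (lP K n * lP K n) ^ 2 ≤ (2 ^ (lP K n + 1)) ^ 2 := Nat.pow_le_pow_left h2 2
  have h6 : (2 ^ (lP K n - 1)) ^ 4 ≤ (bP K n * lP K n) ^ 4 := Nat.pow_le_pow_left (by omega) 4
  have h7 : (2 ^ (lP K n + 1)) ^ 2 ≤ 2 ^ (3 * lP K n - 4) := by
    rw [← pow_mul]
    exact Nat.pow_le_pow_right (by norm_num) (by omega)
  have h8 : (2 ^ (lP K n - 1)) ^ 4 = 2 ^ lP K n * 2 ^ (3 * lP K n - 4) := by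
    rw [← pow_mul, ← pow_add]
    congr 1
    omega
  have h9 : (bP K n * lP K n) ^ 4 = bP K n ^ 4 * (lP K n * lP K n) ^ 2 := by ring
  rw [h8, h9] at h6
  have h10 : 0 < 2 ^ (3 * lP K n - 4) := by positivity
  refine Nat.le_of_mul_le_mul_right (h6.trans (Nat.mul_le_mul_left _ (h5.trans h7))) h10

theorem levels_ge (hK : 64 ≤ K) (c : ℕ) : (4 * (K * (n + 3)) ^ 5) ^ c ≤ bP K n ^ (4 * c * bP K n) := by
  calc (4 * (K * (n + 3)) ^ 5) ^ c ≤ (2 ^ mP K n) ^ c := Nat.pow_le_pow_left four_le _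
    _ ≤ (2 ^ (bP K n * lP K n)) ^ c :=
        Nat.pow_le_pow_left (Nat.pow_le_pow_right (by norm_num) (m_lt_bl hK).le) _
    _ = (2 ^ lP K n) ^ (c * bP K n) := by rw [← pow_mul, ← pow_mul]; congr 1; ring
    _ ≤ (bP K n ^ 4) ^ (c * bP K n) := Nat.pow_le_pow_left (two_pow_le hK) _
    _ = bP K n ^ (4 * c * bP K n) := by rw [← pow_mul]; congr 1; ring

theorem pP_spec : 2 * mP K n + 2 ≤ pP K n ∧ (pP K n).Prime := by
  classical
  exact Nat.find_spec (exists_p (mP K n))

theorem pP_le : pP K n ≤ 4 * mP K n + 2 := by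
  classical
  obtain ⟨q, h1, h2, h3⟩ := Nat.exists_prime_lt_and_le_two_mul (2 * mP K n + 1) (by omega)
  exact (Nat.find_min' (exists_p (mP K n)) ⟨by omega, h1⟩).trans (by omega)

theorem pP_min {i : ℕ} (h1 : 2 * mP K n + 2 ≤ i) (h2 : i < pP K n) : ¬i.Prime := by
  classical
  exact fun h => Nat.find_min (exists_p (mP K n)) h2 ⟨h1, h⟩

theorem ten_lt {k : ℕ} (hk : 7 ≤ k) : 10 * k + 16 < 2 ^ k := by
  induction hk with
  | refl => norm_num
  | step _ ih =>
    rw [Nat.succ_eq_add_one, pow_succ]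
    omega

theorem m_le_log : mP K n ≤ 5 * Nat.log 2 (K * (n + 3)) + 7 := by
  by_contra hcon
  push Not at hcon
  have h1 := lt_four (K := K) (n := n) (i := mP K n - 1) (by omega)
  have h2 : K * (n + 3) < 2 ^ (Nat.log 2 (K * (n + 3)) + 1) :=
    Nat.lt_pow_succ_log_self (by norm_num) _
  have h3 : (K * (n + 3)) ^ 5 ≤ (2 ^ (Nat.log 2 (K * (n + 3)) + 1)) ^ 5 :=
    Nat.pow_le_pow_left h2.le 5
  have h4 : 4 * (2 ^ (Nat.log 2 (K * (n + 3)) + 1)) ^ 5 = 2 ^ (5 * Nat.log 2 (K * (n + 3)) + 7) := by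
    rw [← pow_mul, show (4 : ℕ) = 2 ^ 2 by norm_num, ← pow_add]
    congr 1
    ring
  have h5 : 2 ^ (5 * Nat.log 2 (K * (n + 3)) + 7) ≤ 2 ^ (mP K n - 1) :=
    Nat.pow_le_pow_right (by norm_num) (by omega)
  omega

theorem T_lt (hK : 64 ≤ K) : 2 * bP K n < K * (n + 3) := by
  have h1 := m_le_log (K := K) (n := n)
  have h2 := b_le (n := n) hK
  have h3 := N_ge (n := n) hK
  have h4 : 7 ≤ Nat.log 2 (K * (n + 3)) :=
    Nat.le_log_of_pow_le (by norm_num) (by norm_num; omega)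
  have h5 := ten_lt h4
  have h6 : 2 ^ Nat.log 2 (K * (n + 3)) ≤ K * (n + 3) := Nat.pow_log_le_self _ (by omega)
  omega

theorem cb_le : 2 ^ mP K n + pP K n + 4 ≤ 2 ^ (mP K n + 3) := by
  have h1 := pP_le (K := K) (n := n)
  have h2 : mP K n < 2 ^ mP K n := Nat.lt_two_pow_self
  rw [pow_add]
  omega

theorem cw_le (hK : 64 ≤ K) : pP K n + 2 * bP K n + 1 ≤ 2 ^ (lP K n + 3) := by
  have h1 := pP_le (K := K) (n := n)
  have h2 := m_lt_two_pow (K := K) (n := n)
  have h3 := b_le (n := n) hK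
  rw [pow_add]
  omega

end

section

variable {c K n : ℕ}

theorem m_le_e : mP K n ≤ bP K n * mP K n := Nat.le_mul_of_pos_left _ b_pos

theorem e_le : 200 * (bP K n * mP K n) ≤ eP c K n := by
  unfold eP
  nlinarith [Nat.zero_le (c * (bP K n * mP K n))]

/-- The parameters have the required properties. -/
theorem par_PB (hK : 64 ≤ K) : PB (par K n) (2 ^ eP c K n) := by
  have h1 := pP_spec (K := K) (n := n)
  have h2 := N_ge (n := n) hK
  have h3 := m_ge (n := n) hK
  have h4 := m_le_e (K := K) (n := n)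
  have h5 := e_le (c := c) (K := K) (n := n)
  have h6 : mP K n < 2 ^ mP K n := Nat.lt_two_pow_self
  have h7 := pP_le (K := K) (n := n)
  refine ⟨h1.2, ?_, ?_, T_lt hK, four_le, ?_, ?_, ?_, ?_, ?_, ?_, ?_, ?_⟩
  · simp only [par]; omega
  · simp only [par]; omega
  · simp only [par]; omega
  · simp only [par]; omega
  · simp only [par]; omega
  · simp only [par]; omega
  · exact cb_le.trans (Nat.pow_le_pow_right (by norm_num) (by omega))
  · have h8 : pP K n ≤ 2 ^ (lP K n + 3) := (by omega : _ ≤ _).trans (cw_le (n := n) hK)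
    refine (Nat.pow_le_pow_left h8 (mP K n)).trans ?_
    rw [← pow_mul]
    refine Nat.pow_le_pow_right (by norm_num) ?_
    have h9 := l_le_b (n := n) hK
    have h10 : (lP K n + 3) * mP K n ≤ (4 * bP K n + 3 * bP K n) * mP K n :=
      Nat.mul_le_mul_right _ (by have := b_pos (K := K) (n := n); omega)
    nlinarith
  · have h8 := four_le (K := K) (n := n)
    have h9 : (K * (n + 3)) ^ 6 ≤ (4 * (K * (n + 3)) ^ 5) ^ 2 := by
      calc (K * (n + 3)) ^ 6 ≤ (K * (n + 3)) ^ 10 := Nat.pow_le_pow_right (by omega) (by norm_num)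
        _ ≤ 16 * (K * (n + 3)) ^ 10 := by omega
        _ = (4 * (K * (n + 3)) ^ 5) ^ 2 := by ring
    have h10 : (4 * (K * (n + 3)) ^ 5) ^ 2 ≤ (2 ^ mP K n) ^ 2 := Nat.pow_le_pow_left h8 2
    have h11 : 8 * (2 ^ mP K n) ^ 2 ≤ 2 ^ eP c K n := by
      rw [← pow_mul, show (8 : ℕ) = 2 ^ 3 by norm_num, ← pow_add]
      exact Nat.pow_le_pow_right (by norm_num) (by omega)
    have h12 : 2 < (2 ^ mP K n) ^ 2 := by nlinarith
    simp only [par]
    omega
  · have h8 : 2 ^ (mP K n + 3) ≤ 2 ^ eP c K n := Nat.pow_le_pow_right (by norm_num) (by omega)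
    rw [pow_add] at h8
    simp only [par]
    omega

theorem par_FS (hK : 64 ≤ K) : FS (par K n) (c * bP K n) ≤ 2 ^ eP c K n := by
  have h1 := cb_le (K := K) (n := n)
  have h2 := cw_le (n := n) hK
  have h3 := m_ge (n := n) hK
  have h4 := bl_le (n := n) hK
  have h5 := b_le (n := n) hK
  unfold FS
  have h6 : saved.length = 19 := rfl
  rw [h6]
  calc ((par K n).cb ^ 19 * (par K n).cw ^ (3 * (par K n).T)) ^ (c * bP K n)
      ≤ ((2 ^ (mP K n + 3)) ^ 19 * (2 ^ (lP K n + 3)) ^ (3 * (2 * bP K n))) ^ (c * bP K n) :=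
        Nat.pow_le_pow_left (Nat.mul_le_mul (Nat.pow_le_pow_left h1 _)
          (Nat.pow_le_pow_left h2 _)) _
    _ = 2 ^ (((mP K n + 3) * 19 + (lP K n + 3) * (3 * (2 * bP K n))) * (c * bP K n)) := by
        rw [← pow_mul, ← pow_mul, ← pow_add, ← pow_mul]
    _ ≤ 2 ^ eP c K n := by
        refine Nat.pow_le_pow_right (by norm_num) ?_
        have h7 : (mP K n + 3) * 19 + (lP K n + 3) * (3 * (2 * bP K n)) ≤ 200 * mP K n := by
          nlinarith
        calc ((mP K n + 3) * 19 + (lP K n + 3) * (3 * (2 * bP K n))) * (c * bP K n)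
            ≤ (200 * mP K n) * (c * bP K n) := Nat.mul_le_mul_right _ h7
          _ = 200 * c * (bP K n * mP K n) := by ring
          _ ≤ eP c K n := by
            unfold eP
            exact Nat.mul_le_mul_right _ (by omega)

end

section

open Rg

/-- The number of divisors of `cp`. -/
def dvC : Prg :=
  sq [set e 0, set k2 (cp - 2), Stmt.loop k2 (sq [set e (e + (1 - cp % (k2 + 1))),
    set k2 (k2 - 1)])]

/-- Computation of the parameters. -/
def initC (K c : ℕ) : Prg :=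
  sq [
    set cn 1, set e (Exp.inp cn - 1),
    Stmt.loop e (sq [set cn (Exp.var cn + 1), set e (Exp.inp cn - 1)]),
    set cN ((Exp.lit K : Exp Rg) * (Exp.var cn + 2)),
    set cQ 1, set e (4 * (cN * (cN * (cN * (cN * cN)))) - cQ),
    Stmt.loop e (sq [set cQ (2 * cQ), set cm (cm + 1),
      set e (4 * (cN * (cN * (cN * (cN * cN)))) - cQ)]),
    set k2 1, set e (cm + 1 - k2),
    Stmt.loop e (sq [set k2 (2 * k2), set k1 (k1 + 1), set e (cm + 1 - k2)]),
    set k2 (cm / k1 + 1), set cT (2 * k2), set lev ((Exp.lit c : Exp Rg) * Exp.var k2), set k1 0,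
    set k2 0,
    set cp (2 * cm + 1), set e 1, Stmt.loop e (sq [set cp (cp + 1), dvC]),
    set cpm 1, set k2 (cm - 1), Stmt.loop k2 (sq [set cpm (cpm * cp), set k2 (k2 - 1)]),
    set cw (cp + cT + 1), set cb (cQ + cp + 4)]

/-- The main program. -/
def mainC (K c : ℕ) (startE accE : Exp Rg) : Prg :=
  sq [initC K c, set a startE, Stmt.call Pr.small, set e accE]

end

/-- The state after the computation of the parameters. -/
noncomputable def initS (c K n : ℕ) : Rg → ℕ
  | .cN => K * (n + 3)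
  | .cm => mP K n
  | .cp => pP K n
  | .cpm => pP K n ^ (mP K n - 1)
  | .cT => 2 * bP K n
  | .cQ => 2 ^ mP K n
  | .cw => pP K n + 2 * bP K n + 1
  | .cb => 2 ^ mP K n + pP K n + 4
  | .cn => n + 1
  | .lev => c * bP K n
  | _ => 0

section

variable {α : Type} {X : List α} {cc : Cell α → ℕ} {A : ℕ} {body : Pr → Prg} {c K : ℕ}

@[simp] theorem eval_inp (s : Rg → ℕ) (a : Exp Rg) :
    (Exp.inp a).eval X cc s = cc (cell X (a.eval X cc s)) := rfl

@[simp] theorem eval_lit (s : Rg → ℕ) (k : ℕ) : (Exp.lit k).eval X cc s = k := rfl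

theorem run_dvC {s : Rg → ℕ} (hk2 : s .k2 = 0) (hA : s .cp < A) :
    RunA X cc A body 0 dvC s (upd s .e (dcn (s .cp) 0)) := by
  refine RunA.sq_set 0 (by simp) (by omega) (RunA.sq_set (s .cp - 2) (by simp) (by omega) ?_)
  refine RunA.sq_cons (RunA.loop .k2 _ (fun n => upd (upd s .e (dcn (s .cp) n)) .k2 n) (by simp)
    (s .cp - 2) (fun n hn => ?_) ?_ rfl) (RunA.sq_nil.cast ?_)
  · have h1 : dcn (s .cp) n = dcn (s .cp) (n + 1) + (1 - s .cp % (n + 2)) := by
      rw [dcn, dcn, sum_eq_sum_Ico_succ_bot hn, Nat.add_comm]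
    have h2 := dcn_le (s .cp) n
    refine RunA.sq_set (dcn (s .cp) n) ?_ (by omega) (RunA.sq_set n (by simp) (by omega)
      (RunA.sq_nil.cast ?_))
    · simp [h1]
    · funext q; cases q <;> simp
  · have h1 : dcn (s .cp) (s .cp - 2) = 0 := by rw [dcn, Ico_self, sum_empty]
    rw [h1]
  · funext q; cases q <;> simp [hk2]

theorem cell_letter {i : ℕ} (hi : i < X.length) : cell X (i + 1) = Cell.letter X[i] := by
  simp only [cell]
  rw [List.getElem?_eq_getElem hi]

theorem cell_right {i : ℕ} (hi : X.length ≤ i) : cell X (i + 1) = Cell.right := by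
  simp only [cell]
  rw [List.getElem?_eq_none hi]

theorem run_initC (hK : 64 ≤ K) (h1 : cc Cell.right = 1) (h2 : ∀ a, 2 ≤ cc (Cell.letter a))
    (h3 : ∀ d, cc d ≤ K) :
    RunA X cc (2 ^ eP c K X.length) body 0 (initC K c) (fun _ => 0) (initS c K X.length) := by
  set n := X.length with hn
  set A := 2 ^ eP c K n with hA
  have f1 := pP_spec (K := K) (n := n)
  have f2 := N_ge (n := n) hK
  have f3 := m_ge (n := n) hK
  have f4 := m_le_e (K := K) (n := n)
  have f5 := e_le (c := c) (K := K) (n := n)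
  have f6 : mP K n < 2 ^ mP K n := Nat.lt_two_pow_self
  have f7 := pP_le (K := K) (n := n)
  have f8 := four_le (K := K) (n := n)
  have f9 := b_le (n := n) hK
  have f10 := two_pow_pred (n := n) hK
  have f11 := l_ge (n := n) hK
  have f12 := l_le (n := n) hK
  have a1 : 8 * 2 ^ mP K n < A := by
    rw [show (8 : ℕ) = 2 ^ 3 by norm_num, ← pow_add, hA]
    exact Nat.pow_lt_pow_right (by norm_num) (by omega)
  have a2 : K * (n + 3) ≤ 2 ^ mP K n := by
    refine le_trans ?_ f8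
    calc K * (n + 3) = (K * (n + 3)) ^ 1 := (pow_one _).symm
      _ ≤ (K * (n + 3)) ^ 5 := Nat.pow_le_pow_right (by omega) (by norm_num)
      _ ≤ 4 * (K * (n + 3)) ^ 5 := by omega
  have a3 : K ≤ K * (n + 3) := Nat.le_mul_of_pos_right _ (by omega)
  have a4 : n + 3 ≤ K * (n + 3) := Nat.le_mul_of_pos_left _ (by omega)
  have a5 : 2 ^ lP K n ≤ 2 * mP K n := by
    have : 2 ^ lP K n = 2 * 2 ^ (lP K n - 1) := by
      rw [← pow_succ']
      congr 1
      omega
    omega
  have a6 : eP c K n < A := Nat.lt_two_pow_self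
  have a7 : c * bP K n ≤ eP c K n := by
    unfold eP
    have : 1 ≤ mP K n := by omega
    calc c * bP K n ≤ (200 * (c + 1)) * (bP K n * 1) := by nlinarith [Nat.zero_le (c * bP K n)]
      _ ≤ 200 * (c + 1) * (bP K n * mP K n) := by gcongr
  have a8 : c ≤ c * bP K n := Nat.le_mul_of_pos_right _ b_pos
  have a9 : pP K n ^ mP K n ≤ A := (par_PB (c := c) (n := n) hK).hA2
  have hp0 : 0 < pP K n := f1.2.pos
  have hp2 := f1.2.two_le
  -- the length
  refine RunA.sq_set 1 (by simp) (by omega) (RunA.sq_set (cc (cell X 1) - 1) (by simp)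
    (by have := h3 (cell X 1); omega) ?_)
  refine RunA.sq_cons ((RunA.seqLoop Rg.e _ (fun i => upd (upd (fun _ : Rg => 0) .cn (i + 1)) .e
    (cc (cell X (i + 1)) - 1)) n (fun i hi => ?_) ?_ (fun i hi => ?_)).congr_left rfl) ?_
  · have := h2 X[i]
    simp only [upd_self]
    rw [cell_letter hi]
    omega
  · simp only [upd_self]
    rw [cell_right le_rfl, h1]
  · refine RunA.sq_set (i + 2) (by simp) (by omega) (RunA.sq_set (cc (cell X (i + 2)) - 1)
      (by simp) (by have := h3 (cell X (i + 2)); omega) (RunA.sq_nil.cast ?_))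
    funext q; cases q <;> simp
  simp only [cell_right (X := X) (i := n) le_rfl, h1, Nat.sub_self]
  refine RunA.sq_set (K * (n + 3)) (by simp) (by omega) ?_
  -- the number of bits
  refine RunA.sq_set 1 (by simp) (by omega) (RunA.sq_set (4 * (K * (n + 3)) ^ 5 - 1) ?_
    (by omega) ?_)
  · simp
    ring_nf
  refine RunA.sq_cons ((RunA.seqLoop Rg.e _ (fun i => upd (upd (upd (upd (upd (fun _ : Rg => 0) .cn (n + 1))
    .cN (K * (n + 3))) .cQ (2 ^ i)) .cm i) .e (4 * (K * (n + 3)) ^ 5 - 2 ^ i)) (mP K n)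
    (fun i hi => ?_) ?_ (fun i hi => ?_)).congr_left ?_) ?_
  · have := lt_four (K := K) (n := n) hi
    simp only [upd_self]
    omega
  · simp only [upd_self]
    omega
  · have h5 : 2 ^ (i + 1) ≤ 2 ^ mP K n := Nat.pow_le_pow_right (by norm_num) hi
    have h6 : 4 * (K * (n + 3)) ^ 5 - 2 ^ (i + 1) < A := (Nat.sub_le _ _).trans_lt
      (f8.trans_lt (by omega))
    refine RunA.sq_set (2 ^ (i + 1)) (by simp; ring) (by omega) (RunA.sq_set (i + 1) (by simp)
      (by omega) (RunA.sq_set (4 * (K * (n + 3)) ^ 5 - 2 ^ (i + 1)) ?_ h6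
      (RunA.sq_nil.cast ?_)))
    · simp
      ring_nf
    · funext q; cases q <;> simp
  · funext q; cases q <;> simp
  rw [show 4 * (K * (n + 3)) ^ 5 - 2 ^ mP K n = 0 by omega]
  -- the length of this number
  refine RunA.sq_set 1 (by simp) (by omega) (RunA.sq_set (mP K n + 1 - 1) (by simp) (by omega) ?_)
  refine RunA.sq_cons ((RunA.seqLoop Rg.e _ (fun i => upd (upd (upd (upd (upd (upd (upd
    (fun _ : Rg => 0) .cn (n + 1)) .cN (K * (n + 3))) .cQ (2 ^ mP K n)) .cm (mP K n)) .k2 (2 ^ i))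
    .k1 i) .e (mP K n + 1 - 2 ^ i)) (lP K n) (fun i hi => ?_) ?_ (fun i hi => ?_)).congr_left ?_) ?_
  · have := lt_m (K := K) (n := n) hi
    simp only [upd_self]
    omega
  · have := m_lt_two_pow (K := K) (n := n)
    simp only [upd_self]
    omega
  · have h5 : 2 ^ (i + 1) ≤ 2 ^ lP K n := Nat.pow_le_pow_right (by norm_num) hi
    have h6 : mP K n + 1 - 2 ^ (i + 1) < A := (Nat.sub_le _ _).trans_lt (by omega)
    have h7 : 2 ^ (i + 1) < A := h5.trans_lt (a5.trans_lt (by omega))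
    refine RunA.sq_set (2 ^ (i + 1)) (by simp; ring) h7 (RunA.sq_set (i + 1) (by simp)
      (by omega) (RunA.sq_set (mP K n + 1 - 2 ^ (i + 1)) (by simp) h6
      (RunA.sq_nil.cast ?_)))
    funext q; cases q <;> simp
  · funext q; cases q <;> simp
  have hl0 : mP K n + 1 - 2 ^ lP K n = 0 := by
    have := m_lt_two_pow (K := K) (n := n)
    omega
  rw [hl0]
  -- the factor, the number of levels
  refine RunA.sq_set (bP K n) (by simp [bP]) (by omega) (RunA.sq_set (2 * bP K n) (by simp)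
    (by omega) (RunA.sq_set (c * bP K n) (by simp) (by omega) (RunA.sq_set 0 (by simp) (by omega)
    (RunA.sq_set 0 (by simp) (by omega) ?_))))
  -- the prime number
  refine RunA.sq_set (2 * mP K n + 1) (by simp) (by omega) (RunA.sq_set 1 (by simp) (by omega) ?_)
  refine RunA.sq_cons ((RunA.seqLoop Rg.e _ (fun i => upd (upd (upd (upd (upd (upd (upd (upd
    (fun _ : Rg => 0) .cn (n + 1)) .cN (K * (n + 3))) .cQ (2 ^ mP K n)) .cm (mP K n)) .cT
    (2 * bP K n)) .lev (c * bP K n)) .cp (2 * mP K n + 1 + i)) .e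
    (if i = 0 then 1 else dcn (2 * mP K n + 1 + i) 0)) (pP K n - (2 * mP K n + 1))
    (fun i hi => ?_) ?_ (fun i hi => ?_)).congr_left ?_) ?_
  · simp only [upd_self]
    split_ifs with h0
    · exact one_ne_zero
    · rw [Ne, dcn_eq_zero (by omega)]
      exact pP_min (K := K) (n := n) (by omega) (by omega)
  · simp only [upd_self]
    rw [if_neg (by omega), show 2 * mP K n + 1 + (pP K n - (2 * mP K n + 1)) = pP K n by omega,
      dcn_eq_zero hp2]
    exact f1.2
  · refine RunA.sq_set (2 * mP K n + 1 + (i + 1)) (by simp; ring) (by omega) (RunA.sq_cons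
      ((run_dvC (by simp) (by simp only [upd_self]; omega)).cast ?_) RunA.sq_nil)
    simp only [upd_self]
    funext q; cases q <;> simp
  · funext q; cases q <;> simp
  have hp3 : (if pP K n - (2 * mP K n + 1) = 0 then 1 else
      dcn (2 * mP K n + 1 + (pP K n - (2 * mP K n + 1))) 0) = 0 := by
    rw [if_neg (by omega), show 2 * mP K n + 1 + (pP K n - (2 * mP K n + 1)) = pP K n by omega,
      dcn_eq_zero hp2]
    exact f1.2
  rw [hp3, show 2 * mP K n + 1 + (pP K n - (2 * mP K n + 1)) = pP K n by omega]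
  -- its power
  refine RunA.sq_set 1 (by simp) (by omega) (RunA.sq_set (mP K n - 1) (by simp) (by omega) ?_)
  refine RunA.sq_cons (RunA.loop .k2 _ (fun j => upd (upd (upd (upd (upd (upd (upd (upd (upd
    (fun _ : Rg => 0) .cn (n + 1)) .cN (K * (n + 3))) .cQ (2 ^ mP K n)) .cm (mP K n)) .cT
    (2 * bP K n)) .lev (c * bP K n)) .cp (pP K n)) .cpm (pP K n ^ (mP K n - 1 - j))) .k2 j)
    (by simp) (mP K n - 1) (fun j hj => ?_) ?_ rfl) ?_
  · have h5 : pP K n ^ (mP K n - 1 - j) < A := by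
      refine lt_of_lt_of_le ?_ a9
      exact Nat.pow_lt_pow_right (by omega) (by omega)
    refine RunA.sq_set (pP K n ^ (mP K n - 1 - j)) ?_ h5 (RunA.sq_set j (by simp) (by omega)
      (RunA.sq_nil.cast ?_))
    · simp
      rw [← pow_succ, show mP K n - 1 - (j + 1) + 1 = mP K n - 1 - j by omega]
    · funext q; cases q <;> simp
  · rw [Nat.sub_self, pow_zero]
    funext q; cases q <;> simp
  · rw [Nat.sub_zero]
    have h5 : pP K n + 2 * bP K n + 1 < A := by omega
    have h6 : 2 ^ mP K n + pP K n + 4 < A := by omega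
    refine RunA.sq_set (pP K n + 2 * bP K n + 1) (by simp) h5 (RunA.sq_set
      (2 ^ mP K n + pP K n + 4) (by simp) h6 (RunA.sq_nil.cast ?_))
    funext q; cases q <;> simp [initS]

end

end Pool.Agent.Lib.MP_9277c3_lc.CM
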