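import Mathlib

/-!
# A structured language with recursive procedures

The primitive instructions and the tests are parameters. The relation `Exec` is the big-step
semantics; its first argument bounds the depth of the control stack which is needed to execute the
program, and each primitive instruction is executed only if its precondition holds.
-/

namespace Pool.Agent.Lib.MP_9277c3_lc.CM

open Classical in
/-- Update of a function at one place. -/
noncomputable def upd {ι β : Type} (f : ι → β) (i : ι) (v : β) : ι → β :=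
  fun j => if j = i then v else f j

@[simp] theorem upd_self {ι β : Type} (f : ι → β) (i : ι) (v : β) : upd f i v i = v := by
  simp [upd]

@[simp] theorem upd_ne {ι β : Type} {i j : ι} (h : j ≠ i) (f : ι → β) (v : β) : upd f i v j = f j := by
  simp [upd, h]

@[simp] theorem upd_eq_self {ι β : Type} (f : ι → β) (i : ι) : upd f i (f i) = f := by
  funext j
  by_cases h : j = i
  · subst h; rw [upd_self]
  · rw [upd_ne h]

@[simp] theorem upd_upd {ι β : Type} (f : ι → β) (i : ι) (v w : β) : upd (upd f i v) i w = upd f i w := by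
  funext j
  by_cases h : j = i
  · subst h; rw [upd_self, upd_self]
  · rw [upd_ne h, upd_ne h, upd_ne h]

theorem upd_comm {ι β : Type} {i j : ι} (h : i ≠ j) (f : ι → β) (v w : β) :
    upd (upd f i v) j w = upd (upd f j w) i v := by
  funext k
  by_cases h1 : k = i
  · subst h1; rw [upd_self, upd_ne h, upd_self]
  · rw [upd_ne h1]
    by_cases h2 : k = j
    · subst h2; rw [upd_self, upd_self]
    · rw [upd_ne h2, upd_ne h2, upd_ne h1]

/-- Structured programs with primitive instructions `P`, tests `T` and procedure names `F`. -/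
inductive Stmt (P T F : Type) : Type
  | skip : Stmt P T F
  | prim (p : P) : Stmt P T F
  | seq (a b : Stmt P T F) : Stmt P T F
  | ite (t : T) (a b : Stmt P T F) : Stmt P T F
  | loop (t : T) (a : Stmt P T F) : Stmt P T F
  | call (f : F) : Stmt P T F

/-- The meaning of the primitive instructions and of the tests. -/
structure Sem (P T σ : Type) where
  act : P → σ → σ
  pre : P → σ → Prop
  test : T → σ → Prop

/-- Terminating executions. -/
inductive Exec {P T F σ : Type} (M : Sem P T σ) (body : F → Stmt P T F) :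
    ℕ → Stmt P T F → σ → σ → Prop
  | skip (d : ℕ) (s : σ) : Exec M body d Stmt.skip s s
  | prim (d : ℕ) (p : P) (s : σ) (h : M.pre p s) : Exec M body d (Stmt.prim p) s (M.act p s)
  | seq (d : ℕ) (a b : Stmt P T F) (s t u : σ) (h₁ : Exec M body d a s t)
      (h₂ : Exec M body (d + 1) b t u) : Exec M body (d + 1) (Stmt.seq a b) s u
  | iteT (d : ℕ) (t : T) (a b : Stmt P T F) (s u : σ) (h : M.test t s)
      (h₁ : Exec M body d a s u) : Exec M body d (Stmt.ite t a b) s u
  | iteF (d : ℕ) (t : T) (a b : Stmt P T F) (s u : σ) (h : ¬M.test t s)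
      (h₁ : Exec M body d b s u) : Exec M body d (Stmt.ite t a b) s u
  | loopF (d : ℕ) (t : T) (a : Stmt P T F) (s : σ) (h : ¬M.test t s) :
      Exec M body d (Stmt.loop t a) s s
  | loopT (d : ℕ) (t : T) (a : Stmt P T F) (s u v : σ) (h : M.test t s)
      (h₁ : Exec M body d a s u) (h₂ : Exec M body (d + 1) (Stmt.loop t a) u v) :
      Exec M body (d + 1) (Stmt.loop t a) s v
  | call (d : ℕ) (f : F) (s u : σ) (h : Exec M body d (body f) s u) :
      Exec M body d (Stmt.call f) s u

namespace Exec

variable {P T F σ : Type} {M : Sem P T σ} {body : F → Stmt P T F}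

theorem mono {d d' : ℕ} (hd : d ≤ d') {a : Stmt P T F} {s t : σ} (h : Exec M body d a s t) :
    Exec M body d' a s t := by
  induction h generalizing d' with
  | skip d s => exact Exec.skip _ _
  | prim d p s h => exact Exec.prim _ _ _ h
  | seq d a b s t u _ _ ih₁ ih₂ =>
    obtain ⟨e, rfl⟩ : ∃ e, d' = e + 1 := ⟨d' - 1, by omega⟩
    exact Exec.seq _ _ _ _ _ _ (ih₁ (by omega)) (ih₂ hd)
  | iteT d t a b s u h _ ih => exact Exec.iteT _ _ _ _ _ _ h (ih hd)
  | iteF d t a b s u h _ ih => exact Exec.iteF _ _ _ _ _ _ h (ih hd)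
  | loopF d t a s h => exact Exec.loopF _ _ _ _ h
  | loopT d t a s u v h _ _ ih₁ ih₂ =>
    obtain ⟨e, rfl⟩ : ∃ e, d' = e + 1 := ⟨d' - 1, by omega⟩
    exact Exec.loopT _ _ _ _ _ _ h (ih₁ (by omega)) (ih₂ hd)
  | call d f s u _ ih => exact Exec.call _ _ _ _ (ih hd)

/-- A relation between states which is preserved by the primitive instructions is preserved. -/
theorem inv {I : σ → σ → Prop} (hrefl : ∀ s, I s s) (htrans : ∀ s t u, I s t → I t u → I s u)
    (hp : ∀ p s, M.pre p s → I s (M.act p s)) {d : ℕ} {a : Stmt P T F} {s t : σ}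
    (h : Exec M body d a s t) : I s t := by
  induction h with
  | skip d s => exact hrefl _
  | prim d p s h => exact hp _ _ h
  | seq d a b s t u _ _ ih₁ ih₂ => exact htrans _ _ _ ih₁ ih₂
  | iteT d t a b s u h _ ih => exact ih
  | iteF d t a b s u h _ ih => exact ih
  | loopF d t a s h => exact hrefl _
  | loopT d t a s u v h _ _ ih₁ ih₂ => exact htrans _ _ _ ih₁ ih₂
  | call d f s u _ ih => exact ih

end Exec

/-- Translation of programs. -/
def Stmt.tr {P T P' T' F : Type} (fp : P → Stmt P' T' F) (ft : T → T') :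
    Stmt P T F → Stmt P' T' F
  | Stmt.skip => Stmt.skip
  | Stmt.prim p => fp p
  | Stmt.seq a b => Stmt.seq (a.tr fp ft) (b.tr fp ft)
  | Stmt.ite t a b => Stmt.ite (ft t) (a.tr fp ft) (b.tr fp ft)
  | Stmt.loop t a => Stmt.loop (ft t) (a.tr fp ft)
  | Stmt.call f => Stmt.call f

/-- All primitive instructions of a program satisfy `G`. -/
def Stmt.all {P T F : Type} (G : P → Prop) : Stmt P T F → Prop
  | Stmt.skip => True
  | Stmt.prim p => G p
  | Stmt.seq a b => a.all G ∧ b.all G
  | Stmt.ite _ a b => a.all G ∧ b.all G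
  | Stmt.loop _ a => a.all G
  | Stmt.call _ => True

theorem Stmt.all_mono {P T F : Type} {G G' : P → Prop} (h : ∀ p, G p → G' p) (a : Stmt P T F) :
    a.all G → a.all G' := by
  induction a with
  | skip => exact id
  | prim p => exact h p
  | seq a b iha ihb => exact fun h => ⟨iha h.1, ihb h.2⟩
  | ite t a b iha ihb => exact fun h => ⟨iha h.1, ihb h.2⟩
  | loop t a ih => exact ih
  | call f => exact id

theorem Stmt.exists_bound {P T F : Type} (f : P → ℕ) (a : Stmt P T F) :
    ∃ D, a.all fun p => f p ≤ D := by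
  induction a with
  | skip => exact ⟨0, trivial⟩
  | prim p => exact ⟨f p, le_rfl⟩
  | seq a b iha ihb =>
    obtain ⟨D, hD⟩ := iha
    obtain ⟨E, hE⟩ := ihb
    exact ⟨max D E, Stmt.all_mono (fun p h => le_max_of_le_left h) a hD,
      Stmt.all_mono (fun p h => le_max_of_le_right h) b hE⟩
  | ite t a b iha ihb =>
    obtain ⟨D, hD⟩ := iha
    obtain ⟨E, hE⟩ := ihb
    exact ⟨max D E, Stmt.all_mono (fun p h => le_max_of_le_left h) a hD,
      Stmt.all_mono (fun p h => le_max_of_le_right h) b hE⟩
  | loop t a ih => exact ih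
  | call f => exact ⟨0, trivial⟩

theorem Stmt.exists_bound_all {P T F : Type} [Finite F] (f : P → ℕ) (body : F → Stmt P T F)
    (a : Stmt P T F) : ∃ D, (∀ g, (body g).all fun p => f p ≤ D) ∧ a.all fun p => f p ≤ D := by
  choose D hD using fun g => Stmt.exists_bound f (body g)
  obtain ⟨E, hE⟩ := Stmt.exists_bound f a
  obtain ⟨C, hC⟩ := (Set.finite_range D).bddAbove
  exact ⟨max C E, fun g => Stmt.all_mono (fun p h => le_max_of_le_left
    (h.trans (hC ⟨g, rfl⟩))) _ (hD g), Stmt.all_mono (fun p h => le_max_of_le_right h) a hE⟩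

/-- If the translations of the primitive instructions simulate them, then the translations of all
programs do. -/
theorem Exec.tr {P T P' T' F σ σ' : Type} {M : Sem P T σ} {M' : Sem P' T' σ'}
    {body : F → Stmt P T F} {fp : P → Stmt P' T' F} {ft : T → T'} {R : σ → σ' → Prop} {c : ℕ}
    {G : P → Prop} (hG : ∀ f, (body f).all G)
    (hp : ∀ p s s', G p → M.pre p s → R s s' → ∃ t',
      Exec M' (fun f => (body f).tr fp ft) c (fp p) s' t' ∧ R (M.act p s) t')
    (ht : ∀ t s s', R s s' → (M'.test (ft t) s' ↔ M.test t s))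
    {d : ℕ} {a : Stmt P T F} {s t : σ} (h : Exec M body d a s t) :
    a.all G → ∀ s', R s s' → ∃ t', Exec M' (fun f => (body f).tr fp ft) (d + c) (a.tr fp ft) s' t' ∧
      R t t' := by
  induction h with
  | skip d s => exact fun _ s' hs => ⟨s', Exec.skip _ _, hs⟩
  | prim d p s h =>
    intro ha s' hs
    obtain ⟨t', h1, h2⟩ := hp p s s' ha h hs
    exact ⟨t', h1.mono (by omega), h2⟩
  | seq d a b s t u _ _ ih₁ ih₂ =>
    intro ha s' hs
    obtain ⟨t', h1, h2⟩ := ih₁ ha.1 s' hs
    obtain ⟨u', h3, h4⟩ := ih₂ ha.2 t' h2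
    refine ⟨u', ?_, h4⟩
    rw [Nat.add_right_comm] at h3 ⊢
    exact Exec.seq _ _ _ _ _ _ h1 h3
  | iteT d t a b s u h _ ih =>
    intro ha s' hs
    obtain ⟨u', h1, h2⟩ := ih ha.1 s' hs
    exact ⟨u', Exec.iteT _ _ _ _ _ _ ((ht t s s' hs).2 h) h1, h2⟩
  | iteF d t a b s u h _ ih =>
    intro ha s' hs
    obtain ⟨u', h1, h2⟩ := ih ha.2 s' hs
    exact ⟨u', Exec.iteF _ _ _ _ _ _ (fun h' => h ((ht t s s' hs).1 h')) h1, h2⟩
  | loopF d t a s h =>
    intro _ s' hs
    exact ⟨s', Exec.loopF _ _ _ _ (fun h' => h ((ht t s s' hs).1 h')), hs⟩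
  | loopT d t a s u v h _ _ ih₁ ih₂ =>
    intro ha s' hs
    obtain ⟨u', h1, h2⟩ := ih₁ ha s' hs
    obtain ⟨v', h3, h4⟩ := ih₂ ha u' h2
    refine ⟨v', ?_, h4⟩
    rw [Nat.add_right_comm] at h3 ⊢
    exact Exec.loopT _ _ _ _ _ _ ((ht t s s' hs).2 h) h1 h3
  | call d f s u _ ih =>
    intro _ s' hs
    obtain ⟨u', h1, h2⟩ := ih (hG f) s' hs
    exact ⟨u', Exec.call _ _ _ _ h1, h2⟩

/-- The subprograms of a program. -/
def Stmt.subs {P T F : Type} : Stmt P T F → Set (Stmt P T F)
  | Stmt.skip => {Stmt.skip}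
  | Stmt.prim p => {Stmt.prim p}
  | Stmt.seq a b => {Stmt.seq a b} ∪ (a.subs ∪ b.subs)
  | Stmt.ite t a b => {Stmt.ite t a b} ∪ (a.subs ∪ b.subs)
  | Stmt.loop t a => {Stmt.loop t a} ∪ a.subs
  | Stmt.call f => {Stmt.call f}

theorem Stmt.mem_subs {P T F : Type} (a : Stmt P T F) : a ∈ a.subs := by
  cases a <;> simp [Stmt.subs]

theorem Stmt.finite_subs {P T F : Type} (a : Stmt P T F) : a.subs.Finite := by
  induction a with
  | skip => exact Set.finite_singleton _
  | prim p => exact Set.finite_singleton _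
  | seq a b ha hb => exact (Set.finite_singleton _).union (ha.union hb)
  | ite t a b ha hb => exact (Set.finite_singleton _).union (ha.union hb)
  | loop t a ha => exact (Set.finite_singleton _).union ha
  | call f => exact Set.finite_singleton _

theorem Stmt.subs_subset {P T F : Type} {a b : Stmt P T F} (h : b ∈ a.subs) :
    b.subs ⊆ a.subs := by
  induction a with
  | skip => rw [Stmt.subs, Set.mem_singleton_iff] at h; subst h; exact subset_rfl
  | prim p => rw [Stmt.subs, Set.mem_singleton_iff] at h; subst h; exact subset_rfl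
  | seq a₁ a₂ h₁ h₂ =>
    rcases h with h | h | h
    · rw [Set.mem_singleton_iff] at h; subst h; exact subset_rfl
    · exact (h₁ h).trans fun x hx => Or.inr (Or.inl hx)
    · exact (h₂ h).trans fun x hx => Or.inr (Or.inr hx)
  | ite t a₁ a₂ h₁ h₂ =>
    rcases h with h | h | h
    · rw [Set.mem_singleton_iff] at h; subst h; exact subset_rfl
    · exact (h₁ h).trans fun x hx => Or.inr (Or.inl hx)
    · exact (h₂ h).trans fun x hx => Or.inr (Or.inr hx)
  | loop t a h₁ =>
    rcases h with h | h
    · rw [Set.mem_singleton_iff] at h; subst h; exact subset_rfl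
    · exact (h₁ h).trans fun x hx => Or.inr hx
  | call f => rw [Stmt.subs, Set.mem_singleton_iff] at h; subst h; exact subset_rfl

/-- The programs which can be on the control stack. -/
def closure {P T F : Type} (body : F → Stmt P T F) (a : Stmt P T F) : Set (Stmt P T F) :=
  a.subs ∪ ⋃ f, (body f).subs

theorem finite_closure {P T F : Type} [Finite F] (body : F → Stmt P T F) (a : Stmt P T F) :
    (closure body a).Finite :=
  a.finite_subs.union (Set.finite_iUnion fun f => (body f).finite_subs)

theorem closure_subs {P T F : Type} {body : F → Stmt P T F} {a b c : Stmt P T F}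
    (hb : b ∈ closure body a) (hc : c ∈ b.subs) : c ∈ closure body a := by
  rcases hb with hb | hb
  · exact Or.inl (Stmt.subs_subset hb hc)
  · rw [Set.mem_iUnion] at hb
    obtain ⟨f, hf⟩ := hb
    exact Or.inr (Set.mem_iUnion.2 ⟨f, Stmt.subs_subset hf hc⟩)

theorem closure_body {P T F : Type} (body : F → Stmt P T F) (a : Stmt P T F) (f : F) :
    body f ∈ closure body a :=
  Or.inr (Set.mem_iUnion.2 ⟨f, (body f).mem_subs⟩)

end Pool.Agent.Lib.MP_9277c3_lc.CM
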