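import Pool.Agent.Lib.MP_9277c3_lc.helper78.CM.Prog

section
/-!
# Correctness of the programs for vectors
-/
namespace Pool.Agent.Lib.MP_9277c3_lc.CM

open Finset

section

variable {α : Type} {X : List α} {cc : Cell α → ℕ} {A : ℕ} {body : Pr → Prg} {P : Par}

theorem PB.fact (hP : PB P A) : Fact P.p.Prime := ⟨hP.prime⟩

theorem PB.m_lt (hP : PB P A) : P.m < A := by
  have h1 := hP.hm
  have h2 := hP.hA4
  omega

theorem PB.enc_lt (hP : PB P A) (V : ℕ → ZMod P.p) : encZ P.m V < A := by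
  have := hP.fact
  exact (encZ_lt _ _).trans_le hP.hA2

theorem PB.m_pos (hP : PB P A) : 0 < P.m := by
  have h1 := hP.h4
  rcases Nat.eq_zero_or_pos P.m with h | h
  · rw [h, pow_zero] at h1
    have h2 : 1 ≤ P.N ^ 5 := Nat.one_le_pow _ _ (by have := hP.hN; omega)
    omega
  · exact h

theorem run_vec (hP : PB P A) {s : Rg → ℕ} (hc : Cst P s) (hvz : s .vz = 0) (hvi : s .vi = 0)
    {V : ℕ → ZMod P.p} (hV : s .R0 = encZ P.m V) {A' C' Z : Exp Rg} (av cv zv : ℕ)
    (hA' : ∀ R z i, A'.eval X cc (upd (upd (upd s .R0 R) .vz z) .vi i) = av)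
    (hC' : ∀ R z i, C'.eval X cc (upd (upd (upd s .R0 R) .vz z) .vi i) = cv)
    (hZ : Z.eval X cc s = zv) (hzv : zv < A) :
    RunA X cc A body 0 (vec A' C' Z) s
      (upd s .R0 (encZ P.m fun i => (av : ZMod P.p) * V i + (cv : ZMod P.p) * bt P.p zv i)) := by
  have := hP.fact
  have hm := hP.m_lt
  refine RunA.sq_set zv hZ hzv ?_
  refine RunA.sq_set P.m (by simp [hc.cm]) hm ?_
  refine RunA.sq_cons (RunA.loop .vi _ (fun n => upd (upd (upd s .R0 (encZ P.m (rot P.m V
    (fun i => (av : ZMod P.p) * V i + (cv : ZMod P.p) * bt P.p zv i) (P.m - n))))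
    .vz (zv / 2 ^ (P.m - n))) .vi n) (by simp) P.m (fun n hn => ?_) ?_ rfl) ?_
  · refine RunA.sq_set _ ?_ (hP.enc_lt (rot P.m V
      (fun i => (av : ZMod P.p) * V i + (cv : ZMod P.p) * bt P.p zv i) (P.m - n))) ?_
    · have h1 := rot_step (p := P.p) (m := P.m) (k := P.m - (n + 1)) (by omega) V av cv zv
      rw [show P.m - (n + 1) + 1 = P.m - n by omega] at h1
      simp [hA', hC', hc.cp, hc.cpm, h1]
    · refine RunA.sq_set (zv / 2 ^ (P.m - n)) ?_ ((Nat.div_le_self _ _).trans_lt hzv) ?_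
      · simp
        rw [Nat.div_div_eq_div_mul, ← pow_succ, show P.m - (n + 1) + 1 = P.m - n by omega]
      · refine RunA.sq_set n (by simp) (by omega) (RunA.sq_nil.cast ?_)
        funext q; cases q <;> simp
  · rw [Nat.sub_self, encZ_rot_zero, pow_zero, Nat.div_one, ← hV]
    funext q; cases q <;> simp
  · refine RunA.sq_set 0 (by simp) (by omega) (RunA.sq_nil.cast ?_)
    rw [Nat.sub_zero, encZ_rot_last]
    funext q; cases q <;> simp [hvz, hvi]

theorem dlt_step' {p : ℕ} [NeZero p] {m k : ℕ} (hk : k < m) (V : ℕ → ZMod p) (z : ℕ) (C : ZMod p) :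
    (C.val * ((z / 2 ^ k % 2) * (encZ m V / p ^ k % p) +
      (1 - z / 2 ^ k % 2) * (p + 1 - encZ m V / p ^ k % p))) % p =
      (C * (bt p z k * V k + (1 - bt p z k) * (1 - V k))).val := by
  rw [encZ_digit hk, ← ZMod.val_natCast]
  congr 1
  have h1 : z / 2 ^ k % 2 ≤ 1 := by omega
  have h2 : (V k).val ≤ p + 1 := (ZMod.val_lt _).le.trans (Nat.le_succ _)
  push_cast [Nat.cast_sub h1, Nat.cast_sub h2]
  rw [ZMod.natCast_val, ZMod.cast_id', id_eq, ZMod.natCast_val, ZMod.cast_id', id_eq]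
  simp [bt]

theorem run_del (hP : PB P A) {s : Rg → ℕ} (hc : Cst P s) (hvz : s .vz = 0) (hvi : s .vi = 0)
    (hvr : s .vr = 0) {V : ℕ → ZMod P.p} {k : Rg} (hk : k.kd = 4) (hV : s k = encZ P.m V)
    {C : ZMod P.p} (hC : s .c = C.val) {Z : Exp Rg} (zv : ℕ) (hZ : Z.eval X cc (upd s .vr (s k)) = zv)
    (hzv : zv < A) : RunA X cc A body 0 (del Z k) s (upd s .c (C * dlt P.m zv V).val) := by
  have := hP.fact
  have hm := hP.m_lt
  have hp := hP.hcb2
  have hA := hP.hA1
  refine RunA.sq_set (s k) rfl (by rw [hV]; exact hP.enc_lt V) ?_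
  refine RunA.sq_set zv hZ hzv ?_
  refine RunA.sq_set P.m (by simp [hc.cm]) hm ?_
  refine RunA.sq_cons (RunA.loop .vi _ (fun n => upd (upd (upd (upd s .c
    (C * dlt (P.m - n) zv V).val) .vr (encZ P.m V / P.p ^ (P.m - n))) .vz (zv / 2 ^ (P.m - n))) .vi n)
    (by simp) P.m (fun n hn => ?_) ?_ rfl) ?_
  · refine RunA.sq_set (C * dlt (P.m - n) zv V).val ?_ ((ZMod.val_lt _).trans (by omega)) ?_
    · have h1 := dlt_step' (p := P.p) (m := P.m) (k := P.m - (n + 1)) (by omega) V zv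
        (C * dlt (P.m - (n + 1)) zv V)
      rw [mul_assoc C, dlt, ← prod_range_succ (fun i => bt P.p zv i * V i +
        (1 - bt P.p zv i) * (1 - V i)), show P.m - (n + 1) + 1 = P.m - n by omega] at h1
      simp only [eval_mod, eval_mul, eval_add, eval_sub, eval_var, eval_one, eval_ofNat, upd_self,
        upd_ne, ne_eq, reduceCtorEq, not_false_eq_true, hc.cp]
      exact h1
    · refine RunA.sq_set (encZ P.m V / P.p ^ (P.m - n)) ?_
        ((Nat.div_le_self _ _).trans_lt (hP.enc_lt V)) ?_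
      · simp [hc.cp]
        rw [Nat.div_div_eq_div_mul, ← pow_succ, show P.m - (n + 1) + 1 = P.m - n by omega]
      · refine RunA.sq_set (zv / 2 ^ (P.m - n)) ?_ ((Nat.div_le_self _ _).trans_lt hzv) ?_
        · simp
          rw [Nat.div_div_eq_div_mul, ← pow_succ, show P.m - (n + 1) + 1 = P.m - n by omega]
        · refine RunA.sq_set n (by simp) (by omega) (RunA.sq_nil.cast ?_)
          funext q; cases q <;> simp
  · rw [Nat.sub_self, pow_zero, pow_zero, Nat.div_one, Nat.div_one, ← hV, dlt, range_zero,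
      prod_empty, mul_one, ← hC]
    funext q; cases q <;> simp
  · refine RunA.sq_set 0 (by simp) (by omega) (RunA.sq_set 0 (by simp) (by omega)
      (RunA.sq_nil.cast ?_))
    rw [Nat.sub_zero]
    funext q; cases q <;> simp [hvz, hvi, hvr]

theorem run_swp (hP : PB P A) {s : Rg → ℕ} {k : Rg} (hk : k = .R1 ∨ k = .R2)
    {V0 V : ℕ → ZMod P.p} (h0 : s .R0 = encZ P.m V0) (hV : s k = encZ P.m V) (he : s .e2 = 0) :
    RunA X cc A body 0 (swp k) s (upd (upd s .R0 (encZ P.m V)) k (encZ P.m V0)) := by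
  have hA := hP.enc_lt V
  have hA' := hP.enc_lt V0
  rcases hk with rfl | rfl
  · refine RunA.sq_set (encZ P.m V0) (by simp [h0]) hA' (RunA.sq_set (encZ P.m V) (by simp [hV]) hA
      (RunA.sq_set (encZ P.m V0) (by simp) hA' (RunA.sq_set 0 (by simp) (by omega)
      (RunA.sq_nil.cast ?_))))
    funext q; cases q <;> simp [he]
  · refine RunA.sq_set (encZ P.m V0) (by simp [h0]) hA' (RunA.sq_set (encZ P.m V) (by simp [hV]) hA
      (RunA.sq_set (encZ P.m V0) (by simp) hA' (RunA.sq_set 0 (by simp) (by omega)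
      (RunA.sq_nil.cast ?_))))
    funext q; cases q <;> simp [he]

theorem run_invC (hP : PB P A) {s : Rg → ℕ} (hc : Cst P s) (hvz : s .vz = 0) (hvi : s .vi = 0)
    (hiv : s .iv = 0) (hk2 : s .k2 = 0) {V : ℕ → ZMod P.p} (hV : s .R0 = encZ P.m V) {o : ℕ}
    (ho : s .om = o) (ho1 : 0 < o) (ho2 : o < P.p) :
    RunA X cc A body 0 invC s (upd s .R0 (encZ P.m fun i => -((o : ZMod P.p)⁻¹ * V i))) := by
  have := hP.fact
  have hp := hP.hcb2
  have hA := hP.hA1
  have hp2 := hP.prime.two_le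
  have hAp : (P.p - 1) * (o ^ (P.p - 2) % P.p) ≤ P.p * P.p := Nat.mul_le_mul (by omega)
    (Nat.mod_lt _ (by omega)).le
  refine RunA.sq_set 1 rfl (by omega) (RunA.sq_set (P.p - 2) (by simp [hc.cp]) (by omega) ?_)
  refine RunA.sq_cons (RunA.loop .k2 _ (fun n => upd (upd s .iv (o ^ (P.p - 2 - n) % P.p)) .k2 n)
    (by simp) (P.p - 2) (fun n hn => ?_) ?_ rfl) ?_
  · refine RunA.sq_set (o ^ (P.p - 2 - n) % P.p) ?_ ((Nat.mod_lt _ (by omega)).trans (by omega)) ?_
    · simp [hc.cp, ho]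
      rw [← pow_succ, show P.p - 2 - (n + 1) + 1 = P.p - 2 - n by omega]
    · refine RunA.sq_set n (by simp) (by omega) (RunA.sq_nil.cast ?_)
      funext q; cases q <;> simp
  · rw [Nat.sub_self, pow_zero, Nat.mod_eq_of_lt (by omega : 1 < P.p)]
    
  · refine RunA.sq_cons (run_vec hP (V := V) (((hc.upd (q := .iv) (by decide) _).upd (q := .k2)
      (by decide) _)) (by simp [hvz]) (by simp [hvi]) (by simp [hV])
      ((P.p - 1) * (o ^ (P.p - 2) % P.p)) 0 0 (fun R z i => by simp [hc.cp]) (fun R z i => by simp)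
      (by simp) (by omega)) (RunA.sq_set 0 (by simp) (by omega) (RunA.sq_nil.cast ?_))
    have h1 : ∀ i, (((P.p - 1) * (o ^ (P.p - 2) % P.p) : ℕ) : ZMod P.p) * V i + ((0 : ℕ) : ZMod P.p) *
        bt P.p 0 i = -((o : ZMod P.p)⁻¹ * V i) := by
      intro i
      have h2 : (o : ZMod P.p) ≠ 0 := by
        intro h3
        rw [ZMod.natCast_eq_zero_iff] at h3
        exact absurd (Nat.le_of_dvd ho1 h3) (by omega)
      have h4 : (o : ZMod P.p) ^ (P.p - 2) = (o : ZMod P.p)⁻¹ := by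
        rw [eq_comm, inv_eq_iff_eq_inv, ← one_div, eq_div_iff (pow_ne_zero _ h2), ← pow_succ', show P.p - 2 + 1 = P.p - 1 by omega]
        exact ZMod.pow_card_sub_one_eq_one h2
      rw [Nat.cast_zero, zero_mul, add_zero, Nat.cast_mul, ZMod.natCast_mod, Nat.cast_pow, h4,
        Nat.cast_sub (by omega), ZMod.natCast_self]
      ring
    simp only [h1]
    funext q; cases q <;> simp [hiv, hk2]

end

end Pool.Agent.Lib.MP_9277c3_lc.CM
end

section
/-!
# Correctness of the program for the transition function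
-/
namespace Pool.Agent.Lib.MP_9277c3_lc.CM

open Finset

/-- The expressions compute the functions of the system. -/
structure Impl {α : Type} (X : List α) (cc : Cell α → ℕ) (S : Sys) (n : ℕ) (E : SysE) : Prop where
  tag : ∀ (s : Rg → ℕ) e, s .cn = n → (E.tag e).eval X cc s = S.tag (e.eval X cc s)
  nx : ∀ (s : Rg → ℕ) e, s .cn = n → (E.nx e).eval X cc s = S.nx (e.eval X cc s)
  kont : ∀ (s : Rg → ℕ) e e', s .cn = n →
    (E.kont e e').eval X cc s = S.kont (e.eval X cc s) (e'.eval X cc s)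

/-- The context of the proof: the procedure for the lower level works. -/
structure OC {α : Type} (X : List α) (cc : Cell α → ℕ) (A : ℕ) (body : Pr → Prg) (P : Par) (S : Sys)
    (E : SysE) (O : ℕ → ℕ) (l K F : ℕ) : Prop where
  hP : PB P A
  hI : Impl X cc S P.n E
  hC : Sys.Closed S P.N
  hr : ∀ v, S.nx v + 1 < P.N
  htag : ∀ v, S.tag v ≤ 2
  hO : ∀ v, v < P.N → O v < P.N
  hl : l + 1 < A
  ok : ∀ s : Rg → ℕ, Gd P s → s .lev = l → s .a < P.N → (s .S + 1) * F ≤ A →
    RunA X cc A body K (Stmt.call Pr.small) s (upd s .res (O (s .a)))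

section

variable {α : Type} {X : List α} {cc : Cell α → ℕ} {A : ℕ} {body : Pr → Prg} {P : Par} {S : Sys}
  {E : SysE} {O : ℕ → ℕ} {l K F : ℕ}

theorem PB.N_lt (hP : PB P A) : P.N < P.cb := by
  have h1 := hP.h4
  have h2 := hP.hcb1
  have h3 : P.N ^ 1 ≤ P.N ^ 5 := Nat.pow_le_pow_right (by have := hP.hN; omega) (by norm_num)
  rw [pow_one] at h3
  omega

theorem run_callO (h : OC X cc A body P S E O l K F) {s : Rg → ℕ} (hg : Gd P s)
    (hlev : s .lev = l + 1) (ha : s .a < P.N) (hS : (s .S + 1) * F ≤ A) :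
    RunA X cc A body K callO s (upd s .res (O (s .a))) := by
  have hl := h.hl
  refine RunA.sq_set l (by simp [hlev]) (by omega) ?_
  refine RunA.sq_cons (h.ok (upd s .lev l) (hg.upd5 (by decide) _) (by simp) (by simpa using ha)
    (by simpa using hS)) ?_
  refine RunA.sq_set (l + 1) (by simp) (by omega) (RunA.sq_nil.cast ?_)
  funext q; cases q <;> simp [hlev]

theorem run_stepC (h : OC X cc A body P S E O l K F) {s : Rg → ℕ} (hg : Gd P s)
    (hlev : s .lev = l + 1) (w : ℕ) (hwv : s .w = w) (hw : w < P.N) (ha : s .a = 0)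
    (hres : s .res = 0) (hS : (s .S + 1) * F ≤ A) :
    RunA X cc A body K (stepC E) s (upd (upd (upd s .w (S.nxt O w)) .cd
      ((open Classical in if S.pend O w then w + 1 else s .cd))) .e 0) := by
  subst hwv
  have hNb := h.hP.N_lt
  have hbA := h.hP.hA1
  have hb4 := h.hP.hcb1
  have hb5 := Nat.one_le_two_pow (n := P.m)
  have htag := h.htag (s .w)
  have hcn : s .cn = P.n := hg.cst.cn
  have hnx := h.hr (s .w)
  refine RunA.sq_set (S.tag (s .w)) (by simp [h.hI.tag, hcn]) (by omega) ?_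
  by_cases h0 : S.tag (s .w) = 0
  · refine RunA.sq_cons (RunA.iteF _ _ _ _ _ _ (by simp [h0]) (RunA.skip _ _)) ?_
    refine RunA.sq_set 0 (by simp) (by omega) (RunA.sq_nil.cast ?_)
    funext q; cases q <;> simp [Sys.nxt, Sys.pend, h0]
  · by_cases h1 : S.tag (s .w) = 1
    · refine RunA.sq_cons (RunA.iteT _ _ _ _ _ _ (by simp [h0]) (RunA.sq_set 0 (by simp [h1])
        (by omega) (RunA.sq_cons (RunA.iteF _ _ _ _ _ _ (by simp) (RunA.set' (S.nx (s .w))
          (by simp [h.hI.nx, hcn]) (by omega))) RunA.sq_nil))) ?_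
      refine RunA.sq_set 0 (by simp) (by omega) (RunA.sq_nil.cast ?_)
      funext q; cases q <;> simp [Sys.nxt, Sys.pend, h1]
    · refine RunA.sq_cons (RunA.iteT _ _ _ _ _ _ (by simp [h0]) (RunA.sq_set 1 (by simp; omega)
        (by omega) (RunA.sq_cons (RunA.iteT _ _ _ _ _ _ (by simp) (RunA.sq_set (S.nx (s .w))
          (by simp [h.hI.nx, hcn]) (by omega) (RunA.sq_cons (run_callO h (((hg.upd (q := .e)
            (Or.inr rfl) (by omega)).upd (q := .e) (Or.inr rfl) (by omega)).upd (q := .a)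
            (Or.inr rfl) (by omega)) (by simp [hlev]) (by simp; omega) (by simpa using hS))
            (RunA.sq_cons (t := upd (upd (upd (upd s .e 1) .a (S.nx (s .w))) .w (S.nxt O (s .w)))
              .cd (open Classical in if S.pend O (s .w) then s .w + 1 else s .cd)) ?_
              (RunA.sq_set 0 (by simp) (by omega) RunA.sq_nil))))) RunA.sq_nil)))
        (RunA.sq_set 0 (by simp) (by omega) (RunA.sq_nil.cast ?_))
      · by_cases h2 : O (S.nx (s .w)) = 0
        · refine RunA.iteF _ _ _ _ _ _ (by simp [h2]) (RunA.sq_set (s .w + 1) (by simp) (by omega)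
            (RunA.sq_set (S.nx (s .w)) (by simp) (by omega) (RunA.sq_nil.cast ?_)))
          funext q; cases q <;> simp [Sys.nxt, Sys.pend, h0, h1, h2, hres]
        · have h3 := h.hC.kont (s .w) (O (S.nx (s .w)) - 1)
          refine RunA.iteT _ _ _ _ _ _ (by simp [h2]) (RunA.sq_set
            (S.kont (s .w) (O (S.nx (s .w)) - 1)) (by simp [h.hI.kont, hcn]) (by omega)
            (RunA.sq_set 0 (by simp) (by omega) (RunA.sq_nil.cast ?_)))
          funext q; cases q <;> simp [Sys.nxt, Sys.pend, h0, h1, h2, hres]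
      · funext q; cases q <;> simp [ha]

theorem run_scanC (h : OC X cc A body P S E O l K F) {s : Rg → ℕ} (hg : Gd P s)
    (hlev : s .lev = l + 1) (ha : s .a = 0) (hres : s .res = 0) (hk : s .k2 = 0) (he : s .e = 0)
    (htg : s .tg ≤ P.N) (hS : (s .S + 1) * F ≤ A) :
    RunA X cc A body K (scanC E) s
      (upd (upd s .w ((S.scanF O (s .tg))^[P.N] ((s .x - 1) % P.N, 0)).1) .cd
        ((S.scanF O (s .tg))^[P.N] ((s .x - 1) % P.N, 0)).2) := by
  have hNb := h.hP.N_lt
  have hbA := h.hP.hA1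
  have hN := h.hP.hN
  have hcN : s .cN = P.N := hg.cst.cN
  set it := fun k => (S.scanF O (s .tg))^[k] ((s .x - 1) % P.N, 0) with hit
  have hlt : ∀ k, (it k).1 < P.N ∧ (it k).2 ≤ P.N := fun k =>
    scan_lt h.hC (s .tg) ⟨Nat.mod_lt _ (by omega), Nat.zero_le _⟩ k
  have hu : (s .x - 1) % P.N < P.N := Nat.mod_lt _ (by omega)
  refine RunA.sq_set ((s .x - 1) % P.N) (by simp [fu, hcN]) (by omega) ?_
  refine RunA.sq_set 0 (by simp) (by omega) ?_
  refine RunA.sq_set P.N (by simp [hcN]) (by omega) ?_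
  refine RunA.sq_cons (RunA.loop .k2 _ (fun n => upd (upd (upd s .w (it (P.N - n)).1) .cd
    (it (P.N - n)).2) .k2 n) (by simp) P.N (fun n hn => ?_) ?_ rfl) ?_
  · obtain ⟨h1, h2⟩ := hlt (P.N - (n + 1))
    have hit' : it (P.N - n) = S.scanF O (s .tg) (it (P.N - (n + 1))) := by
      rw [hit]
      simp only
      rw [show P.N - n = P.N - (n + 1) + 1 by omega, Function.iterate_succ_apply']
    refine RunA.sq_set (((it (P.N - (n + 1))).1 - s .tg) + (s .tg - (it (P.N - (n + 1))).1))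
      (by simp) (by omega) ?_
    by_cases hc : (it (P.N - (n + 1))).1 = s .tg
    · refine RunA.sq_cons (RunA.iteF _ _ _ _ _ _ (by simp [hc]) (RunA.skip _ _)) ?_
      refine RunA.sq_set n (by simp) (by omega) (RunA.sq_nil.cast ?_)
      rw [hit', Sys.scanF, if_pos (Or.inl hc), hc]
      funext q; cases q <;> simp [he]
    · refine RunA.sq_cons (RunA.iteT _ _ _ _ _ _ (by simp; omega) (run_stepC h ?_ (by simp [hlev])
        (it (P.N - (n + 1))).1 (by simp) h1 (by simp [ha]) (by simp [hres]) (by simpa using hS))) ?_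
      · exact (((hg.upd (q := .w) (Or.inr rfl) (by omega)).upd (q := .cd) (Or.inr rfl)
          (by omega)).upd (q := .k2) (Or.inr rfl) (by omega)).upd (q := .e) (Or.inr rfl) (by omega)
      · refine RunA.sq_set n (by simp) (by omega) (RunA.sq_nil.cast ?_)
        rw [hit', Sys.scanF]
        by_cases h0 : S.tag (it (P.N - (n + 1))).1 = 0
        · rw [if_pos (Or.inr h0)]
          funext q; cases q <;> simp [he, Sys.nxt, Sys.pend, h0]
        · rw [if_neg (not_or.2 ⟨hc, h0⟩)]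
          funext q; cases q <;> simp [he]
  · rw [Nat.sub_self, hit]
    rfl
  · refine RunA.sq_nil.cast ?_
    rw [Nat.sub_zero]
    funext q; cases q <;> simp [hk, hit]

/-- The program for the way up, as a function on triples. -/
theorem run_ascC (h : OC X cc A body P S E O l K F) {s : Rg → ℕ} (hg : Gd P s)
    (hlev : s .lev = l + 1) (ha : s .a = 0) (hres : s .res = 0) (hk : s .k2 = 0) (he : s .e = 0)
    (hw : s .w = 0) (hcd : s .cd = 0) (htg : s .tg < P.N) (hr : s .r < P.N) (hst : s .st = 1)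
    (hS : (s .S + 1) * F ≤ A) :
    RunA X cc A body K (ascC E) s
      (upd (upd (upd s .tg (S.ascF O ((s .x - 1) % P.N) P.N (s .tg, s .r, 1)).1) .r
        (S.ascF O ((s .x - 1) % P.N) P.N (s .tg, s .r, 1)).2.1) .st
        (S.ascF O ((s .x - 1) % P.N) P.N (s .tg, s .r, 1)).2.2) := by
  have hNb := h.hP.N_lt
  have hbA := h.hP.hA1
  have hb4 := h.hP.hcb1
  have hb5 := Nat.one_le_two_pow (n := P.m)
  have hN := h.hP.hN
  have hcn : s .cn = P.n := hg.cst.cn
  have hsc := run_scanC h hg hlev ha hres hk he (by omega) hS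
  have hlt := scan_lt h.hC (O := O) (s .tg) (q := ((s .x - 1) % P.N, 0))
    ⟨Nat.mod_lt _ (by omega), Nat.zero_le _⟩ P.N
  refine RunA.sq_cons hsc ?_
  unfold Sys.ascF
  simp only [ne_eq, not_true_eq_false, if_false]
  generalize (S.scanF O (s .tg))^[P.N] ((s .x - 1) % P.N, 0) = q at *
  by_cases h0 : q.2 = 0
  · refine RunA.sq_cons (RunA.iteF _ _ _ _ _ _ (by simp [h0]) (RunA.sq_set 0 (by simp) (by omega)
      (RunA.sq_set 2 (by simp) (by omega) RunA.sq_nil))) ?_
    refine RunA.sq_set 0 (by simp) (by omega) (RunA.sq_set 0 (by simp) (by omega)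
      (RunA.sq_nil.cast ?_))
    rw [if_pos h0]
    funext q; cases q <;> simp [hw, hcd]
  · have hkt := h.hC.kont (q.2 - 1) (s .r)
    refine RunA.sq_cons (RunA.iteT _ _ _ _ _ _ (by simp [h0]) (RunA.sq_set (q.2 - 1) (by simp)
      (by omega) (RunA.sq_set (S.kont (q.2 - 1) (s .r)) (by simp [h.hI.kont, hcn]) (by omega)
      (RunA.sq_cons (run_callO h ?_ (by simp [hlev]) (by simp; omega) (by simpa using hS))
      (RunA.sq_set 0 (by simp) (by omega) (RunA.sq_cons (t := upd (upd (upd (upd (upd s .w q.1) .cd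
        q.2) .tg (q.2 - 1)) .r (if O (S.kont (q.2 - 1) (s .r)) = 0 then s .r else
          O (S.kont (q.2 - 1) (s .r)) - 1)) .st (if O (S.kont (q.2 - 1) (s .r)) = 0 then 3 else 1))
        ?_ RunA.sq_nil)))))) ?_
    · exact (((hg.upd (q := .w) (Or.inr rfl) (by omega)).upd (q := .cd) (Or.inr rfl)
        (by omega)).upd (q := .tg) (Or.inr rfl) (by omega)).upd (q := .a) (Or.inr rfl) (by omega)
    · by_cases h1 : O (S.kont (q.2 - 1) (s .r)) = 0
      · refine RunA.iteF _ _ _ _ _ _ (by simp [h1]) ((RunA.set' 3 (by simp) (by omega)).cast ?_)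
        funext q; cases q <;> simp [h1, ha, hres]
      · have h2 := h.hO _ hkt
        refine RunA.iteT _ _ _ _ _ _ (by simp [h1]) (RunA.sq_set
          (O (S.kont (q.2 - 1) (s .r)) - 1) (by simp) (by omega) (RunA.sq_set 0 (by simp) (by omega)
          (RunA.sq_nil.cast ?_)))
        funext q; cases q <;> simp [h1, ha, hres, hst]
    · refine RunA.sq_set 0 (by simp) (by omega) (RunA.sq_set 0 (by simp) (by omega)
        (RunA.sq_nil.cast ?_))
      rw [if_neg h0]
      by_cases h1 : O (S.kont (q.2 - 1) (s .r)) = 0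
      · rw [if_pos h1]
        funext q; cases q <;> simp [hw, hcd, h1]
      · rw [if_neg h1]
        funext q; cases q <;> simp [hw, hcd, h1]

/-- Bounds for the way up. -/
theorem asc_lt' {S : Sys} {O : ℕ → ℕ} {N : ℕ} (hC : Sys.Closed S N) (hO : ∀ v, v < N → O v < N)
    {u : ℕ} (hu : u < N) {q : ℕ × ℕ × ℕ} (hq : q.1 < N ∧ q.2.1 < N ∧ q.2.2 < 4) (k : ℕ) :
    ((S.ascF O u N)^[k] q).1 < N ∧ ((S.ascF O u N)^[k] q).2.1 < N ∧
      ((S.ascF O u N)^[k] q).2.2 < 4 := by
  induction k with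
  | zero => exact hq
  | succ k ih =>
    rw [Function.iterate_succ_apply', Sys.ascF]
    have h3 := scan_lt (O := O) hC ((S.ascF O u N)^[k] q).1 (q := (u, 0)) ⟨hu, Nat.zero_le _⟩ N
    split_ifs with h1 h2 h4
    · exact ih
    · exact ⟨by simp only; omega, ih.2.1, by simp⟩
    · exact ⟨by simp only; omega, ih.2.1, by simp⟩
    · refine ⟨by simp only; omega, ?_, by simp⟩
      have h5 := hO (S.kont (((S.scanF O ((S.ascF O u N)^[k] q).1)^[N] (u, 0)).2 - 1)
        ((S.ascF O u N)^[k] q).2.1) (hC.kont _ _)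
      simp only
      omega

theorem run_ascL (h : OC X cc A body P S E O l K F) {s : Rg → ℕ} (hg : Gd P s)
    (hlev : s .lev = l + 1) (ha : s .a = 0) (hres : s .res = 0) (hk : s .k2 = 0) (he : s .e = 0)
    (hw : s .w = 0) (hcd : s .cd = 0) (hk1 : s .k1 = 0) (htg : s .tg < P.N) (hr : s .r < P.N)
    (hst : s .st < 4) (hS : (s .S + 1) * F ≤ A) :
    RunA X cc A body K (ascL E) s
      (upd (upd (upd s .tg ((S.ascF O ((s .x - 1) % P.N) P.N)^[P.N] (s .tg, s .r, s .st)).1) .r
        ((S.ascF O ((s .x - 1) % P.N) P.N)^[P.N] (s .tg, s .r, s .st)).2.1) .st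
        ((S.ascF O ((s .x - 1) % P.N) P.N)^[P.N] (s .tg, s .r, s .st)).2.2) := by
  have hNb := h.hP.N_lt
  have hbA := h.hP.hA1
  have hb4 := h.hP.hcb1
  have hb5 := Nat.one_le_two_pow (n := P.m)
  have hN := h.hP.hN
  have hcN : s .cN = P.N := hg.cst.cN
  set it := fun k => (S.ascF O ((s .x - 1) % P.N) P.N)^[k] (s .tg, s .r, s .st) with hit
  have hlt : ∀ k, (it k).1 < P.N ∧ (it k).2.1 < P.N ∧ (it k).2.2 < 4 := fun k =>
    asc_lt' h.hC h.hO (Nat.mod_lt _ (by omega)) ⟨htg, hr, hst⟩ k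
  refine RunA.sq_set P.N (by simp [hcN]) (by omega) ?_
  refine RunA.sq_cons (RunA.loop .k1 _ (fun n => upd (upd (upd (upd s .tg (it (P.N - n)).1) .r
    (it (P.N - n)).2.1) .st (it (P.N - n)).2.2) .k1 n) (by simp) P.N (fun n hn => ?_) ?_ rfl) ?_
  · obtain ⟨h1, h2, h3⟩ := hlt (P.N - (n + 1))
    have hit' : it (P.N - n) = S.ascF O ((s .x - 1) % P.N) P.N (it (P.N - (n + 1))) := by
      rw [hit]
      simp only
      rw [show P.N - n = P.N - (n + 1) + 1 by omega, Function.iterate_succ_apply']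
    rw [hit']
    generalize it (P.N - (n + 1)) = q at *
    by_cases hc : q.2.2 = 1
    · have hq : q = (q.1, q.2.1, 1) := by rw [← hc]
      refine RunA.sq_set 1 (by simp [isE, hc]) (by omega) (RunA.sq_cons (RunA.iteT _ _ _ _ _ _
        (by simp) (RunA.sq_set 0 (by simp) (by omega) (RunA.sq_cons (run_ascC h ?_ (by simp [hlev])
        (by simp [ha]) (by simp [hres]) (by simp [hk]) (by simp) (by simp [hw]) (by simp [hcd])
        (by simp [h1]) (by simp [h2]) (by simp [hc]) (by simpa using hS)) RunA.sq_nil)))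
        (RunA.sq_set n (by simp) (by omega) (RunA.sq_nil.cast ?_)))
      · exact (((((hg.upd (q := .tg) (Or.inr rfl) (by omega)).upd (q := .r) (Or.inr rfl)
          (by omega)).upd (q := .st) (Or.inr rfl) (by omega)).upd (q := .k1) (Or.inr rfl)
          (by omega)).upd (q := .e) (Or.inr rfl) (by omega)).upd (q := .e) (Or.inr rfl) (by omega)
      · rw [hq]
        funext q; cases q <;> simp [he]
    · have hz : (1 : ℕ) - (q.2.2 - 1 + (1 - q.2.2)) = 0 := by omega
      refine RunA.sq_set 0 (by simp [isE, hz]) (by omega) (RunA.sq_cons (RunA.iteF _ _ _ _ _ _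
        (by simp) (RunA.skip _ _)) (RunA.sq_set n (by simp) (by omega) (RunA.sq_nil.cast ?_)))
      rw [Sys.ascF, if_pos hc]
      funext q; cases q <;> simp [he]
  · rw [Nat.sub_self, hit]
    simp only [Function.iterate_zero, id_eq]
    funext q; cases q <;> simp
  · refine RunA.sq_nil.cast ?_
    rw [Nat.sub_zero]
    funext q; cases q <;> simp [hk1, hit]

theorem scan_none {S : Sys} {O : ℕ → ℕ} {N : ℕ} (hC : Sys.Closed S N) {u : ℕ} (hu : u < N) (k : ℕ) :
    ((S.scanF O N)^[k] (u, 0)).1 = S.node O u k := by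
  induction k with
  | zero => rfl
  | succ k ih =>
    have h1 := (scan_lt (O := O) hC N (q := (u, 0)) ⟨hu, Nat.zero_le _⟩ k).1
    rw [Function.iterate_succ_apply', Sys.scanF, Sys.node_succ, ← ih]
    by_cases h0 : S.tag ((S.scanF O N)^[k] (u, 0)).1 = 0
    · rw [if_pos (Or.inr h0), Sys.nxt, if_pos h0]
    · rw [if_neg (not_or.2 ⟨by omega, h0⟩)]

theorem run_startC (h : OC X cc A body P S E O l K F) {s : Rg → ℕ} (hg : Gd P s)
    (hlev : s .lev = l + 1) (ha : s .a = 0) (hres : s .res = 0) (hk : s .k2 = 0)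
    (hw : s .w = 0) (hcd : s .cd = 0) (htg : s .tg = 0) (hr : s .r = 0) (hst : s .st = 0)
    (he : s .e = (upk P.N (s .x - 1)).md) (he0 : s .e ≠ 0) (hS : (s .S + 1) * F ≤ A) :
    RunA X cc A body K (startC E) s
      (upd (upd (upd (upd s .e 0) .tg (S.start O P.N (upk P.N (s .x - 1))).1) .r
        (S.start O P.N (upk P.N (s .x - 1))).2.1) .st
        (S.start O P.N (upk P.N (s .x - 1))).2.2) := by
  have hNb := h.hP.N_lt
  have hbA := h.hP.hA1
  have hb4 := h.hP.hcb1
  have hb5 := Nat.one_le_two_pow (n := P.m)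
  have hN := h.hP.hN
  have hcN : s .cN = P.N := hg.cst.cN
  have hcn : s .cn = P.n := hg.cst.cn
  have hesm : s .e < P.cb := hg.sm _ (Or.inr rfl)
  by_cases h1 : s .e = 1
  · -- the way down
    have hmd : (upk P.N (s .x - 1)).md = 1 := by rw [← he, h1]
    have hu : (s .x - 1) % P.N < P.N := Nat.mod_lt _ (by omega)
    have hnode := scan_none h.hC (O := O) hu P.N
    have hlt := scan_lt h.hC (O := O) P.N (q := ((s .x - 1) % P.N, 0)) ⟨hu, Nat.zero_le _⟩ P.N
    unfold Sys.start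
    rw [if_pos hmd]
    have hu' : (upk P.N (s .x - 1)).u = (s .x - 1) % P.N := rfl
    rw [hu', ← hnode]
    refine RunA.sq_set 0 (by simp [h1]) (by omega) (RunA.sq_cons (RunA.iteF _ _ _ _ _ _ (by simp)
      (RunA.sq_set P.N (by simp [hcN]) (by omega) (RunA.sq_cons (run_scanC h
        ((hg.upd (q := .e) (Or.inr rfl) (by omega)).upd (q := .tg) (Or.inr rfl) (by omega))
        (by simp [hlev]) (by simp [ha]) (by simp [hres]) (by simp [hk]) (by simp) (by simp)
        (by simpa using hS)) (RunA.sq_set 0 (by simp) (by omega) ?_)))) RunA.sq_nil)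
    simp only [upd_self, upd_ne, ne_eq, reduceCtorEq, not_false_eq_true]
    generalize (S.scanF O P.N)^[P.N] ((s .x - 1) % P.N, 0) = q at *
    have htag := h.htag q.1
    have hnx := h.hr q.1
    refine RunA.sq_set (S.tag q.1) (by simp [h.hI.tag, hcn]) (by omega) ?_
    by_cases h0 : S.tag q.1 = 0
    · rw [if_pos h0]
      refine RunA.sq_cons (RunA.iteF _ _ _ _ _ _ (by simp [h0]) (RunA.sq_set q.1 (by simp)
        (by omega) (RunA.sq_set (S.nx q.1) (by simp [h.hI.nx, hcn]) (by omega)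
        (RunA.sq_set 1 (by simp) (by omega) RunA.sq_nil)))) (RunA.sq_set 0 (by simp) (by omega)
        (RunA.sq_nil.cast ?_))
      funext q; cases q <;> simp [h0, hw, hcd]
    · rw [if_neg h0]
      refine RunA.sq_cons (RunA.iteT _ _ _ _ _ _ (by simp [h0]) (RunA.sq_set 0 (by simp)
        (by omega) (RunA.sq_set 0 (by simp) (by omega) RunA.sq_nil))) (RunA.sq_set 0 (by simp)
        (by omega) (RunA.sq_nil.cast ?_))
      funext q; cases q <;> simp [hw, hcd, hr, hst]
  · have h2 : (s .x - 1) / P.N % P.N < P.N := Nat.mod_lt _ (by omega)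
    have h3 : (s .x - 1) / P.N / P.N % P.N < P.N := Nat.mod_lt _ (by omega)
    unfold Sys.start
    rw [if_neg (by rw [← he]; exact h1)]
    refine RunA.sq_set (s .e - 1) (by simp) (by omega) (RunA.sq_cons (RunA.iteT _ _ _ _ _ _
      (by simp; omega) (RunA.sq_set 0 (by simp) (by omega) (RunA.sq_set ((s .x - 1) / P.N % P.N)
      (by simp [ftg, hcN]) (by omega) (RunA.sq_set ((s .x - 1) / P.N / P.N % P.N)
      (by simp [fr, hcN]) (by omega) (RunA.sq_set 1 (by simp) (by omega) RunA.sq_nil)))))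
      (RunA.sq_nil.cast ?_))
    funext q; cases q <;> simp [upk]

theorem pk_le {N : ℕ} (hN : 1 < N) {h : HS} (h1 : h.u ≤ N) (h2 : h.tgt ≤ N) (h3 : h.r ≤ N)
    (h4 : h.ptgt ≤ N) (h5 : h.par ≤ N) (h6 : h.md ≤ 2) : pk N h ≤ 7 * N ^ 6 := by
  have e1 : N ≤ N ^ 6 := Nat.le_self_pow (by norm_num) N
  have e2 : N ^ 2 ≤ N ^ 6 := Nat.pow_le_pow_right (by omega) (by norm_num)
  have e3 : N ^ 3 ≤ N ^ 6 := Nat.pow_le_pow_right (by omega) (by norm_num)
  have e4 : N ^ 4 ≤ N ^ 6 := Nat.pow_le_pow_right (by omega) (by norm_num)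
  have e5 : N ^ 5 ≤ N ^ 6 := Nat.pow_le_pow_right (by omega) (by norm_num)
  calc pk N h = h.u + N * h.tgt + N ^ 2 * h.r + N ^ 3 * h.ptgt + N ^ 4 * h.par + N ^ 5 * h.md := by
        unfold pk; ring
    _ ≤ N + N * N + N ^ 2 * N + N ^ 3 * N + N ^ 4 * N + N ^ 5 * 2 := by gcongr
    _ = N + N ^ 2 + N ^ 3 + N ^ 4 + N ^ 5 + 2 * N ^ 5 := by ring
    _ ≤ 7 * N ^ 6 := by omega

theorem run_finC (h : OC X cc A body P S E O l K F) {s : Rg → ℕ} (hg : Gd P s)
    (hz : s .z = 0) (ht1 : 1 ≤ s .t) (ht2 : s .t ≤ P.T) (htg : s .tg < P.N) (hr : s .r < P.N) :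
    ∃ e, RunA X cc A body K (finC E) s (upd (upd s .e e) .z (pk P.N (S.fin (s .t - 1)
      (upk P.N (s .x - 1)) (upk P.N (s .y - 1)) (s .tg, s .r, s .st)))) := by
  have hNb := h.hP.N_lt
  have hbA := h.hP.hA1
  have hb4 := h.hP.hcb1
  have hb5 := Nat.one_le_two_pow (n := P.m)
  have hA3 := h.hP.hA3
  have hN := h.hP.hN
  have hcN : s .cN = P.N := hg.cst.cN
  have hcn : s .cn = P.n := hg.cst.cn
  have hT := h.hP.hT
  have hmod : ∀ n, n % P.N < P.N := fun n => Nat.mod_lt _ (by omega)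
  unfold Sys.fin
  by_cases h2 : s .st = 2
  · have hpar := hmod ((s .x - 1) / P.N / P.N / P.N / P.N)
    simp only [h2, if_true]
    by_cases hp0 : (upk P.N (s .x - 1)).par = 0
    · have hp0' : (s .x - 1) / P.N / P.N / P.N / P.N % P.N = 0 := hp0
      have hle := pk_le hN (h := ⟨0, 0, s .r + 1, 0, 0, 0⟩) (by simp) (by simp) (by simpa using hr)
        (by simp) (by simp) (by simp)
      refine ⟨0, RunA.sq_set 1 (by simp [isE, h2]) (by omega) (RunA.sq_cons (RunA.iteT _ _ _ _ _ _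
        (by simp) (RunA.sq_set 0 (by simp [fpar, hcN, hp0']) (by omega) (RunA.sq_cons
        (RunA.iteF _ _ _ _ _ _ (by simp) (RunA.set' (pk P.N ⟨0, 0, s .r + 1, 0, 0, 0⟩)
        (by simp [pkE, pk, hcN]) (by omega))) RunA.sq_nil))) (RunA.sq_nil.cast ?_))⟩
      rw [if_pos hp0]
      funext q; cases q <;> simp
    · have hp0' : (s .x - 1) / P.N / P.N / P.N / P.N % P.N ≠ 0 := hp0
      have hle := pk_le hN (h := ⟨(upk P.N (s .y - 1)).u, (upk P.N (s .x - 1)).ptgt, s .r,
        (upk P.N (s .y - 1)).ptgt, 2, (upk P.N (s .y - 1)).par⟩) (hmod _).le (hmod _).le hr.le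
        (hmod _).le (hmod _).le (by simp)
      refine ⟨(s .x - 1) / P.N / P.N / P.N / P.N % P.N, RunA.sq_set 1 (by simp [isE, h2]) (by omega)
        (RunA.sq_cons (RunA.iteT _ _ _ _ _ _
        (by simp) (RunA.sq_set ((s .x - 1) / P.N / P.N / P.N / P.N % P.N) (by simp [fpar, hcN])
        (by omega) (RunA.sq_cons
        (RunA.iteT _ _ _ _ _ _ (by simpa using hp0') (RunA.set' (pk P.N
        ⟨(upk P.N (s .y - 1)).u, (upk P.N (s .x - 1)).ptgt, s .r,
        (upk P.N (s .y - 1)).ptgt, 2, (upk P.N (s .y - 1)).par⟩)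
        (by simp [pkE, pk, hcN, upk, fu, fpt, fpar]) (by omega))) RunA.sq_nil)))
        (RunA.sq_nil.cast ?_))⟩
      rw [if_neg hp0]
      funext q; cases q <;> simp
  · have hz2 : (1 : ℕ) - (s .st - 2 + (2 - s .st)) = 0 := by omega
    by_cases h3 : s .st = 3
    · have hkt := h.hC.kont (s .tg) (s .r)
      have hle := pk_le hN (h := ⟨S.kont (s .tg) (s .r), 0, 0, s .tg, 1, s .t - 1 + 1⟩) hkt.le
        (by simp) (by simp) htg.le (by simp only; omega) (by simp)
      refine ⟨1, RunA.sq_set 0 (by simp [isE, hz2]) (by omega) (RunA.sq_cons (RunA.iteF _ _ _ _ _ _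
        (by simp) (RunA.sq_set 1 (by simp [isE, h3]) (by omega) (RunA.sq_cons
        (RunA.iteT _ _ _ _ _ _ (by simp) (RunA.set' (pk P.N ⟨S.kont (s .tg) (s .r), 0, 0, s .tg, 1,
        s .t - 1 + 1⟩) ?_ (by omega))) RunA.sq_nil))) (RunA.sq_nil.cast ?_))⟩
      · simp [pkE, pk, hcN, h.hI.kont, hcn, Nat.sub_add_cancel ht1]
      · simp only [h3]
        funext q; cases q <;> simp
    · have hz3 : (1 : ℕ) - (s .st - 3 + (3 - s .st)) = 0 := by omega
      refine ⟨0, RunA.sq_set 0 (by simp [isE, hz2]) (by omega) (RunA.sq_cons (RunA.iteF _ _ _ _ _ _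
        (by simp) (RunA.sq_set 0 (by simp [isE, hz3]) (by omega) (RunA.sq_cons
        (RunA.iteF _ _ _ _ _ _ (by simp) (RunA.set' 0 (by simp) (by omega))) RunA.sq_nil)))
        (RunA.sq_nil.cast ?_))⟩
      simp only [h2, h3, if_false]
      funext q; cases q <;> simp [pk]

theorem pk_upk {N : ℕ} (hN : 0 < N) (z : ℕ) : pk N (upk N z) = z := by
  unfold pk upk
  simp only
  rw [Nat.mod_add_div, Nat.mod_add_div, Nat.mod_add_div, Nat.mod_add_div, Nat.mod_add_div]

theorem run_gC (h : OC X cc A body P S E O l K F) {s : Rg → ℕ} (hg : Gd P s)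
    (hlev : s .lev = l + 1) (ha : s .a = 0) (hres : s .res = 0) (hk : s .k2 = 0) (he : s .e = 0)
    (hw : s .w = 0) (hcd : s .cd = 0) (hk1 : s .k1 = 0) (htg : s .tg = 0) (hr : s .r = 0)
    (hst : s .st = 0) (hx : s .x - 1 < 2 ^ P.m) (ht1 : 1 ≤ s .t) (ht2 : s .t ≤ P.T)
    (hS : (s .S + 1) * F ≤ A) :
    RunA X cc A body K (gC E) s (upd s .z (pk P.N (S.gH O P.N (s .t - 1)
      (upk P.N (s .x - 1)) (upk P.N (s .y - 1))))) := by
  have hNb := h.hP.N_lt
  have hbA := h.hP.hA1
  have hb4 := h.hP.hcb1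
  have hb5 := Nat.one_le_two_pow (n := P.m)
  have hN := h.hP.hN
  have hcN : s .cN = P.N := hg.cst.cN
  have hz : s .z = 0 := hg.ze _ rfl
  have hmdle : (upk P.N (s .x - 1)).md ≤ s .x - 1 :=
    (Nat.div_le_self _ _).trans ((Nat.div_le_self _ _).trans ((Nat.div_le_self _ _).trans
      ((Nat.div_le_self _ _).trans (Nat.div_le_self _ _))))
  refine RunA.sq_set (upk P.N (s .x - 1)).md (by simp [fmd, upk, hcN]) (by omega) ?_
  by_cases h0 : (upk P.N (s .x - 1)).md = 0
  · refine RunA.sq_cons (RunA.iteF _ _ _ _ _ _ (by simp [h0]) (RunA.set' (s .x - 1) (by simp)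
      (by omega))) (RunA.sq_set 0 (by simp) (by omega) (RunA.sq_set 0 (by simp) (by omega)
      (RunA.sq_set 0 (by simp) (by omega) (RunA.sq_set 0 (by simp) (by omega)
      (RunA.sq_nil.cast ?_)))))
    rw [Sys.gH, if_pos h0, pk_upk (by omega)]
    funext q; cases q <;> simp [he, htg, hr, hst]
  · have hg1 : Gd P (upd s .e (upk P.N (s .x - 1)).md) := hg.upd (Or.inr rfl) (by omega)
    have h1 := run_startC (K := K) h hg1 (by simp [hlev]) (by simp [ha]) (by simp [hres])
      (by simp [hk]) (by simp [hw]) (by simp [hcd]) (by simp [htg]) (by simp [hr])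
      (by simp [hst]) (by simp) (by simpa using h0) (by simpa using hS)
    simp only [upd_ne, ne_eq, reduceCtorEq, not_false_eq_true] at h1
    -- bounds for the start
    have hb : (S.start O P.N (upk P.N (s .x - 1))).1 < P.N ∧
        (S.start O P.N (upk P.N (s .x - 1))).2.1 < P.N ∧
        (S.start O P.N (upk P.N (s .x - 1))).2.2 < 4 := by
      have hnode : ∀ k, S.node O (upk P.N (s .x - 1)).u k < P.N := by
        intro k
        induction k with
        | zero => exact Nat.mod_lt _ (by omega)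
        | succ k ihk => rw [Sys.node_succ]; exact h.hC.nxt ihk
      unfold Sys.start
      split_ifs
      · exact ⟨hnode _, h.hC.nx _, by simp⟩
      · exact ⟨by simp only; omega, by simp only; omega, by simp⟩
      · exact ⟨Nat.mod_lt _ (by omega), Nat.mod_lt _ (by omega), by simp⟩
    rw [Sys.gH, if_neg h0]
    have hu' : (upk P.N (s .x - 1)).u = (s .x - 1) % P.N := rfl
    rw [hu']
    generalize S.start O P.N (upk P.N (s .x - 1)) = q0 at *
    have hg2 := (((hg1.upd (q := .e) (Or.inr rfl) (v := 0) (by omega)).upd (q := .tg) (Or.inr rfl)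
      (v := q0.1) (by omega)).upd (q := .r) (Or.inr rfl) (v := q0.2.1) (by omega)).upd (q := .st)
      (Or.inr rfl) (v := q0.2.2) (by omega)
    have h2 := run_ascL h hg2 (by simp [hlev]) (by simp [ha]) (by simp [hres]) (by simp [hk])
      (by simp) (by simp [hw]) (by simp [hcd]) (by simp [hk1]) (by simpa using hb.1)
      (by simpa using hb.2.1) (by simpa using hb.2.2) (by simpa using hS)
    simp only [upd_self, upd_ne, ne_eq, reduceCtorEq, not_false_eq_true] at h2
    have hb' := asc_lt' h.hC h.hO (u := (s .x - 1) % P.N) (Nat.mod_lt _ (by omega)) hb P.N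
    change ((S.ascF O ((s .x - 1) % P.N) P.N)^[P.N] (q0.1, q0.2.1, q0.2.2)).1 < _ ∧
      ((S.ascF O ((s .x - 1) % P.N) P.N)^[P.N] (q0.1, q0.2.1, q0.2.2)).2.1 < _ ∧
      ((S.ascF O ((s .x - 1) % P.N) P.N)^[P.N] (q0.1, q0.2.1, q0.2.2)).2.2 < _ at hb'
    have hq0 : q0 = (q0.1, q0.2.1, q0.2.2) := rfl
    rw [hq0]
    generalize (S.ascF O ((s .x - 1) % P.N) P.N)^[P.N] (q0.1, q0.2.1, q0.2.2) = q1 at *
    have hg3 := ((hg2.upd (q := .tg) (Or.inr rfl) (v := q1.1) (by omega)).upd (q := .r) (Or.inr rfl)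
      (v := q1.2.1) (by omega)).upd (q := .st) (Or.inr rfl) (v := q1.2.2) (by omega)
    obtain ⟨e, h3⟩ := run_finC (K := K) h hg3 (by simp [hz]) (by simpa using ht1)
      (by simpa using ht2) (by simpa using hb'.1) (by simpa using hb'.2.1)
    simp only [upd_self, upd_ne, ne_eq, reduceCtorEq, not_false_eq_true] at h3
    refine RunA.sq_cons (RunA.iteT _ _ _ _ _ _ (by simpa using h0) (RunA.sq_cons h1
      (RunA.sq_cons h2 (RunA.sq_cons h3 RunA.sq_nil)))) (RunA.sq_set 0 (by simp) (by omega)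
      (RunA.sq_set 0 (by simp) (by omega)
      (RunA.sq_set 0 (by simp) (by omega) (RunA.sq_set 0 (by simp) (by omega)
      (RunA.sq_nil.cast ?_)))))
    funext q; cases q <;> simp [he, htg, hr, hst]

end

end Pool.Agent.Lib.MP_9277c3_lc.CM
end

section
/-!
# Correctness of the recursive computation of the history
-/
namespace Pool.Agent.Lib.MP_9277c3_lc.CM

open Finset

/-- The pointer of a state. -/
def ptrN (N τ x : ℕ) : ℕ := ((upk N x).par - 1) - (((upk N x).par - 1) - (τ - 1))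

/-- Whether the pointer is `j`. -/
def indN (N τ j x : ℕ) : ℕ := 1 - ((ptrN N τ x - j) + (j - ptrN N τ x))

/-- The transition function on numbers. -/
noncomputable def gN (S : Sys) (O : ℕ → ℕ) (N τ x y : ℕ) : ℕ :=
  pk N (S.gH O N (τ - 1) (upk N x) (upk N y))

section

variable {α : Type} {X : List α} {cc : Cell α → ℕ} {A : ℕ} {body : Pr → Prg} {P : Par} {S : Sys}
  {E : SysE} {O : ℕ → ℕ} {l K F : ℕ}

theorem gN_lt (h : OC X cc A body P S E O l K F) {x y τ : ℕ} (hx : x < 2 ^ P.m)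
    (hτ : τ ≤ P.T) : gN S O P.N τ x y < A := by
  have hNb := h.hP.N_lt
  have hbA := h.hP.hA1
  have hb4 := h.hP.hcb1
  have hA3 := h.hP.hA3
  have hN := h.hP.hN
  have hT := h.hP.hT
  have hmod : ∀ n, n % P.N < P.N := fun n => Nat.mod_lt _ (by omega)
  unfold gN Sys.gH
  split_ifs with h0
  · rw [pk_upk (by omega)]
    omega
  · have hb : (S.start O P.N (upk P.N x)).1 < P.N ∧
        (S.start O P.N (upk P.N x)).2.1 < P.N ∧
        (S.start O P.N (upk P.N x)).2.2 < 4 := by
      have hnode : ∀ k, S.node O (upk P.N x).u k < P.N := by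
        intro k
        induction k with
        | zero => exact hmod _
        | succ k ihk => rw [Sys.node_succ]; exact h.hC.nxt ihk
      unfold Sys.start
      split_ifs
      · exact ⟨hnode _, h.hC.nx _, by simp⟩
      · exact ⟨by simp only; omega, by simp only; omega, by simp⟩
      · exact ⟨hmod _, hmod _, by simp⟩
    have hb' := asc_lt' h.hC h.hO (u := (upk P.N x).u) (hmod _) hb P.N
    generalize (S.ascF O (upk P.N x).u P.N)^[P.N] (S.start O P.N (upk P.N x)) = q at *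
    unfold Sys.fin
    split_ifs
    · have hle := pk_le hN (h := ⟨0, 0, q.2.1 + 1, 0, 0, 0⟩) (by simp) (by simp) (by simp only; omega)
        (by simp) (by simp) (by simp)
      omega
    · have hle := pk_le hN (h := ⟨(upk P.N y).u, (upk P.N x).ptgt, q.2.1,
        (upk P.N y).ptgt, 2, (upk P.N y).par⟩) (hmod _).le (hmod _).le (by simp only; omega)
        (hmod _).le (hmod _).le (by simp)
      omega
    · have hkt := h.hC.kont q.1 q.2.1
      have hle := pk_le hN (h := ⟨S.kont q.1 q.2.1, 0, 0, q.1, 1, τ - 1 + 1⟩) hkt.le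
        (by simp) (by simp) (by simp only; omega) (by simp only; omega) (by simp)
      omega
    · have hle := pk_le hN (h := ⟨0, 0, 0, 0, 0, 0⟩) (by simp) (by simp) (by simp)
        (by simp) (by simp) (by simp)
      omega

/-- One pair of states. -/
theorem run_pair (h : OC X cc A body P S E O l K F) {s : Rg → ℕ} (hg : Gd P s)
    (hlev : s .lev = l + 1) (ha : s .a = 0) (hres : s .res = 0) (hk : s .k2 = 0) (he : s .e = 0)
    (hw : s .w = 0) (hcd : s .cd = 0) (hk1 : s .k1 = 0) (htg : s .tg = 0) (hr : s .r = 0)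
    (hst : s .st = 0) (hc : s .c = 0) {xv yv : ℕ} (hx : s .x = xv + 1) (hy : s .y = yv + 1)
    (hx2 : xv < 2 ^ P.m) (hy2 : yv < 2 ^ P.m) (ht1 : 1 ≤ s .t) (ht2 : s .t ≤ P.T)
    {V U₁ U₂ : ℕ → ZMod P.p} (h0 : s .R0 = encZ P.m V) (h1 : s .R1 = encZ P.m U₁)
    (h2 : s .R2 = encZ P.m U₂) (hS : (s .S + 1) * F ≤ A) {l' : List Prg} {u : Rg → ℕ}
    (hl : RunA X cc A body K (sq l') (upd s .R0 (encZ P.m (V + fun i =>
      -(dlt P.m xv U₁ * dlt P.m yv U₂) * (indN P.N (s .t) (s .j - 1) xv : ZMod P.p) *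
        bt P.p (gN S O P.N (s .t) xv yv) i))) u) :
    RunA X cc A body K (sq (set .c 1 :: del (Exp.var .x - 1) .R1 :: del (Exp.var .y - 1) .R2 ::
      gC E :: vec 1 ((Exp.var .cp - Exp.var .c) * isE ptrE (Exp.var .j - 1)) (Exp.var .z) ::
      set .c 0 :: set .z 0 :: l')) s u := by
  haveI := h.hP.fact
  have hNb := h.hP.N_lt
  have hbA := h.hP.hA1
  have hb4 := h.hP.hcb1
  have hb5 := Nat.one_le_two_pow (n := P.m)
  have hpb := h.hP.hcb2
  have hp2 := h.hP.prime.two_le
  have hN := h.hP.hN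
  have hcst := hg.cst
  have hcN : s .cN = P.N := hg.cst.cN
  have hcp : s .cp = P.p := hg.cst.cp
  have hz : ∀ q : Rg, q.kd = 3 → s q = 0 := hg.ze
  have hone : (1 : ZMod P.p).val = 1 := ZMod.val_one P.p
  set D := dlt P.m xv U₁ * dlt P.m yv U₂ with hD
  have hDlt : D.val < P.p := ZMod.val_lt _
  refine RunA.sq_set 1 (by simp) (by omega) ?_
  refine RunA.sq_cons ((run_del h.hP (V := U₁) (C := 1) (hcst.upd (by decide) _)
    (by simp [hz .vz rfl]) (by simp [hz .vi rfl]) (by simp [hz .vr rfl]) (k := .R1) rfl (by simpa using h1)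
    (by simp [hone]) xv (by simp [hx]) (by omega)).mono (Nat.zero_le _)) ?_
  refine RunA.sq_cons ((run_del h.hP (V := U₂) (C := 1 * dlt P.m xv U₁)
    ((hcst.upd (by decide) _).upd (by decide) _)
    (by simp [hz .vz rfl]) (by simp [hz .vi rfl]) (by simp [hz .vr rfl]) (k := .R2) rfl (by simpa using h2)
    (by simp) yv (by simp [hy]) (by omega)).mono (Nat.zero_le _)) ?_
  simp only [upd_upd, one_mul]
  rw [← hD]
  have hg' : Gd P (upd s .c D.val) := hg.upd (Or.inr rfl) (by omega)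
  refine RunA.sq_cons (run_gC h hg' (by simp [hlev]) (by simp [ha]) (by simp [hres]) (by simp [hk])
    (by simp [he]) (by simp [hw]) (by simp [hcd]) (by simp [hk1]) (by simp [htg]) (by simp [hr])
    (by simp [hst]) (by simp [hx, hx2]) (by simpa using ht1) (by simpa using ht2)
    (by simpa using hS)) ?_
  have hgN : pk P.N (S.gH O P.N (upd s .c D.val .t - 1) (upk P.N (upd s .c D.val .x - 1))
      (upk P.N (upd s .c D.val .y - 1))) = gN S O P.N (s .t) xv yv := by
    simp [gN, hx, hy]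
  rw [hgN]
  have hgA : gN S O P.N (s .t) xv yv < A := gN_lt h hx2 ht2
  have hcast : (((P.p - D.val) * indN P.N (s .t) (s .j - 1) xv : ℕ) : ZMod P.p) =
      -D * (indN P.N (s .t) (s .j - 1) xv : ZMod P.p) := by
    rw [Nat.cast_mul, Nat.cast_sub hDlt.le, ZMod.natCast_self, ZMod.natCast_val, ZMod.cast_id',
      id_eq, zero_sub]
  refine RunA.sq_cons ((run_vec h.hP (V := V) ((hcst.upd (by decide) _).upd (by decide) _)
    (by simp [hz .vz rfl]) (by simp [hz .vi rfl]) (by simpa using h0) 1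
    ((P.p - D.val) * indN P.N (s .t) (s .j - 1) xv) (gN S O P.N (s .t) xv yv)
    (fun R z i => by simp) (fun R z i => ?_) (by simp) hgA).mono (Nat.zero_le _)) ?_
  · simp [isE, ptrE, fpar, indN, ptrN, upk, hcN, hcp, hx]
  · refine RunA.sq_set 0 (by simp) (by omega) (RunA.sq_set 0 (by simp) (by omega) ?_)
    refine hl.congr_left ?_
    have hV : (fun i => ((1 : ℕ) : ZMod P.p) * V i +
        (((P.p - D.val) * indN P.N (s .t) (s .j - 1) xv : ℕ) : ZMod P.p) *
          bt P.p (gN S O P.N (s .t) xv yv) i) = (V + fun i =>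
      -D * (indN P.N (s .t) (s .j - 1) xv : ZMod P.p) * bt P.p (gN S O P.N (s .t) xv yv) i) := by
      funext i
      rw [hcast, Nat.cast_one, one_mul, Pi.add_apply]
    rw [hV]
    funext q; cases q <;> simp [hz .z rfl, hc]

theorem run_evC (h : OC X cc A body P S E O l K F) {s : Rg → ℕ} (hg : Gd P s)
    (hlev : s .lev = l + 1) (ha : s .a = 0) (hres : s .res = 0) (hk : s .k2 = 0) (he : s .e = 0)
    (hw : s .w = 0) (hcd : s .cd = 0) (hk1 : s .k1 = 0) (htg : s .tg = 0) (hr : s .r = 0)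
    (hst : s .st = 0) (hc : s .c = 0) (hx : s .x = 0) (hy : s .y = 0)
    (ht1 : 1 ≤ s .t) (ht2 : s .t ≤ P.T)
    {V U₁ U₂ : ℕ → ZMod P.p} (h0 : s .R0 = encZ P.m V) (h1 : s .R1 = encZ P.m U₁)
    (h2 : s .R2 = encZ P.m U₂) (hS : (s .S + 1) * F ≤ A) :
    RunA X cc A body K (evC E) s (upd s .R0 (encZ P.m (V + evl P.p P.m
      (indN P.N (s .t) (s .j - 1)) (gN S O P.N (s .t)) U₁ U₂))) := by
  have hbA := h.hP.hA1
  have hb4 := h.hP.hcb1
  have hcQ : s .cQ = 2 ^ P.m := hg.cst.cQ
  set f : ℕ → ℕ → ℕ → ZMod P.p := fun x y i => -(dlt P.m x U₁ * dlt P.m y U₂) *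
    (indN P.N (s .t) (s .j - 1) x : ZMod P.p) * bt P.p (gN S O P.N (s .t) x y) i with hf
  have hevl : evl P.p P.m (indN P.N (s .t) (s .j - 1)) (gN S O P.N (s .t)) U₁ U₂ =
      ∑ x ∈ range (2 ^ P.m), ∑ y ∈ range (2 ^ P.m), f x y := by
    funext i
    rw [evl, Finset.sum_apply]
    refine sum_congr rfl fun x _ => ?_
    rw [Finset.sum_apply]
  rw [hevl]
  refine RunA.sq_set (2 ^ P.m) (by simp [hcQ]) (by omega) ?_
  refine RunA.sq_cons ((RunA.loop_sum (p := P.p) .x _ (fun V n => upd (upd s .R0 (encZ P.m V)) .x n)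
    (by simp) (fun x => ∑ y ∈ range (2 ^ P.m), f x y) (2 ^ P.m) (fun n hn V => ?_) V).congr_left ?_)
    (RunA.sq_nil.cast ?_)
  · refine RunA.sq_set (2 ^ P.m) (by simp [hcQ]) (by omega) ?_
    refine RunA.sq_cons ((RunA.loop_sum (p := P.p) .y _ (fun V k => upd (upd (upd s .R0
      (encZ P.m V)) .x (n + 1)) .y k) (by simp) (f n) (2 ^ P.m) (fun k hk' V => ?_) V).congr_left ?_)
      (RunA.sq_set n (by simp) (by omega) (RunA.sq_nil.cast ?_))
    · have hg' := ((hg.upd4 (q := .R0) rfl V).upd (q := .x) (v := n + 1) (Or.inr rfl)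
        (by omega)).upd (q := .y) (v := k + 1) (Or.inr rfl) (by omega)
      refine run_pair h hg' (by simp [hlev]) (by simp [ha]) (by simp [hres]) (by simp [hk])
        (by simp [he]) (by simp [hw]) (by simp [hcd]) (by simp [hk1]) (by simp [htg])
        (by simp [hr]) (by simp [hst]) (by simp [hc]) (xv := n) (yv := k) (by simp) (by simp) hn hk'
        (by simpa using ht1) (by simpa using ht2) (V := V) (U₁ := U₁) (U₂ := U₂) (by simp)
        (by simpa using h1) (by simpa using h2) (by simpa using hS) ?_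
      refine RunA.sq_set k (by simp) (by omega) (RunA.sq_nil.cast ?_)
      simp only [upd_ne, ne_eq, reduceCtorEq, not_false_eq_true, hf]
      funext q; cases q <;> simp
    · funext q; cases q <;> simp [hy]
    · funext q; cases q <;> simp [hy]
  · rw [← h0]
    funext q; cases q <;> simp
  · funext q; cases q <;> simp [hx]

theorem push_le {S c v : ℕ} (hv : v < c) : S * c + v + 1 ≤ (S + 1) * c := by
  rw [Nat.add_mul, Nat.one_mul]
  omega

theorem push_mod {S c v : ℕ} (hv : v < c) : (S * c + v) % c = v := by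
  rw [Nat.add_comm, Nat.add_mul_mod_self_right, Nat.mod_eq_of_lt hv]

theorem push_div {S c v : ℕ} (hv : v < c) : (S * c + v) / c = S := by
  rw [Nat.add_comm, Nat.add_mul_div_right _ _ (by omega), Nat.div_eq_of_lt hv, Nat.zero_add]

/-- The procedure `hist` works for the time `g`. -/
def OkH (X : List α) (cc : Cell α → ℕ) (A : ℕ) (body : Pr → Prg) (P : Par) (S : Sys) (O : ℕ → ℕ)
    (l v₀ g K F : ℕ) : Prop :=
  ∀ (s : Rg → ℕ) (V : ℕ → ZMod P.p), Gd P s → s .lev = l + 1 → s .v = v₀ → s .t = g →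
    s .R0 = encZ P.m V → (∀ q : Rg, q.kd = 2 → s q = 0) → s .res = 0 → (s .S + 1) * F ≤ A →
    RunA X cc A body K (Stmt.call Pr.hist) s
      (upd s .R0 (encZ P.m (V + bt P.p (pk P.N (S.hist O P.N v₀ g)))))

theorem run_rcall {v₀ g : ℕ} (hP : PB P A) (hH : OkH X cc A body P S O l v₀ g K F) (hF : 1 ≤ F)
    {s : Rg → ℕ} (hg : Gd P s) (hlev : s .lev = l + 1) (hv : s .v = v₀) (ht : s .t < P.cw)
    (hj : s .j < P.cw) (hom : s .om < P.cw)
    (hz2 : ∀ q : Rg, q.kd = 2 → q ≠ .j → q ≠ .om → s q = 0) (hres : s .res = 0)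
    {V : ℕ → ZMod P.p} (h0 : s .R0 = encZ P.m V) {G : Exp Rg} (hG : G.eval X cc s = g)
    (hgb : g < P.cb) (hS : (s .S + 1) * (P.cw ^ 3 * F) ≤ A) :
    RunA X cc A body K (rcall G) s
      (upd s .R0 (encZ P.m (V + bt P.p (pk P.N (S.hist O P.N v₀ g))))) := by
  have hbA := hP.hA1
  have hb4 := hP.hcb1
  have hccw : s .cw = P.cw := hg.cst.cw
  have he2 : s .e2 = 0 := hg.ze _ rfl
  have hjb : s .j < P.cb := hg.sm _ (Or.inr rfl)
  have hob : s .om < P.cb := hg.sm _ (Or.inr rfl)
  have htb : s .t < P.cb := hg.sm _ (Or.inl rfl)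
  have p1 := push_le (S := s .S) ht
  have p2 := push_le (S := s .S * P.cw + s .t) hj
  have p3 := push_le (S := (s .S * P.cw + s .t) * P.cw + s .j) hom
  have q1 := Nat.mul_le_mul_right P.cw p1
  have q2 := Nat.mul_le_mul_right P.cw (p2.trans q1)
  have q3 := p3.trans q2
  have q4 := Nat.mul_le_mul_right F q3
  have e1 : (s .S + 1) * P.cw * P.cw * P.cw * F = (s .S + 1) * (P.cw ^ 3 * F) := by ring
  rw [e1] at q4
  have q5 : (((s .S * P.cw + s .t) * P.cw + s .j) * P.cw + s .om + 1) * 1 ≤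
      (((s .S * P.cw + s .t) * P.cw + s .j) * P.cw + s .om + 1) * F := Nat.mul_le_mul_left _ hF
  rw [Nat.mul_one] at q5
  have q6 : (s .S * P.cw + s .t) * P.cw + s .j ≤
      ((s .S * P.cw + s .t) * P.cw + s .j) * P.cw + s .om :=
    (Nat.le_mul_of_pos_right _ (by omega)).trans (Nat.le_add_right _ _)
  have q7 : s .S * P.cw + s .t ≤ (s .S * P.cw + s .t) * P.cw + s .j :=
    (Nat.le_mul_of_pos_right _ (by omega)).trans (Nat.le_add_right _ _)
  have q8 : s .S ≤ s .S * P.cw + s .t :=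
    (Nat.le_mul_of_pos_right _ (by omega)).trans (Nat.le_add_right _ _)
  refine RunA.sq_set g hG (by omega) ?_
  refine RunA.sq_set (((s .S * P.cw + s .t) * P.cw + s .j) * P.cw + s .om) (by simp [hccw])
    (by omega) ?_
  refine RunA.sq_set g (by simp) (by omega) (RunA.sq_set 0 (by simp) (by omega)
    (RunA.sq_set 0 (by simp) (by omega) (RunA.sq_set 0 (by simp) (by omega) ?_)))
  have hst : upd (upd (upd (upd (upd (upd s .e2 g) .S
      (((s .S * P.cw + s .t) * P.cw + s .j) * P.cw + s .om)) .t g) .j 0) .om 0) .e2 0 =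
      upd (upd (upd (upd s .S (((s .S * P.cw + s .t) * P.cw + s .j) * P.cw + s .om)) .t g)
        .j 0) .om 0 := by
    funext q; cases q <;> simp [he2]
  rw [hst]
  have hg' := (((hg.upd5 (q := .S) (by decide)
    (((s .S * P.cw + s .t) * P.cw + s .j) * P.cw + s .om)).upd (q := .t) (v := g) (Or.inl rfl)
    hgb).upd (q := .j) (v := 0) (Or.inr rfl) (by omega)).upd (q := .om) (v := 0) (Or.inr rfl)
    (by omega)
  refine RunA.sq_cons (hH _ V hg' (by simp [hlev]) (by simp [hv]) (by simp) (by simp [h0])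
    (fun q hq => ?_) (by simp [hres]) ?_) ?_
  · by_cases e1 : q = .om
    · rw [e1, upd_self]
    · by_cases e2 : q = .j
      · rw [e2]; simp
      · have e3 : q ≠ .t := fun h => by rw [h] at hq; exact absurd hq (by decide)
        have e4 : q ≠ .S := fun h => by rw [h] at hq; exact absurd hq (by decide)
        rw [upd_ne e1, upd_ne e2, upd_ne e3, upd_ne e4]
        exact hz2 q hq e2 e1
  · simpa using q4.trans hS
  · refine RunA.sq_set (s .om) (by simp [hccw, push_mod hom]) (by omega)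
      (RunA.sq_set ((s .S * P.cw + s .t) * P.cw + s .j) (by simp [hccw, push_div hom]) (by omega)
      (RunA.sq_set (s .j) (by simp [hccw, push_mod hj]) (by omega)
      (RunA.sq_set (s .S * P.cw + s .t) (by simp [hccw, push_div hj]) (by omega)
      (RunA.sq_set (s .t) (by simp [hccw, push_mod ht]) (by omega)
      (RunA.sq_set (s .S) (by simp [hccw, push_div ht]) (by omega) (RunA.sq_nil.cast ?_))))))
    funext q; cases q <;> simp

/-- Multiplication of the vector in `R0`. -/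
theorem run_scale (hP : PB P A) {s : Rg → ℕ} (hc : Cst P s) (hvz : s .vz = 0) (hvi : s .vi = 0)
    {V : ℕ → ZMod P.p} (hV : s .R0 = encZ P.m V) {A' : Exp Rg} (av : ℕ)
    (hA' : ∀ R z i, A'.eval X cc (upd (upd (upd s .R0 R) .vz z) .vi i) = av) :
    RunA X cc A body 0 (vec A' 0 0) s (upd s .R0 (encZ P.m fun i => (av : ZMod P.p) * V i)) := by
  have hA := hP.m_lt
  refine (run_vec hP hc hvz hvi hV av 0 0 hA' (by simp) (by simp) (by omega)).cast ?_
  congr 2
  funext i
  simp

theorem run_segA {v₀ g o : ℕ} (hP : PB P A) (hH : OkH X cc A body P S O l v₀ g K F) (hF : 1 ≤ F)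
    {s : Rg → ℕ} {k : Rg} (hk : k = .R1 ∨ k = .R2)
    (hg : Gd P s) (hlev : s .lev = l + 1) (hv : s .v = v₀) (ht : s .t < P.cw)
    (hj : s .j < P.cw) (hom : s .om < P.cw) (ho : s .om = o)
    (hz2 : ∀ q : Rg, q.kd = 2 → q ≠ .j → q ≠ .om → s q = 0) (hres : s .res = 0)
    {V : ℕ → ZMod P.p} (h0 : s k = encZ P.m V) {G : Exp Rg}
    (hG : ∀ r₁ r₂, G.eval X cc (upd (upd s .R0 r₁) k r₂) = g)
    (hgb : g < P.cb) (hS : (s .S + 1) * (P.cw ^ 3 * F) ≤ A) :
    RunA X cc A body K (segA k G) s (upd s k (encZ P.m fun i => (o : ZMod P.p) * V i +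
      bt P.p (pk P.N (S.hist O P.N v₀ g)) i)) := by
  obtain ⟨V0, hV0⟩ := hg.ve .R0 rfl
  have hz : ∀ q : Rg, q.kd = 3 → s q = 0 := hg.ze
  have hk0 : k ≠ .R0 := by rcases hk with rfl | rfl <;> simp
  have hk4 : k.kd = 4 := by rcases hk with rfl | rfl <;> rfl
  have hne : ∀ q : Rg, q.kd ≠ 4 → q ≠ k ∧ q ≠ .R0 := fun q hq =>
    ⟨fun h => hq (h ▸ hk4), fun h => hq (by rw [h]; rfl)⟩
  refine RunA.sq_cons ((run_swp hP hk hV0 h0 (hz _ rfl)).mono (Nat.zero_le _)) ?_
  have hc1 : Cst P (upd (upd s .R0 (encZ P.m V)) k (encZ P.m V0)) :=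
    (hg.cst.upd (by decide) _).upd (by omega) _
  have h1 : upd (upd s .R0 (encZ P.m V)) k (encZ P.m V0) .R0 = encZ P.m V := by
    rw [upd_ne hk0.symm, upd_self]
  have hq : ∀ q : Rg, q.kd ≠ 4 → ∀ r₁ r₂, upd (upd s .R0 r₁) k r₂ q = s q := fun q hq r₁ r₂ => by
    rw [upd_ne (hne q hq).1, upd_ne (hne q hq).2]
  refine RunA.sq_cons ((run_scale hP (V := V) hc1 (by rw [hq _ (by decide), hz _ rfl])
    (by rw [hq _ (by decide), hz _ rfl]) h1 o (fun R z i => by
      simp only [eval_var, upd_ne, ne_eq, reduceCtorEq, not_false_eq_true]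
      rw [upd_ne (hne .om (by decide)).1]
      simp [ho])).mono (Nat.zero_le _)) ?_
  have hst : ∀ W : ℕ, upd (upd (upd s .R0 (encZ P.m V)) k (encZ P.m V0)) .R0 W =
      upd (upd s .R0 W) k (encZ P.m V0) := fun W => by
    rw [upd_comm hk0, upd_upd]
  rw [hst]
  have hg2 : Gd P (upd (upd s .R0 (encZ P.m fun i => (o : ZMod P.p) * V i)) k (encZ P.m V0)) :=
    (hg.upd4 rfl _).upd4 hk4 _
  refine RunA.sq_cons (run_rcall (g := g) hP hH hF hg2 (by rw [hq _ (by decide), hlev])
    (by rw [hq _ (by decide), hv]) (by rw [hq _ (by decide)]; exact ht)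
    (by rw [hq _ (by decide)]; exact hj) (by rw [hq _ (by decide)]; exact hom)
    (fun q h1 h2 h3 => by rw [hq _ (by omega)]; exact hz2 q h1 h2 h3)
    (by rw [hq _ (by decide), hres]) (V := fun i => (o : ZMod P.p) * V i)
    (by rw [upd_ne hk0.symm, upd_self]) (hG _ _) hgb (by rw [hq _ (by decide)]; exact hS)) ?_
  rw [upd_comm hk0, upd_upd]
  refine RunA.sq_cons (((run_swp hP hk (V0 := (fun i => (o : ZMod P.p) * V i) +
    bt P.p (pk P.N (S.hist O P.N v₀ g))) (V := V0) (by rw [upd_ne hk0.symm, upd_self])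
    (by rw [upd_self]) (by rw [hq _ (by decide), hz _ rfl])).mono (Nat.zero_le _)).cast ?_)
    RunA.sq_nil
  rw [upd_comm hk0, upd_upd, upd_upd, ← hV0]
  rw [upd_eq_self]
  rfl

theorem run_segB {v₀ g o : ℕ} (hP : PB P A) (hH : OkH X cc A body P S O l v₀ g K F) (hF : 1 ≤ F)
    {s : Rg → ℕ} {k : Rg} (hk : k = .R1 ∨ k = .R2)
    (hg : Gd P s) (hlev : s .lev = l + 1) (hv : s .v = v₀) (ht : s .t < P.cw)
    (hj : s .j < P.cw) (hom : s .om < P.cw) (ho : s .om = o) (ho1 : 0 < o) (ho2 : o < P.p)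
    (hz2 : ∀ q : Rg, q.kd = 2 → q ≠ .j → q ≠ .om → s q = 0) (hres : s .res = 0)
    {V : ℕ → ZMod P.p} (h0 : s k = encZ P.m fun i => (o : ZMod P.p) * V i +
      bt P.p (pk P.N (S.hist O P.N v₀ g)) i) {G : Exp Rg}
    (hG : ∀ r₁ r₂, G.eval X cc (upd (upd s .R0 r₁) k r₂) = g)
    (hgb : g < P.cb) (hS : (s .S + 1) * (P.cw ^ 3 * F) ≤ A) :
    RunA X cc A body K (segB k G) s (upd s k (encZ P.m V)) := by
  have := hP.fact
  obtain ⟨V0, hV0⟩ := hg.ve .R0 rfl
  have hz : ∀ q : Rg, q.kd = 3 → s q = 0 := hg.ze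
  have hk0 : k ≠ .R0 := by rcases hk with rfl | rfl <;> simp
  have hk4 : k.kd = 4 := by rcases hk with rfl | rfl <;> rfl
  have hne : ∀ q : Rg, q.kd ≠ 4 → q ≠ k ∧ q ≠ .R0 := fun q hq =>
    ⟨fun h => hq (h ▸ hk4), fun h => hq (by rw [h]; rfl)⟩
  have hcp : s .cp = P.p := hg.cst.cp
  set W : ℕ → ZMod P.p := fun i => (o : ZMod P.p) * V i +
    bt P.p (pk P.N (S.hist O P.N v₀ g)) i with hW
  refine RunA.sq_cons ((run_swp hP hk hV0 h0 (hz _ rfl)).mono (Nat.zero_le _)) ?_
  have hc1 : Cst P (upd (upd s .R0 (encZ P.m W)) k (encZ P.m V0)) :=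
    (hg.cst.upd (by decide) _).upd (by omega) _
  have h1 : upd (upd s .R0 (encZ P.m W)) k (encZ P.m V0) .R0 = encZ P.m W := by
    rw [upd_ne hk0.symm, upd_self]
  have hq : ∀ q : Rg, q.kd ≠ 4 → ∀ r₁ r₂, upd (upd s .R0 r₁) k r₂ q = s q := fun q hq r₁ r₂ => by
    rw [upd_ne (hne q hq).1, upd_ne (hne q hq).2]
  refine RunA.sq_cons ((run_scale hP (V := W) hc1 (by rw [hq _ (by decide), hz _ rfl])
    (by rw [hq _ (by decide), hz _ rfl]) h1 (P.p - 1) (fun R z i => by
      simp only [eval_sub, eval_one, eval_var, upd_ne, ne_eq, reduceCtorEq, not_false_eq_true]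
      rw [upd_ne (hne .cp (by decide)).1]
      simp [hcp])).mono (Nat.zero_le _)) ?_
  have hst : ∀ W' : ℕ, upd (upd (upd s .R0 (encZ P.m W)) k (encZ P.m V0)) .R0 W' =
      upd (upd s .R0 W') k (encZ P.m V0) := fun W' => by
    rw [upd_comm hk0, upd_upd]
  rw [hst]
  have hg2 : Gd P (upd (upd s .R0 (encZ P.m fun i => ((P.p - 1 : ℕ) : ZMod P.p) * W i)) k
    (encZ P.m V0)) := (hg.upd4 rfl _).upd4 hk4 _
  refine RunA.sq_cons (run_rcall (g := g) hP hH hF hg2 (by rw [hq _ (by decide), hlev])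
    (by rw [hq _ (by decide), hv]) (by rw [hq _ (by decide)]; exact ht)
    (by rw [hq _ (by decide)]; exact hj) (by rw [hq _ (by decide)]; exact hom)
    (fun q h1 h2 h3 => by rw [hq _ (by omega)]; exact hz2 q h1 h2 h3)
    (by rw [hq _ (by decide), hres]) (V := fun i => ((P.p - 1 : ℕ) : ZMod P.p) * W i)
    (by rw [upd_ne hk0.symm, upd_self]) (hG _ _) hgb (by rw [hq _ (by decide)]; exact hS)) ?_
  rw [upd_comm hk0, upd_upd]
  set W2 : ℕ → ZMod P.p := (fun i => ((P.p - 1 : ℕ) : ZMod P.p) * W i) +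
    bt P.p (pk P.N (S.hist O P.N v₀ g)) with hW2
  refine RunA.sq_cons ((run_invC hP (V := W2) (o := o) ((hg.cst.upd (by decide) _).upd (by omega) _)
    (by rw [hq _ (by decide), hz _ rfl]) (by rw [hq _ (by decide), hz _ rfl])
    (by rw [hq _ (by decide), hz _ rfl])
    (by rw [hq _ (by decide)]; exact hz2 _ rfl (by simp) (by simp))
    (by rw [upd_ne hk0.symm, upd_self]) (by rw [hq _ (by decide), ho]) ho1 ho2).mono
      (Nat.zero_le _)) ?_
  rw [upd_comm hk0, upd_upd]
  refine RunA.sq_cons (((run_swp hP hk (V0 := fun i => -((o : ZMod P.p)⁻¹ * W2 i)) (V := V0)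
    (by rw [upd_ne hk0.symm, upd_self])
    (by rw [upd_self]) (by rw [hq _ (by decide), hz _ rfl])).mono (Nat.zero_le _)).cast ?_)
    RunA.sq_nil
  rw [upd_comm hk0, upd_upd, upd_upd, ← hV0, upd_eq_self]
  congr 2
  funext i
  have h2 : (o : ZMod P.p) ≠ 0 := by
    intro h3
    rw [ZMod.natCast_eq_zero_iff] at h3
    exact absurd (Nat.le_of_dvd ho1 h3) (by omega)
  rw [hW2, Pi.add_apply, hW, Nat.cast_sub hP.prime.one_le, ZMod.natCast_self, Nat.cast_one]
  field_simp
  ring

theorem OkH.mono {v₀ g K' F' : ℕ} (hK : K ≤ K') (hF : F ≤ F')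
    (h : OkH X cc A body P S O l v₀ g K F) : OkH X cc A body P S O l v₀ g K' F' :=
  fun s V h1 h2 h3 h4 h5 h6 h7 h8 => (h s V h1 h2 h3 h4 h5 h6 h7
    ((Nat.mul_le_mul_left _ hF).trans h8)).mono hK

theorem run_omC {v₀ τ j' o K' F' : ℕ} (h : OC X cc A body P S E O l K F) (hK : K ≤ K')
    (hF : F ≤ F') (hF1 : 1 ≤ F)
    (hH1 : OkH X cc A body P S O l v₀ (τ - 1) K' F') (hH2 : OkH X cc A body P S O l v₀ j' K' F')
    {s : Rg → ℕ} (hg : Gd P s) (hlev : s .lev = l + 1) (hv : s .v = v₀) (ht : s .t = τ)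
    (hτ1 : 1 ≤ τ) (hτ2 : τ ≤ P.T) (hj : s .j = j' + 1) (hj' : j' < τ) (ho : s .om = o)
    (ho1 : 0 < o) (ho2 : o < P.p)
    (hz2 : ∀ q : Rg, q.kd = 2 → q ≠ .j → q ≠ .om → s q = 0) (hres : s .res = 0)
    {V V₁ V₂ : ℕ → ZMod P.p} (h0 : s .R0 = encZ P.m V) (h1 : s .R1 = encZ P.m V₁)
    (h2 : s .R2 = encZ P.m V₂) (hS : (s .S + 1) * (P.cw ^ 3 * F') ≤ A) :
    RunA X cc A body K' (omC E) s (upd s .R0 (encZ P.m (V + evl P.p P.m (indN P.N τ j')
      (gN S O P.N τ)
      (fun i => (o : ZMod P.p) * V₁ i + bt P.p (pk P.N (S.hist O P.N v₀ (τ - 1))) i)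
      (fun i => (o : ZMod P.p) * V₂ i + bt P.p (pk P.N (S.hist O P.N v₀ j')) i)))) := by
  have hP := h.hP
  have hNb := hP.N_lt
  have hT := hP.hT
  have hw1 := hP.hcw1
  have hw2 := hP.hcw2
  have hS' : (s .S + 1) * F ≤ A := by
    refine le_trans (Nat.mul_le_mul_left _ ?_) hS
    exact hF.trans (Nat.le_mul_of_pos_left _ (Nat.pow_pos (by omega)))
  have hF1' : 1 ≤ F' := hF1.trans hF
  have hz0 : ∀ q : Rg, q.kd = 2 → q ≠ .j → q ≠ .om → s q = 0 := hz2
  refine RunA.sq_cons (run_segA (g := τ - 1) (o := o) hP hH1 hF1' (Or.inl rfl) hg hlev hv (by omega)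
    (by omega) (by omega) ho hz2 hres h1 (fun r₁ r₂ => by simp [ht]) (by omega) hS) ?_
  refine RunA.sq_cons (run_segA (g := j') (o := o) hP hH2 hF1' (Or.inr rfl) (hg.upd4 rfl _)
    (by simp [hlev]) (by simp [hv]) (by simp; omega) (by simp; omega) (by simp; omega)
    (by simp [ho]) (fun q e1 e2 e3 => by
      rw [upd_ne (fun e => by rw [e] at e1; exact absurd e1 (by decide))]; exact hz2 q e1 e2 e3)
    (by simp [hres]) (V := V₂) (by simp [h2]) (fun r₁ r₂ => by simp [hj]) (by omega)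
    (by simpa using hS)) ?_
  refine RunA.sq_cons ((run_evC h ((hg.upd4 rfl _).upd4 rfl _) (by simp [hlev])
    (by simp [hz2 .a rfl]) (by simp [hres]) (by simp [hz2 .k2 rfl]) (by simp [hz2 .e rfl])
    (by simp [hz2 .w rfl]) (by simp [hz2 .cd rfl]) (by simp [hz2 .k1 rfl]) (by simp [hz2 .tg rfl])
    (by simp [hz2 .r rfl]) (by simp [hz2 .st rfl]) (by simp [hz2 .c rfl]) (by simp [hz2 .x rfl])
    (by simp [hz2 .y rfl]) (by simp; omega) (by simp; omega) (V := V) (U₁ := fun i =>
      (o : ZMod P.p) * V₁ i + bt P.p (pk P.N (S.hist O P.N v₀ (τ - 1))) i) (U₂ := fun i =>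
      (o : ZMod P.p) * V₂ i + bt P.p (pk P.N (S.hist O P.N v₀ j')) i) (by simp [h0]) (by simp)
      (by simp) (by simpa using hS')).mono hK) ?_
  simp only [upd_ne, ne_eq, reduceCtorEq, not_false_eq_true, ht, hj, Nat.add_sub_cancel]
  generalize (V + evl P.p P.m (indN P.N τ j') (gN S O P.N τ)
    (fun i => (o : ZMod P.p) * V₁ i + bt P.p (pk P.N (S.hist O P.N v₀ (τ - 1))) i)
    (fun i => (o : ZMod P.p) * V₂ i + bt P.p (pk P.N (S.hist O P.N v₀ j')) i)) = W at *
  have hkd : ∀ q : Rg, q.kd = 2 → q ≠ .j → q ≠ .om → ∀ r₁ r₂ r₃,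
      upd (upd (upd s .R1 r₁) .R2 r₂) .R0 r₃ q = 0 := fun q e1 e2 e3 r₁ r₂ r₃ => by
    rw [upd_ne (fun e => by rw [e] at e1; exact absurd e1 (by decide)),
      upd_ne (fun e => by rw [e] at e1; exact absurd e1 (by decide)),
      upd_ne (fun e => by rw [e] at e1; exact absurd e1 (by decide))]
    exact hz2 q e1 e2 e3
  refine RunA.sq_cons (run_segB (g := τ - 1) (o := o) hP hH1 hF1' (Or.inl rfl)
    (((hg.upd4 rfl _).upd4 rfl _).upd4 rfl _) (by simp [hlev]) (by simp [hv]) (by simp; omega)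
    (by simp; omega) (by simp; omega) (by simp [ho]) ho1 ho2 (fun q e1 e2 e3 => hkd q e1 e2 e3 _ _ _)
    (by simp [hres]) (V := V₁) (by simp) (fun r₁ r₂ => by simp [ht]) (by omega)
    (by simpa using hS)) ?_
  have hR1 : upd s .R1 (encZ P.m V₁) = s := by rw [← h1, upd_eq_self]
  rw [upd_comm (i := Rg.R0) (j := Rg.R1) (by simp), upd_comm (i := Rg.R2) (j := Rg.R1) (by simp),
    upd_upd, hR1]
  refine RunA.sq_cons ((run_segB (g := j') (o := o) hP hH2 hF1' (Or.inr rfl)
    ((hg.upd4 rfl _).upd4 rfl _) (by simp [hlev]) (by simp [hv]) (by simp; omega)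
    (by simp; omega) (by simp; omega) (by simp [ho]) ho1 ho2 (fun q e1 e2 e3 => by
      have e4 := hkd q e1 e2 e3 (s .R1) (encZ P.m fun i => (o : ZMod P.p) * V₂ i +
        bt P.p (pk P.N (S.hist O P.N v₀ j')) i) (encZ P.m W)
      rw [upd_eq_self] at e4
      exact e4)
    (by simp [hres]) (V := V₂) (by simp) (fun r₁ r₂ => by simp [hj]) (by omega)
    (by simpa using hS)).cast ?_) RunA.sq_nil
  rw [upd_comm (i := Rg.R0) (j := Rg.R2) (by simp), upd_upd, ← h2, upd_eq_self]

theorem indN_eq {N τ j x : ℕ} : indN N τ j x = if j = ptrN N τ x then 1 else 0 := by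
  unfold indN
  split_ifs with h
  · rw [h]; omega
  · omega

/-- The procedure `hist` works. -/
theorem run_hist {v₀ : ℕ} (h : OC X cc A body P S E O l K F) (hbody : body .hist = histC E)
    (hv₀ : v₀ < P.N) (hF1 : 1 ≤ F) (τ : ℕ) :
    τ ≤ P.T → OkH X cc A body P S O l v₀ τ (K + 1 + τ) (F * P.cw ^ (3 * τ)) := by
  induction τ using Nat.strongRecOn with
  | ind τ ih =>
    intro hτ s V hg hlev hv ht h0 hz2 hres hS
    have hP := h.hP
    have := hP.fact
    have hNb := hP.N_lt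
    have hbA := hP.hA1
    have hT := hP.hT
    have hw1 := hP.hcw1
    have hw2 := hP.hcw2
    have hpb := hP.hcb2
    have hN := hP.hN
    have hA3 := hP.hA3
    have hp2 := hP.prime.two_le
    have hb4 := h.hP.hcb1
    have hcp : s .cp = P.p := hg.cst.cp
    have hcN : s .cN = P.N := hg.cst.cN
    rw [show K + 1 + τ = (K + τ) + 1 by omega]
    refine RunA.call _ _ _ _ ?_
    rw [hbody]
    unfold histC
    cases τ with
    | zero =>
      have hle := pk_le hN (h := ⟨v₀, 0, 0, 0, 1, 0⟩) hv₀.le (by simp) (by simp) (by simp) (by simp)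
        (by simp)
      refine RunA.iteF _ _ _ _ _ _ ht (((run_vec hP hg.cst (hg.ze _ rfl) (hg.ze _ rfl) h0 1 1
        (pk P.N ⟨v₀, 0, 0, 0, 1, 0⟩) (by simp) (by simp) (by simp [pkE, pk, hcN, hv])
        (by omega)).mono (Nat.zero_le _)).cast ?_)
      rw [Sys.hist_zero]
      congr 2
      funext i
      simp
    | succ τ =>
      refine RunA.iteT _ _ _ _ _ _ (by rw [ht]; omega) ?_
      obtain ⟨V₁, hV₁⟩ := hg.ve .R1 rfl
      obtain ⟨V₂, hV₂⟩ := hg.ve .R2 rfl
      set sg : ℕ → ℕ := fun n => pk P.N (S.hist O P.N v₀ n) with hsg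
      set f : ℕ → ℕ → ℕ → ZMod P.p := fun n k => evl P.p P.m (indN P.N (τ + 1) n)
        (gN S O P.N (τ + 1)) (fun i => ((k + 1 : ℕ) : ZMod P.p) * V₁ i + bt P.p (sg τ) i)
        (fun i => ((k + 1 : ℕ) : ZMod P.p) * V₂ i + bt P.p (sg n) i) with hf
      have hHSB : ∀ n ≤ P.T, HSB P.N (S.hist O P.N v₀ n) ∧ (S.hist O P.N v₀ n).par ≤ n :=
        fun n hn => ⟨(hist_HSB h.hC h.hr h.hO hv₀ hT n hn).1, (hist_HSB h.hC h.hr h.hO hv₀ hT n hn).2.2⟩
      have hsum : ∑ n ∈ range (τ + 1), ∑ k ∈ range (P.p - 1), f n k =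
          bt P.p (pk P.N (S.hist O P.N v₀ (τ + 1))) := by
        funext i
        rw [Finset.sum_apply]
        have e1 : ∀ n ∈ range (τ + 1), (∑ k ∈ range (P.p - 1), f n k) i =
            (indN P.N (τ + 1) n (sg τ) : ZMod P.p) * bt P.p (gN S O P.N (τ + 1) (sg τ) (sg n)) i := by
          intro n hn
          rw [Finset.sum_apply]
          exact cook_mertz_sum hP.hm _ _ V₁ V₂ ((pk_lt (hHSB τ (by omega)).1).trans_le hP.h4)
            ((pk_lt (hHSB n (by have := mem_range.1 hn; omega)).1).trans_le hP.h4) i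
        rw [sum_congr rfl e1, sum_eq_single_of_mem (ptrN P.N (τ + 1) (sg τ))]
        · rw [indN_eq, if_pos rfl, Nat.cast_one, one_mul]
          congr 1
          rw [gN, hsg]
          simp only
          rw [upk_pk (hHSB τ (by omega)).1, upk_pk, Sys.hist_succ, Nat.add_sub_cancel, ptrN,
            upk_pk (hHSB τ (by omega)).1, Nat.add_sub_cancel]
          · congr 3
            omega
          · refine (hHSB _ ?_).1
            have := (hHSB τ (by omega)).2
            rw [ptrN, upk_pk (hHSB τ (by omega)).1]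
            omega
        · rw [mem_range, ptrN]
          omega
        · intro n _ hn
          rw [indN_eq, if_neg hn, Nat.cast_zero, zero_mul]
      rw [← hsum]
      refine RunA.sq_set (τ + 1) (by simp [ht]) (by omega) ?_
      refine RunA.sq_cons ((RunA.loop_sum (p := P.p) .j _ (fun V n => upd (upd s .R0 (encZ P.m V))
        .j n) (by simp) (fun n => ∑ k ∈ range (P.p - 1), f n k) (τ + 1)
        (fun n hn V => ?_) V).congr_left ?_) (RunA.sq_nil.cast ?_)
      · refine RunA.sq_set (P.p - 1) (by simp [hcp]) (by omega) ?_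
        refine RunA.sq_cons ((RunA.loop_sum (p := P.p) .om _ (fun V k => upd (upd (upd s .R0
          (encZ P.m V)) .j (n + 1)) .om k) (by simp) (f n) (P.p - 1) (fun k hk V => ?_)
          V).congr_left ?_) (RunA.sq_set n (by simp) (by omega) (RunA.sq_nil.cast ?_))
        · have hg' := ((hg.upd4 (q := .R0) rfl V).upd (q := .j) (v := n + 1) (Or.inr rfl)
            (by omega)).upd (q := .om) (v := k + 1) (Or.inr rfl) (by omega)
          have hH1 := (ih τ (Nat.lt_succ_self _) (by omega)).mono (K' := K + (τ + 1))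
            (F' := F * P.cw ^ (3 * τ)) (by omega) le_rfl
          have hH2 := (ih n hn (by omega)).mono (K' := K + (τ + 1))
            (F' := F * P.cw ^ (3 * τ)) (by omega) (Nat.mul_le_mul_left _
              (Nat.pow_le_pow_right (by omega) (by omega)))
          refine RunA.sq_cons (run_omC (τ := τ + 1) (j' := n) (o := k + 1) h (by omega)
            (Nat.le_mul_of_pos_right _ (Nat.pow_pos (by omega))) hF1 hH1 hH2 hg' (by simp [hlev])
            (by simp [hv]) (by simp [ht]) (by omega) hτ (by simp) hn (by simp) (by omega) (by omega)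
            (fun q e1 e2 e3 => ?_) (by simp [hres]) (V := V) (V₁ := V₁) (V₂ := V₂) (by simp)
            (by simp [hV₁]) (by simp [hV₂]) ?_) (RunA.sq_set k (by simp) (by omega)
            (RunA.sq_nil.cast ?_))
          · rw [upd_ne e3, upd_ne e2, upd_ne (fun e => by rw [e] at e1; exact absurd e1 (by decide))]
            exact hz2 q e1
          · simp only [upd_ne, ne_eq, reduceCtorEq, not_false_eq_true]
            refine (le_of_eq ?_).trans hS
            ring
          · funext q; cases q <;> simp [hf, hsg]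
        · funext q; cases q <;> simp
        · funext q; cases q <;> simp [hz2 .om rfl]
      · rw [← h0]
        funext q; cases q <;> simp
      · funext q; cases q <;> simp [hz2 .j rfl]

end

end Pool.Agent.Lib.MP_9277c3_lc.CM
end

section
/-!
# Correctness of the evaluation by levels
-/
namespace Pool.Agent.Lib.MP_9277c3_lc.CM

open Finset

/-- The stack after a list of registers has been pushed. -/
def encS (b : ℕ) (s : Rg → ℕ) : List Rg → ℕ → ℕ
  | [], v => v
  | q :: l, v => encS b s l (v * b + s q)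

open Classical in
/-- The state which agrees with `s` on the list `L` and with `t` elsewhere. -/
noncomputable def ovr (L : List Rg) (s t : Rg → ℕ) : Rg → ℕ := fun q => if q ∈ L then s q else t q

theorem ovr_pos {L : List Rg} {q : Rg} (h : q ∈ L) (s t : Rg → ℕ) : ovr L s t q = s q := by
  rw [ovr, if_pos h]

theorem ovr_neg {L : List Rg} {q : Rg} (h : q ∉ L) (s t : Rg → ℕ) : ovr L s t q = t q := by
  rw [ovr, if_neg h]

section

variable {α : Type} {X : List α} {cc : Cell α → ℕ} {A : ℕ} {body : Pr → Prg} {P : Par} {S : Sys}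
  {E : SysE} {O : ℕ → ℕ} {l K F : ℕ}

theorem encS_le {b : ℕ} {s : Rg → ℕ} (L : List Rg) (hL : ∀ q ∈ L, s q < b) : ∀ v,
    encS b s L v + 1 ≤ (v + 1) * b ^ L.length := by
  induction L with
  | nil => intro v; simp [encS]
  | cons q L ih =>
    intro v
    refine (ih (fun q hq => hL q (List.mem_cons_of_mem _ hq)) _).trans ?_
    rw [List.length_cons, pow_succ']
    have h1 := push_le (S := v) (hL q List.mem_cons_self)
    calc (v * b + s q + 1) * b ^ L.length ≤ ((v + 1) * b) * b ^ L.length :=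
          Nat.mul_le_mul_right _ h1
      _ = (v + 1) * (b * b ^ L.length) := by ring

theorem le_encS {b : ℕ} (hb : 0 < b) {s : Rg → ℕ} (L : List Rg) : ∀ v, v ≤ encS b s L v := by
  induction L with
  | nil => intro v; exact le_rfl
  | cons q L ih =>
    intro v
    exact ((Nat.le_mul_of_pos_right v hb).trans (Nat.le_add_right _ _)).trans (ih _)

theorem run_pushL {b k : ℕ} {s : Rg → ℕ} (hcb : s .cb = b) (hb : 0 < b) (L : List Rg)
    (hL : ∀ q ∈ L, s q < b ∧ q ≠ .S) : ∀ v, (v + 1) * b ^ L.length ≤ A →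
    RunA X cc A body k (pushL L) (upd s .S v) (upd s .S (encS b s L v)) := by
  induction L with
  | nil => intro v _; exact RunA.skip _ _
  | cons q L ih =>
    intro v hv
    have hq := hL q List.mem_cons_self
    have h1 := push_le (S := v) hq.1
    have h2 : (v * b + s q + 1) * b ^ L.length ≤ A := by
      refine le_trans ?_ hv
      rw [List.length_cons, pow_succ']
      calc (v * b + s q + 1) * b ^ L.length ≤ ((v + 1) * b) * b ^ L.length :=
            Nat.mul_le_mul_right _ h1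
        _ = (v + 1) * (b * b ^ L.length) := by ring
    have h3 : v * b + s q < A := lt_of_lt_of_le (Nat.lt_succ_self _)
      ((Nat.le_mul_of_pos_right _ (Nat.pow_pos hb)).trans h2)
    refine RunA.seq _ _ _ _ _ _ (RunA.set' (v * b + s q) ?_ h3) ?_
    · simp only [eval_add, eval_mul, eval_var, upd_self, upd_ne, ne_eq, reduceCtorEq,
        not_false_eq_true, hcb]
      rw [upd_ne hq.2]
    · rw [upd_upd]
      exact ih (fun q' hq' => hL q' (List.mem_cons_of_mem _ hq')) _ h2

theorem run_popL {b k : ℕ} {s : Rg → ℕ} (hb : 0 < b) (hbA : b ≤ A) (L : List Rg)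
    (hL : ∀ q ∈ L, s q < b ∧ q ≠ .S ∧ q ≠ .cb) : ∀ (v : ℕ) (t : Rg → ℕ), t .cb = b →
    t .S = encS b s L v → (v + 1) * b ^ L.length ≤ A →
    RunA X cc A body k (popL L) t (upd (ovr L s t) .S v) := by
  induction L with
  | nil =>
    intro v t _ h1 _
    refine (RunA.skip _ _).cast ?_
    funext q
    by_cases hq : q = .S
    · rw [hq, upd_self, h1, encS]
    · rw [upd_ne hq, ovr_neg (by simp)]
  | cons q L ih =>
    intro v t hcb h1 hv
    obtain ⟨hq1, hq2, hq3⟩ := hL q List.mem_cons_self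
    have h2 := push_le (S := v) hq1
    have h3 : (v * b + s q + 1) * b ^ L.length ≤ A := by
      refine le_trans ?_ hv
      rw [List.length_cons, pow_succ']
      calc (v * b + s q + 1) * b ^ L.length ≤ ((v + 1) * b) * b ^ L.length :=
            Nat.mul_le_mul_right _ h2
        _ = (v + 1) * (b * b ^ L.length) := by ring
    have h4 : v * b + s q < A := lt_of_lt_of_le (Nat.lt_succ_self _)
      ((Nat.le_mul_of_pos_right _ (Nat.pow_pos hb)).trans h3)
    have h5 : v ≤ v * b := Nat.le_mul_of_pos_right v hb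
    have hL' : ∀ q' ∈ L, s q' < b ∧ q' ≠ .S ∧ q' ≠ .cb := fun q' hq' =>
      hL q' (List.mem_cons_of_mem _ hq')
    have hcbL : Rg.cb ∉ L := fun h => (hL' _ h).2.2 rfl
    refine RunA.seq _ _ _ _ _ _ (ih hL' (v * b + s q) t hcb h1 h3) (RunA.seq _ _ _ _ _ _
      (RunA.set' (s q) ?_ (by omega)) ((RunA.set' v ?_ (by omega)).cast ?_))
    · simp [ovr_neg hcbL, hcb, push_mod hq1]
    · rw [eval_div, eval_var, eval_var, upd_ne (Ne.symm hq2), upd_ne (Ne.symm hq3)]
      simp [ovr_neg hcbL, hcb, push_div hq1]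
    · funext q'
      by_cases e1 : q' = .S
      · rw [e1, upd_self, upd_self]
      · rw [upd_ne e1, upd_ne e1]
        by_cases e2 : q' = q
        · rw [e2, upd_self, ovr_pos List.mem_cons_self]
        · rw [upd_ne e2, upd_ne e1]
          by_cases e3 : q' ∈ L
          · rw [ovr_pos e3, ovr_pos (List.mem_cons_of_mem _ e3)]
          · rw [ovr_neg e3, ovr_neg (by simp [e2, e3])]

theorem run_zeroL {k : ℕ} (hA : 0 < A) (L : List Rg) : ∀ s : Rg → ℕ,
    RunA X cc A body k (zeroL L) s (ovr L (fun _ => 0) s) := by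
  induction L with
  | nil =>
    intro s
    refine (RunA.skip _ _).cast ?_
    funext q
    rw [ovr_neg (by simp)]
  | cons q L ih =>
    intro s
    refine RunA.seq _ _ _ _ _ _ (RunA.set' 0 (by simp) hA) ((ih _).cast ?_)
    funext q'
    by_cases e3 : q' ∈ L
    · rw [ovr_pos e3, ovr_pos (List.mem_cons_of_mem _ e3)]
    · rw [ovr_neg e3]
      by_cases e2 : q' = q
      · rw [e2, upd_self, ovr_pos List.mem_cons_self]
      · rw [upd_ne e2, ovr_neg (by simp [e2, e3])]

theorem run_digC {k : ℕ} (hP : PB P A) {s : Rg → ℕ} (hc : Cst P s) (hvr : s .vr = 0)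
    (hvi : s .vi = 0) {V : ℕ → ZMod P.p} (h0 : s .R0 = encZ P.m V) {iv : ℕ} (hi : s .i = iv + 1)
    (hiv : iv < P.m) :
    RunA X cc A body k digC s (upd s .vr (encZ P.m V / P.p ^ iv)) := by
  have hm := hP.m_lt
  have hE := hP.enc_lt V
  have hcp : s .cp = P.p := hc.cp
  refine RunA.sq_set (encZ P.m V) (by simp [h0]) hE (RunA.sq_set iv (by simp [hi]) (by omega) ?_)
  refine RunA.sq_cons (RunA.loop .vi _ (fun n => upd (upd s .vr (encZ P.m V / P.p ^ (iv - n)))
    .vi n) (by simp) iv (fun n hn => ?_) ?_ rfl) (RunA.sq_nil.cast ?_)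
  · refine RunA.sq_set (encZ P.m V / P.p ^ (iv - n)) ?_ ((Nat.div_le_self _ _).trans_lt hE)
      (RunA.sq_set n (by simp) (by omega) (RunA.sq_nil.cast ?_))
    · simp [hcp]
      rw [Nat.div_div_eq_div_mul, ← pow_succ, show iv - (n + 1) + 1 = iv - n by omega]
    · funext q; cases q <;> simp
  · rw [Nat.sub_self, pow_zero, Nat.div_one]
  · rw [Nat.sub_zero]
    funext q; cases q <;> simp [hvi]

theorem run_bitC {v₀ : ℕ} (hP : PB P A) (hH : OkH X cc A body P S O l v₀ P.T K F)
    {s : Rg → ℕ} (hg : Gd P s) (hlev : s .lev = l + 1) (hv : s .v = v₀) (ht : s .t = P.T)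
    (hz2 : ∀ q : Rg, q.kd = 2 → s q = 0) (hres : s .res = 0) (hd0 : s .d0 = 0)
    {V : ℕ → ZMod P.p} (h0 : s .R0 = encZ P.m V) {iv : ℕ} (hi : s .i = iv + 1) (hiv : iv < P.m)
    (hacc : 2 * s .acc + 1 < P.cb)
    (hS : (s .S + 1) * F ≤ A) :
    RunA X cc A body K bitC s (upd (upd s .acc (2 * s .acc +
      pk P.N (S.hist O P.N v₀ P.T) / 2 ^ iv % 2)) .i iv) := by
  have := hP.fact
  have hbA := hP.hA1
  have hpb := hP.hcb2
  have hp2 := hP.prime.two_le
  have hb4 := hP.hcb1
  have hcp : s .cp = P.p := hg.cst.cp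
  have hz : ∀ q : Rg, q.kd = 3 → s q = 0 := hg.ze
  have hmb : P.m < P.cb := by
    have := Nat.lt_two_pow_self (n := P.m)
    omega
  have hib : s .i < P.cb := hg.sm _ (Or.inl rfl)
  set σ := pk P.N (S.hist O P.N v₀ P.T) with hσ
  have hdlt : (V iv).val < P.p := ZMod.val_lt _
  refine RunA.sq_cons (run_digC hP hg.cst (hz _ rfl) (hz _ rfl) h0 hi hiv) ?_
  refine RunA.sq_set (V iv).val (by simp [hcp, encZ_digit hiv]) (by omega)
    (RunA.sq_set 0 (by simp) (by omega) ?_)
  have hst : upd (upd (upd s .vr (encZ P.m V / P.p ^ iv)) .d0 (V iv).val) .vr 0 =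
      upd s .d0 (V iv).val := by
    funext q; cases q <;> simp [hz .vr rfl]
  rw [hst]
  have hg1 : Gd P (upd s .d0 (V iv).val) := hg.upd (Or.inl rfl) (by omega)
  have hkd : ∀ q : Rg, q.kd = 2 → ∀ r₁ r₂ r₃, upd (upd (upd s .d0 r₁) .R0 r₂) .acc r₃ q = 0 :=
    fun q e1 r₁ r₂ r₃ => by
      rw [upd_ne (fun e => by rw [e] at e1; exact absurd e1 (by decide)),
        upd_ne (fun e => by rw [e] at e1; exact absurd e1 (by decide)),
        upd_ne (fun e => by rw [e] at e1; exact absurd e1 (by decide))]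
      exact hz2 q e1
  refine RunA.sq_cons (hH _ V hg1 (by simp [hlev]) (by simp [hv]) (by simp [ht]) (by simp [h0])
    (fun q e1 => by
      rw [upd_ne (fun e => by rw [e] at e1; exact absurd e1 (by decide))]; exact hz2 q e1)
    (by simp [hres]) (by simpa using hS)) ?_
  rw [← hσ]
  refine RunA.sq_cons (run_digC hP (hg1.cst.upd (by decide) _) (by simp [hz .vr rfl])
    (by simp [hz .vi rfl]) (V := V + bt P.p σ) (by simp) (iv := iv) (by simp [hi]) hiv) ?_
  have hbit : (((V + bt P.p σ) iv).val + P.p - (V iv).val) % P.p = σ / 2 ^ iv % 2 := by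
    have e1 : σ / 2 ^ iv % 2 = (σ / 2 ^ iv % 2) % P.p := (Nat.mod_eq_of_lt (by omega)).symm
    rw [e1, ← ZMod.natCast_eq_natCast_iff', Nat.cast_sub (by omega), Nat.cast_add,
      ZMod.natCast_self, ZMod.natCast_val, ZMod.cast_id', id_eq, ZMod.natCast_val, ZMod.cast_id',
      id_eq, Pi.add_apply, bt]
    ring
  have hb2 : σ / 2 ^ iv % 2 < 2 := Nat.mod_lt _ (by norm_num)
  refine RunA.sq_set (2 * s .acc + σ / 2 ^ iv % 2) ?_ (by omega) ?_
  · simp only [eval_add, eval_mul, eval_sub, eval_mod, eval_var, eval_ofNat, upd_self, upd_ne,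
      ne_eq, reduceCtorEq, not_false_eq_true, hcp, encZ_digit hiv, hbit]
  · refine RunA.sq_set 0 (by simp) (by omega) ?_
    have hst2 : upd (upd (upd (upd (upd s .d0 (V iv).val) .R0 (encZ P.m (V + bt P.p σ))) .vr
        (encZ P.m (V + bt P.p σ) / P.p ^ iv)) .acc (2 * s .acc + σ / 2 ^ iv % 2)) .vr 0 =
        upd (upd (upd s .d0 (V iv).val) .R0 (encZ P.m (V + bt P.p σ))) .acc
          (2 * s .acc + σ / 2 ^ iv % 2) := by
      funext q; cases q <;> simp [hz .vr rfl]
    rw [hst2]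
    have hc2 : ∀ r, Cst P (upd (upd (upd s .d0 (V iv).val) .R0 r) .acc
        (2 * s .acc + σ / 2 ^ iv % 2)) := fun r =>
      ((hg1.cst.upd (by decide) _).upd (by decide) _)
    refine RunA.sq_cons ((run_scale hP (V := V + bt P.p σ) (hc2 _) (by simp [hz .vz rfl])
      (by simp [hz .vi rfl]) (by simp) (P.p - 1) (fun R z i => by simp [hcp])).mono
        (Nat.zero_le _)) ?_
    have hst3 : ∀ r r', upd (upd (upd (upd s .d0 (V iv).val) .R0 r) .acc
        (2 * s .acc + σ / 2 ^ iv % 2)) .R0 r' = upd (upd (upd s .d0 (V iv).val) .R0 r') .acc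
        (2 * s .acc + σ / 2 ^ iv % 2) := fun r r' => by
      rw [upd_comm (i := Rg.acc) (j := Rg.R0) (by simp), upd_upd]
    rw [hst3]
    have hg3 : ∀ W : ℕ → ZMod P.p, Gd P (upd (upd (upd s .d0 (V iv).val) .R0 (encZ P.m W)) .acc
        (2 * s .acc + σ / 2 ^ iv % 2)) := fun W =>
      (hg1.upd4 rfl W).upd (Or.inl rfl) (by omega)
    refine RunA.sq_cons (hH _ (fun i => ((P.p - 1 : ℕ) : ZMod P.p) * (V + bt P.p σ) i) (hg3 _)
      (by simp [hlev]) (by simp [hv]) (by simp [ht]) (by simp)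
      (fun q e1 => hkd q e1 _ _ _) (by simp [hres]) (by simpa using hS)) ?_
    rw [hst3, ← hσ]
    refine RunA.sq_cons ((run_scale hP (V := (fun i => ((P.p - 1 : ℕ) : ZMod P.p) *
      (V + bt P.p σ) i) + bt P.p σ) (hc2 _) (by simp [hz .vz rfl])
      (by simp [hz .vi rfl]) (by simp) (P.p - 1) (fun R z i => by simp [hcp])).mono
        (Nat.zero_le _)) ?_
    rw [hst3]
    have hV : (fun i => ((P.p - 1 : ℕ) : ZMod P.p) * ((fun i => ((P.p - 1 : ℕ) : ZMod P.p) *
        (V + bt P.p σ) i) + bt P.p σ) i) = V := by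
      funext i
      simp only [Pi.add_apply]
      rw [Nat.cast_sub hP.prime.one_le, ZMod.natCast_self, Nat.cast_one]
      ring
    rw [hV]
    refine RunA.sq_set 0 (by simp) (by omega) (RunA.sq_set iv (by simp [hi]) (by omega)
      (RunA.sq_nil.cast ?_))
    rw [← h0]
    funext q; cases q <;> simp [hd0]

theorem mem_saved (q : Rg) : q ∈ saved ↔ q.kd = 1 ∨ q.kd = 2 := by
  cases q <;> simp [saved, Rg.kd]

theorem ovr_saved (s t : Rg → ℕ) (q : Rg) : ovr saved s t q =
    if q.kd = 1 ∨ q.kd = 2 then s q else t q := by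
  by_cases h : q ∈ saved
  · rw [ovr_pos h, if_pos ((mem_saved q).1 h)]
  · rw [ovr_neg h, if_neg (fun h' => h ((mem_saved q).2 h'))]

theorem Gd.zero {s : Rg → ℕ} (h : Gd P s) (hb : 0 < P.cb) : Gd P (ovr saved (fun _ => 0) s) where
  cst := h.cst.of_eq fun q hq => by rw [ovr_saved, if_neg (by omega)]
  sm q hq := by rw [ovr_saved, if_pos hq]; exact hb
  ze q hq := by rw [ovr_saved, if_neg (by omega)]; exact h.ze q hq
  ve q hq := by rw [ovr_saved, if_neg (by omega)]; exact h.ve q hq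

/-- The stack needed on level `l`. -/
def FS (P : Par) (l : ℕ) : ℕ := (P.cb ^ saved.length * P.cw ^ (3 * P.T)) ^ l

/-- The nesting depth on level `l`. -/
def KS (P : Par) (l : ℕ) : ℕ := 1 + l * (P.T + 2)

/-- The evaluation by levels is correct. -/
theorem run_small (hP : PB P A) (hI : Impl X cc S P.n E) (hC : Sys.Closed S P.N)
    (hr : ∀ v, S.nx v + 1 < P.N) (htag : ∀ v, S.tag v ≤ 2)
    (hb1 : body .small = smallC E) (hb2 : body .hist = histC E) (l : ℕ) (hl : l < A) :
    ∀ s : Rg → ℕ, Gd P s → s .lev = l → s .a < P.N → (s .S + 1) * FS P l ≤ A →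
      RunA X cc A body (KS P l) (Stmt.call Pr.small) s (upd s .res (S.small P.N P.T l (s .a))) := by
  induction l with
  | zero =>
    intro s hg hlev ha hS
    have hcn : s .cn = P.n := hg.cst.cn
    have hNb := hP.N_lt
    have hbA := hP.hA1
    have h1 := hr (s .a)
    rw [KS, Nat.zero_mul, Nat.add_zero]
    refine RunA.call 0 _ _ _ ?_
    rw [hb1]
    refine RunA.iteF _ _ _ _ _ _ hlev (RunA.set' _ ?_ ?_)
    · simp only [eval_mul, eval_sub, eval_add, eval_one, hI.tag s _ hcn, hI.nx s _ hcn, eval_var]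
      rw [Sys.small]
      by_cases h0 : S.tag (s .a) = 0
      · rw [if_pos h0, h0]
        omega
      · rw [if_neg h0, show 1 - S.tag (s .a) = 0 by omega, Nat.zero_mul]
    · rw [Sys.small]
      split_ifs <;> omega
  | succ l ih =>
    intro s hg hlev ha hS
    have hF1 : 1 ≤ FS P l := Nat.one_le_iff_ne_zero.2 (by
      unfold FS
      have h1 : 0 < P.cb := by have := hP.N_lt; omega
      have h2 : 0 < P.cw := by have := hP.hcw1; omega
      positivity)
    have hoc : OC X cc A body P S E (S.small P.N P.T l) l (KS P l) (FS P l) :=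
      { hP := hP, hI := hI, hC := hC, hr := hr, htag := htag
        hO := fun v hv => small_lt hC hr P.T l hv
        hl := hl, ok := ih (by omega) }
    have hH := run_hist (v₀ := s .a) hoc hb2 ha hF1 P.T le_rfl
    have hNb := hP.N_lt
    have hbA := hP.hA1
    have hb4 := hP.hcb1
    have hT := hP.hT
    have hN := hP.hN
    have hb0 : 0 < P.cb := by omega
    have hcb : s .cb = P.cb := hg.cst.cb
    have hcT : s .cT = P.T := hg.cst.cT
    have hcm : s .cm = P.m := hg.cst.cm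
    have hcN : s .cN = P.N := hg.cst.cN
    have hmb : P.m < P.cb := by
      have := Nat.lt_two_pow_self (n := P.m)
      omega
    have hsv : ∀ q ∈ saved, s q < P.cb ∧ q ≠ .S ∧ q ≠ .cb := fun q hq => by
      refine ⟨hg.sm q ((mem_saved q).1 hq), ?_, ?_⟩ <;> rintro rfl <;>
        simp [saved] at hq
    set F' := FS P l * P.cw ^ (3 * P.T) with hF'
    set S' := encS P.cb s saved (s .S) with hS'
    have e1 : (s .S + 1) * FS P (l + 1) = (s .S + 1) * P.cb ^ saved.length * F' := by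
      rw [FS, pow_succ, hF', FS]
      ring
    have e2 : S' + 1 ≤ (s .S + 1) * P.cb ^ saved.length :=
      encS_le saved (fun q hq => (hsv q hq).1) (s .S)
    have hF'1 : 1 ≤ F' := Nat.one_le_iff_ne_zero.2 (by
      rw [hF']
      have h2 : 0 < P.cw := by have := hP.hcw1; omega
      positivity)
    have e3 : (s .S + 1) * P.cb ^ saved.length ≤ A := by
      refine le_trans ?_ (e1 ▸ hS)
      exact Nat.le_mul_of_pos_right _ (by omega)
    have e4 : (S' + 1) * F' ≤ A := (Nat.mul_le_mul_right _ e2).trans (e1 ▸ hS)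
    have hpush := run_pushL (X := X) (cc := cc) (body := body) (k := KS P l + 1 + P.T) hcb hb0 saved
      (fun q hq => ⟨(hsv q hq).1, (hsv q hq).2.1⟩) (s .S) e3
    rw [upd_eq_self, ← hS'] at hpush
    set σ := pk P.N (S.hist (S.small P.N P.T l) P.N (s .a) P.T) with hσ
    have hHSB := (hist_HSB hC hr (fun v hv => small_lt hC hr P.T l hv) ha hT P.T le_rfl).1
    have hσlt : σ < 2 ^ P.m := (pk_lt hHSB).trans_le hP.h4
    have e5 : KS P (l + 1) = (KS P l + 1 + P.T) + 1 := by
      simp only [KS]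
      ring
    rw [e5]
    refine RunA.call _ _ _ _ ?_
    rw [hb1]
    unfold smallC
    refine RunA.iteT _ _ _ _ _ _ (by rw [hlev]; omega) (RunA.sq_cons hpush ?_)
    refine RunA.sq_set (s .a) (by simp) (by omega) (RunA.sq_cons (run_zeroL (by omega) _ _) ?_)
    refine RunA.sq_set (s .a) (by simp [ovr_saved, Rg.kd]) (by omega) ?_
    refine RunA.sq_set 0 (by simp) (by omega) ?_
    refine RunA.sq_set P.T (by simp [ovr_saved, Rg.kd, hcT]) (by omega) ?_
    refine RunA.sq_set P.m (by simp [ovr_saved, Rg.kd, hcm]) (by omega) ?_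
    set s1 : Rg → ℕ := upd (upd (upd (ovr saved (fun _ => 0) (upd s .S S')) .res 0) .v (s .a)) .t P.T
      with hs1
    have hg1 : Gd P s1 := (((Gd.zero (hg.upd5 (by decide) S') hb0).upd5 (by decide) 0).upd
      (Or.inl rfl) (by omega)).upd (Or.inl rfl) (by omega)
    refine RunA.sq_cons (RunA.loop .i _ (fun n => upd (upd s1 .acc (σ / 2 ^ n)) .i n) (by simp) P.m
      (fun n hn => ?_) ?_ rfl) ?_
    · have h1 : σ / 2 ^ (n + 1) * 2 ≤ σ := by
        rw [pow_succ, ← Nat.div_div_eq_div_mul]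
        exact (Nat.div_mul_le_self _ _).trans (Nat.div_le_self _ _)
      have hg2 : Gd P (upd (upd s1 .acc (σ / 2 ^ (n + 1))) .i (n + 1)) :=
        (hg1.upd (Or.inl rfl) (by omega)).upd (Or.inl rfl) (by omega)
      obtain ⟨V, hV⟩ := hg.ve .R0 rfl
      refine (run_bitC hP hH hg2 (by simp [hs1, ovr_saved, Rg.kd, hlev]) (by simp [hs1])
        (by simp [hs1]) (fun q hq => ?_) (by simp [hs1]) (by simp [hs1, ovr_saved, Rg.kd])
        (V := V) (by simp [hs1, ovr_saved, Rg.kd, hV]) (iv := n) (by simp) hn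
        (by simp; omega) (by simp [hs1, ovr_saved, Rg.kd]; exact e4)).cast ?_
      · rw [upd_ne (fun e => by rw [e] at hq; exact absurd hq (by decide)),
          upd_ne (fun e => by rw [e] at hq; exact absurd hq (by decide)), hs1,
          upd_ne (fun e => by rw [e] at hq; exact absurd hq (by decide)),
          upd_ne (fun e => by rw [e] at hq; exact absurd hq (by decide)),
          upd_ne (fun e => by rw [e] at hq; exact absurd hq (by decide)), ovr_saved, if_pos (Or.inr hq)]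
      · have h2 : 2 * (σ / 2 ^ (n + 1)) + σ / 2 ^ n % 2 = σ / 2 ^ n := by
          rw [pow_succ, ← Nat.div_div_eq_div_mul]
          omega
        simp only [upd_self, upd_ne, ne_eq, reduceCtorEq, not_false_eq_true, ← hσ, h2]
        funext q; cases q <;> simp
    · have h3 : σ / 2 ^ P.m = 0 := Nat.div_eq_of_lt hσlt
      rw [h3, hs1]
      funext q; cases q <;> simp [ovr_saved, Rg.kd]
    · have hup := upk_pk hHSB
      rw [← hσ] at hup
      have hsm : S.small P.N P.T (l + 1) (s .a) = (upk P.N σ).r * (1 - (upk P.N σ).md) := by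
        rw [hup, Sys.small]
        split_ifs with h0
        · rw [h0, Nat.sub_zero, Nat.mul_one]
        · have h1 : 1 - (S.hist (S.small P.N P.T l) P.N (s .a) P.T).md = 0 := by omega
          rw [h1, Nat.mul_zero]
      have hsmN := small_lt hC hr P.T (l + 1) ha
      refine RunA.sq_set (S.small P.N P.T (l + 1) (s .a)) ?_ (by omega) ?_
      · rw [hsm, hs1]
        simp [fr, fmd, upk, ovr_saved, Rg.kd, hcN]
      · refine RunA.sq_cons ((run_popL hb0 hbA saved hsv (s .S) _ ?_ ?_ e3).cast ?_) RunA.sq_nil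
        · simp [hs1, ovr_saved, Rg.kd, hcb]
        · simp [hs1, ovr_saved, Rg.kd, hS']
        · rw [hs1]
          funext q; cases q <;> simp [ovr_saved, Rg.kd]

end

end Pool.Agent.Lib.MP_9277c3_lc.CM
end
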