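import Pool.Agent.Lib.MP_9277c3_lc.helper78.Defs
import Pool.Agent.Lib.MP_9277c3_lc.helper78.CM.Lang

/-!
# Turing machines and programs with stacks
-/

namespace Pool.Agent.Lib.MP_9277c3_lc

/-- A deterministic Turing machine with a two-way read-only input head and finitely many work tapes.
Each work tape is infinite to the right. In state `q`, when the input head sees `c` and the head of
the work tape `j` sees `r j`, the value `next q c r` is the new state, the move of the input head,
and for each work tape the symbol which is written and the move of the head; if it is `none`, then
the machine halts, and it accepts iff `accept q r` holds. -/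
structure TM (α : Type) where
  State : Type
  Tape : Type
  Sym : Type
  finite_state : Finite State
  finite_tape : Finite Tape
  finite_sym : Finite Sym
  blank : Sym
  start : State
  accept : State → (Tape → Sym) → Prop
  next : State → Cell α → (Tape → Sym) → Option (State × Move × (Tape → Sym × Move))

namespace TM

variable {α : Type} (A : TM α)

/-- Configurations: the state, the position of the input head, and for each work tape the position
of its head and its contents. -/
structure Cfg where
  state : A.State
  pos : ℕ
  head : A.Tape → ℕ
  tape : A.Tape → ℕ → A.Sym

variable {A} in
/-- The symbols under the heads of the work tapes. -/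
def Cfg.read (c : A.Cfg) : A.Tape → A.Sym := fun j => c.tape j (c.head j)

/-- The new position of a head on a work tape. -/
def wmove : Move → ℕ → ℕ
  | Move.left, i => i - 1
  | Move.stay, i => i
  | Move.right, i => i + 1

/-- One step of the machine on the input `x`. -/
def step (x : List α) (c : A.Cfg) : Option A.Cfg :=
  (A.next c.state (cell x c.pos) c.read).map fun r =>
    { state := r.1
      pos := r.2.1.apply x.length c.pos
      head := fun j => wmove (r.2.2 j).2 (c.head j)
      tape := fun j => Function.update (c.tape j) (c.head j) (r.2.2 j).1 }

/-- The initial configuration: all heads are at position `0`, the work tapes are blank. -/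
def init : A.Cfg where
  state := A.start
  pos := 0
  head := fun _ => 0
  tape := fun _ _ => A.blank

/-- The configurations which are reached on the input `x`. -/
inductive Reach (x : List α) : A.Cfg → Prop
  | start : Reach x A.init
  | step (c c' : A.Cfg) (h : Reach x c) (h' : A.step x c = some c') : Reach x c'

/-- The machine decides the language `L` in space `s`: on each input `x` of length `n` it halts, it
accepts iff `L x` holds, and the heads of the work tapes stay on the cells `0, ..., s n - 1`. -/
def DecidesIn (L : List α → Prop) (s : ℕ → ℕ) : Prop :=
  ∀ x : List α, (∃ c, A.Reach x c ∧ A.step x c = none ∧ (A.accept c.state c.read ↔ L x)) ∧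
    ∀ c, A.Reach x c → ∀ j, c.head j < s x.length

end TM

namespace CM

/-! ### Tapes which store a stack -/

/-- The contents of a tape which stores a stack; the top of the stack is the last cell used. -/
def tapeOf {S : Type} (b : S) : List S → ℕ → S
  | [] => fun _ => b
  | a :: l => Function.update (tapeOf b l) (l.length + 1) a

theorem tapeOf_of_lt {S : Type} (b : S) (l : List S) {k : ℕ} (h : l.length < k) :
    tapeOf b l k = b := by
  induction l with
  | nil => rfl
  | cons a l ih =>
    rw [List.length_cons] at h
    rw [tapeOf, Function.update_of_ne (by omega), ih (by omega)]

theorem tapeOf_zero {S : Type} (b : S) (l : List S) : tapeOf b l 0 = b := by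
  induction l with
  | nil => rfl
  | cons a l ih => rw [tapeOf, Function.update_of_ne (by omega), ih]

/-- Operations on a stack. -/
inductive Op (S : Type) : Type
  | keep : Op S
  | pop : Op S
  | push (a : S) : Op S
  | repl (a : S) : Op S
  | repl2 (a b : S) : Op S

namespace Op

variable {S : Type}

/-- The effect of an operation. -/
def eff : Op S → List S → List S
  | keep, l => l
  | pop, l => l.tail
  | push a, l => a :: l
  | repl a, l => a :: l.tail
  | repl2 a b, l => b :: a :: l.tail

/-- The operations which need a nonempty stack. -/
def needs : Op S → Prop
  | repl _ => True
  | repl2 _ _ => True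
  | _ => False

variable (b : S)

/-- The symbol written in the first step. -/
def wr (cur : S) : Op S → S
  | keep => cur
  | pop => b
  | push _ => cur
  | repl a => a
  | repl2 a _ => a

open Classical in
/-- The move in the first step. -/
noncomputable def mv (cur : S) : Op S → Move
  | keep => Move.stay
  | pop => if cur = b then Move.stay else Move.left
  | push _ => Move.right
  | repl _ => Move.stay
  | repl2 _ _ => Move.right

/-- The symbol written in the second step. -/
def pend : Op S → Option S
  | push a => some a
  | repl2 _ a => some a
  | _ => none

/-- The two steps execute the operation. -/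
theorem correct (o : Op S) (l : List S) (hl : ∀ a ∈ l, a ≠ b) (ho : o.needs → l ≠ []) :
    TM.wmove (o.mv b (tapeOf b l l.length)) l.length = (o.eff l).length ∧
    (match o.pend with
      | none => Function.update (tapeOf b l) l.length (o.wr b (tapeOf b l l.length))
      | some a => Function.update (Function.update (tapeOf b l) l.length
          (o.wr b (tapeOf b l l.length))) (TM.wmove (o.mv b (tapeOf b l l.length)) l.length) a) =
      tapeOf b (o.eff l) := by
  cases o with
  | keep => exact ⟨rfl, Function.update_eq_self _ _⟩
  | pop =>
    cases l with
    | nil =>
      refine ⟨?_, ?_⟩
      · simp [mv, tapeOf, TM.wmove, eff]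
      · simp [pend, wr, eff, tapeOf]
    | cons a l =>
      have ha : a ≠ b := hl a (by simp)
      have e : tapeOf b (a :: l) (a :: l).length = a := by
        rw [tapeOf, List.length_cons, Function.update_self]
      refine ⟨?_, ?_⟩
      · rw [e]
        simp [mv, ha, TM.wmove, eff]
      · rw [e]
        simp only [pend, wr, eff, List.tail_cons, List.length_cons, tapeOf, Function.update_idem]
        have h := Function.update_eq_self (l.length + 1) (tapeOf b l)
        rw [tapeOf_of_lt b l (Nat.lt_succ_self l.length)] at h
        exact h
  | push a =>
    refine ⟨rfl, ?_⟩
    simp only [pend, wr, eff, mv, TM.wmove, Function.update_eq_self, tapeOf]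
  | repl a =>
    cases l with
    | nil => exact absurd rfl (ho trivial)
    | cons c l =>
      refine ⟨rfl, ?_⟩
      simp only [pend, wr, eff, List.tail_cons, List.length_cons, tapeOf, Function.update_idem]
  | repl2 a d =>
    cases l with
    | nil => exact absurd rfl (ho trivial)
    | cons c l =>
      refine ⟨rfl, ?_⟩
      simp only [pend, wr, eff, List.tail_cons, List.length_cons, tapeOf, Function.update_idem, mv,
        TM.wmove]

end Op

/-! ### Programs with stacks -/

/-- Instructions for stacks. -/
inductive SPrim (ι Γ : Type) : Type
  | push (i : ι) (a : Γ) : SPrim ι Γ
  | pop (i : ι) : SPrim ι Γ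
  | go (m : Move) : SPrim ι Γ

/-- Tests on stacks and on the input. -/
inductive STest (α ι Γ : Type) : Type
  | top (i : ι) (a : Γ) : STest α ι Γ
  | ne (i : ι) : STest α ι Γ
  | cell (p : Cell α → Prop) : STest α ι Γ

/-- The semantics of programs with stacks of height at most `m`. -/
noncomputable def ssem {α ι Γ : Type} (x : List α) (m : ℕ) :
    Sem (SPrim ι Γ) (STest α ι Γ) ((ι → List Γ) × ℕ) where
  act p s := match p with
    | SPrim.push i a => (upd s.1 i (a :: s.1 i), s.2)
    | SPrim.pop i => (upd s.1 i (s.1 i).tail, s.2)
    | SPrim.go mv => (s.1, mv.apply x.length s.2)
  pre p s := match p with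
    | SPrim.push i _ => (s.1 i).length < m
    | _ => True
  test t s := match t with
    | STest.top i a => (s.1 i).head? = some a
    | STest.ne i => s.1 i ≠ []
    | STest.cell p => p (cell x s.2)

end CM

end Pool.Agent.Lib.MP_9277c3_lc
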